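import Mathlib

set_option autoImplicit false

/-! Partial summation and sums of periodic functions. -/

namespace Pool.Agent.K7.H51.PS

open Finset

/-- partial summation on an interval -/
lemma abelI (w : ℕ → ℝ) (g : ℕ → ℂ) (A : ℕ) (C : ℝ) (hC : ∀ n, ‖∑ m ∈ Ico A (A + n), g m‖ ≤ C) (n : ℕ) :
    ‖∑ m ∈ Ico A (A + n + 1), (w m : ℂ) * g m‖ ≤
      C * (|w (A + n)| + ∑ m ∈ Ico A (A + n), |w (m + 1) - w m|) := by
  have key : ∑ m ∈ Ico A (A + n + 1), (w m : ℂ) * g m =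
      (w (A + n) : ℂ) * ∑ m ∈ Ico A (A + n + 1), g m -
        ∑ m ∈ Ico A (A + n), ((w (m + 1) : ℂ) - w m) * ∑ j ∈ Ico A (m + 1), g j := by
    induction n with
    | zero => simp
    | succ n ih =>
      rw [show A + (n + 1) = A + n + 1 by ring]
      rw [sum_Ico_succ_top (by omega : A ≤ A + n + 1) (fun m => (w m : ℂ) * g m), ih,
        sum_Ico_succ_top (by omega : A ≤ A + n) (fun m => ((w (m + 1) : ℂ) - w m) * ∑ j ∈ Ico A (m + 1), g j),
        sum_Ico_succ_top (by omega : A ≤ A + n + 1) (fun m => g m)]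
      ring
  rw [key]
  have h1 : ∀ m, A ≤ m → ‖∑ j ∈ Ico A (m + 1), g j‖ ≤ C := by
    intro m hm
    have := hC (m + 1 - A)
    rwa [show A + (m + 1 - A) = m + 1 by omega] at this
  refine (norm_sub_le _ _).trans ?_
  rw [mul_add, norm_mul, Complex.norm_real, Real.norm_eq_abs, mul_comm C]
  refine add_le_add (mul_le_mul_of_nonneg_left (h1 _ (by omega)) (abs_nonneg _)) ?_
  rw [mul_sum]
  refine (norm_sum_le _ _).trans (sum_le_sum fun m hm => ?_)
  rw [mem_Ico] at hm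
  rw [norm_mul, ← Complex.ofReal_sub, Complex.norm_real, Real.norm_eq_abs, mul_comm C]
  exact mul_le_mul_of_nonneg_left (h1 _ hm.1) (abs_nonneg _)

lemma per_block {M : Type*} [AddCommMonoid M] [IsCancelAdd M] (k : ℕ) (f : ℕ → M) (hf : ∀ m, f (m + k) = f m) (A : ℕ) :
    ∑ m ∈ Ico A (A + k), f m = ∑ m ∈ range k, f m := by
  induction A with
  | zero => simp [Nat.Ico_zero_eq_range]
  | succ A ih =>
    rw [← ih]
    rcases Nat.eq_zero_or_pos k with hk | hk
    · subst hk; simp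
    have e1 : ∑ m ∈ Ico A (A + 1 + k), f m = f A + ∑ m ∈ Ico (A + 1) (A + 1 + k), f m :=
      sum_eq_sum_Ico_succ_bot (by omega) _
    have e2 : ∑ m ∈ Ico A (A + 1 + k), f m = ∑ m ∈ Ico A (A + k), f m + f (A + k) := by
      rw [show A + 1 + k = A + k + 1 by ring]
      exact sum_Ico_succ_top (by omega) _
    rw [hf] at e2
    rw [e1, add_comm] at e2
    exact add_right_cancel e2

/-- sums of periodic functions -/
lemma per_sum (k : ℕ) (hk : 0 < k) (f : ℕ → ℂ) (hf : ∀ m, f (m + k) = f m) (B : ℝ) (hB : ∀ m, ‖f m‖ ≤ B) (A n : ℕ) :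
    ‖∑ m ∈ Ico A (A + n), (f m - (k : ℂ)⁻¹ * ∑ j ∈ range k, f j)‖ ≤ 2 * k * B := by
  have hB0 : 0 ≤ B := (norm_nonneg _).trans (hB 0)
  have hk0 : (k : ℂ) ≠ 0 := by exact_mod_cast hk.ne'
  have hkr : (0 : ℝ) < k := by exact_mod_cast hk
  obtain ⟨μ, hμ⟩ : ∃ μ, μ = (k : ℂ)⁻¹ * ∑ j ∈ range k, f j := ⟨_, rfl⟩
  rw [← hμ]
  have hμB : ‖μ‖ ≤ B := by
    rw [hμ, norm_mul, norm_inv, Complex.norm_natCast]
    have h1 : ‖∑ j ∈ range k, f j‖ ≤ k * B := by
      refine (norm_sum_le _ _).trans ((sum_le_sum fun j _ => hB j).trans ?_)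
      rw [sum_const, card_range, nsmul_eq_mul]
    calc (k : ℝ)⁻¹ * ‖∑ j ∈ range k, f j‖ ≤ (k : ℝ)⁻¹ * (k * B) := by gcongr
      _ = B := by field_simp
  have hstep : ∀ A' : ℕ, ∑ m ∈ Ico A' (A' + k), (f m - μ) = 0 := by
    intro A'
    rw [per_block k (fun m => f m - μ) (fun m => by simp only [hf]) A', sum_sub_distrib, sum_const, card_range,
      nsmul_eq_mul, hμ]
    field_simp
    ring
  have hu : ∀ u r : ℕ, ∑ m ∈ Ico A (A + (k * u + r)), (f m - μ) = ∑ m ∈ Ico (A + k * u) (A + k * u + r), (f m - μ) := by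
    intro u
    induction u with
    | zero => intro r; simp
    | succ u ih =>
      intro r
      rw [show k * (u + 1) + r = k * u + (k + r) by ring, ih (k + r),
        show A + k * u + (k + r) = A + k * u + k + r by ring,
        ← sum_Ico_consecutive _ (by omega : A + k * u ≤ A + k * u + k) (by omega : A + k * u + k ≤ A + k * u + k + r),
        hstep, zero_add, show A + k * (u + 1) = A + k * u + k by ring]
  have h3 := hu (n / k) (n % k)
  rw [Nat.div_add_mod] at h3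
  rw [h3]
  have hr : n % k < k := Nat.mod_lt _ hk
  calc ‖∑ m ∈ Ico (A + k * (n / k)) (A + k * (n / k) + n % k), (f m - μ)‖
      ≤ ∑ m ∈ Ico (A + k * (n / k)) (A + k * (n / k) + n % k), (B + B) :=
        (norm_sum_le _ _).trans (sum_le_sum fun m _ => (norm_sub_le _ _).trans (add_le_add (hB m) hμB))
    _ = (n % k : ℕ) * (B + B) := by
        rw [sum_const, Nat.card_Ico, nsmul_eq_mul]
        congr 2
        omega
    _ ≤ k * (B + B) := by
        apply mul_le_mul_of_nonneg_right _ (by linarith)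
        exact_mod_cast hr.le
    _ = 2 * k * B := by ring

/-- weighted sums of periodic functions -/
lemma per_wt (k : ℕ) (hk : 0 < k) (f : ℕ → ℂ) (hf : ∀ m, f (m + k) = f m) (B : ℝ) (hB : ∀ m, ‖f m‖ ≤ B)
    (w : ℕ → ℝ) (V : ℝ) (A n : ℕ) (hV : |w (A + n)| + ∑ m ∈ Ico A (A + n), |w (m + 1) - w m| ≤ V) :
    ‖∑ m ∈ Ico A (A + n + 1), (w m : ℂ) * f m -
      ((k : ℂ)⁻¹ * ∑ j ∈ range k, f j) * ∑ m ∈ Ico A (A + n + 1), (w m : ℂ)‖ ≤ 2 * k * B * V := by
  have hB0 : 0 ≤ B := (norm_nonneg _).trans (hB 0)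
  have h1 := abelI w (fun m => f m - (k : ℂ)⁻¹ * ∑ j ∈ range k, f j) A (2 * k * B)
    (fun n => per_sum k hk f hf B hB A n) n
  have h2 : ∑ m ∈ Ico A (A + n + 1), (w m : ℂ) * f m -
      ((k : ℂ)⁻¹ * ∑ j ∈ range k, f j) * ∑ m ∈ Ico A (A + n + 1), (w m : ℂ) =
      ∑ m ∈ Ico A (A + n + 1), (w m : ℂ) * (f m - (k : ℂ)⁻¹ * ∑ j ∈ range k, f j) := by
    rw [mul_sum, ← sum_sub_distrib]
    refine sum_congr rfl fun m _ => ?_
    ring
  rw [h2]
  refine h1.trans ?_
  apply mul_le_mul_of_nonneg_left hV (by positivity)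

end Pool.Agent.K7.H51.PS
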