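import Mathlib
import Pool.Agent.K7.H51.PS.Abl

set_option autoImplicit false

/-! Sums of periodic functions: products of coprime moduli. Möbius inversion. -/

namespace Pool.Agent.K7.H51.PS

open Finset

lemma mod_of_period {M : Type*} (D : ℕ) (F : ℕ → M) (hF : ∀ m, F (m + D) = F m) (m : ℕ) : F m = F (m % D) := by
  have h : ∀ u r : ℕ, F (r + D * u) = F r := by
    intro u
    induction u with
    | zero => intro r; simp
    | succ u ih =>
      intro r
      rw [show r + D * (u + 1) = (r + D * u) + D by ring, hF, ih]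
  conv_lhs => rw [← Nat.mod_add_div m D]
  exact h _ _

lemma crt_sum (D p : ℕ) (hD : 0 < D) (hp : 0 < p) (hco : D.Coprime p) (F G : ℕ → ℂ) (hF : ∀ m, F (m + D) = F m)
    (hG : ∀ m, G (m + p) = G m) :
    ∑ j ∈ range (D * p), F j * G j = (∑ j ∈ range D, F j) * ∑ i ∈ range p, G i := by
  rw [sum_mul_sum, ← sum_product']
  refine sum_nbij' (fun j => (j % D, j % p)) (fun x => (Nat.chineseRemainder hco x.1 x.2 : ℕ)) ?_ ?_ ?_ ?_ ?_
  · intro j _
    rw [mem_product, mem_range, mem_range]
    exact ⟨Nat.mod_lt _ hD, Nat.mod_lt _ hp⟩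
  · intro x _
    rw [mem_range]
    exact Nat.chineseRemainder_lt_mul hco _ _ hD.ne' hp.ne'
  · intro j hj
    rw [mem_range] at hj
    have h1 := (Nat.chineseRemainder hco (j % D) (j % p)).2
    have h2 : (Nat.chineseRemainder hco (j % D) (j % p) : ℕ) ≡ j [MOD D * p] := by
      rw [← Nat.modEq_and_modEq_iff_modEq_mul hco]
      exact ⟨h1.1.trans (Nat.mod_modEq _ _), h1.2.trans (Nat.mod_modEq _ _)⟩
    exact h2.eq_of_lt_of_lt (Nat.chineseRemainder_lt_mul hco _ _ hD.ne' hp.ne') hj
  · intro x hx
    rw [mem_product, mem_range, mem_range] at hx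
    have h1 := (Nat.chineseRemainder hco x.1 x.2).2
    ext
    · simp only
      have := h1.1
      unfold Nat.ModEq at this
      rw [this, Nat.mod_eq_of_lt hx.1]
    · simp only
      have := h1.2
      unfold Nat.ModEq at this
      rw [this, Nat.mod_eq_of_lt hx.2]
  · intro j _
    simp only
    rw [← mod_of_period D F hF j, ← mod_of_period p G hG j]

lemma per_mul (D p : ℕ) (F : ℕ → ℂ) (hF : ∀ m, F (m + D) = F m) :
    ∑ j ∈ range (D * p), F j = p * ∑ j ∈ range D, F j := by
  induction p with
  | zero => simp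
  | succ p ih =>
    have h1 := sum_Ico_consecutive F (Nat.zero_le (D * p)) (by nlinarith : D * p ≤ D * p + D)
    rw [Nat.Ico_zero_eq_range, Nat.Ico_zero_eq_range] at h1
    rw [show D * (p + 1) = D * p + D by ring, ← h1, ih, per_block D F hF]
    push_cast
    ring

/-- squarefree divisors -/
lemma sum_sqf (n : ℕ) (hn : 0 < n) (S : Finset ℕ) (hS : S ⊆ n.primeFactors) (g : ℕ → ℝ) :
    ∑ s ∈ n.divisors, (if Squarefree s ∧ s.primeFactors ⊆ S then ∏ p ∈ s.primeFactors, g p else 0) =
      ∏ p ∈ S, (1 + g p) := by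
  rw [prod_one_add, ← sum_filter]
  refine sum_nbij' (fun s => s.primeFactors) (fun T => ∏ p ∈ T, p) ?_ ?_ ?_ ?_ ?_
  · intro s hs
    rw [mem_filter] at hs
    rw [mem_powerset]
    exact hs.2.2
  · intro T hT
    rw [mem_powerset] at hT
    have hTp : ∀ p ∈ T, p.Prime := fun p hp => Nat.prime_of_mem_primeFactors (hS (hT hp))
    have hpf : (∏ p ∈ T, p).primeFactors = T := Nat.primeFactors_prod hTp
    rw [mem_filter, Nat.mem_divisors]
    refine ⟨⟨?_, hn.ne'⟩, ?_, ?_⟩
    · refine (prod_dvd_prod_of_subset T n.primeFactors (fun p => p) (hT.trans hS)).trans ?_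
      exact Nat.prod_primeFactors_dvd n
    · have h : ∀ (T : Finset ℕ), (∀ p ∈ T, p.Prime) → Squarefree (∏ p ∈ T, p) := by
        intro T
        induction T using Finset.induction_on with
        | empty => intro _; simp
        | insert q T hq ih =>
          intro hT
          rw [prod_insert hq]
          have hqp := hT q (mem_insert_self q T)
          rw [Nat.squarefree_mul_iff]
          refine ⟨?_, hqp.squarefree, ih fun p hp => hT p (mem_insert_of_mem hp)⟩
          rw [Nat.Prime.coprime_iff_not_dvd hqp]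
          intro hd
          obtain ⟨p, hp, hqd⟩ := (Prime.dvd_finset_prod_iff hqp.prime _).1 hd
          have := (Nat.prime_dvd_prime_iff_eq hqp (hT p (mem_insert_of_mem hp))).1 hqd
          exact hq (this ▸ hp)
      exact h T hTp
    · rw [hpf]
      exact hT
  · intro s hs
    rw [mem_filter] at hs
    exact Nat.prod_primeFactors_of_squarefree hs.2.1
  · intro T hT
    rw [mem_powerset] at hT
    exact Nat.primeFactors_prod fun p hp => Nat.prime_of_mem_primeFactors (hS (hT hp))
  · intro s _
    rfl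

/-- the multiplicative function `∏ (1 + g p)` over the primes dividing `d` and not `f` -/
noncomputable def hh (g : ℕ → ℝ) (f d : ℕ) : ℝ := ∏ p ∈ d.primeFactors \ f.primeFactors, (1 + g p)

/-- its Möbius transform -/
noncomputable def GG (g : ℕ → ℝ) (f n : ℕ) : ℝ :=
  if Squarefree n ∧ Disjoint n.primeFactors f.primeFactors then ∏ p ∈ n.primeFactors, g p else 0

lemma hh_moebius (g : ℕ → ℝ) (f n : ℕ) (hn : 0 < n) :
    ∑ x ∈ n.divisorsAntidiagonal, (ArithmeticFunction.moebius x.1 : ℝ) * hh g f x.2 = GG g f n := by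
  have h := (ArithmeticFunction.sum_eq_iff_sum_mul_moebius_eq (R := ℝ) (f := fun d => GG g f d)
    (g := fun d => hh g f d)).1 (by
      intro n hn
      have h1 := sum_sqf n hn (n.primeFactors \ f.primeFactors) sdiff_subset g
      unfold hh
      rw [← h1]
      refine sum_congr rfl fun s hs => ?_
      rw [Nat.mem_divisors] at hs
      have h2 : s.primeFactors ⊆ n.primeFactors := Nat.primeFactors_mono hs.1 hs.2
      unfold GG
      congr 1
      apply propext
      constructor
      · rintro ⟨h3, h4⟩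
        refine ⟨h3, fun p hp => ?_⟩
        rw [mem_sdiff]
        exact ⟨h2 hp, Finset.disjoint_left.1 h4 hp⟩
      · rintro ⟨h3, h4⟩
        refine ⟨h3, ?_⟩
        rw [Finset.disjoint_left]
        intro p hp
        exact (mem_sdiff.1 (h4 hp)).2) n hn
  exact h

lemma hh_one (g : ℕ → ℝ) (f : ℕ) : hh g f 1 = 1 := by
  unfold hh
  simp

lemma hh_mul_prime (g : ℕ → ℝ) (f d p : ℕ) (hf : 0 < f) (hd : 0 < d) (hp : p.Prime) :
    hh g f (p * d) = hh g f d * (if p ∣ f * d then 1 else 1 + g p) := by
  unfold hh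
  rw [Nat.primeFactors_mul hp.ne_zero hd.ne', hp.primeFactors]
  split_ifs with h
  · rw [mul_one]
    congr 1
    ext x
    simp only [mem_sdiff, mem_union, mem_singleton]
    constructor
    · rintro ⟨h1 | h1, h2⟩
      · subst h1
        refine ⟨?_, h2⟩
        rcases hp.dvd_mul.1 h with h3 | h3
        · exfalso
          apply h2
          rw [Nat.mem_primeFactors]
          exact ⟨hp, h3, hf.ne'⟩
        · exact Nat.mem_primeFactors.2 ⟨hp, h3, hd.ne'⟩
      · exact ⟨h1, h2⟩
    · rintro ⟨h1, h2⟩
      exact ⟨Or.inr h1, h2⟩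
  · have hpf : p ∉ f.primeFactors := fun h1 => h (dvd_mul_of_dvd_left (Nat.dvd_of_mem_primeFactors h1) _)
    have hpd : p ∉ d.primeFactors := fun h1 => h (dvd_mul_of_dvd_right (Nat.dvd_of_mem_primeFactors h1) _)
    have e : ({p} ∪ d.primeFactors) \ f.primeFactors = insert p (d.primeFactors \ f.primeFactors) := by
      ext x
      simp only [mem_sdiff, mem_union, mem_singleton, mem_insert]
      constructor
      · rintro ⟨h1 | h1, h2⟩
        · exact Or.inl h1
        · exact Or.inr ⟨h1, h2⟩
      · rintro (h1 | ⟨h1, h2⟩)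
        · subst h1
          exact ⟨Or.inl rfl, hpf⟩
        · exact ⟨Or.inr h1, h2⟩
    rw [e, prod_insert (by rw [mem_sdiff]; exact fun h1 => hpd h1.1)]
    ring

end Pool.Agent.K7.H51.PS
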