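import Mathlib
import Pool.Agent.H807R2.Dav1

set_option autoImplicit false

/-! Ramanujan sums. -/

namespace Pool.Agent.K7.H51.PS

open Finset
open Pool.Agent.H807R2.Dav

/-- the Ramanujan sum -/
noncomputable def cR (k : ℕ) (t : ℤ) : ℂ :=
  ∑ j ∈ (range k).filter (fun j => j.Coprime k), ee ((t : ℝ) * ((j : ℝ) / k))

/-- the sum over all fractions with denominator `k`, according to the reduced denominators -/
lemma sum_frac {M : Type*} [AddCommMonoid M] (k : ℕ) (hk : 0 < k) (f : ℝ → M) :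
    ∑ j ∈ range k, f ((j : ℝ) / k) =
      ∑ d ∈ k.divisors, ∑ i ∈ (range d).filter (fun i => i.Coprime d), f ((i : ℝ) / d) := by
  rw [Finset.sum_sigma']
  refine sum_nbij' (fun j => ⟨k / Nat.gcd j k, j / Nat.gcd j k⟩) (fun s => s.2 * (k / s.1)) ?_ ?_ ?_ ?_ ?_
  · intro j hj
    rw [mem_range] at hj
    have hg : 0 < Nat.gcd j k := Nat.gcd_pos_of_pos_right _ hk
    rw [mem_sigma, Nat.mem_divisors, mem_filter, mem_range]
    refine ⟨⟨Nat.div_dvd_of_dvd (Nat.gcd_dvd_right _ _), hk.ne'⟩, ?_, ?_⟩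
    · exact Nat.div_lt_div_of_lt_of_dvd (Nat.gcd_dvd_right _ _) hj
    · exact Nat.coprime_div_gcd_div_gcd hg
  · intro s hs
    rw [mem_sigma, Nat.mem_divisors, mem_filter, mem_range] at hs
    obtain ⟨⟨h1, -⟩, h2, h3⟩ := hs
    rw [mem_range]
    have h4 : s.1 * (k / s.1) = k := Nat.mul_div_cancel' h1
    have h5 : 0 < k / s.1 := Nat.div_pos (Nat.le_of_dvd hk h1) (Nat.pos_of_dvd_of_pos h1 hk)
    calc s.2 * (k / s.1) < s.1 * (k / s.1) := Nat.mul_lt_mul_of_pos_right h2 h5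
      _ = k := h4
  · intro j hj
    simp only
    have hg : 0 < Nat.gcd j k := Nat.gcd_pos_of_pos_right _ hk
    rw [Nat.div_div_self (Nat.gcd_dvd_right _ _) hk.ne']
    exact Nat.div_mul_cancel (Nat.gcd_dvd_left _ _)
  · intro s hs
    rw [mem_sigma, Nat.mem_divisors, mem_filter, mem_range] at hs
    obtain ⟨⟨h1, -⟩, h2, h3⟩ := hs
    have h4 : s.1 * (k / s.1) = k := Nat.mul_div_cancel' h1
    have h5 : 0 < k / s.1 := Nat.div_pos (Nat.le_of_dvd hk h1) (Nat.pos_of_dvd_of_pos h1 hk)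
    have h6 : Nat.gcd (s.2 * (k / s.1)) k = k / s.1 := by
      have h8 : Nat.gcd (s.2 * (k / s.1)) (s.1 * (k / s.1)) = k / s.1 := by
        rw [Nat.gcd_mul_right, h3.gcd_eq_one, one_mul]
      rwa [h4] at h8
    have h7 : k / (k / s.1) = s.1 := Nat.div_div_self h1 hk.ne'
    ext
    · simp only [h6, h7]
    · simp only [h6]
      rw [heq_iff_eq]
      exact Nat.mul_div_cancel _ h5
  · intro j hj
    simp only
    congr 1
    have hg : 0 < Nat.gcd j k := Nat.gcd_pos_of_pos_right _ hk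
    rw [Nat.cast_div (Nat.gcd_dvd_left _ _) (by exact_mod_cast hg.ne'),
      Nat.cast_div (Nat.gcd_dvd_right _ _) (by exact_mod_cast hg.ne')]
    have : ((Nat.gcd j k : ℕ) : ℝ) ≠ 0 := by exact_mod_cast hg.ne'
    have hk0 : (k : ℝ) ≠ 0 := by exact_mod_cast hk.ne'
    field_simp

lemma sum_all (k : ℕ) (hk : 0 < k) (t : ℤ) :
    ∑ j ∈ range k, ee ((t : ℝ) * ((j : ℝ) / k)) = if (k : ℤ) ∣ t then (k : ℂ) else 0 := by
  have hk0 : (k : ℝ) ≠ 0 := by exact_mod_cast hk.ne'
  have h1 : ∀ j ∈ range k, ee ((t : ℝ) * ((j : ℝ) / k)) = ee ((t : ℝ) / k) ^ j := by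
    intro j _
    rw [← ee_pow]
    congr 1
    ring
  rw [sum_congr rfl h1]
  split_ifs with hd
  · obtain ⟨u, hu⟩ := hd
    have h2 : ee ((t : ℝ) / k) = 1 := by
      have : (t : ℝ) / k = ((u : ℤ) : ℝ) := by
        rw [hu]
        push_cast
        field_simp
      rw [this, ee_int]
    rw [h2]
    simp
  · have h2 : ee ((t : ℝ) / k) ≠ 1 := by
      intro h
      apply hd
      unfold ee at h
      rw [Complex.exp_eq_one_iff] at h
      obtain ⟨n, hn⟩ := h
      have hpi : (2 * (Real.pi : ℂ) * Complex.I) ≠ 0 := Complex.two_pi_I_ne_zero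
      have h3 : (((t : ℝ) / k : ℝ) : ℂ) = (n : ℂ) := by
        have : 2 * (Real.pi : ℂ) * Complex.I * (((t : ℝ) / k : ℝ) : ℂ) = 2 * (Real.pi : ℂ) * Complex.I * (n : ℂ) := by
          rw [hn]
          ring
        exact mul_left_cancel₀ hpi this
      have h4 : (t : ℝ) / k = (n : ℝ) := by exact_mod_cast h3
      rw [div_eq_iff hk0] at h4
      refine ⟨n, ?_⟩
      have h5 : (t : ℝ) = ((k * n : ℤ) : ℝ) := by
        rw [h4]
        push_cast
        ring
      exact_mod_cast h5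
    rw [geom_sum_eq h2]
    have h3 : ee ((t : ℝ) / k) ^ k = 1 := by
      rw [← ee_pow]
      have : (k : ℝ) * ((t : ℝ) / k) = ((t : ℤ) : ℝ) := by field_simp
      rw [this, ee_int]
    rw [h3]
    simp

/-- the Ramanujan sum in terms of the Möbius function -/
lemma cR_eq (k : ℕ) (hk : 0 < k) (t : ℤ) :
    cR k t = ∑ x ∈ k.divisorsAntidiagonal, (ArithmeticFunction.moebius x.1 : ℂ) *
      (if (x.2 : ℤ) ∣ t then (x.2 : ℂ) else 0) := by
  have h := (ArithmeticFunction.sum_eq_iff_sum_mul_moebius_eq (R := ℂ)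
    (f := fun d => cR d t) (g := fun d => if (d : ℤ) ∣ t then (d : ℂ) else 0)).1 (by
      intro n hn
      rw [← sum_all n hn t, sum_frac n hn (fun x => ee ((t : ℝ) * x))]
      rfl) k hk
  rw [← h]

lemma cR_norm_le (k : ℕ) (t : ℤ) : ‖cR k t‖ ≤ k := by
  unfold cR
  refine (norm_sum_le _ _).trans ?_
  rw [sum_congr rfl (fun j _ => norm_ee _), sum_const, nsmul_eq_mul, mul_one]
  exact_mod_cast (card_filter_le _ _).trans (le_of_eq (card_range k))

end Pool.Agent.K7.H51.PS
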