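import Mathlib
import Pool.Agent.K7.H51.PS.Ram

set_option autoImplicit false

/-! The kernel of the major arcs. -/

namespace Pool.Agent.K7.H51.PS

open Finset
open Pool.Agent.H807R2.Dav

/-- the mean of an exponential -/
noncomputable def Dk (H : ℕ) (β : ℝ) : ℂ := (H : ℂ)⁻¹ * ∑ t ∈ range H, ee ((t : ℝ) * β)

/-- the sum of the Ramanujan sums -/
noncomputable def CQ (Q : ℕ) (t : ℤ) : ℂ := ∑ k ∈ Icc 1 Q, cR k t

/-- the transform of the kernel -/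
noncomputable def KT (Q H : ℕ) (θ : ℝ) : ℂ :=
  ∑ t ∈ range H, (H : ℂ)⁻¹ * CQ Q t * ee ((t : ℝ) * θ)

/-- the fractions -/
def Fr (Q : ℕ) : Finset (Σ _ : ℕ, ℕ) := (Icc 1 Q).sigma (fun k => (range k).filter (fun j => j.Coprime k))

lemma KT_eq (Q H : ℕ) (θ : ℝ) : KT Q H θ = ∑ p ∈ Fr Q, Dk H ((p.2 : ℝ) / p.1 + θ) := by
  unfold KT Fr
  rw [sum_sigma]
  unfold CQ Dk
  simp only [mul_sum, sum_mul]
  rw [sum_comm]
  refine sum_congr rfl fun k _ => ?_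
  unfold cR
  simp only [mul_sum, sum_mul]
  rw [sum_comm]
  refine sum_congr rfl fun j _ => sum_congr rfl fun t _ => ?_
  rw [mul_assoc, ← ee_add]
  congr 2
  push_cast
  ring

lemma Dk_le_one (H : ℕ) (hH : 1 ≤ H) (β : ℝ) : ‖Dk H β‖ ≤ 1 := by
  unfold Dk
  have hH0 : (0 : ℝ) < H := by exact_mod_cast hH
  rw [norm_mul, norm_inv, Complex.norm_natCast]
  have h1 : ‖∑ t ∈ range H, ee ((t : ℝ) * β)‖ ≤ H := by
    refine (norm_sum_le _ _).trans ?_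
    rw [sum_congr rfl (fun t _ => norm_ee _), sum_const, nsmul_eq_mul, mul_one, card_range]
  calc (H : ℝ)⁻¹ * ‖∑ t ∈ range H, ee ((t : ℝ) * β)‖ ≤ (H : ℝ)⁻¹ * H := by gcongr
    _ = 1 := inv_mul_cancel₀ hH0.ne'

lemma Dk_le (H : ℕ) (hH : 1 ≤ H) (β d : ℝ) (hd : 0 < d) (h : d ≤ dd β) : ‖Dk H β‖ ≤ 3 / (H * d) := by
  unfold Dk
  have hH0 : (0 : ℝ) < H := by exact_mod_cast hH
  rw [norm_mul, norm_inv, Complex.norm_natCast]
  have h1 : ‖∑ t ∈ range H, ee ((t : ℝ) * β)‖ ≤ 3 / d := by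
    have h2 := geo_bound 0 H (Nat.zero_le _) (M := (H : ℝ)) (by simp) β
    rw [Nat.Ico_zero_eq_range] at h2
    exact h2.trans (KK_le' hH0.le hd h)
  calc (H : ℝ)⁻¹ * ‖∑ t ∈ range H, ee ((t : ℝ) * β)‖ ≤ (H : ℝ)⁻¹ * (3 / d) := by gcongr
    _ = 3 / (H * d) := by field_simp

lemma dd_nat_mul (t : ℕ) (β : ℝ) : dd ((t : ℝ) * β) ≤ t * dd β := by
  induction t with
  | zero => simp [dd, ee_zero]
  | succ t ih =>
    unfold dd at ih ⊢
    have e : ((t + 1 : ℕ) : ℝ) * β = t * β + β := by push_cast; ring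
    rw [e, ee_add]
    have h1 : 1 - ee (t * β) * ee β = (1 - ee (t * β)) * ee β + (1 - ee β) := by ring
    rw [h1]
    refine (norm_add_le _ _).trans ?_
    rw [norm_mul, norm_ee, mul_one]
    push_cast
    linarith

lemma Dk_near (H : ℕ) (hH : 1 ≤ H) (β : ℝ) : ‖1 - Dk H β‖ ≤ H * dd β := by
  have hH0 : (0 : ℝ) < H := by exact_mod_cast hH
  have h0 : (H : ℂ) ≠ 0 := by exact_mod_cast (by omega : H ≠ 0)
  have h1 : 1 - Dk H β = (H : ℂ)⁻¹ * ∑ t ∈ range H, (1 - ee ((t : ℝ) * β)) := by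
    unfold Dk
    rw [sum_sub_distrib, mul_sub]
    simp [h0]
  rw [h1, norm_mul, norm_inv, Complex.norm_natCast]
  have h2 : ‖∑ t ∈ range H, (1 - ee ((t : ℝ) * β))‖ ≤ H * (H * dd β) := by
    refine (norm_sum_le _ _).trans ?_
    calc ∑ t ∈ range H, ‖1 - ee ((t : ℝ) * β)‖ ≤ ∑ _t ∈ range H, (H : ℝ) * dd β := by
          refine sum_le_sum fun t ht => ?_
          rw [mem_range] at ht
          have h3 := dd_nat_mul t β
          have h4 : (t : ℝ) * dd β ≤ H * dd β :=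
            mul_le_mul_of_nonneg_right (by exact_mod_cast ht.le) (dd_nonneg _)
          exact h3.trans h4
      _ = H * (H * dd β) := by rw [sum_const, card_range, nsmul_eq_mul]
  calc (H : ℝ)⁻¹ * ‖∑ t ∈ range H, (1 - ee ((t : ℝ) * β))‖ ≤ (H : ℝ)⁻¹ * (H * (H * dd β)) := by gcongr
    _ = H * dd β := by field_simp

lemma dd_sub_le (x y : ℝ) : dd (x - y) ≤ dd x + dd y := by
  unfold dd
  have h1 : 1 - ee (x - y) = (1 - ee x) * ee (-y) + (1 - ee (-y)) := by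
    rw [sub_eq_add_neg x y, ee_add]
    ring
  rw [h1]
  refine (norm_add_le _ _).trans ?_
  rw [norm_mul, norm_ee, mul_one]
  have h2 : ‖1 - ee (-y)‖ = ‖1 - ee y‖ := dd_neg y
  rw [h2]

/-- distinct fractions are far apart -/
lemma Fr_sep (Q : ℕ) (p p' : Σ _ : ℕ, ℕ) (hp : p ∈ Fr Q) (hp' : p' ∈ Fr Q) (hne : p ≠ p') :
    4 / (Q : ℝ) ^ 2 ≤ dd ((p.2 : ℝ) / p.1 - (p'.2 : ℝ) / p'.1) := by
  obtain ⟨k, j⟩ := p
  obtain ⟨k', j'⟩ := p'
  unfold Fr at hp hp'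
  rw [mem_sigma, mem_filter, mem_range, mem_Icc] at hp hp'
  simp only at hp hp' ⊢
  obtain ⟨⟨hk1, hkQ⟩, hj, hc⟩ := hp
  obtain ⟨⟨hk1', hkQ'⟩, hj', hc'⟩ := hp'
  have hk0 : (0 : ℝ) < k := by exact_mod_cast hk1
  have hk0' : (0 : ℝ) < k' := by exact_mod_cast hk1'
  have hQ0 : (0 : ℝ) < Q := by exact_mod_cast (by omega : 0 < Q)
  set n : ℤ := j * k' - j' * k with hn
  have hn0 : n ≠ 0 := by
    intro h0
    apply hne
    have h1 : j * k' = j' * k := by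
      have : (j : ℤ) * k' = j' * k := by linarith
      exact_mod_cast this
    have h2 : k = k' := by
      apply Nat.dvd_antisymm
      · have : k ∣ j * k' := ⟨j', by rw [h1]; ring⟩
        exact hc.symm.dvd_of_dvd_mul_left this
      · have : k' ∣ j' * k := ⟨j, by rw [← h1]; ring⟩
        exact hc'.symm.dvd_of_dvd_mul_left this
    subst h2
    have h3 : j = j' := Nat.eq_of_mul_eq_mul_right hk1 h1
    subst h3
    rfl
  have hx : (j : ℝ) / k - (j' : ℝ) / k' = n / (k * k') := by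
    rw [hn]
    push_cast
    field_simp
  have hkk : (0 : ℝ) < k * k' := by positivity
  have hab : |(j : ℝ) / k - (j' : ℝ) / k'| = (n.natAbs : ℝ) / (k * k') := by
    rw [hx, abs_div, abs_of_pos hkk]
    congr 1
    rw [Nat.cast_natAbs, Int.cast_abs]
  have h1 : 1 ≤ n.natAbs := Int.natAbs_pos.2 hn0
  have h2 : n.natAbs + 1 ≤ k * k' := by
    have e1 : n < (k * k' : ℤ) := by
      have e2 : (j : ℤ) * k' < k * k' := by
        have : (j : ℤ) < k := by exact_mod_cast hj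
        have h0 : (0 : ℤ) < k' := by exact_mod_cast hk1'
        exact mul_lt_mul_of_pos_right this h0
      have : (0 : ℤ) ≤ (j' : ℤ) * k := by positivity
      omega
    have e3 : -(k * k' : ℤ) < n := by
      have e2 : (j' : ℤ) * k < k * k' := by
        have : (j' : ℤ) < k' := by exact_mod_cast hj'
        have h0 : (0 : ℤ) < k := by exact_mod_cast hk1
        calc (j' : ℤ) * k < k' * k := mul_lt_mul_of_pos_right this h0
          _ = k * k' := by ring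
      have : (0 : ℤ) ≤ (j : ℤ) * k' := by positivity
      omega
    have e4 : ((k * k' : ℕ) : ℤ) = (k : ℤ) * k' := by push_cast; rfl
    omega
  set t := |(j : ℝ) / k - (j' : ℝ) / k'| with ht
  have ht1 : dd ((j : ℝ) / k - (j' : ℝ) / k') = dd t := by
    rw [ht]
    rcases abs_cases ((j : ℝ) / k - (j' : ℝ) / k') with ⟨h, _⟩ | ⟨h, _⟩
    · rw [h]
    · rw [h, dd_neg]
  have h1r : (1 : ℝ) ≤ n.natAbs := by exact_mod_cast h1
  have h2r : (n.natAbs : ℝ) + 1 ≤ k * k' := by exact_mod_cast h2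
  have hlow : 1 / (k * k' : ℝ) ≤ t := by
    rw [hab]
    gcongr
  have hup : 1 / (k * k' : ℝ) ≤ 1 - t := by
    rw [hab, le_sub_iff_add_le, ← add_div, div_le_one hkk]
    linarith
  have ht0 : 0 ≤ t := abs_nonneg _
  have ht2 : t ≤ 1 := by
    have : 0 < 1 / (k * k' : ℝ) := by positivity
    linarith
  have h3 := dd_ge ht0 ht2
  rw [ht1]
  refine le_trans ?_ h3
  have h4 : 1 / (Q : ℝ) ^ 2 ≤ 1 / (k * k') := by
    apply one_div_le_one_div_of_le hkk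
    rw [sq]
    have a1 : (k : ℝ) ≤ Q := by exact_mod_cast hkQ
    have a2 : (k' : ℝ) ≤ Q := by exact_mod_cast hkQ'
    gcongr
  have h5 : 1 / (Q : ℝ) ^ 2 ≤ min t (1 - t) := le_min (h4.trans hlow) (h4.trans hup)
  calc 4 / (Q : ℝ) ^ 2 = 4 * (1 / (Q : ℝ) ^ 2) := by ring
    _ ≤ 4 * min t (1 - t) := by gcongr

lemma card_Fr (Q : ℕ) : ((Fr Q).card : ℝ) ≤ (Q : ℝ) ^ 2 := by
  unfold Fr
  rw [card_sigma]
  have h1 : ∑ k ∈ Icc 1 Q, ((range k).filter (fun j => j.Coprime k)).card ≤ Q * Q := by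
    calc ∑ k ∈ Icc 1 Q, ((range k).filter (fun j => j.Coprime k)).card ≤ ∑ _k ∈ Icc 1 Q, Q := by
          refine sum_le_sum fun k hk => ?_
          rw [mem_Icc] at hk
          exact ((card_filter_le _ _).trans (le_of_eq (card_range k))).trans hk.2
      _ = Q * Q := by rw [sum_const, Nat.card_Icc, smul_eq_mul, Nat.add_sub_cancel]
  rw [sq]
  exact_mod_cast h1

/-- all but one fraction -/
lemma far_sum (Q H : ℕ) (hQ : 1 ≤ Q) (hH : 1 ≤ H) (θ : ℝ) (S : Finset (Σ _ : ℕ, ℕ)) (hS : S ⊆ Fr Q)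
    (h : ∀ p ∈ S, 2 / (Q : ℝ) ^ 2 ≤ dd ((p.2 : ℝ) / p.1 + θ)) :
    ‖∑ p ∈ S, Dk H ((p.2 : ℝ) / p.1 + θ)‖ ≤ 2 * (Q : ℝ) ^ 4 / H := by
  have hQ0 : (0 : ℝ) < Q := by exact_mod_cast hQ
  have hH0 : (0 : ℝ) < H := by exact_mod_cast hH
  calc ‖∑ p ∈ S, Dk H ((p.2 : ℝ) / p.1 + θ)‖ ≤ ∑ p ∈ S, 3 / (H * (2 / (Q : ℝ) ^ 2)) := by
        refine (norm_sum_le _ _).trans (sum_le_sum fun p hp => ?_)
        exact Dk_le H hH _ _ (by positivity) (h p hp)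
    _ = (S.card : ℝ) * (3 / (H * (2 / (Q : ℝ) ^ 2))) := by rw [sum_const, nsmul_eq_mul]
    _ ≤ (Q : ℝ) ^ 2 * (3 / (H * (2 / (Q : ℝ) ^ 2))) := by
        apply mul_le_mul_of_nonneg_right _ (by positivity)
        refine le_trans ?_ (card_Fr Q)
        exact_mod_cast card_le_card hS
    _ = 3 / 2 * ((Q : ℝ) ^ 4 / H) := by field_simp
    _ ≤ 2 * ((Q : ℝ) ^ 4 / H) := by
        apply mul_le_mul_of_nonneg_right (by norm_num) (by positivity)
    _ = _ := by ring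

/-- near a fraction -/
lemma KT_near (Q H : ℕ) (hH : 1 ≤ H) (θ ε : ℝ) (p : Σ _ : ℕ, ℕ) (hp : p ∈ Fr Q)
    (hε : ε ≤ 2 / (Q : ℝ) ^ 2) (h : dd ((p.2 : ℝ) / p.1 + θ) ≤ ε) :
    ‖1 - KT Q H θ‖ ≤ H * ε + 2 * (Q : ℝ) ^ 4 / H := by
  classical
  have hQ : 1 ≤ Q := by
    unfold Fr at hp
    rw [mem_sigma, mem_Icc] at hp
    exact hp.1.1.trans hp.1.2
  have hH0 : (0 : ℝ) < H := by exact_mod_cast hH
  rw [KT_eq, ← add_sum_erase _ _ hp, ← sub_sub]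
  refine (norm_sub_le _ _).trans (add_le_add ?_ ?_)
  · refine (Dk_near H hH _).trans ?_
    gcongr
  · apply far_sum Q H hQ hH θ _ (erase_subset _ _)
    intro p' hp'
    rw [mem_erase] at hp'
    have h1 := Fr_sep Q p' p hp'.2 hp hp'.1
    have h2 : (p'.2 : ℝ) / p'.1 - (p.2 : ℝ) / p.1 = ((p'.2 : ℝ) / p'.1 + θ) - ((p.2 : ℝ) / p.1 + θ) := by ring
    rw [h2] at h1
    have h3 := h1.trans (dd_sub_le _ _)
    have h4 : 4 / (Q : ℝ) ^ 2 = 2 / (Q : ℝ) ^ 2 + 2 / (Q : ℝ) ^ 2 := by ring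
    linarith

/-- everywhere -/
lemma KT_le (Q H : ℕ) (hQ : 1 ≤ Q) (hH : 1 ≤ H) (θ : ℝ) :
    ‖1 - KT Q H θ‖ ≤ 2 + 2 * (Q : ℝ) ^ 4 / H := by
  classical
  have h0 : ‖KT Q H θ‖ ≤ 1 + 2 * (Q : ℝ) ^ 4 / H := by
    by_cases hex : ∃ p ∈ Fr Q, dd ((p.2 : ℝ) / p.1 + θ) < 2 / (Q : ℝ) ^ 2
    · obtain ⟨p, hp, h⟩ := hex
      rw [KT_eq, ← add_sum_erase _ _ hp]
      refine (norm_add_le _ _).trans (add_le_add (Dk_le_one H hH _) ?_)
      apply far_sum Q H hQ hH θ _ (erase_subset _ _)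
      intro p' hp'
      rw [mem_erase] at hp'
      have h1 := Fr_sep Q p' p hp'.2 hp hp'.1
      have h2 : (p'.2 : ℝ) / p'.1 - (p.2 : ℝ) / p.1 = ((p'.2 : ℝ) / p'.1 + θ) - ((p.2 : ℝ) / p.1 + θ) := by ring
      rw [h2] at h1
      have h3 := h1.trans (dd_sub_le _ _)
      have h4 : 4 / (Q : ℝ) ^ 2 = 2 / (Q : ℝ) ^ 2 + 2 / (Q : ℝ) ^ 2 := by ring
      linarith
    · push Not at hex
      rw [KT_eq]
      have := far_sum Q H hQ hH θ _ (Subset.refl _) hex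
      linarith
  calc ‖1 - KT Q H θ‖ ≤ ‖(1 : ℂ)‖ + ‖KT Q H θ‖ := norm_sub_le _ _
    _ ≤ 1 + (1 + 2 * (Q : ℝ) ^ 4 / H) := by
        rw [norm_one]
        linarith
    _ = _ := by ring

end Pool.Agent.K7.H51.PS
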