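import Mathlib
import Pool.Agent.K7.H51.PS.Ker
import Pool.Agent.Y868.TA.A1

set_option autoImplicit false

/-! Parseval's identity for the difference of the correlation and its approximation. -/

namespace Pool.Agent.K7.H51.PS

open Finset
open Pool.Agent.H807R2.Dav
open Pool.Agent.Y868.TA (conj_ee sum_ee)

theorem parsC {M : ℕ} (hM : 1 ≤ M) (K : Finset ℤ)
    (hK : ∀ k ∈ K, ∀ k' ∈ K, (M : ℤ) ∣ k - k' → k = k') (H : ℤ → ℂ) :
    ∑ t ∈ range M, ‖∑ k ∈ K, H k * ee ((k : ℝ) * ((t : ℝ) / M))‖ ^ 2 =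
      (M : ℝ) * ∑ k ∈ K, ‖H k‖ ^ 2 := by
  have hc : ((∑ t ∈ range M, ‖∑ k ∈ K, H k * ee ((k : ℝ) * ((t : ℝ) / M))‖ ^ 2 : ℝ) : ℂ) =
      (((M : ℝ) * ∑ k ∈ K, ‖H k‖ ^ 2 : ℝ) : ℂ) := by
    push_cast
    have h1 : ∀ t : ℕ, ((‖∑ k ∈ K, H k * ee ((k : ℝ) * ((t : ℝ) / M))‖ : ℝ) : ℂ) ^ 2 =
        ∑ k ∈ K, ∑ k' ∈ K, H k * (starRingEnd ℂ) (H k') *
          ee (((k - k' : ℤ) : ℝ) * ((t : ℝ) / M)) := by
      intro t
      rw [← Complex.ofReal_pow, ← Complex.normSq_eq_norm_sq, ← Complex.mul_conj, map_sum,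
        Finset.sum_mul_sum]
      refine Finset.sum_congr rfl fun k _ => Finset.sum_congr rfl fun k' _ => ?_
      rw [map_mul, conj_ee]
      have : ee (((k - k' : ℤ) : ℝ) * ((t : ℝ) / M)) =
          ee ((k : ℝ) * ((t : ℝ) / M)) * ee (-((k' : ℝ) * ((t : ℝ) / M))) := by
        rw [← ee_add]
        congr 1
        push_cast
        ring
      rw [this]
      ring
    rw [Finset.sum_congr rfl fun t _ => h1 t, Finset.sum_comm, Finset.mul_sum]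
    refine Finset.sum_congr rfl fun k hk => ?_
    rw [Finset.sum_comm]
    have h2 : ∀ k' ∈ K, ∑ t ∈ range M, H k * (starRingEnd ℂ) (H k') *
        ee (((k - k' : ℤ) : ℝ) * ((t : ℝ) / M)) =
        if k = k' then (M : ℂ) * (H k * (starRingEnd ℂ) (H k')) else 0 := by
      intro k' hk'
      rw [← Finset.mul_sum, sum_ee M hM]
      by_cases hkk : k = k'
      · subst hkk
        rw [sub_self, if_pos (dvd_zero _), if_pos rfl]
        ring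
      · rw [if_neg hkk, if_neg fun hd => hkk (hK k hk k' hk' hd), mul_zero]
    rw [Finset.sum_congr rfl h2, Finset.sum_ite_eq K k, if_pos hk, Complex.mul_conj,
      Complex.normSq_eq_norm_sq]
    push_cast
    ring
  exact_mod_cast hc

/-- the kernel minus the identity -/
noncomputable def kp (Q H t : ℕ) : ℂ := (if t = 0 then 1 else 0) - (H : ℂ)⁻¹ * CQ Q t

lemma kp_sum (Q H : ℕ) (hH : 1 ≤ H) (θ : ℝ) :
    ∑ t ∈ range H, kp Q H t * ee ((t : ℝ) * θ) = 1 - KT Q H θ := by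
  unfold kp KT
  simp only [sub_mul, sum_sub_distrib]
  congr 1
  simp only [ite_mul, one_mul, zero_mul]
  rw [sum_ite_eq' (range H) 0, if_pos (by rw [mem_range]; omega)]
  simp [ee_zero]

/-- the difference of the correlation and its approximation -/
noncomputable def TS (w : ℕ → ℝ) (q : ℕ → ℤ) (F : ℕ → ℝ) (Q H M1 N1 : ℕ) (c : ℤ) : ℂ :=
  ∑ m ∈ Icc 1 M1, ∑ v ∈ Icc 1 N1, ∑ t ∈ range H,
    if (v : ℤ) + t - q m = c then (w m : ℂ) * F v * kp Q H t else 0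

lemma TS_trans (w : ℕ → ℝ) (q : ℕ → ℤ) (F : ℕ → ℝ) (Q H M1 N1 R : ℕ) (hH : 1 ≤ H)
    (hR : ∀ m ∈ Icc 1 M1, ∀ v ∈ Icc 1 N1, ∀ t ∈ range H, (v : ℤ) + t - q m ∈ Icc (-(R : ℤ)) R) (β : ℝ) :
    ∑ c ∈ Icc (-(R : ℤ)) R, TS w q F Q H M1 N1 c * ee ((c : ℝ) * β) =
      (∑ m ∈ Icc 1 M1, (w m : ℂ) * ee (-((q m : ℝ) * β))) * (∑ v ∈ Icc 1 N1, (F v : ℂ) * ee ((v : ℝ) * β)) *
        (1 - KT Q H β) := by
  unfold TS
  rw [← kp_sum Q H hH β]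
  have e1 : ∀ c ∈ Icc (-(R : ℤ)) R, (∑ m ∈ Icc 1 M1, ∑ v ∈ Icc 1 N1, ∑ t ∈ range H,
      if (v : ℤ) + t - q m = c then (w m : ℂ) * F v * kp Q H t else 0) * ee ((c : ℝ) * β) =
      ∑ m ∈ Icc 1 M1, ∑ v ∈ Icc 1 N1, ∑ t ∈ range H,
      if (v : ℤ) + t - q m = c then (w m : ℂ) * F v * kp Q H t * ee ((((v : ℤ) + t - q m : ℤ) : ℝ) * β) else 0 := by
    intro c _
    rw [sum_mul]
    refine sum_congr rfl fun m _ => ?_
    rw [sum_mul]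
    refine sum_congr rfl fun v _ => ?_
    rw [sum_mul]
    refine sum_congr rfl fun t _ => ?_
    split_ifs with h
    · rw [h]
    · rw [zero_mul]
  rw [sum_congr rfl e1, sum_comm]
  have e2 : ∀ m ∈ Icc 1 M1, ∑ c ∈ Icc (-(R : ℤ)) R, ∑ v ∈ Icc 1 N1, ∑ t ∈ range H,
      (if (v : ℤ) + t - q m = c then (w m : ℂ) * F v * kp Q H t * ee ((((v : ℤ) + t - q m : ℤ) : ℝ) * β) else 0) =
      ∑ v ∈ Icc 1 N1, ∑ t ∈ range H, (w m : ℂ) * F v * kp Q H t * ee ((((v : ℤ) + t - q m : ℤ) : ℝ) * β) := by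
    intro m hm
    rw [sum_comm]
    refine sum_congr rfl fun v hv => ?_
    rw [sum_comm]
    refine sum_congr rfl fun t ht => ?_
    rw [sum_ite_eq, if_pos (hR m hm v hv t ht)]
  rw [sum_congr rfl e2, sum_mul_sum, sum_mul]
  refine sum_congr rfl fun m _ => ?_
  rw [sum_mul]
  refine sum_congr rfl fun v _ => ?_
  rw [mul_sum]
  refine sum_congr rfl fun t _ => ?_
  have e3 : (((v : ℤ) + t - q m : ℤ) : ℝ) * β = -((q m : ℝ) * β) + (v : ℝ) * β + (t : ℝ) * β := by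
    push_cast
    ring
  rw [e3, ee_add, ee_add]
  ring

/-- the mean square -/
theorem TS_mean (w : ℕ → ℝ) (q : ℕ → ℤ) (F : ℕ → ℝ) (Q H M1 N1 R : ℕ) (hH : 1 ≤ H)
    (hR : ∀ m ∈ Icc 1 M1, ∀ v ∈ Icc 1 N1, ∀ t ∈ range H, (v : ℤ) + t - q m ∈ Icc (-(R : ℤ)) R)
    (hNR : N1 ≤ R) (B : ℝ) (hB : ∀ β : ℝ, ‖∑ m ∈ Icc 1 M1, (w m : ℂ) * ee (-((q m : ℝ) * β))‖ * ‖1 - KT Q H β‖ ≤ B) :
    ∑ c ∈ Icc (-(R : ℤ)) R, ‖TS w q F Q H M1 N1 c‖ ^ 2 ≤ B ^ 2 * ∑ v ∈ Icc 1 N1, F v ^ 2 := by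
  have hB0 : 0 ≤ B := le_trans (by positivity) (hB 0)
  have hsep : ∀ k ∈ Icc (-(R : ℤ)) R, ∀ k' ∈ Icc (-(R : ℤ)) R, ((2 * R + 1 : ℕ) : ℤ) ∣ k - k' → k = k' := by
    intro k hk k' hk' hd
    rw [mem_Icc] at hk hk'
    obtain ⟨c, hc⟩ := hd
    push_cast at hc
    have h3 : c = 0 := by
      by_contra h0
      rcases lt_or_gt_of_ne h0 with h | h
      · nlinarith
      · nlinarith
    rw [h3, mul_zero] at hc
    linarith
  have hM0 : (0 : ℝ) < ((2 * R + 1 : ℕ) : ℝ) := by positivity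
  have h1 := parsC (M := 2 * R + 1) (by omega) (Icc (-(R : ℤ)) R) hsep (TS w q F Q H M1 N1)
  have h2 := parsC (M := 2 * R + 1) (by omega) (Icc (-(R : ℤ)) R) hsep
    (fun x => if 1 ≤ x ∧ x ≤ (N1 : ℤ) then (F x.toNat : ℂ) else 0)
  have e1 : ∀ β : ℝ, ∑ k ∈ Icc (-(R : ℤ)) R, (if 1 ≤ k ∧ k ≤ (N1 : ℤ) then (F k.toNat : ℂ) else 0) * ee ((k : ℝ) * β) =
      ∑ v ∈ Icc 1 N1, (F v : ℂ) * ee ((v : ℝ) * β) := by
    intro β
    simp only [ite_mul, zero_mul]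
    rw [← sum_filter]
    symm
    refine sum_nbij' (fun v : ℕ => (v : ℤ)) (fun k : ℤ => k.toNat) ?_ ?_ ?_ ?_ ?_
    · intro v hv
      rw [mem_Icc] at hv
      rw [mem_filter, mem_Icc]
      omega
    · intro k hk
      rw [mem_filter, mem_Icc] at hk
      rw [mem_Icc]
      omega
    · intro v _
      simp
    · intro k hk
      rw [mem_filter, mem_Icc] at hk
      omega
    · intro v _
      simp
  have e2 : ∑ k ∈ Icc (-(R : ℤ)) R, ‖(if 1 ≤ k ∧ k ≤ (N1 : ℤ) then (F k.toNat : ℂ) else 0)‖ ^ 2 =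
      ∑ v ∈ Icc 1 N1, F v ^ 2 := by
    have e3 : ∀ k : ℤ, ‖(if 1 ≤ k ∧ k ≤ (N1 : ℤ) then (F k.toNat : ℂ) else 0)‖ ^ 2 =
        if 1 ≤ k ∧ k ≤ (N1 : ℤ) then F k.toNat ^ 2 else 0 := by
      intro k
      split_ifs
      · rw [Complex.norm_real, Real.norm_eq_abs, sq_abs]
      · simp
    rw [sum_congr rfl fun k _ => e3 k, ← sum_filter]
    symm
    refine sum_nbij' (fun v : ℕ => (v : ℤ)) (fun k : ℤ => k.toNat) ?_ ?_ ?_ ?_ ?_
    · intro v hv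
      rw [mem_Icc] at hv
      rw [mem_filter, mem_Icc]
      omega
    · intro k hk
      rw [mem_filter, mem_Icc] at hk
      rw [mem_Icc]
      omega
    · intro v _
      simp
    · intro k hk
      rw [mem_filter, mem_Icc] at hk
      omega
    · intro v _
      simp
  rw [e2] at h2
  have h3 : ((2 * R + 1 : ℕ) : ℝ) * ∑ c ∈ Icc (-(R : ℤ)) R, ‖TS w q F Q H M1 N1 c‖ ^ 2 ≤
      ((2 * R + 1 : ℕ) : ℝ) * (B ^ 2 * ∑ v ∈ Icc 1 N1, F v ^ 2) := by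
    rw [← h1]
    have e4 : ((2 * R + 1 : ℕ) : ℝ) * (B ^ 2 * ∑ v ∈ Icc 1 N1, F v ^ 2) =
        B ^ 2 * (((2 * R + 1 : ℕ) : ℝ) * ∑ v ∈ Icc 1 N1, F v ^ 2) := by ring
    rw [e4, ← h2, mul_sum]
    refine sum_le_sum fun t _ => ?_
    rw [TS_trans w q F Q H M1 N1 R hH hR, e1, norm_mul, norm_mul]
    have h4 := hB ((t : ℝ) / (2 * R + 1 : ℕ))
    set a := ‖∑ m ∈ Icc 1 M1, (w m : ℂ) * ee (-((q m : ℝ) * ((t : ℝ) / (2 * R + 1 : ℕ))))‖ with ha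
    set b := ‖∑ v ∈ Icc 1 N1, (F v : ℂ) * ee ((v : ℝ) * ((t : ℝ) / (2 * R + 1 : ℕ)))‖ with hb
    set d := ‖1 - KT Q H ((t : ℝ) / (2 * R + 1 : ℕ))‖ with hd
    have e5 : (a * b * d) ^ 2 = (a * d) ^ 2 * b ^ 2 := by ring
    rw [e5]
    apply mul_le_mul_of_nonneg_right _ (sq_nonneg _)
    exact pow_le_pow_left₀ (by positivity) h4 2
  exact le_of_mul_le_mul_left h3 hM0

end Pool.Agent.K7.H51.PS
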