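import Mathlib
import Pool.Agent.K7.H51.PS.Abl

set_option autoImplicit false

/-! The weights. -/

namespace Pool.Agent.K7.H51.PS

open Finset

/-- the polynomial without the constant term -/
def qf (a b : ℤ) (m : ℕ) : ℤ := a * (m : ℤ) ^ 2 + b * m

/-- its differences `qf m - qf (m - 1)` -/
def dq (a b : ℤ) (m : ℕ) : ℤ := a * (2 * m - 1) + b

/-- the trapezoid -/
noncomputable def th (G s t : ℝ) : ℝ := (max (s + G - t) 0 - max (s - t) 0 - max (G - t) 0 + max (-t) 0) / G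

/-- the weights -/
noncomputable def wt (a b : ℤ) (G s : ℝ) (m : ℕ) : ℝ :=
  if b.natAbs + 1 ≤ m then (dq a b m : ℝ) * th G s (qf a b m) else 0

lemma th_num {G s : ℝ} (hG : 0 < G) (hs : 0 ≤ s) (t : ℝ) :
    0 ≤ max (s + G - t) 0 - max (s - t) 0 - max (G - t) 0 + max (-t) 0 ∧
      max (s + G - t) 0 - max (s - t) 0 - max (G - t) 0 + max (-t) 0 ≤ G := by
  rcases le_total (s + G - t) 0 with h1 | h1 <;> rcases le_total (s - t) 0 with h2 | h2 <;>
    rcases le_total (G - t) 0 with h3 | h3 <;> rcases le_total (-t) 0 with h4 | h4 <;>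
    simp only [max_eq_left, max_eq_right, h1, h2, h3, h4] <;> constructor <;> linarith

lemma th_nonneg {G s : ℝ} (hG : 0 < G) (hs : 0 ≤ s) (t : ℝ) : 0 ≤ th G s t :=
  div_nonneg (th_num hG hs t).1 hG.le

lemma th_le_one {G s : ℝ} (hG : 0 < G) (hs : 0 ≤ s) (t : ℝ) : th G s t ≤ 1 := by
  unfold th
  rw [div_le_one hG]
  exact (th_num hG hs t).2

lemma th_left {G s : ℝ} (hG : 0 < G) (hs : 0 ≤ s) {t : ℝ} (ht : t ≤ 0) : th G s t = 0 := by
  unfold th
  rw [max_eq_left (by linarith), max_eq_left (by linarith), max_eq_left (by linarith), max_eq_left (by linarith)]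
  ring

lemma th_right {G s : ℝ} (hG : 0 < G) (hs : 0 ≤ s) {t : ℝ} (ht : s + G ≤ t) : th G s t = 0 := by
  unfold th
  rw [max_eq_right (by linarith), max_eq_right (by linarith), max_eq_right (by linarith), max_eq_right (by linarith)]
  ring

lemma th_one {G s : ℝ} (hG : 0 < G) {t : ℝ} (h1 : G ≤ t) (h2 : t ≤ s) : th G s t = 1 := by
  unfold th
  rw [max_eq_left (by linarith), max_eq_left (by linarith), max_eq_right (by linarith), max_eq_right (by linarith)]
  field_simp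
  ring

lemma max_lip (x y : ℝ) : |max x 0 - max y 0| ≤ |x - y| := by
  have := abs_max_sub_max_le_abs x y 0
  exact this

lemma th_lip {G s : ℝ} (hG : 0 < G) (t t' : ℝ) : |th G s t - th G s t'| ≤ 4 * |t - t'| / G := by
  unfold th
  rw [← sub_div, abs_div, abs_of_pos hG]
  apply div_le_div_of_nonneg_right _ hG.le
  have h1 := max_lip (s + G - t) (s + G - t')
  have h2 := max_lip (s - t) (s - t')
  have h3 := max_lip (G - t) (G - t')
  have h4 := max_lip (-t) (-t')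
  have e1 : |(s + G - t) - (s + G - t')| = |t - t'| := by rw [← abs_neg]; congr 1; ring
  have e2 : |(s - t) - (s - t')| = |t - t'| := by rw [← abs_neg]; congr 1; ring
  have e3 : |(G - t) - (G - t')| = |t - t'| := by rw [← abs_neg]; congr 1; ring
  have e4 : |(-t) - (-t')| = |t - t'| := by rw [← abs_neg]; congr 1; ring
  rw [e1] at h1; rw [e2] at h2; rw [e3] at h3; rw [e4] at h4
  rw [abs_le] at h1 h2 h3 h4 ⊢
  constructor <;> linarith [h1.1, h1.2, h2.1, h2.2, h3.1, h3.2, h4.1, h4.2]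

/-- small arguments -/
lemma th_small {G s : ℝ} (hG : 0 < G) (hs : 0 ≤ s) {t u : ℝ} (hu : 0 ≤ u) (ht : t ≤ u) : th G s t ≤ 4 * u / G := by
  rcases le_total t 0 with h | h
  · rw [th_left hG hs h]
    positivity
  · have h1 := th_lip (s := s) hG t 0
    rw [th_left hG hs le_rfl, sub_zero, sub_zero, abs_of_nonneg h] at h1
    refine (le_abs_self _).trans (h1.trans ?_)
    gcongr

section

variable {a b : ℤ}

lemma qf_succ (m : ℕ) : qf a b (m + 1) = qf a b m + dq a b (m + 1) := by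
  unfold qf dq
  push_cast
  ring

lemma qf_dq {m : ℕ} (hm : 1 ≤ m) : qf a b (m - 1) = qf a b m - dq a b m := by
  obtain ⟨n, rfl⟩ : ∃ n, m = n + 1 := ⟨m - 1, by omega⟩
  rw [qf_succ]
  simp

lemma dq_pos (ha : 1 ≤ a) {m : ℕ} (hm : b.natAbs + 1 ≤ m) : (m : ℤ) ≤ dq a b m := by
  unfold dq
  have h1 : -(b.natAbs : ℤ) ≤ b := by omega
  have h2 : (b.natAbs : ℤ) + 1 ≤ m := by exact_mod_cast hm
  have h3 : (1 : ℤ) * (2 * m - 1) ≤ a * (2 * m - 1) := mul_le_mul_of_nonneg_right ha (by omega)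
  linarith

lemma dq_le (ha : 1 ≤ a) {m M1 : ℕ} (hm : m ≤ M1) : dq a b m ≤ 2 * a * M1 + b.natAbs := by
  unfold dq
  have h1 : b ≤ (b.natAbs : ℤ) := by omega
  have h3 : (m : ℤ) ≤ M1 := by exact_mod_cast hm
  nlinarith

lemma qf_pos (ha : 1 ≤ a) {m : ℕ} (hm : b.natAbs + 1 ≤ m) : (m : ℤ) ≤ qf a b m := by
  unfold qf
  have h1 : -(b.natAbs : ℤ) ≤ b := by omega
  have h2 : (b.natAbs : ℤ) + 1 ≤ m := by exact_mod_cast hm
  have h3 : (1 : ℤ) * (m : ℤ) ^ 2 ≤ a * (m : ℤ) ^ 2 := mul_le_mul_of_nonneg_right ha (sq_nonneg _)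
  have h4 : -(b.natAbs : ℤ) * m ≤ b * m := mul_le_mul_of_nonneg_right h1 (by positivity)
  nlinarith

lemma qf_mono (ha : 1 ≤ a) {m n : ℕ} (hm : b.natAbs ≤ m) (hmn : m ≤ n) : qf a b m ≤ qf a b n := by
  induction n, hmn using Nat.le_induction with
  | base => exact le_rfl
  | succ n hn ih =>
    refine ih.trans ?_
    rw [qf_succ]
    have := dq_pos (b := b) ha (m := n + 1) (by omega)
    have h0 : (0 : ℤ) ≤ ((n + 1 : ℕ) : ℤ) := by positivity
    linarith

lemma wt_abs (ha : 1 ≤ a) {G s : ℝ} (hG : 0 < G) (hs : 0 ≤ s) {m M1 : ℕ} (hm : m ≤ M1) :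
    |wt a b G s m| ≤ ((2 * a * M1 + b.natAbs : ℤ) : ℝ) := by
  unfold wt
  split_ifs with h
  · have h1 : (0 : ℝ) ≤ (dq a b m : ℝ) := by
      have := dq_pos ha h
      exact_mod_cast (le_trans (by positivity) this)
    have h2 : (dq a b m : ℝ) ≤ ((2 * a * M1 + b.natAbs : ℤ) : ℝ) := by exact_mod_cast dq_le ha hm
    rw [abs_mul, abs_of_nonneg h1, abs_of_nonneg (th_nonneg hG hs _)]
    calc (dq a b m : ℝ) * th G s (qf a b m) ≤ dq a b m * 1 := by
          apply mul_le_mul_of_nonneg_left (th_le_one hG hs _) h1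
      _ ≤ _ := by rw [mul_one]; exact h2
  · rw [abs_zero]
    have : (0 : ℤ) ≤ 2 * a * M1 + b.natAbs := by positivity
    exact_mod_cast this

lemma wt_var (ha : 1 ≤ a) {G s : ℝ} (hG : 0 < G) (hs : 0 ≤ s) {m M1 : ℕ} (hm : m + 1 ≤ M1) (hb : b.natAbs + 1 ≤ m) :
    |wt a b G s (m + 1) - wt a b G s m| ≤ 2 * a + 4 * ((2 * a * M1 + b.natAbs : ℤ) : ℝ) ^ 2 / G := by
  set D : ℝ := ((2 * a * M1 + b.natAbs : ℤ) : ℝ) with hD
  unfold wt
  rw [if_pos (by omega), if_pos hb]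
  have h1 : (0 : ℝ) ≤ (dq a b m : ℝ) := by
    have := dq_pos ha hb
    exact_mod_cast (le_trans (by positivity) this)
  have h1' : (0 : ℝ) ≤ (dq a b (m + 1) : ℝ) := by
    have := dq_pos (b := b) ha (m := m + 1) (by omega)
    exact_mod_cast (le_trans (by positivity) this)
  have h2 : (dq a b m : ℝ) ≤ D := by rw [hD]; exact_mod_cast dq_le ha (by omega)
  have h2' : (dq a b (m + 1) : ℝ) ≤ D := by rw [hD]; exact_mod_cast dq_le ha hm
  have e1 : (dq a b (m + 1) : ℝ) = dq a b m + 2 * a := by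
    unfold dq
    push_cast
    ring
  have e2 : (dq a b (m + 1) : ℝ) * th G s (qf a b (m + 1)) - dq a b m * th G s (qf a b m) =
      2 * a * th G s (qf a b (m + 1)) + dq a b m * (th G s (qf a b (m + 1)) - th G s (qf a b m)) := by
    rw [e1]
    ring
  rw [e2]
  have har : (1 : ℝ) ≤ a := by exact_mod_cast ha
  refine (abs_add_le _ _).trans (add_le_add ?_ ?_)
  · rw [abs_mul, abs_of_nonneg (by linarith : (0 : ℝ) ≤ 2 * a), abs_of_nonneg (th_nonneg hG hs _)]
    calc 2 * (a : ℝ) * th G s (qf a b (m + 1)) ≤ 2 * a * 1 := by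
          apply mul_le_mul_of_nonneg_left (th_le_one hG hs _) (by linarith)
      _ = 2 * a := by ring
  · rw [abs_mul, abs_of_nonneg h1]
    have h3 := th_lip (s := s) hG (qf a b (m + 1) : ℝ) (qf a b m : ℝ)
    have h4 : |(qf a b (m + 1) : ℝ) - (qf a b m : ℝ)| = dq a b (m + 1) := by
      rw [qf_succ]
      push_cast
      rw [add_sub_cancel_left, abs_of_nonneg h1']
    rw [h4] at h3
    calc (dq a b m : ℝ) * |th G s (qf a b (m + 1)) - th G s (qf a b m)| ≤ D * (4 * D / G) := by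
          apply mul_le_mul h2 (h3.trans _) (abs_nonneg _) (h1.trans h2)
          gcongr
      _ = 4 * D ^ 2 / G := by ring

/-- the bound for the variation -/
noncomputable def VV (a b : ℤ) (G : ℝ) (M1 : ℕ) : ℝ :=
  ((2 * a * M1 + b.natAbs : ℤ) : ℝ) + M1 * (2 * a + 4 * ((2 * a * M1 + b.natAbs : ℤ) : ℝ) ^ 2 / G)

lemma VV_nonneg (ha : 1 ≤ a) {G : ℝ} (hG : 0 < G) (M1 : ℕ) : 0 ≤ VV a b G M1 := by
  unfold VV
  have h1 : (0 : ℤ) ≤ 2 * a * M1 + b.natAbs := by positivity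
  have h2 : (0 : ℝ) ≤ ((2 * a * M1 + b.natAbs : ℤ) : ℝ) := by exact_mod_cast h1
  have har : (1 : ℝ) ≤ a := by exact_mod_cast ha
  positivity

lemma wt_TV (ha : 1 ≤ a) {G s : ℝ} (hG : 0 < G) (hs : 0 ≤ s) {A n M1 : ℕ} (hA : b.natAbs + 1 ≤ A) (hn : A + n ≤ M1) :
    |wt a b G s (A + n)| + ∑ m ∈ Ico A (A + n), |wt a b G s (m + 1) - wt a b G s m| ≤ VV a b G M1 := by
  unfold VV
  have har : (1 : ℝ) ≤ a := by exact_mod_cast ha
  refine add_le_add (wt_abs ha hG hs hn) ?_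
  calc ∑ m ∈ Ico A (A + n), |wt a b G s (m + 1) - wt a b G s m|
      ≤ ∑ _m ∈ Ico A (A + n), (2 * a + 4 * ((2 * a * M1 + b.natAbs : ℤ) : ℝ) ^ 2 / G) := by
        refine sum_le_sum fun m hm => ?_
        rw [mem_Ico] at hm
        exact wt_var ha hG hs (by omega) (by omega)
    _ = n * (2 * a + 4 * ((2 * a * M1 + b.natAbs : ℤ) : ℝ) ^ 2 / G) := by
        rw [sum_const, Nat.card_Ico, nsmul_eq_mul, Nat.add_sub_cancel_left]
    _ ≤ _ := by
        apply mul_le_mul_of_nonneg_right _ (by positivity)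
        exact_mod_cast (by omega : n ≤ M1)

end

end Pool.Agent.K7.H51.PS
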