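import Mathlib
import Pool.Agent.K7.H51.PS.Wts
import Pool.Agent.K7.H51.PS.Par

set_option autoImplicit false

/-! The local evaluation of the approximation. -/

namespace Pool.Agent.K7.H51.PS

open Finset
open Pool.Agent.H807R2.Dav

lemma cR_period (k : ℕ) (hk : 0 < k) (t u : ℤ) : cR k (t + k * u) = cR k t := by
  unfold cR
  refine sum_congr rfl fun j _ => ?_
  have hk0 : (k : ℝ) ≠ 0 := by exact_mod_cast hk.ne'
  have e : ((t + k * u : ℤ) : ℝ) * ((j : ℝ) / k) = (t : ℝ) * ((j : ℝ) / k) + ((u * j : ℤ) : ℝ) := by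
    push_cast
    field_simp
  rw [e, ee_add_int]

section

variable {a b : ℤ}

/-- the mean of the Ramanujan sum -/
noncomputable def mK (a b : ℤ) (k : ℕ) (x : ℤ) : ℂ := (k : ℂ)⁻¹ * ∑ j ∈ range k, cR k (qf a b j - x)

lemma cR_qf_period (k : ℕ) (hk : 0 < k) (x : ℤ) (m : ℕ) : cR k (qf a b (m + k) - x) = cR k (qf a b m - x) := by
  have e : qf a b (m + k) - x = (qf a b m - x) + k * (a * (2 * m + k) + b) := by
    unfold qf
    push_cast
    ring
  rw [e, cR_period k hk]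

lemma mK_norm (k : ℕ) (hk : 0 < k) (x : ℤ) : ‖mK a b k x‖ ≤ k := by
  unfold mK
  have hkr : (0 : ℝ) < k := by exact_mod_cast hk
  rw [norm_mul, norm_inv, Complex.norm_natCast]
  have h1 : ‖∑ j ∈ range k, cR k (qf a b j - x)‖ ≤ k * k := by
    refine (norm_sum_le _ _).trans ((sum_le_sum fun j _ => cR_norm_le k _).trans ?_)
    rw [sum_const, card_range, nsmul_eq_mul]
  calc (k : ℝ)⁻¹ * ‖∑ j ∈ range k, cR k (qf a b j - x)‖ ≤ (k : ℝ)⁻¹ * (k * k) := by gcongr
    _ = k := by field_simp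

/-- thresholds -/
lemma thr (ha : 1 ≤ a) (M1 : ℕ) (hM : b.natAbs + 1 ≤ M1) (x : ℤ) : ∃ A, b.natAbs + 1 ≤ A ∧ A ≤ M1 + 1 ∧
    (∀ m, b.natAbs + 1 ≤ m → m < A → qf a b m < x) ∧ (∀ m, A ≤ m → m ≤ M1 → x ≤ qf a b m) := by
  classical
  have hex : ∃ A, b.natAbs + 1 ≤ A ∧ (A = M1 + 1 ∨ x ≤ qf a b A) := ⟨M1 + 1, by omega, Or.inl rfl⟩
  obtain ⟨A, ⟨hA1, hA2⟩, hmin⟩ : ∃ A, (b.natAbs + 1 ≤ A ∧ (A = M1 + 1 ∨ x ≤ qf a b A)) ∧
      ∀ m < A, ¬ (b.natAbs + 1 ≤ m ∧ (m = M1 + 1 ∨ x ≤ qf a b m)) :=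
    ⟨Nat.find hex, Nat.find_spec hex, fun m hm => Nat.find_min hex hm⟩
  have hAM : A ≤ M1 + 1 := by
    by_contra h
    push Not at h
    exact hmin (M1 + 1) h ⟨by omega, Or.inl rfl⟩
  refine ⟨A, hA1, hAM, ?_, ?_⟩
  · intro m hm1 hm2
    have := hmin m hm2
    push Not at this
    exact (this hm1).2
  · intro m hm1 hm2
    rcases hA2 with h | h
    · omega
    · exact h.trans (qf_mono ha (by omega) hm1)

lemma dq_tel {A B : ℕ} (hA : 1 ≤ A) (hAB : A ≤ B) :
    ∑ m ∈ Ico A B, (dq a b m : ℝ) = qf a b (B - 1) - qf a b (A - 1) := by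
  induction B, hAB using Nat.le_induction with
  | base => simp
  | succ B hB ih =>
    rw [sum_Ico_succ_top hB, ih]
    have h1 := qf_dq (a := a) (b := b) (m := B) (by omega)
    rw [show B + 1 - 1 = B by omega, h1]
    push_cast
    ring

/-- the error of the weights -/
noncomputable def EE (a b : ℤ) (G : ℝ) (H M1 : ℕ) : ℝ :=
  4 * H / G * (H + ((2 * a * M1 + b.natAbs : ℤ) : ℝ)) + ((2 * a * M1 + b.natAbs : ℤ) : ℝ) +
    4 * (qf a b (b.natAbs + 1) : ℝ) / G * (2 * H + ((2 * a * M1 + b.natAbs : ℤ) : ℝ))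

lemma wt_sum (ha : 1 ≤ a) {G s : ℝ} (hG : 0 < G) (hs : 0 ≤ s) {M1 H : ℕ} (hM : b.natAbs + 1 ≤ M1)
    (hq : s + G + H ≤ qf a b M1) (x : ℤ) {A B : ℕ} (hA1 : b.natAbs + 1 ≤ A) (hAB : A ≤ B) (hB : B ≤ M1 + 1)
    (hA2 : ∀ m, b.natAbs + 1 ≤ m → m < A → qf a b m < x) (hA3 : ∀ m, A ≤ m → m ≤ M1 → x ≤ qf a b m)
    (hB2 : ∀ m, b.natAbs + 1 ≤ m → m < B → qf a b m < x + H) (hB3 : ∀ m, B ≤ m → m ≤ M1 → x + H ≤ qf a b m) :
    |∑ m ∈ Ico A B, wt a b G s m - H * th G s x| ≤ EE a b G H M1 := by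
  obtain ⟨D, hD⟩ : ∃ D : ℝ, D = ((2 * a * M1 + b.natAbs : ℤ) : ℝ) := ⟨_, rfl⟩
  obtain ⟨q0, hq0⟩ : ∃ q0 : ℝ, q0 = (qf a b (b.natAbs + 1) : ℝ) := ⟨_, rfl⟩
  have hD0 : 0 ≤ D := by
    rw [hD]
    have : (0 : ℤ) ≤ 2 * a * M1 + b.natAbs := by positivity
    exact_mod_cast this
  have hq00 : 0 ≤ q0 := by
    rw [hq0]
    have := qf_pos (b := b) ha (m := b.natAbs + 1) le_rfl
    exact_mod_cast (le_trans (by positivity) this)
  have hH0 : (0 : ℝ) ≤ H := Nat.cast_nonneg _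
  have hdq0 : ∀ m ∈ Ico A B, (0 : ℝ) ≤ (dq a b m : ℝ) := by
    intro m hm
    rw [mem_Ico] at hm
    have := dq_pos (b := b) ha (m := m) (by omega)
    exact_mod_cast (le_trans (by positivity) this)
  obtain ⟨S, hS⟩ : ∃ S : ℝ, S = ∑ m ∈ Ico A B, (dq a b m : ℝ) := ⟨_, rfl⟩
  have hS0 : 0 ≤ S := by rw [hS]; exact sum_nonneg hdq0
  have hStel : S = qf a b (B - 1) - qf a b (A - 1) := by rw [hS]; exact dq_tel (by omega) hAB
  -- (i)
  have h1 : |∑ m ∈ Ico A B, wt a b G s m - th G s x * S| ≤ 4 * H / G * S := by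
    have e1 : ∑ m ∈ Ico A B, wt a b G s m - th G s x * S =
        ∑ m ∈ Ico A B, (dq a b m : ℝ) * (th G s (qf a b m) - th G s x) := by
      rw [hS, mul_sum, ← sum_sub_distrib]
      refine sum_congr rfl fun m hm => ?_
      rw [mem_Ico] at hm
      unfold wt
      rw [if_pos (by omega)]
      ring
    rw [e1, hS, mul_sum]
    refine (abs_sum_le_sum_abs _ _).trans (sum_le_sum fun m hm => ?_)
    rw [abs_mul, abs_of_nonneg (hdq0 m hm), mul_comm]
    apply mul_le_mul_of_nonneg_right _ (hdq0 m hm)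
    refine (th_lip hG _ _).trans ?_
    rw [mem_Ico] at hm
    have h2 := hA3 m hm.1 (by omega)
    have h3 := hB2 m (by omega) hm.2
    have h4 : |(qf a b m : ℝ) - x| ≤ H := by
      rw [abs_le]
      have h2' : (x : ℝ) ≤ qf a b m := by exact_mod_cast h2
      have h3' : (qf a b m : ℝ) < x + H := by exact_mod_cast h3
      constructor <;> linarith
    gcongr
  -- (ii)
  have h2 : S ≤ H + D := by
    rcases Nat.lt_or_ge A B with h | h
    · rw [hStel]
      have e1 := qf_dq (a := a) (b := b) (m := A) (by omega)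
      have e2 := hB2 (B - 1) (by omega) (by omega)
      have e3 := hA3 A le_rfl (by omega)
      have e4 := dq_le (b := b) ha (m := A) (M1 := M1) (by omega)
      rw [e1, hD]
      push_cast
      have e2' : (qf a b (B - 1) : ℝ) < x + H := by exact_mod_cast e2
      have e3' : (x : ℝ) ≤ qf a b A := by exact_mod_cast e3
      have e4' : (dq a b A : ℝ) ≤ ((2 * a * M1 + b.natAbs : ℤ) : ℝ) := by exact_mod_cast e4
      push_cast at e4'
      linarith
    · rw [hS, Ico_eq_empty (by omega), sum_empty]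
      linarith
  -- (iii)
  have h3 : |th G s x * (S - H)| ≤ D + 4 * q0 / G * (2 * H + D) := by
    have hth0 := th_nonneg (G := G) (s := s) hG hs (x : ℝ)
    have hth1 := th_le_one (G := G) (s := s) hG hs (x : ℝ)
    rw [abs_mul, abs_of_nonneg hth0]
    have hx0 : 0 ≤ 4 * q0 / G * (2 * H + D) := by positivity
    rcases le_or_gt (s + G) (x : ℝ) with hx | hx
    · rw [th_right hG hs hx, zero_mul]
      linarith
    · have hBM : B ≤ M1 := by
        by_contra hcon
        have e1 := hB2 M1 hM (by omega)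
        have e1' : (qf a b M1 : ℝ) < x + H := by exact_mod_cast e1
        linarith
      have e2 := hB3 B le_rfl hBM
      rcases Nat.eq_or_lt_of_le hA1 with hA | hA
      · have e3 := hA3 A le_rfl (by omega)
        rw [← hA] at e3
        have e3' : (x : ℝ) ≤ q0 := by rw [hq0]; exact_mod_cast e3
        have e4 := th_small hG hs hq00 e3'
        have e5 : |S - H| ≤ 2 * H + D := by
          rw [abs_le]
          constructor <;> linarith
        calc th G s x * |S - H| ≤ 4 * q0 / G * (2 * H + D) :=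
              mul_le_mul e4 e5 (abs_nonneg _) (by positivity)
          _ ≤ _ := by linarith
      · have e3 := hA2 (A - 1) (by omega) (by omega)
        have e4 := qf_dq (a := a) (b := b) (m := B) (by omega)
        have e5 := dq_le (b := b) ha (m := B) (M1 := M1) (by omega)
        have e6 : |S - H| ≤ D := by
          rw [abs_le]
          refine ⟨?_, by linarith⟩
          rw [hStel, e4, hD]
          have e2' : (x : ℝ) + H ≤ qf a b B := by exact_mod_cast e2
          have e3' : (qf a b (A - 1) : ℝ) < x := by exact_mod_cast e3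
          have e5' : (dq a b B : ℝ) ≤ ((2 * a * M1 + b.natAbs : ℤ) : ℝ) := by exact_mod_cast e5
          push_cast at e5' ⊢
          linarith
        calc th G s x * |S - H| ≤ 1 * D := mul_le_mul hth1 e6 (abs_nonneg _) (by norm_num)
          _ ≤ _ := by linarith
  have h4 : 4 * H / G * S ≤ 4 * H / G * (H + D) := by gcongr
  have e : ∑ m ∈ Ico A B, wt a b G s m - H * th G s x =
      (∑ m ∈ Ico A B, wt a b G s m - th G s x * S) + th G s x * (S - H) := by ring
  rw [e]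
  unfold EE
  rw [← hD, ← hq0]
  refine (abs_add_le _ _).trans ?_
  linarith

/-- the local evaluation -/
lemma loc (ha : 1 ≤ a) {G s : ℝ} (hG : 0 < G) (hs : 0 ≤ s) {M1 H : ℕ} (hM : b.natAbs + 1 ≤ M1)
    (hq : s + G + H ≤ qf a b M1) (k : ℕ) (hk : 0 < k) (x : ℤ) :
    ‖∑ m ∈ Icc 1 M1, (if 0 ≤ qf a b m - x ∧ qf a b m - x < H then (wt a b G s m : ℂ) * cR k (qf a b m - x) else 0) -
      mK a b k x * ((H : ℂ) * (th G s x : ℂ))‖ ≤ 2 * k * k * VV a b G M1 + k * EE a b G H M1 := by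
  obtain ⟨A, hA1, hAM, hA2, hA3⟩ := thr (b := b) ha M1 hM x
  obtain ⟨B, hB1, hBM, hB2, hB3⟩ := thr (b := b) ha M1 hM (x + H)
  have hAB : A ≤ B := by
    by_contra hcon
    push Not at hcon
    have e1 := hB3 B le_rfl (by omega)
    have e2 := hA2 B hB1 hcon
    have : (0 : ℤ) ≤ H := Int.natCast_nonneg _
    linarith
  have e1 : ∑ m ∈ Icc 1 M1, (if 0 ≤ qf a b m - x ∧ qf a b m - x < H then (wt a b G s m : ℂ) * cR k (qf a b m - x) else 0) =
      ∑ m ∈ Ico A B, (wt a b G s m : ℂ) * cR k (qf a b m - x) := by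
    rw [← sum_filter]
    symm
    apply sum_subset_zero_on_sdiff
    · intro m hm
      rw [mem_Ico] at hm
      rw [mem_filter, mem_Icc]
      have h1 := hA3 m hm.1 (by omega)
      have h2 := hB2 m (by omega) hm.2
      exact ⟨by omega, by omega, by omega⟩
    · intro m hm
      rw [mem_sdiff, mem_filter, mem_Icc, mem_Ico] at hm
      obtain ⟨⟨⟨h1, h2⟩, h3, h4⟩, h5⟩ := hm
      have h6 : ¬ b.natAbs + 1 ≤ m := by
        intro h6
        apply h5
        constructor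
        · by_contra h7
          push Not at h7
          have := hA2 m h6 h7
          omega
        · by_contra h7
          push Not at h7
          have := hB3 m h7 h2
          omega
      unfold wt
      rw [if_neg h6]
      simp
    · intro m _
      rfl
  rw [e1]
  have hkr : (0 : ℝ) < k := by exact_mod_cast hk
  have hV0 := VV_nonneg (b := b) ha hG M1
  have h1 : ‖∑ m ∈ Ico A B, (wt a b G s m : ℂ) * cR k (qf a b m - x) -
      mK a b k x * ∑ m ∈ Ico A B, (wt a b G s m : ℂ)‖ ≤ 2 * k * k * VV a b G M1 := by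
    rcases Nat.eq_or_lt_of_le hAB with h | h
    · rw [h]
      simp only [Ico_self, sum_empty, mul_zero, sub_zero, norm_zero]
      positivity
    · obtain ⟨n, rfl⟩ : ∃ n, B = A + n + 1 := ⟨B - A - 1, by omega⟩
      exact per_wt k hk (fun m => cR k (qf a b m - x)) (cR_qf_period k hk x) k (fun m => cR_norm_le k _)
        (wt a b G s) (VV a b G M1) A n (wt_TV ha hG hs hA1 (by omega))
  have h2 := wt_sum ha hG hs hM hq x hA1 hAB hBM hA2 hA3 hB2 hB3
  have h3 : ‖mK a b k x * ∑ m ∈ Ico A B, (wt a b G s m : ℂ) - mK a b k x * ((H : ℂ) * (th G s x : ℂ))‖ ≤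
      k * EE a b G H M1 := by
    rw [← mul_sub, norm_mul]
    apply mul_le_mul (mK_norm k hk x) _ (norm_nonneg _) hkr.le
    have : (∑ m ∈ Ico A B, (wt a b G s m : ℂ)) - (H : ℂ) * (th G s x : ℂ) =
        ((∑ m ∈ Ico A B, wt a b G s m - H * th G s x : ℝ) : ℂ) := by
      push_cast
      rfl
    rw [this, Complex.norm_real]
    exact h2
  have e2 : ∑ m ∈ Ico A B, (wt a b G s m : ℂ) * cR k (qf a b m - x) - mK a b k x * ((H : ℂ) * (th G s x : ℂ)) =
      (∑ m ∈ Ico A B, (wt a b G s m : ℂ) * cR k (qf a b m - x) - mK a b k x * ∑ m ∈ Ico A B, (wt a b G s m : ℂ)) +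
      (mK a b k x * ∑ m ∈ Ico A B, (wt a b G s m : ℂ) - mK a b k x * ((H : ℂ) * (th G s x : ℂ))) := by ring
  rw [e2]
  exact (norm_add_le _ _).trans (add_le_add h1 h3)

/-- a function on the integers -/
noncomputable def Fe (F : ℕ → ℝ) (N1 : ℕ) (y : ℤ) : ℝ := if 1 ≤ y ∧ y ≤ (N1 : ℤ) then F y.toNat else 0

lemma TS_split (w : ℕ → ℝ) (F : ℕ → ℝ) (Q H M1 N1 : ℕ) (hH : 1 ≤ H) (c : ℤ) :
    TS w (qf a b) F Q H M1 N1 c = ∑ m ∈ Icc 1 M1, ((w m * Fe F N1 (c + qf a b m) : ℝ) : ℂ) -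
      ∑ v ∈ Icc 1 N1, (F v : ℂ) * ((H : ℂ)⁻¹ * ∑ k ∈ Icc 1 Q, ∑ m ∈ Icc 1 M1,
        (if 0 ≤ qf a b m - ((v : ℤ) - c) ∧ qf a b m - ((v : ℤ) - c) < H then
          (w m : ℂ) * cR k (qf a b m - ((v : ℤ) - c)) else 0)) := by
  unfold TS kp
  have e1 : ∀ m ∈ Icc 1 M1, ∀ v ∈ Icc 1 N1, ∑ t ∈ range H,
      (if (v : ℤ) + t - qf a b m = c then (w m : ℂ) * F v * ((if t = 0 then 1 else 0) - (H : ℂ)⁻¹ * CQ Q t) else 0) =
      (if (v : ℤ) = c + qf a b m then (w m : ℂ) * F v else 0) -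
      (if 0 ≤ qf a b m - ((v : ℤ) - c) ∧ qf a b m - ((v : ℤ) - c) < H then
          (w m : ℂ) * F v * ((H : ℂ)⁻¹ * CQ Q (qf a b m - ((v : ℤ) - c))) else 0) := by
    intro m _ v _
    have e2 : ∀ t ∈ range H, (if (v : ℤ) + t - qf a b m = c then (w m : ℂ) * F v *
        ((if t = 0 then 1 else 0) - (H : ℂ)⁻¹ * CQ Q t) else 0) =
        (if t = 0 then (if (v : ℤ) = c + qf a b m then (w m : ℂ) * F v else 0) else 0) -
        (if t = (qf a b m - ((v : ℤ) - c)).toNat then (if 0 ≤ qf a b m - ((v : ℤ) - c) then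
          (w m : ℂ) * F v * ((H : ℂ)⁻¹ * CQ Q (qf a b m - ((v : ℤ) - c))) else 0) else 0) := by
      intro t _
      by_cases h1 : (v : ℤ) + t - qf a b m = c
      · have h2 : t = (qf a b m - ((v : ℤ) - c)).toNat := by omega
        have h3 : 0 ≤ qf a b m - ((v : ℤ) - c) := by omega
        have h4 : qf a b m - ((v : ℤ) - c) = (t : ℤ) := by omega
        rw [if_pos h1, if_pos h2, if_pos h3, h4]
        by_cases h5 : t = 0
        · have h6 : (v : ℤ) = c + qf a b m := by omega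
          rw [if_pos h5, if_pos h5, if_pos h6]
          ring
        · rw [if_neg h5, if_neg h5]
          ring
      · rw [if_neg h1]
        have h2 : (if t = 0 then (if (v : ℤ) = c + qf a b m then (w m : ℂ) * F v else 0) else 0) = 0 := by
          split_ifs with h3 h4
          · exfalso; apply h1; omega
          · rfl
          · rfl
        have h3 : (if t = (qf a b m - ((v : ℤ) - c)).toNat then (if 0 ≤ qf a b m - ((v : ℤ) - c) then
          (w m : ℂ) * F v * ((H : ℂ)⁻¹ * CQ Q (qf a b m - ((v : ℤ) - c))) else 0) else 0) = 0 := by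
          split_ifs with h3 h4
          · exfalso; apply h1; omega
          · rfl
          · rfl
        rw [h2, h3, sub_zero]
    rw [sum_congr rfl e2, sum_sub_distrib, sum_ite_eq' (range H) 0, if_pos (by rw [mem_range]; omega),
      sum_ite_eq' (range H) _]
    congr 1
    by_cases h1 : 0 ≤ qf a b m - ((v : ℤ) - c) ∧ qf a b m - ((v : ℤ) - c) < H
    · rw [if_pos h1, if_pos (by rw [mem_range]; omega), if_pos h1.1]
    · rw [if_neg h1]
      split_ifs with h2 h3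
      · exfalso
        apply h1
        rw [mem_range] at h2
        omega
      · rfl
      · rfl
  rw [sum_congr rfl fun m hm => sum_congr rfl fun v hv => e1 m hm v hv]
  simp only [sum_sub_distrib]
  congr 1
  · refine sum_congr rfl fun m _ => ?_
    unfold Fe
    by_cases h : 1 ≤ c + qf a b m ∧ c + qf a b m ≤ (N1 : ℤ)
    · rw [if_pos h]
      rw [sum_eq_single (c + qf a b m).toNat]
      · rw [if_pos (by omega)]
        push_cast
        rfl
      · intro v _ hv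
        rw [if_neg (by omega)]
      · intro hv
        exfalso
        apply hv
        rw [mem_Icc]
        omega
    · rw [if_neg h]
      rw [sum_eq_zero]
      · simp
      · intro v hv
        rw [mem_Icc] at hv
        rw [if_neg (by omega)]
  · rw [sum_comm]
    refine sum_congr rfl fun v _ => ?_
    rw [sum_comm, mul_sum, mul_sum]
    refine sum_congr rfl fun m _ => ?_
    unfold CQ
    split_ifs with h
    · rw [← mul_sum]
      ring
    · simp

theorem TS_eval (ha : 1 ≤ a) {G s : ℝ} (hG : 0 < G) (hs : 0 ≤ s) {M1 H Q N1 : ℕ} (hM : b.natAbs + 1 ≤ M1)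
    (hH : 1 ≤ H) (hq : s + G + H ≤ qf a b M1) (F : ℕ → ℝ) (hF : ∀ v, 0 ≤ F v) (c : ℤ) :
    ‖TS (wt a b G s) (qf a b) F Q H M1 N1 c - (∑ m ∈ Icc 1 M1, ((wt a b G s m * Fe F N1 (c + qf a b m) : ℝ) : ℂ) -
      ∑ v ∈ Icc 1 N1, (F v : ℂ) * ((th G s ((v : ℤ) - c : ℤ) : ℝ) * ∑ k ∈ Icc 1 Q, mK a b k ((v : ℤ) - c)))‖ ≤
      (∑ v ∈ Icc 1 N1, F v) * ((2 * (Q : ℝ) ^ 3 * VV a b G M1 + (Q : ℝ) ^ 2 * EE a b G H M1) / H) := by
  have hV0 := VV_nonneg (b := b) ha hG M1
  have hE0 : 0 ≤ EE a b G H M1 := by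
    obtain ⟨A, hA1, hAM, hA2, hA3⟩ := thr (b := b) ha M1 hM 0
    obtain ⟨B, hB1, hBM, hB2, hB3⟩ := thr (b := b) ha M1 hM (0 + H)
    have hAB : A ≤ B := by
      by_contra hcon
      push Not at hcon
      have e1 := hB3 B le_rfl (by omega)
      have e2 := hA2 B hB1 hcon
      have : (0 : ℤ) ≤ H := Int.natCast_nonneg _
      linarith
    exact (abs_nonneg _).trans (wt_sum ha hG hs hM hq 0 hA1 hAB hBM hA2 hA3 hB2 hB3)
  have hHr : (0 : ℝ) < H := by exact_mod_cast hH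
  have hHc : (H : ℂ) ≠ 0 := by exact_mod_cast hHr.ne'
  rw [TS_split (wt a b G s) F Q H M1 N1 hH c, sub_sub_sub_cancel_left, ← sum_sub_distrib, sum_mul]
  refine (norm_sum_le _ _).trans (sum_le_sum fun v _ => ?_)
  rw [← mul_sub, norm_mul, Complex.norm_real, Real.norm_of_nonneg (hF v)]
  apply mul_le_mul_of_nonneg_left _ (hF v)
  set x : ℤ := (v : ℤ) - c with hx
  have e1 : ((th G s (x : ℝ) : ℝ) : ℂ) * ∑ k ∈ Icc 1 Q, mK a b k x -
      (H : ℂ)⁻¹ * ∑ k ∈ Icc 1 Q, ∑ m ∈ Icc 1 M1,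
        (if 0 ≤ qf a b m - x ∧ qf a b m - x < H then (wt a b G s m : ℂ) * cR k (qf a b m - x) else 0) =
      -((H : ℂ)⁻¹ * ∑ k ∈ Icc 1 Q, (∑ m ∈ Icc 1 M1,
        (if 0 ≤ qf a b m - x ∧ qf a b m - x < H then (wt a b G s m : ℂ) * cR k (qf a b m - x) else 0) -
        mK a b k x * ((H : ℂ) * (th G s x : ℂ)))) := by
    rw [sum_sub_distrib, ← sum_mul]
    field_simp
    ring
  rw [e1, norm_neg, norm_mul, norm_inv, Complex.norm_natCast, div_eq_inv_mul]
  apply mul_le_mul_of_nonneg_left _ (by positivity)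
  refine (norm_sum_le _ _).trans ?_
  calc ∑ k ∈ Icc 1 Q, ‖∑ m ∈ Icc 1 M1, (if 0 ≤ qf a b m - x ∧ qf a b m - x < H then
          (wt a b G s m : ℂ) * cR k (qf a b m - x) else 0) - mK a b k x * ((H : ℂ) * (th G s x : ℂ))‖
      ≤ ∑ _k ∈ Icc 1 Q, (2 * (Q : ℝ) * Q * VV a b G M1 + Q * EE a b G H M1) := by
        refine sum_le_sum fun k hk => ?_
        rw [mem_Icc] at hk
        have hkQ : (k : ℝ) ≤ Q := by exact_mod_cast hk.2
        have hk0 : (0 : ℝ) ≤ k := Nat.cast_nonneg _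
        refine (loc ha hG hs hM hq k (by omega) x).trans ?_
        gcongr
    _ = Q * (2 * (Q : ℝ) * Q * VV a b G M1 + Q * EE a b G H M1) := by
        rw [sum_const, Nat.card_Icc, nsmul_eq_mul, Nat.add_sub_cancel]
    _ = _ := by ring

end

end Pool.Agent.K7.H51.PS
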