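import Mathlib
import Pool.Agent.K7.H51.PS.Crt
import Pool.Agent.K7.H51.PS.Loc
import Pool.Agent.H398R2.BV5

set_option autoImplicit false

/-! The expansion of the local means in characters. -/

namespace Pool.Agent.K7.H51.PS

open Finset
open Pool.Agent.H398R2.BV (Prim)

/-- the sum over all characters by their primitive characters -/
lemma sum_prim (m : ℕ) [NeZero m] (g : DirichletCharacter ℂ m → ℂ) (W : (f : ℕ) → DirichletCharacter ℂ f → ℂ)
    (hW : ∀ f (h : f ∣ m) (ψ : DirichletCharacter ℂ f), g (DirichletCharacter.changeLevel h ψ) = W f ψ) :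
    ∑ χ : DirichletCharacter ℂ m, g χ = ∑ f ∈ m.divisors, ∑ ψ ∈ Prim f, W f ψ := by
  classical
  rw [← sum_fiberwise_of_maps_to (s := (univ : Finset (DirichletCharacter ℂ m))) (t := m.divisors)
    (g := fun χ => χ.conductor) (fun χ _ => Nat.mem_divisors.2 ⟨χ.conductor_dvd_level, NeZero.ne m⟩)]
  refine sum_congr rfl fun f hf => ?_
  have hfm : f ∣ m := (Nat.mem_divisors.1 hf).1
  have h2 : ((univ : Finset (DirichletCharacter ℂ m)).filter (fun χ => χ.conductor = f)) =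
      (Prim f).image (DirichletCharacter.changeLevel hfm) := by
    ext χ
    rw [mem_filter, mem_image]
    constructor
    · rintro ⟨_, hc⟩
      subst hc
      exact ⟨χ.primitiveCharacter, by
        unfold Prim; rw [mem_filter]; exact ⟨mem_univ _, χ.primitiveCharacter_isPrimitive⟩,
        χ.changeLevel_primitiveCharacter⟩
    · rintro ⟨ψ, hψ, rfl⟩
      refine ⟨mem_univ _, ?_⟩
      unfold Prim at hψ
      rw [mem_filter] at hψ
      rw [DirichletCharacter.conductor_changeLevel]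
      exact hψ.2
  rw [h2, sum_image (fun x _ y _ hxy => DirichletCharacter.changeLevel_injective hfm hxy)]
  exact sum_congr rfl fun ψ _ => hW f hfm ψ

section

variable (a b c : ℤ)

/-- the values of the polynomial -/
def uf (j : ℕ) : ℤ := c + qf a b j

/-- the number of roots modulo `p` -/
def r0 (p : ℕ) : ℕ := ((range p).filter (fun j => (p : ℤ) ∣ uf a b c j)).card

/-- the local weight -/
noncomputable def gp (p : ℕ) : ℝ := (1 - r0 a b c p) / (p - 1)

/-- the complete character sum -/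
noncomputable def Wd {f : ℕ} (ψ : DirichletCharacter ℂ f) (d : ℕ) : ℂ :=
  ∑ j ∈ range d, if Int.gcd (uf a b c j) d = 1 then ψ ((uf a b c j : ℤ) : ZMod f) else 0

/-- the number of solutions -/
def rho (d : ℕ) (v : ℤ) : ℕ := ((range d).filter (fun j => (d : ℤ) ∣ uf a b c j - v)).card

variable {a b c}

lemma uf_add (d m : ℕ) : (d : ℤ) ∣ uf a b c (m + d) - uf a b c m := by
  refine ⟨a * (2 * m + d) + b, ?_⟩
  unfold uf qf
  push_cast
  ring

lemma gcd_uf (d m : ℕ) : Int.gcd (uf a b c (m + d)) d = Int.gcd (uf a b c m) d := by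
  obtain ⟨k, hk⟩ := uf_add (a := a) (b := b) (c := c) d m
  have e : uf a b c (m + d) = uf a b c m + k * d := by linarith
  rw [e, Int.gcd_add_mul_right_left]

lemma dvd_uf (d m : ℕ) : (d : ℤ) ∣ uf a b c (m + d) ↔ (d : ℤ) ∣ uf a b c m := by
  obtain ⟨k, hk⟩ := uf_add (a := a) (b := b) (c := c) d m
  have e : uf a b c (m + d) = uf a b c m + d * k := by linarith
  rw [e, dvd_add_left (dvd_mul_right _ _)]

lemma wd_term_period {f : ℕ} (ψ : DirichletCharacter ℂ f) (d : ℕ) (hf : f ∣ d) (m : ℕ) :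
    (if Int.gcd (uf a b c (m + d)) d = 1 then ψ ((uf a b c (m + d) : ℤ) : ZMod f) else 0) =
      (if Int.gcd (uf a b c m) d = 1 then ψ ((uf a b c m : ℤ) : ZMod f) else 0) := by
  rw [gcd_uf]
  have h1 : ((uf a b c (m + d) : ℤ) : ZMod f) = ((uf a b c m : ℤ) : ZMod f) := by
    rw [ZMod.intCast_eq_intCast_iff_dvd_sub]
    have h2 := uf_add (a := a) (b := b) (c := c) d m
    have h3 : (f : ℤ) ∣ uf a b c (m + d) - uf a b c m := (Int.natCast_dvd_natCast.2 hf).trans h2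
    have e : uf a b c m - uf a b c (m + d) = -(uf a b c (m + d) - uf a b c m) := by ring
    rw [e]
    exact (dvd_neg).2 h3
  rw [h1]

lemma sum_ndvd (p : ℕ) (hp : 0 < p) : ∑ j ∈ range p, (if (p : ℤ) ∣ uf a b c j then (0 : ℂ) else 1) = p - r0 a b c p := by
  have h1 : ∀ j ∈ range p, (if (p : ℤ) ∣ uf a b c j then (0 : ℂ) else 1) = 1 - (if (p : ℤ) ∣ uf a b c j then 1 else 0) := by
    intro j _
    split_ifs <;> ring
  rw [sum_congr rfl h1, sum_sub_distrib, sum_const, card_range, nsmul_eq_mul, mul_one, ← sum_filter, sum_const,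
    nsmul_eq_mul, mul_one]
  rfl

lemma Wd_mul {f : ℕ} (ψ : DirichletCharacter ℂ f) (d p : ℕ) (hd : 0 < d) (hf : f ∣ d) (hp : p.Prime) :
    Wd a b c ψ (p * d) = (if p ∣ d then (p : ℂ) else p - r0 a b c p) * Wd a b c ψ d := by
  have hgcd : ∀ j, Int.gcd (uf a b c j) ((p * d : ℕ) : ℤ) = 1 ↔ (Int.gcd (uf a b c j) d = 1 ∧ ¬ (p : ℤ) ∣ uf a b c j) := by
    intro j
    have e1 : Int.gcd (uf a b c j) ((p * d : ℕ) : ℤ) = Nat.gcd (uf a b c j).natAbs (p * d) := by
      rw [Int.gcd_def, Int.natAbs_natCast]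
    have e2 : Int.gcd (uf a b c j) (d : ℤ) = Nat.gcd (uf a b c j).natAbs d := by
      rw [Int.gcd_def, Int.natAbs_natCast]
    have e3 : (p : ℤ) ∣ uf a b c j ↔ p ∣ (uf a b c j).natAbs := Int.natCast_dvd
    rw [e1, e2, e3]
    have h1 : Nat.gcd (uf a b c j).natAbs (p * d) = 1 ↔ Nat.Coprime (uf a b c j).natAbs p ∧ Nat.Coprime (uf a b c j).natAbs d :=
      Nat.coprime_mul_iff_right
    rw [h1, Nat.coprime_comm, hp.coprime_iff_not_dvd]
    exact and_comm
  by_cases hpd : p ∣ d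
  · rw [if_pos hpd]
    unfold Wd
    rw [mul_comm p d]
    have h1 : ∀ j ∈ range (d * p), (if Int.gcd (uf a b c j) ((d * p : ℕ) : ℤ) = 1 then ψ ((uf a b c j : ℤ) : ZMod f) else 0) =
        (if Int.gcd (uf a b c j) d = 1 then ψ ((uf a b c j : ℤ) : ZMod f) else 0) := by
      intro j _
      rw [mul_comm d p]
      have h2 := hgcd j
      have h3 : Int.gcd (uf a b c j) d = 1 → ¬ (p : ℤ) ∣ uf a b c j := by
        intro h4 h5
        have h6 : (p : ℤ) ∣ Int.gcd (uf a b c j) d := Int.dvd_coe_gcd h5 (Int.natCast_dvd_natCast.2 hpd)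
        rw [h4] at h6
        have h7 : p ∣ 1 := by exact_mod_cast h6
        exact hp.one_lt.ne' (Nat.dvd_one.1 h7)
      by_cases h4 : Int.gcd (uf a b c j) d = 1
      · rw [if_pos h4, if_pos (h2.2 ⟨h4, h3 h4⟩)]
      · rw [if_neg h4, if_neg (fun h5 => h4 (h2.1 h5).1)]
    rw [sum_congr rfl h1]
    exact per_mul d p _ (wd_term_period ψ d hf)
  · rw [if_neg hpd]
    unfold Wd
    rw [mul_comm p d]
    have h1 : ∀ j ∈ range (d * p), (if Int.gcd (uf a b c j) ((d * p : ℕ) : ℤ) = 1 then ψ ((uf a b c j : ℤ) : ZMod f) else 0) =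
        (if Int.gcd (uf a b c j) d = 1 then ψ ((uf a b c j : ℤ) : ZMod f) else 0) *
          (if (p : ℤ) ∣ uf a b c j then 0 else 1) := by
      intro j _
      rw [mul_comm d p]
      have h2 := hgcd j
      by_cases h4 : Int.gcd (uf a b c j) d = 1
      · rw [if_pos h4]
        by_cases h5 : (p : ℤ) ∣ uf a b c j
        · rw [if_pos h5, if_neg (fun h6 => (h2.1 h6).2 h5), mul_zero]
        · rw [if_neg h5, if_pos (h2.2 ⟨h4, h5⟩), mul_one]
      · rw [if_neg h4, if_neg (fun h5 => h4 (h2.1 h5).1), zero_mul]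
    rw [sum_congr rfl h1]
    have hco : d.Coprime p := ((Nat.Prime.coprime_iff_not_dvd hp).2 hpd).symm
    rw [crt_sum d p hd hp.pos hco (fun j => if Int.gcd (uf a b c j) d = 1 then ψ ((uf a b c j : ℤ) : ZMod f) else 0)
      (fun j => if (p : ℤ) ∣ uf a b c j then 0 else 1) (wd_term_period ψ d hf) (fun m => by simp only [dvd_uf]),
      sum_ndvd p hp.pos]
    ring

/-- the dependence on the modulus -/
lemma Wd_div {f : ℕ} (hf : 0 < f) (ψ : DirichletCharacter ℂ f) (d : ℕ) (hd : 0 < d) :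
    Wd a b c ψ (d * f) / ((d * f).totient : ℂ) = Wd a b c ψ f / (f.totient : ℂ) * (hh (gp a b c) f d : ℂ) := by
  induction d using induction_on_primes with
  | zero => omega
  | one => simp [hh_one]
  | prime_mul p d hp ih =>
    have hd0 : 0 < d := by
      rcases Nat.eq_zero_or_pos d with h | h
      · subst h; simp at hd
      · exact h
    have ih' := ih hd0
    have hdf : 0 < d * f := Nat.mul_pos hd0 hf
    rw [mul_assoc p d f, Wd_mul ψ (d * f) p hdf (Dvd.intro_left d rfl) hp, hh_mul_prime (gp a b c) f d p hf hd0 hp]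
    have hφ : ((d * f).totient : ℂ) ≠ 0 := by exact_mod_cast (Nat.totient_pos.2 hdf).ne'
    by_cases hpd : p ∣ d * f
    · rw [if_pos hpd, if_pos (by rwa [mul_comm f d]), Nat.totient_mul_of_prime_of_dvd hp hpd]
      have hp0 : (p : ℂ) ≠ 0 := by exact_mod_cast hp.ne_zero
      have e : (p : ℂ) * Wd a b c ψ (d * f) / ((p * (d * f).totient : ℕ) : ℂ) = Wd a b c ψ (d * f) / ((d * f).totient : ℂ) := by
        push_cast
        field_simp
      rw [e, ih']
      push_cast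
      ring
    · rw [if_neg hpd, if_neg (by rwa [mul_comm f d]), Nat.totient_mul_of_prime_of_not_dvd hp hpd]
      have hp1 : ((p : ℂ) - 1) ≠ 0 := by
        have h1 : 1 < p := hp.one_lt
        intro h0
        have : (p : ℂ) = 1 := by linear_combination h0
        have : p = 1 := by exact_mod_cast this
        omega
      have hc1 : (((p - 1 : ℕ) : ℕ) : ℂ) = (p : ℂ) - 1 := by
        rw [Nat.cast_sub hp.one_lt.le, Nat.cast_one]
      have e : ((p : ℂ) - r0 a b c p) * Wd a b c ψ (d * f) / (((p - 1) * (d * f).totient : ℕ) : ℂ) =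
          (((p : ℂ) - r0 a b c p) / (p - 1)) * (Wd a b c ψ (d * f) / ((d * f).totient : ℂ)) := by
        push_cast [hc1]
        field_simp
      rw [e, ih']
      have e2 : ((p : ℂ) - r0 a b c p) / (p - 1) = ((1 + gp a b c p : ℝ) : ℂ) := by
        unfold gp
        push_cast
        field_simp
        ring
      rw [e2]
      push_cast
      ring

lemma conj_inv {d : ℕ} [NeZero d] (χ : DirichletCharacter ℂ d) {x : ZMod d} (hx : IsUnit x) :
    χ x⁻¹ = (starRingEnd ℂ) (χ x) := by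
  have h1 : χ x⁻¹ * χ x = 1 := by
    rw [← map_mul, ZMod.inv_mul_of_unit x hx, map_one]
  have h2 : (starRingEnd ℂ) (χ x) * χ x = 1 := by
    rw [mul_comm, Complex.mul_conj, Complex.normSq_eq_norm_sq]
    obtain ⟨u, hu⟩ := hx
    rw [← hu, DirichletCharacter.unit_norm_eq_one]
    norm_num
  have h3 : χ x ≠ 0 := right_ne_zero_of_mul_eq_one h1
  exact mul_right_cancel₀ h3 (h1.trans h2.symm)

/-- the number of solutions in terms of characters -/
lemma rho_char (d : ℕ) (hd : 0 < d) (v : ℕ) (hv : v.Coprime d) :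
    (rho a b c d v : ℂ) = ((d.totient : ℂ))⁻¹ * ∑ f ∈ d.divisors, ∑ ψ ∈ Prim f,
      (starRingEnd ℂ) (ψ (v : ZMod f)) * Wd a b c ψ d := by
  have : NeZero d := ⟨hd.ne'⟩
  have hφ : (d.totient : ℂ) ≠ 0 := by exact_mod_cast (Nat.totient_pos.2 hd).ne'
  have hvu : IsUnit ((v : ℕ) : ZMod d) := (ZMod.isUnit_iff_coprime v d).2 hv
  rw [← sum_prim d (fun χ => ∑ j ∈ range d, χ ((v : ZMod d)⁻¹) * χ ((uf a b c j : ℤ) : ZMod d))
    (fun f ψ => (starRingEnd ℂ) (ψ (v : ZMod f)) * Wd a b c ψ d) ?_]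
  · rw [sum_comm, sum_congr rfl fun j _ => DirichletCharacter.sum_char_inv_mul_char_eq ℂ hvu _]
    unfold rho
    rw [card_eq_sum_ones, sum_filter]
    push_cast
    rw [mul_sum]
    refine sum_congr rfl fun j _ => ?_
    have hiff : ((v : ZMod d) = ((uf a b c j : ℤ) : ZMod d)) ↔ (d : ℤ) ∣ uf a b c j - v := by
      have h1 : (v : ZMod d) = (((v : ℤ)) : ZMod d) := by push_cast; rfl
      rw [h1, ZMod.intCast_eq_intCast_iff_dvd_sub]
    by_cases h : (v : ZMod d) = ((uf a b c j : ℤ) : ZMod d)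
    · rw [if_pos h, if_pos (hiff.1 h), inv_mul_cancel₀ hφ]
    · rw [if_neg h, if_neg (fun h' => h (hiff.2 h')), mul_zero]
  · intro f hfd ψ
    have hf : 0 < f := Nat.pos_of_dvd_of_pos hfd hd
    unfold Wd
    rw [mul_sum]
    refine sum_congr rfl fun j _ => ?_
    rw [conj_inv _ hvu]
    have h1 : (DirichletCharacter.changeLevel hfd ψ) (v : ZMod d) = ψ (v : ZMod f) := by
      have h2 := DirichletCharacter.changeLevel_eq_cast_of_dvd ψ hfd hvu.unit
      rw [IsUnit.unit_spec] at h2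
      rw [h2]
      congr 1
      exact ZMod.cast_natCast hfd v
    rw [h1]
    congr 1
    by_cases hu : IsUnit ((uf a b c j : ℤ) : ZMod d)
    · have hg : Int.gcd (uf a b c j) d = 1 := by
        rw [ZMod.coe_int_isUnit_iff_isCoprime, isCoprime_comm, Int.isCoprime_iff_gcd_eq_one] at hu
        exact hu
      rw [if_pos hg]
      have h2 := DirichletCharacter.changeLevel_eq_cast_of_dvd ψ hfd hu.unit
      rw [IsUnit.unit_spec] at h2
      rw [h2]
      congr 1
      exact ZMod.cast_intCast hfd _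
    · have hg : ¬ Int.gcd (uf a b c j) d = 1 := by
        rw [ZMod.coe_int_isUnit_iff_isCoprime, isCoprime_comm, Int.isCoprime_iff_gcd_eq_one] at hu
        exact hu
      rw [if_neg hg, MulChar.map_nonunit _ hu]

/-- the local mean in terms of the numbers of solutions -/
lemma mK_rho (k : ℕ) (hk : 0 < k) (v : ℤ) : mK a b k (v - c) =
    ∑ x ∈ k.divisorsAntidiagonal, (ArithmeticFunction.moebius x.1 : ℂ) * (rho a b c x.2 v : ℂ) := by
  have hk0 : (k : ℂ) ≠ 0 := by exact_mod_cast hk.ne'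
  unfold mK
  have h1 : ∀ j ∈ range k, cR k (qf a b j - (v - c)) = ∑ x ∈ k.divisorsAntidiagonal,
      (ArithmeticFunction.moebius x.1 : ℂ) * (if (x.2 : ℤ) ∣ uf a b c j - v then (x.2 : ℂ) else 0) := by
    intro j _
    rw [cR_eq k hk]
    have e : qf a b j - (v - c) = uf a b c j - v := by unfold uf; ring
    rw [e]
  rw [sum_congr rfl h1, sum_comm, mul_sum]
  refine sum_congr rfl fun x hx => ?_
  rw [Nat.mem_divisorsAntidiagonal] at hx
  obtain ⟨hx1, -⟩ := hx
  rw [← mul_sum]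
  have hper : ∀ m : ℕ, (if (x.2 : ℤ) ∣ uf a b c (m + x.2) - v then (x.2 : ℂ) else 0) =
      (if (x.2 : ℤ) ∣ uf a b c m - v then (x.2 : ℂ) else 0) := by
    intro m
    obtain ⟨u, hu⟩ := uf_add (a := a) (b := b) (c := c) x.2 m
    have e : uf a b c (m + x.2) - v = (uf a b c m - v) + x.2 * u := by linarith
    rw [e]
    congr 1
    rw [dvd_add_left (dvd_mul_right _ _)]
  have h2 := per_mul x.2 x.1 (fun j => if (x.2 : ℤ) ∣ uf a b c j - v then (x.2 : ℂ) else 0) hper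
  rw [mul_comm x.2 x.1, hx1] at h2
  rw [h2, ← sum_filter, sum_const, nsmul_eq_mul]
  have hkx : (k : ℂ) = x.1 * x.2 := by rw [← hx1]; push_cast; rfl
  have e3 : (((range x.2).filter (fun j => (x.2 : ℤ) ∣ uf a b c j - v)).card : ℂ) = (rho a b c x.2 v : ℂ) := rfl
  rw [e3]
  calc (k : ℂ)⁻¹ * ((ArithmeticFunction.moebius x.1 : ℂ) * ((x.1 : ℂ) * ((rho a b c x.2 v : ℂ) * (x.2 : ℂ)))) =
      (k : ℂ)⁻¹ * ((x.1 : ℂ) * x.2) * ((ArithmeticFunction.moebius x.1 : ℂ) * (rho a b c x.2 v : ℂ)) := by ring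
    _ = _ := by rw [← hkx, inv_mul_cancel₀ hk0, one_mul]

lemma bij_aux (Q f : ℕ) (hf0 : 0 < f) (F : ℕ × ℕ → ℂ) :
    ∑ k ∈ Icc 1 Q, ∑ x ∈ k.divisorsAntidiagonal.filter (fun x => f ∣ x.2), F x =
      ∑ n ∈ Icc 1 (Q / f), ∑ y ∈ n.divisorsAntidiagonal, F (y.1, y.2 * f) := by
  rw [sum_sigma', sum_sigma']
  refine sum_nbij' (fun s : (Σ _ : ℕ, ℕ × ℕ) => (⟨s.1 / f, (s.2.1, s.2.2 / f)⟩ : (Σ _ : ℕ, ℕ × ℕ)))
    (fun t : (Σ _ : ℕ, ℕ × ℕ) => (⟨t.1 * f, (t.2.1, t.2.2 * f)⟩ : (Σ _ : ℕ, ℕ × ℕ))) ?_ ?_ ?_ ?_ ?_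
  · intro s hs
    rw [mem_sigma, mem_Icc, mem_filter, Nat.mem_divisorsAntidiagonal] at hs
    obtain ⟨⟨h3, h4⟩, ⟨h5, h6⟩, h7⟩ := hs
    obtain ⟨u, hu⟩ := h7
    rw [mem_sigma, mem_Icc, Nat.mem_divisorsAntidiagonal]
    have e1 : s.2.2 / f = u := by rw [hu]; exact Nat.mul_div_cancel_left _ hf0
    have e2 : s.1 = f * (s.2.1 * u) := by rw [← h5, hu]; ring
    have e3 : s.1 / f = s.2.1 * u := by rw [e2]; exact Nat.mul_div_cancel_left _ hf0
    have e4 : s.2.1 * u ≠ 0 := by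
      intro h; rw [h, mul_zero] at e2; omega
    simp only
    rw [e1]
    exact ⟨⟨by rw [e3]; omega, Nat.div_le_div_right h4⟩, e3.symm, by rw [e3]; exact e4⟩
  · intro t ht
    rw [mem_sigma, mem_Icc, Nat.mem_divisorsAntidiagonal] at ht
    obtain ⟨⟨h3, h4⟩, h5, h6⟩ := ht
    rw [mem_sigma, mem_Icc, mem_filter, Nat.mem_divisorsAntidiagonal]
    simp only
    refine ⟨⟨Nat.mul_pos h3 hf0, ?_⟩, ⟨by rw [← h5]; ring, (Nat.mul_pos h3 hf0).ne'⟩, Dvd.intro_left _ rfl⟩
    exact (Nat.mul_le_mul_right f h4).trans (Nat.div_mul_le_self Q f)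
  · intro s hs
    rw [mem_sigma, mem_Icc, mem_filter, Nat.mem_divisorsAntidiagonal] at hs
    obtain ⟨⟨h3, h4⟩, ⟨h5, h6⟩, h7⟩ := hs
    have e1 : s.2.2 / f * f = s.2.2 := Nat.div_mul_cancel h7
    have e2 : s.1 / f * f = s.1 := Nat.div_mul_cancel (by rw [← h5]; exact dvd_mul_of_dvd_right h7 _)
    obtain ⟨k, x, y⟩ := s
    simp only at e1 e2 ⊢
    rw [e1, e2]
  · intro t ht
    obtain ⟨k, x, y⟩ := t
    simp only
    rw [Nat.mul_div_cancel _ hf0, Nat.mul_div_cancel _ hf0]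
  · intro s hs
    rw [mem_sigma, mem_Icc, mem_filter, Nat.mem_divisorsAntidiagonal] at hs
    simp only
    rw [Nat.div_mul_cancel hs.2.2]

/-- the local means in terms of characters -/
theorem mK_sum (Q v : ℕ) (hv : ∀ k ∈ Icc 1 Q, v.Coprime k) :
    ∑ k ∈ Icc 1 Q, mK a b k ((v : ℤ) - c) = ∑ f ∈ Icc 1 Q, ∑ ψ ∈ Prim f,
      (starRingEnd ℂ) (ψ (v : ZMod f)) * (Wd a b c ψ f / (f.totient : ℂ) * ∑ n ∈ Icc 1 (Q / f), (GG (gp a b c) f n : ℂ)) := by
  have h1 : ∀ k ∈ Icc 1 Q, mK a b k ((v : ℤ) - c) = ∑ f ∈ Icc 1 Q, ∑ x ∈ k.divisorsAntidiagonal.filter (fun x => f ∣ x.2),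
      ∑ ψ ∈ Prim f, (ArithmeticFunction.moebius x.1 : ℂ) *
        ((starRingEnd ℂ) (ψ (v : ZMod f)) * (Wd a b c ψ x.2 / (x.2.totient : ℂ))) := by
    intro k hk
    rw [mK_rho k (by rw [mem_Icc] at hk; omega)]
    rw [mem_Icc] at hk
    have h2 : ∀ x ∈ k.divisorsAntidiagonal, (ArithmeticFunction.moebius x.1 : ℂ) * (rho a b c x.2 (v : ℤ) : ℂ) =
        ∑ f ∈ (Icc 1 Q).filter (fun f => f ∣ x.2), ∑ ψ ∈ Prim f, (ArithmeticFunction.moebius x.1 : ℂ) *
        ((starRingEnd ℂ) (ψ (v : ZMod f)) * (Wd a b c ψ x.2 / (x.2.totient : ℂ))) := by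
      intro x hx
      rw [Nat.mem_divisorsAntidiagonal] at hx
      obtain ⟨hx1, hx0⟩ := hx
      have hx2 : 0 < x.2 := by
        rcases Nat.eq_zero_or_pos x.2 with h | h
        · rw [h, mul_zero] at hx1; omega
        · exact h
      have hx1' : 0 < x.1 := by
        rcases Nat.eq_zero_or_pos x.1 with h | h
        · rw [h, zero_mul] at hx1; omega
        · exact h
      have hxk : x.2 ≤ k := by rw [← hx1]; exact Nat.le_mul_of_pos_left _ hx1'
      rw [rho_char x.2 hx2 v (hv x.2 (mem_Icc.2 ⟨hx2, hxk.trans hk.2⟩))]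
      have h3 : x.2.divisors = (Icc 1 Q).filter (fun f => f ∣ x.2) := by
        ext f
        rw [Nat.mem_divisors, mem_filter, mem_Icc]
        constructor
        · rintro ⟨h4, _⟩
          exact ⟨⟨Nat.pos_of_dvd_of_pos h4 hx2, (Nat.le_of_dvd hx2 h4).trans (hxk.trans hk.2)⟩, h4⟩
        · rintro ⟨_, h4⟩
          exact ⟨h4, hx2.ne'⟩
      rw [h3, mul_sum, mul_sum]
      refine sum_congr rfl fun f _ => ?_
      rw [mul_sum, mul_sum]
      refine sum_congr rfl fun ψ _ => ?_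
      ring
    rw [sum_congr rfl h2]
    simp only [sum_filter]
    rw [sum_comm]
  rw [sum_congr rfl h1, sum_comm]
  refine sum_congr rfl fun f hf => ?_
  rw [mem_Icc] at hf
  have hf0 : 0 < f := hf.1
  -- the bijection
  have h2 : ∑ k ∈ Icc 1 Q, ∑ x ∈ k.divisorsAntidiagonal.filter (fun x => f ∣ x.2),
      ∑ ψ ∈ Prim f, (ArithmeticFunction.moebius x.1 : ℂ) *
        ((starRingEnd ℂ) (ψ (v : ZMod f)) * (Wd a b c ψ x.2 / (x.2.totient : ℂ))) =
      ∑ n ∈ Icc 1 (Q / f), ∑ y ∈ n.divisorsAntidiagonal,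
      ∑ ψ ∈ Prim f, (ArithmeticFunction.moebius y.1 : ℂ) *
        ((starRingEnd ℂ) (ψ (v : ZMod f)) * (Wd a b c ψ (y.2 * f) / ((y.2 * f).totient : ℂ))) :=
    bij_aux Q f hf0 (fun x => ∑ ψ ∈ Prim f, (ArithmeticFunction.moebius x.1 : ℂ) *
        ((starRingEnd ℂ) (ψ (v : ZMod f)) * (Wd a b c ψ x.2 / (x.2.totient : ℂ))))
  rw [h2]
  have h3 : ∀ n ∈ Icc 1 (Q / f), ∑ y ∈ n.divisorsAntidiagonal,
      ∑ ψ ∈ Prim f, (ArithmeticFunction.moebius y.1 : ℂ) *
        ((starRingEnd ℂ) (ψ (v : ZMod f)) * (Wd a b c ψ (y.2 * f) / ((y.2 * f).totient : ℂ))) =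
      ∑ ψ ∈ Prim f, (starRingEnd ℂ) (ψ (v : ZMod f)) * (Wd a b c ψ f / (f.totient : ℂ) * (GG (gp a b c) f n : ℂ)) := by
    intro n hn
    rw [mem_Icc] at hn
    rw [sum_comm]
    refine sum_congr rfl fun ψ _ => ?_
    rw [← hh_moebius (gp a b c) f n hn.1]
    push_cast
    rw [mul_sum, mul_sum]
    refine sum_congr rfl fun y hy => ?_
    rw [Nat.mem_divisorsAntidiagonal] at hy
    have hy2 : 0 < y.2 := by
      rcases Nat.eq_zero_or_pos y.2 with h | h
      · exfalso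
        apply hy.2
        rw [← hy.1, h, mul_zero]
      · exact h
    rw [Wd_div hf0 ψ y.2 hy2]
    ring
  rw [sum_congr rfl h3, sum_comm]
  refine sum_congr rfl fun ψ _ => ?_
  rw [← mul_sum, ← mul_sum]

end

end Pool.Agent.K7.H51.PS
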