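import Mathlib
import Pool.Agent.K7.H51.PS.Chr
import Pool.Agent.R460.SB.Cnt

set_option autoImplicit false

/-! The bound for the complete character sums. -/

namespace Pool.Agent.K7.H51.PS

open Finset
open Pool.Agent.H398R2.BV (Prim)
open Pool.Agent.R460.SB (Sq Sq_le)

lemma le_tau_phi (n : ℕ) (hn : 0 < n) : (n : ℝ) ≤ n.divisors.card * (n.totient : ℝ) := by
  have h1 := Nat.totient_mul_prod_primeFactors n
  have h2 : ∏ p ∈ n.primeFactors, p ≤ 2 ^ n.primeFactors.card * ∏ p ∈ n.primeFactors, (p - 1) := by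
    rw [← prod_const, ← prod_mul_distrib]
    apply prod_le_prod'
    intro p hp
    have := (Nat.prime_of_mem_primeFactors hp).two_le
    omega
  have h3 : 0 < ∏ p ∈ n.primeFactors, (p - 1) := by
    apply prod_pos
    intro p hp
    have := (Nat.prime_of_mem_primeFactors hp).two_le
    omega
  have h4 : n ≤ 2 ^ n.primeFactors.card * n.totient := by
    apply Nat.le_of_mul_le_mul_right _ h3
    rw [← h1]
    calc n.totient * ∏ p ∈ n.primeFactors, p ≤ n.totient * (2 ^ n.primeFactors.card * ∏ p ∈ n.primeFactors, (p - 1)) :=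
          Nat.mul_le_mul_left _ h2
      _ = _ := by ring
  have h5 := Pool.Agent.H398R2.BV.two_pow_omega_le n hn.ne'
  have h6 : n ≤ n.divisors.card * n.totient := h4.trans (Nat.mul_le_mul_right _ h5)
  exact_mod_cast h6

lemma Wd_eq_Sq (a b c : ℤ) (f : ℕ) [NeZero f] (ψ : DirichletCharacter ℂ f) :
    Wd a b c ψ f = Sq (-a) ((-b : ℤ) : ZMod f) ψ ((c : ℤ) : ZMod f) := by
  unfold Wd Sq
  have h1 : ∀ j ∈ range f, (if Int.gcd (uf a b c j) f = 1 then ψ ((uf a b c j : ℤ) : ZMod f) else 0) =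
      ψ (((c : ℤ) : ZMod f) - ((((-a : ℤ)) : ZMod f) * ((j : ℕ) : ZMod f) ^ 2 + ((-b : ℤ) : ZMod f) * ((j : ℕ) : ZMod f))) := by
    intro j _
    have e1 : (((c : ℤ) : ZMod f) - ((((-a : ℤ)) : ZMod f) * ((j : ℕ) : ZMod f) ^ 2 + ((-b : ℤ) : ZMod f) * ((j : ℕ) : ZMod f))) =
        ((uf a b c j : ℤ) : ZMod f) := by
      unfold uf qf
      push_cast
      ring
    rw [e1]
    by_cases hg : Int.gcd (uf a b c j) f = 1
    · rw [if_pos hg]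
    · rw [if_neg hg, MulChar.map_nonunit]
      rw [ZMod.coe_int_isUnit_iff_isCoprime, isCoprime_comm, Int.isCoprime_iff_gcd_eq_one]
      exact hg
  rw [sum_congr rfl h1]
  refine sum_nbij' (fun j => ((j : ℕ) : ZMod f)) (fun x => x.val) ?_ ?_ ?_ ?_ ?_
  · intro j _; exact mem_univ _
  · intro x _; rw [mem_range]; exact ZMod.val_lt x
  · intro j hj
    rw [mem_range] at hj
    exact ZMod.val_cast_of_lt hj
  · intro x _
    exact ZMod.natCast_zmod_val x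
  · intro j _
    rfl

lemma gcd_val (D : ℤ) (f : ℕ) [NeZero f] : Nat.gcd ((D : ℤ) : ZMod f).val f = Int.gcd D f := by
  have h1 : (((((D : ℤ) : ZMod f).val : ℕ) : ℤ)) = D % f := ZMod.val_intCast D
  have h2 : Int.gcd (D % f) f = Int.gcd D f := by
    rw [Int.gcd_emod, Int.gcd_comm]
  rw [← h2, ← h1, Int.gcd_natCast_natCast]

/-- the bound for one complete sum -/
lemma Wd_sq {a b c : ℤ} (ha : a ≠ 0) {f : ℕ} (hf : 0 < f) {ψ : DirichletCharacter ℂ f} (hψ : ψ ∈ Prim f) {g : ℕ}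
    (hg : Int.gcd (b ^ 2 - 4 * a * c) f ≤ g) :
    ‖Wd a b c ψ f‖ ^ 2 ≤ 8 * (a : ℝ) ^ 2 * g * (f.divisors.card : ℝ) ^ 3 * (1 + Real.log f) ^ 2 * f := by
  classical
  have : NeZero f := ⟨hf.ne'⟩
  have hφ : (0 : ℝ) < f.totient := by exact_mod_cast Nat.totient_pos.2 hf
  have hf0 : (0 : ℝ) < f := by exact_mod_cast hf
  have h1 := Sq_le (neg_ne_zero.2 ha) ((-b : ℤ) : ZMod f) ψ ((c : ℤ) : ZMod f)
  rw [← Wd_eq_Sq] at h1
  have e1 : 4 * ((-a : ℤ) : ZMod f) * ((c : ℤ) : ZMod f) + ((-b : ℤ) : ZMod f) ^ 2 = ((b ^ 2 - 4 * a * c : ℤ) : ZMod f) := by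
    push_cast
    ring
  rw [e1, gcd_val] at h1
  have hcond : ψ.conductor = f := by
    unfold Prim at hψ
    rw [mem_filter] at hψ
    exact hψ.2
  rw [hcond] at h1
  have e2 : (f : ℝ) / Real.sqrt f = Real.sqrt f := Real.div_sqrt
  rw [e2] at h1
  have e3 : |((-a : ℤ) : ℝ)| = |(a : ℝ)| := by push_cast; rw [abs_neg]
  rw [e3] at h1
  have hgr : (Int.gcd (b ^ 2 - 4 * a * c) f : ℝ) ≤ g := by exact_mod_cast hg
  have h2 : (f.totient : ℝ) * ‖Wd a b c ψ f‖ ^ 2 ≤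
      8 * (a : ℝ) ^ 2 * g * (f.divisors.card : ℝ) ^ 2 * (1 + Real.log f) ^ 2 * f ^ 2 := by
    refine h1.trans ?_
    rw [mul_pow, Real.sq_sqrt hf0.le]
    have e4 : (a : ℝ) ^ 2 = |(a : ℝ)| ^ 2 := (sq_abs _).symm
    rw [e4]
    have h3 : 0 ≤ |(a : ℝ)| ^ 2 * (f.divisors.card : ℝ) ^ 2 * (1 + Real.log f) ^ 2 * f ^ 2 := by positivity
    nlinarith
  have h3 := le_tau_phi f hf
  have h4 : 0 ≤ 8 * (a : ℝ) ^ 2 * g * (f.divisors.card : ℝ) ^ 2 * (1 + Real.log f) ^ 2 * f := by positivity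
  have h5 : (f.totient : ℝ) * ‖Wd a b c ψ f‖ ^ 2 ≤
      (f.totient : ℝ) * (8 * (a : ℝ) ^ 2 * g * (f.divisors.card : ℝ) ^ 3 * (1 + Real.log f) ^ 2 * f) := by
    refine h2.trans ?_
    calc 8 * (a : ℝ) ^ 2 * g * (f.divisors.card : ℝ) ^ 2 * (1 + Real.log f) ^ 2 * f ^ 2 =
        8 * (a : ℝ) ^ 2 * g * (f.divisors.card : ℝ) ^ 2 * (1 + Real.log f) ^ 2 * f * f := by ring
      _ ≤ 8 * (a : ℝ) ^ 2 * g * (f.divisors.card : ℝ) ^ 2 * (1 + Real.log f) ^ 2 * f * (f.divisors.card * (f.totient : ℝ)) :=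
        mul_le_mul_of_nonneg_left h3 h4
      _ = _ := by ring
  exact le_of_mul_le_mul_left h5 hφ

lemma le_of_sq_le_sq_aux {x y : ℝ} (h : x ^ 2 ≤ y ^ 2) (hy : 0 ≤ y) : x ≤ y := by
  by_contra h1
  push_neg at h1
  nlinarith

/-- the bound with powers of the modulus only -/
lemma Wd_le : ∃ C : ℝ, 0 < C ∧ ∀ a b c : ℤ, a ≠ 0 → ∀ f : ℕ, 0 < f → ∀ ψ ∈ Prim f, ∀ g : ℝ, 0 ≤ g →
    (Int.gcd (b ^ 2 - 4 * a * c) f : ℝ) ≤ g →
    ‖Wd a b c ψ f‖ ≤ C * |(a : ℝ)| * Real.sqrt g * (f : ℝ) ^ (5 / 8 : ℝ) := by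
  obtain ⟨C, hC, hd⟩ := Pool.Agent.Helper112.divisor_bound (1 / 24) (by norm_num)
  refine ⟨Real.sqrt (8 * C ^ 3 * 289), by positivity, ?_⟩
  intro a b c ha f hf ψ hψ g hg0 hg
  have hf0 : (0 : ℝ) < f := by exact_mod_cast hf
  have hf1 : (1 : ℝ) ≤ f := by exact_mod_cast hf
  have h1 := Wd_sq (a := a) (b := b) (c := c) ha hf hψ (g := Int.gcd (b ^ 2 - 4 * a * c) f) le_rfl
  have h2 : Real.log f ≤ 16 * (f : ℝ) ^ (1 / 16 : ℝ) := by
    have := Real.log_le_rpow_div hf0.le (show (0 : ℝ) < 1 / 16 by norm_num)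
    linarith
  have h3 : (1 : ℝ) ≤ (f : ℝ) ^ (1 / 16 : ℝ) := Real.one_le_rpow hf1 (by norm_num)
  have h4 : (1 + Real.log f) ^ 2 ≤ 289 * (f : ℝ) ^ (1 / 8 : ℝ) := by
    have h5 : 0 ≤ Real.log f := Real.log_nonneg hf1
    calc (1 + Real.log f) ^ 2 ≤ (17 * (f : ℝ) ^ (1 / 16 : ℝ)) ^ 2 := pow_le_pow_left₀ (by linarith) (by linarith) 2
      _ = 289 * (((f : ℝ) ^ (1 / 16 : ℝ)) ^ 2) := by ring
      _ = _ := by
        rw [← Real.rpow_natCast ((f : ℝ) ^ (1 / 16 : ℝ)), ← Real.rpow_mul hf0.le]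
        norm_num
  have h5 : (f.divisors.card : ℝ) ^ 3 ≤ C ^ 3 * (f : ℝ) ^ (1 / 8 : ℝ) := by
    calc (f.divisors.card : ℝ) ^ 3 ≤ (C * (f : ℝ) ^ (1 / 24 : ℝ)) ^ 3 :=
          pow_le_pow_left₀ (by positivity) (hd f hf) 3
      _ = C ^ 3 * (((f : ℝ) ^ (1 / 24 : ℝ)) ^ 3) := by ring
      _ = _ := by
        rw [← Real.rpow_natCast ((f : ℝ) ^ (1 / 24 : ℝ)), ← Real.rpow_mul hf0.le]
        norm_num
  have h6 : ‖Wd a b c ψ f‖ ^ 2 ≤ (Real.sqrt (8 * C ^ 3 * 289) * |(a : ℝ)| * Real.sqrt g * (f : ℝ) ^ (5 / 8 : ℝ)) ^ 2 := by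
    refine h1.trans ?_
    rw [mul_pow, mul_pow, mul_pow, Real.sq_sqrt (by positivity), Real.sq_sqrt hg0, sq_abs]
    have e1 : ((f : ℝ) ^ (5 / 8 : ℝ)) ^ 2 = (f : ℝ) ^ (1 / 8 : ℝ) * (f : ℝ) ^ (1 / 8 : ℝ) * f := by
      rw [← Real.rpow_natCast ((f : ℝ) ^ (5 / 8 : ℝ)), ← Real.rpow_mul hf0.le, ← Real.rpow_add hf0]
      nth_rw 3 [← Real.rpow_one (f : ℝ)]
      rw [← Real.rpow_add hf0]
      norm_num
    rw [e1]
    calc 8 * (a : ℝ) ^ 2 * (Int.gcd (b ^ 2 - 4 * a * c) f : ℝ) * (f.divisors.card : ℝ) ^ 3 * (1 + Real.log f) ^ 2 * f ≤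
        8 * (a : ℝ) ^ 2 * g * (C ^ 3 * (f : ℝ) ^ (1 / 8 : ℝ)) * (289 * (f : ℝ) ^ (1 / 8 : ℝ)) * f := by
          gcongr
      _ = _ := by ring
  exact le_of_sq_le_sq_aux h6 (by positivity)

end Pool.Agent.K7.H51.PS
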