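import Mathlib
import Pool.Agent.K7.H51.PS.WB
import Pool.Agent.W93.LV2

set_option autoImplicit false

/-! Bounds for the local weights. -/

namespace Pool.Agent.K7.H51.PS

open Finset

lemma eq_of_dvd' {p a b : ℕ} (ha : a < p) (hb : b < p) (h : (p : ℤ) ∣ (a : ℤ) - b) : a = b := by
  obtain ⟨c, hc⟩ := h
  have h6 : c = 0 := by
    have a1 : (a : ℤ) < p := by exact_mod_cast ha
    have a2 : (b : ℤ) < p := by exact_mod_cast hb
    by_contra h0
    rcases lt_or_gt_of_ne h0 with h | h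
    · nlinarith
    · nlinarith
  rw [h6, mul_zero] at hc
  omega

variable {a b c : ℤ}

lemma r0_two {p : ℕ} (hp : p.Prime) (hpa : ¬ (p : ℤ) ∣ a) : r0 a b c p ≤ 2 := by
  have hpz : Prime (p : ℤ) := Nat.prime_iff_prime_int.1 hp
  unfold r0
  rcases ((range p).filter (fun j => (p : ℤ) ∣ uf a b c j)).eq_empty_or_nonempty with he | ⟨m₀, hm₀⟩
  · rw [he, card_empty]
    norm_num
  · rw [mem_filter, mem_range] at hm₀
    obtain ⟨W, hW⟩ : ∃ W : Finset ℕ, W = (range p).filter (fun r : ℕ => (p : ℤ) ∣ a * ((r : ℤ) + m₀) + b) := ⟨_, rfl⟩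
    have hWc : W.card ≤ 1 := by
      rw [card_le_one]
      intro x hx y hy
      rw [hW, mem_filter, mem_range] at hx hy
      apply eq_of_dvd' hx.1 hy.1
      have h1 := dvd_sub hx.2 hy.2
      have e : (a * ((x : ℤ) + m₀) + b) - (a * ((y : ℤ) + m₀) + b) = a * ((x : ℤ) - y) := by ring
      rw [e] at h1
      rcases hpz.dvd_or_dvd h1 with h | h
      · exact absurd h hpa
      · exact h
    have hsub : (range p).filter (fun j => (p : ℤ) ∣ uf a b c j) ⊆ insert m₀ W := by
      intro m hm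
      rw [mem_filter, mem_range] at hm
      rw [mem_insert]
      have h4 := dvd_sub hm.2 hm₀.2
      have e : uf a b c m - uf a b c m₀ = ((m : ℤ) - m₀) * (a * ((m : ℤ) + m₀) + b) := by
        unfold uf qf
        ring
      rw [e] at h4
      rcases hpz.dvd_or_dvd h4 with h5 | h5
      · left
        exact eq_of_dvd' hm.1 hm₀.1 h5
      · right
        rw [hW, mem_filter, mem_range]
        exact ⟨hm.1, h5⟩
    exact (card_le_card hsub).trans ((card_insert_le _ _).trans (by omega))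

/-- when the prime divides the leading coefficient -/
lemma r0_dvd {p : ℕ} (hp : p.Prime) : r0 a b c p ≤ p := by
  unfold r0
  calc ((range p).filter (fun j => (p : ℤ) ∣ uf a b c j)).card ≤ (range p).card := card_filter_le _ _
    _ = p := card_range p

lemma gp_abs {p : ℕ} (hp : p.Prime) : |gp a b c p| ≤ (if (p : ℤ) ∣ a then ((p : ℝ) - 1) else 1) / (p - 1) := by
  have hp2 : (2 : ℝ) ≤ p := by exact_mod_cast hp.two_le
  have h0 : (0 : ℝ) < p - 1 := by linarith
  unfold gp
  rw [abs_div, abs_of_pos h0]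
  apply div_le_div_of_nonneg_right _ h0.le
  split_ifs with h
  · have h1 : (r0 a b c p : ℝ) ≤ p := by exact_mod_cast r0_dvd hp
    have h2 : (0 : ℝ) ≤ r0 a b c p := Nat.cast_nonneg _
    rw [abs_le]
    constructor <;> linarith
  · have h1 : (r0 a b c p : ℝ) ≤ 2 := by exact_mod_cast r0_two hp h
    have h2 : (0 : ℝ) ≤ r0 a b c p := Nat.cast_nonneg _
    rw [abs_le]
    constructor <;> linarith

lemma gp_small {p : ℕ} (hp : p.Prime) (hpa : ¬ (p : ℤ) ∣ a) : |gp a b c p| ≤ 1 / ((p : ℝ) - 1) := by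
  have := gp_abs (a := a) (b := b) (c := c) hp
  rwa [if_neg hpa] at this

lemma gp_one {p : ℕ} (hp : p.Prime) : |gp a b c p| ≤ 1 := by
  have hp2 : (2 : ℝ) ≤ p := by exact_mod_cast hp.two_le
  have h0 : (0 : ℝ) < p - 1 := by linarith
  refine (gp_abs hp).trans ?_
  rw [div_le_one h0]
  split_ifs
  · exact le_rfl
  · linarith

lemma GG_abs (ha : a ≠ 0) (f : ℕ) {n : ℕ} (hn : 0 < n) : |GG (gp a b c) f n| ≤ |(a : ℝ)| * (1 / (n.totient : ℝ)) := by
  have hφ : (0 : ℝ) < n.totient := by exact_mod_cast Nat.totient_pos.2 hn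
  unfold GG
  split_ifs with h
  · rw [abs_prod]
    have h1 : ∏ p ∈ n.primeFactors, |gp a b c p| ≤
        ∏ p ∈ n.primeFactors, ((if (p : ℤ) ∣ a then ((p : ℝ) - 1) else 1) / (p - 1)) :=
      prod_le_prod (fun _ _ => abs_nonneg _) fun p hp => gp_abs (Nat.prime_of_mem_primeFactors hp)
    refine h1.trans ?_
    rw [prod_div_distrib, div_eq_mul_one_div]
    have h2 : ∏ p ∈ n.primeFactors, ((p : ℝ) - 1) = n.totient := by
      rw [Nat.totient_eq_prod_factorization hn.ne', Finsupp.prod, Nat.support_factorization]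
      push_cast
      apply prod_congr rfl
      intro p hp
      have hpp := Nat.prime_of_mem_primeFactors hp
      have h3 : n.factorization p = 1 := by
        have h4 := (Nat.squarefree_iff_factorization_le_one hn.ne').1 h.1 p
        have h5 := hpp.factorization_pos_of_dvd hn.ne' (Nat.dvd_of_mem_primeFactors hp)
        omega
      rw [h3, Nat.sub_self, pow_zero, one_mul, Nat.cast_sub hpp.one_le, Nat.cast_one]
    rw [h2]
    apply mul_le_mul_of_nonneg_right _ (by positivity)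
    rw [← prod_filter]
    have h3 : ∏ p ∈ n.primeFactors.filter (fun p : ℕ => (p : ℤ) ∣ a), ((p : ℝ) - 1) ≤
        ∏ p ∈ n.primeFactors.filter (fun p : ℕ => (p : ℤ) ∣ a), (p : ℝ) := by
      apply prod_le_prod
      · intro p hp
        have := (Nat.prime_of_mem_primeFactors (mem_filter.1 hp).1).one_le
        have : (1 : ℝ) ≤ p := by exact_mod_cast this
        linarith
      · intro p _
        linarith
    refine h3.trans ?_
    have h4 : ∏ p ∈ n.primeFactors.filter (fun p : ℕ => (p : ℤ) ∣ a), p ∣ a.natAbs := by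
      apply Finset.prod_primes_dvd
      · intro p hp
        exact (Nat.prime_of_mem_primeFactors (mem_filter.1 hp).1).prime
      · intro p hp
        exact Int.natCast_dvd.1 (mem_filter.1 hp).2
    have h5 := Nat.le_of_dvd (Int.natAbs_pos.2 ha) h4
    have h6 : ((∏ p ∈ n.primeFactors.filter (fun p : ℕ => (p : ℤ) ∣ a), p : ℕ) : ℝ) ≤ (a.natAbs : ℝ) := by exact_mod_cast h5
    rw [Nat.cast_prod, Nat.cast_natAbs, Int.cast_abs] at h6
    exact h6
  · rw [abs_zero]
    positivity

lemma GG_sum (ha : a ≠ 0) (f : ℕ) {m Q : ℕ} (hmQ : m ≤ Q) :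
    ∑ n ∈ Icc 1 m, |GG (gp a b c) f n| ≤ |(a : ℝ)| * (1 + Real.log Q) ^ 2 := by
  have h1 : ∑ n ∈ Icc 1 m, |GG (gp a b c) f n| ≤ ∑ n ∈ Icc 1 m, |(a : ℝ)| * (1 / (n.totient : ℝ)) :=
    sum_le_sum fun n hn => GG_abs ha f (mem_Icc.1 hn).1
  refine h1.trans ?_
  rw [← mul_sum]
  exact mul_le_mul_of_nonneg_left (Pool.Agent.W93.LV.inv_phi_sum m Q hmQ) (abs_nonneg _)

end Pool.Agent.K7.H51.PS
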