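import Mathlib
import Pool.Agent.H398R2.BV6
import Pool.Agent.H343R2.EH.BVLog

set_option autoImplicit false

/-! The weighted mean value over primitive characters. -/

namespace Pool.Agent.K7.H51.PS

open Finset Filter Topology
open Pool.Agent.H398R2.BV
open Pool.Agent.H410R2 (psiLog SiegelWalfisz)
open Pool.Agent.Helper112 Pool.Agent.Helper112.TI Pool.Agent.Helper112.TII

/-- the weighted mean value -/
noncomputable def wS (X : ℝ) (Q : ℕ) : ℝ :=
  ∑ f ∈ Icc 2 Q, ((f : ℝ) ^ (5 / 8 : ℝ) / (f.totient : ℝ)) * ∑ ψ ∈ Prim f, ‖psiLog X f ψ‖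

lemma key_block {X y : ℝ} {U V B' : ℕ} (hX : 4 ≤ X) (hL : 1 ≤ Real.log X) (hU : X ^ (1 / 4 : ℝ) ≤ U)
    (hV : X ^ (1 / 4 : ℝ) ≤ V) (hy1 : Real.log X ^ (3 * B') ≤ y) (hy2 : y ≤ 2 * X ^ (1 / 16 : ℝ)) :
    y ^ (5 / 8 : ℝ) * (Real.sqrt X / (y / 2) + (Real.sqrt (X / U) + Real.sqrt (X / V)) + y) * Real.sqrt X ≤
      2 * X / Real.log X ^ B' + 8 * X ^ (15 / 16 : ℝ) := by
  obtain ⟨L, hLd⟩ : ∃ L, L = Real.log X := ⟨_, rfl⟩
  rw [← hLd] at hL hy1 ⊢
  have hX0 : 0 < X := by linarith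
  have hX1 : 1 ≤ X := by linarith
  have hy0 : 1 ≤ y := (one_le_pow₀ hL).trans hy1
  have hy00 : 0 < y := by linarith
  have hsX : Real.sqrt X = X ^ (1 / 2 : ℝ) := Real.sqrt_eq_rpow X
  have hss : Real.sqrt X * Real.sqrt X = X := Real.mul_self_sqrt hX0.le
  have hfac : ∀ W : ℕ, X ^ (1 / 4 : ℝ) ≤ W → Real.sqrt (X / W) ≤ X ^ (3 / 8 : ℝ) := by
    intro W hW
    have h0 : 0 < X ^ (1 / 4 : ℝ) := by positivity
    rw [Real.sqrt_le_left (by positivity)]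
    rw [← Real.rpow_natCast (X ^ (3 / 8 : ℝ)), ← Real.rpow_mul hX0.le]
    calc X / W ≤ X / X ^ (1 / 4 : ℝ) := div_le_div_of_nonneg_left hX0.le h0 hW
      _ = X ^ (3 / 8 * ((2 : ℕ) : ℝ) : ℝ) := by
        nth_rw 1 [← Real.rpow_one X]
        rw [← Real.rpow_sub hX0]
        norm_num
  have hU' := hfac U hU
  have hV' := hfac V hV
  -- first part
  have h1 : y ^ (5 / 8 : ℝ) * (Real.sqrt X / (y / 2)) * Real.sqrt X ≤ 2 * X / L ^ B' := by
    have hLB : 0 < L ^ B' := by positivity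
    have h2 : L ^ B' ≤ y ^ (3 / 8 : ℝ) := by
      have h3 : L ^ B' = (L ^ (3 * B')) ^ (1 / 3 : ℝ) := by
        rw [← Real.rpow_natCast, ← Real.rpow_natCast, ← Real.rpow_mul (by linarith)]
        congr 1
        push_cast
        ring
      rw [h3]
      have h4 : (0 : ℝ) ≤ L ^ (3 * B') := by positivity
      calc (L ^ (3 * B')) ^ (1 / 3 : ℝ) ≤ y ^ (1 / 3 : ℝ) := Real.rpow_le_rpow h4 hy1 (by norm_num)
        _ ≤ y ^ (3 / 8 : ℝ) := Real.rpow_le_rpow_of_exponent_le hy0 (by norm_num)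
    have h3 : y ^ (5 / 8 : ℝ) * y ^ (3 / 8 : ℝ) = y := by
      rw [← Real.rpow_add hy00]
      norm_num
    have h5 : y ^ (5 / 8 : ℝ) * (Real.sqrt X / (y / 2)) * Real.sqrt X = 2 * X * (y ^ (5 / 8 : ℝ) / y) := by
      field_simp
      nlinarith [hss]
    rw [h5, mul_div_assoc (2 : ℝ) X (L ^ B')]
    have h6 : y ^ (5 / 8 : ℝ) / y ≤ 1 / L ^ B' := by
      rw [div_le_div_iff₀ hy00 hLB, one_mul]
      calc y ^ (5 / 8 : ℝ) * L ^ B' ≤ y ^ (5 / 8 : ℝ) * y ^ (3 / 8 : ℝ) := by gcongr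
        _ = y := h3
    calc 2 * X * (y ^ (5 / 8 : ℝ) / y) ≤ 2 * X * (1 / L ^ B') := by gcongr
      _ = _ := by ring
  have h2 : y ^ (5 / 8 : ℝ) * ((Real.sqrt (X / U) + Real.sqrt (X / V)) + y) * Real.sqrt X ≤ 8 * X ^ (15 / 16 : ℝ) := by
    have h3 : y ^ (5 / 8 : ℝ) ≤ 2 * X ^ (1 / 16 : ℝ) := by
      calc y ^ (5 / 8 : ℝ) ≤ y ^ (1 : ℝ) := Real.rpow_le_rpow_of_exponent_le hy0 (by norm_num)
        _ = y := Real.rpow_one y
        _ ≤ _ := hy2
    have h4 : X ^ (1 / 16 : ℝ) ≤ X ^ (3 / 8 : ℝ) := Real.rpow_le_rpow_of_exponent_le hX1 (by norm_num)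
    have h5 : (Real.sqrt (X / U) + Real.sqrt (X / V)) + y ≤ 4 * X ^ (3 / 8 : ℝ) := by linarith
    have h50 : 0 ≤ (Real.sqrt (X / U) + Real.sqrt (X / V)) + y := by positivity
    calc y ^ (5 / 8 : ℝ) * ((Real.sqrt (X / U) + Real.sqrt (X / V)) + y) * Real.sqrt X ≤
        (2 * X ^ (1 / 16 : ℝ)) * (4 * X ^ (3 / 8 : ℝ)) * X ^ (1 / 2 : ℝ) := by
          rw [← hsX]
          gcongr
      _ = 8 * (X ^ (1 / 16 : ℝ) * X ^ (3 / 8 : ℝ) * X ^ (1 / 2 : ℝ)) := by ring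
      _ = 8 * X ^ (15 / 16 : ℝ) := by
          rw [← Real.rpow_add hX0, ← Real.rpow_add hX0]
          norm_num
  calc y ^ (5 / 8 : ℝ) * (Real.sqrt X / (y / 2) + (Real.sqrt (X / U) + Real.sqrt (X / V)) + y) * Real.sqrt X =
      y ^ (5 / 8 : ℝ) * (Real.sqrt X / (y / 2)) * Real.sqrt X +
        y ^ (5 / 8 : ℝ) * ((Real.sqrt (X / U) + Real.sqrt (X / V)) + y) * Real.sqrt X := by ring
    _ ≤ _ := add_le_add h1 h2

lemma block_w {X : ℝ} (hX : 1 ≤ X) {U V : ℕ} (hU : 1 ≤ U) (hV : 1 ≤ V) (j : ℕ) (S : Finset ℕ)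
    (hS : S ⊆ Icc (2 ^ j) (2 ^ (j + 1))) :
    ∑ f ∈ S, ((f : ℝ) ^ (5 / 8 : ℝ) / (f.totient : ℝ)) * ∑ ψ ∈ Prim f, ‖TL X f ψ (LamII U V)‖ ≤
      ((2 : ℝ) ^ (j + 1)) ^ (5 / 8 : ℝ) * (12 * (1 + Real.log ((2 : ℝ) ^ (j + 1))) *
        (Real.sqrt X / 2 ^ j + (Real.sqrt (X / U) + Real.sqrt (X / V)) + 2 ^ (j + 1)) *
        (Real.sqrt X * (1 + Real.log X) ^ 3) * Real.log X) := by
  have h1 := typeII_block X hX U V (2 ^ j) (2 ^ (j + 1)) hU hV Nat.one_le_two_pow Nat.one_le_two_pow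
  push_cast at h1
  refine le_trans ?_ (mul_le_mul_of_nonneg_left h1 (by positivity))
  rw [mul_sum]
  refine le_trans ?_ (sum_le_sum_of_subset_of_nonneg hS ?_)
  · apply sum_le_sum
    intro f hfS
    have hf := hS hfS
    rw [mem_Icc] at hf
    have hf0 : 0 < f := lt_of_lt_of_le (by positivity) hf.1
    have hf0r : (0 : ℝ) < f := by exact_mod_cast hf0
    have hf2 : (f : ℝ) ≤ 2 ^ (j + 1) := by exact_mod_cast hf.2
    have h3 : 0 ≤ ∑ ψ ∈ Prim f, ‖TL X f ψ (LamII U V)‖ := sum_nonneg fun _ _ => norm_nonneg _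
    have h4 : (f : ℝ) ^ (5 / 8 : ℝ) ≤ ((2 : ℝ) ^ (j + 1)) ^ (5 / 8 : ℝ) := Real.rpow_le_rpow hf0r.le hf2 (by norm_num)
    calc ((f : ℝ) ^ (5 / 8 : ℝ) / (f.totient : ℝ)) * ∑ ψ ∈ Prim f, ‖TL X f ψ (LamII U V)‖ =
        (f : ℝ) ^ (5 / 8 : ℝ) * ((1 / (f.totient : ℝ)) * ∑ ψ ∈ Prim f, ‖TL X f ψ (LamII U V)‖) := by ring
      _ ≤ _ := mul_le_mul_of_nonneg_right h4 (mul_nonneg (by positivity) h3)
  · intro f _ _
    apply mul_nonneg (by positivity)
    exact mul_nonneg (by positivity) (sum_nonneg fun _ _ => norm_nonneg _)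

lemma typeII_w {X : ℝ} (B' : ℕ) (hX : 4 ≤ X) (hL1 : 1 ≤ Real.log X) (U V : ℕ)
    (hU : X ^ (1 / 4 : ℝ) ≤ U) (hV : X ^ (1 / 4 : ℝ) ≤ V) (S : Finset ℕ)
    (hS : ∀ f ∈ S, 2 ≤ f ∧ Real.log X ^ (3 * B') ≤ f ∧ (f : ℝ) ≤ X ^ (1 / 16 : ℝ)) :
    ∑ f ∈ S, ((f : ℝ) ^ (5 / 8 : ℝ) / (f.totient : ℝ)) * ∑ ψ ∈ Prim f, ‖TL X f ψ (LamII U V)‖ ≤
      12 * (1 + Real.log X) ^ 6 * (2 * X / Real.log X ^ B' + 8 * X ^ (15 / 16 : ℝ)) := by
  have hX0 : 0 < X := by linarith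
  have hX1 : 1 ≤ X := by linarith
  set L := Real.log X with hL
  have hp : 0 < X ^ (1 / 4 : ℝ) := by positivity
  have hU1 : 1 ≤ U := by
    by_contra h
    have : U = 0 := by omega
    subst this
    simp only [Nat.cast_zero] at hU
    linarith
  have hV1 : 1 ≤ V := by
    by_contra h
    have : V = 0 := by omega
    subst this
    simp only [Nat.cast_zero] at hV
    linarith
  have hE0 : 0 ≤ 2 * X / L ^ B' + 8 * X ^ (15 / 16 : ℝ) := by positivity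
  have hmaps : ∀ f ∈ S, Nat.log 2 f ∈ range (⌊L⌋₊ + 1) := by
    intro f hf
    obtain ⟨h2, _, h3⟩ := hS f hf
    rw [mem_range, Nat.lt_succ_iff]
    apply Nat.le_floor
    have h4 : ((2 : ℝ) ^ (Nat.log 2 f)) ≤ X ^ ((1 : ℝ) / 2) := by
      calc ((2 : ℝ) ^ (Nat.log 2 f)) ≤ f := by exact_mod_cast Nat.pow_log_le_self 2 (by omega)
        _ ≤ X ^ (1 / 16 : ℝ) := h3
        _ ≤ _ := Real.rpow_le_rpow_of_exponent_le hX1 (by norm_num)
    have h5 := Real.log_le_log (by positivity) h4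
    rw [Real.log_pow, Real.log_rpow hX0] at h5
    have h6 : (0.5 : ℝ) < Real.log 2 := by
      have := Real.log_two_gt_d9
      linarith
    have h7 : (0 : ℝ) ≤ (Nat.log 2 f : ℝ) := by positivity
    nlinarith
  rw [← sum_fiberwise_of_maps_to hmaps]
  have hblock : ∀ j ∈ range (⌊L⌋₊ + 1), ∑ f ∈ S.filter (fun f => Nat.log 2 f = j),
      ((f : ℝ) ^ (5 / 8 : ℝ) / (f.totient : ℝ)) * ∑ ψ ∈ Prim f, ‖TL X f ψ (LamII U V)‖ ≤
      12 * (1 + L) ^ 5 * (2 * X / L ^ B' + 8 * X ^ (15 / 16 : ℝ)) := by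
    intro j _
    rcases (S.filter (fun f => Nat.log 2 f = j)).eq_empty_or_nonempty with hemp | ⟨f0, hf0⟩
    · rw [hemp, sum_empty]
      positivity
    have hsub : S.filter (fun f => Nat.log 2 f = j) ⊆ Icc (2 ^ j) (2 ^ (j + 1)) := by
      intro f hf
      rw [mem_filter] at hf
      obtain ⟨h1, h2⟩ := hf
      obtain ⟨h3, _, _⟩ := hS f h1
      rw [mem_Icc, ← h2]
      exact ⟨Nat.pow_log_le_self 2 (by omega), (Nat.lt_pow_succ_log_self (by norm_num) f).le⟩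
    refine (block_w hX1 hU1 hV1 j _ hsub).trans ?_
    rw [mem_filter] at hf0
    obtain ⟨h1, h2⟩ := hf0
    obtain ⟨h3, h4, h5⟩ := hS f0 h1
    set y : ℝ := 2 ^ (j + 1) with hy
    have hy2j : (2 : ℝ) ^ j = y / 2 := by rw [hy, pow_succ]; ring
    have hj1 : (2 : ℝ) ^ j ≤ f0 := by
      rw [← h2]; exact_mod_cast Nat.pow_log_le_self 2 (by omega)
    have hj2 : (f0 : ℝ) ≤ y := by
      rw [hy, ← h2]; exact_mod_cast (Nat.lt_pow_succ_log_self (by norm_num) f0).le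
    have hyl : L ^ (3 * B') ≤ y := h4.trans hj2
    have hyu : y ≤ 2 * X ^ (1 / 16 : ℝ) := by
      have : y / 2 ≤ X ^ (1 / 16 : ℝ) := by rw [← hy2j]; exact hj1.trans h5
      linarith
    have hkey := key_block (B' := B') hX hL1 hU hV hyl hyu
    rw [← hL] at hkey
    have hy0 : 1 ≤ y := (one_le_pow₀ hL1).trans hyl
    have hyX : y ≤ X := by
      calc y ≤ 2 * X ^ (1 / 16 : ℝ) := hyu
        _ ≤ 2 * X ^ ((1 : ℝ) / 2) := by
            have : X ^ (1 / 16 : ℝ) ≤ X ^ ((1 : ℝ) / 2) :=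
              Real.rpow_le_rpow_of_exponent_le hX1 (by norm_num)
            linarith
        _ ≤ X ^ ((1 : ℝ) / 2) * X ^ ((1 : ℝ) / 2) := by
            apply mul_le_mul_of_nonneg_right _ (by positivity)
            rw [← Real.sqrt_eq_rpow]
            apply Real.le_sqrt_of_sq_le
            linarith
        _ = X := by
            rw [← Real.rpow_add hX0]; norm_num
    have hlogy : Real.log y ≤ L := Real.log_le_log (by linarith) hyX
    have hlogy0 : 0 ≤ Real.log y := Real.log_nonneg hy0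
    rw [hy2j]
    calc y ^ (5 / 8 : ℝ) * (12 * (1 + Real.log y) *
        (Real.sqrt X / (y / 2) + (Real.sqrt (X / U) + Real.sqrt (X / V)) + y) *
        (Real.sqrt X * (1 + L) ^ 3) * L) =
        12 * ((1 + Real.log y) * (1 + L) ^ 3 * L) * (y ^ (5 / 8 : ℝ) *
          (Real.sqrt X / (y / 2) + (Real.sqrt (X / U) + Real.sqrt (X / V)) + y) *
          Real.sqrt X) := by ring
      _ ≤ 12 * ((1 + L) * (1 + L) ^ 3 * (1 + L)) *
          (2 * X / L ^ B' + 8 * X ^ (15 / 16 : ℝ)) := by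
          apply mul_le_mul _ hkey (by positivity) (by positivity)
          gcongr
          linarith
      _ = _ := by ring
  refine (sum_le_sum hblock).trans ?_
  rw [sum_const, nsmul_eq_mul, card_range]
  have h8 : ((⌊L⌋₊ + 1 : ℕ) : ℝ) ≤ 1 + L := by
    push_cast
    have := Nat.floor_le (show 0 ≤ L by linarith)
    linarith
  calc ((⌊L⌋₊ + 1 : ℕ) : ℝ) * (12 * (1 + L) ^ 5 *
      (2 * X / L ^ B' + 8 * X ^ (15 / 16 : ℝ))) ≤
      (1 + L) * (12 * (1 + L) ^ 5 * (2 * X / L ^ B' + 8 * X ^ (15 / 16 : ℝ))) :=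
        mul_le_mul_of_nonneg_right h8 (by positivity)
    _ = _ := by ring

lemma wt_le {f : ℕ} (hf : 1 ≤ f) : (f : ℝ) ^ (5 / 8 : ℝ) ≤ f := by
  have h1 : (1 : ℝ) ≤ f := by exact_mod_cast hf
  calc (f : ℝ) ^ (5 / 8 : ℝ) ≤ (f : ℝ) ^ (1 : ℝ) := Real.rpow_le_rpow_of_exponent_le h1 (by norm_num)
    _ = f := Real.rpow_one _

lemma wS_const {X D : ℝ} {G : ℕ} (S : Finset ℕ) (hS : S ⊆ Icc 1 G) (hD : 0 ≤ D)
    (h : ∀ f ∈ S, ∀ ψ ∈ Prim f, ‖psiLog X f ψ‖ ≤ D) :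
    ∑ f ∈ S, ((f : ℝ) ^ (5 / 8 : ℝ) / (f.totient : ℝ)) * ∑ ψ ∈ Prim f, ‖psiLog X f ψ‖ ≤ (G : ℝ) ^ 2 * D := by
  have h1 : ∀ f ∈ S, ((f : ℝ) ^ (5 / 8 : ℝ) / (f.totient : ℝ)) * ∑ ψ ∈ Prim f, ‖psiLog X f ψ‖ ≤ G * D := by
    intro f hf
    have hf' := mem_Icc.1 (hS hf)
    have hφ : (0 : ℝ) < f.totient := by exact_mod_cast Nat.totient_pos.2 hf'.1
    have hfG : (f : ℝ) ≤ G := by exact_mod_cast hf'.2
    calc ((f : ℝ) ^ (5 / 8 : ℝ) / (f.totient : ℝ)) * ∑ ψ ∈ Prim f, ‖psiLog X f ψ‖ ≤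
        ((f : ℝ) ^ (5 / 8 : ℝ) / (f.totient : ℝ)) * ∑ _ψ ∈ Prim f, D := by
          apply mul_le_mul_of_nonneg_left _ (by positivity)
          exact sum_le_sum fun ψ hψ => h f hf ψ hψ
      _ = ((f : ℝ) ^ (5 / 8 : ℝ) / (f.totient : ℝ)) * ((Prim f).card * D) := by rw [sum_const, nsmul_eq_mul]
      _ ≤ ((f : ℝ) ^ (5 / 8 : ℝ) / (f.totient : ℝ)) * (f.totient * D) := by
          apply mul_le_mul_of_nonneg_left _ (by positivity)
          exact mul_le_mul_of_nonneg_right (card_prim_le hf'.1) hD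
      _ = (f : ℝ) ^ (5 / 8 : ℝ) * D := by field_simp
      _ ≤ G * D := mul_le_mul_of_nonneg_right ((wt_le hf'.1).trans hfG) hD
  calc ∑ f ∈ S, ((f : ℝ) ^ (5 / 8 : ℝ) / (f.totient : ℝ)) * ∑ ψ ∈ Prim f, ‖psiLog X f ψ‖ ≤ ∑ _f ∈ S, (G : ℝ) * D :=
        sum_le_sum h1
    _ = (S.card : ℝ) * (G * D) := by rw [sum_const, nsmul_eq_mul]
    _ ≤ (G : ℝ) * (G * D) := by
        apply mul_le_mul_of_nonneg_right _ (by positivity)
        have := card_le_card hS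
        rw [Nat.card_Icc, Nat.add_sub_cancel] at this
        exact_mod_cast this
    _ = _ := by ring

/-- the mean value for large arguments -/
theorem wS_main (h : SiegelWalfisz) (A : ℕ) : ∃ X₀ : ℝ, ∀ X : ℝ, X₀ ≤ X → ∀ Q : ℕ, (Q : ℝ) ≤ X ^ (1 / 16 : ℝ) →
    wS X Q ≤ X / (Real.log X) ^ A := by
  obtain ⟨B', hB'⟩ : ∃ B' : ℕ, B' = A + 7 := ⟨_, rfl⟩
  obtain ⟨B, hB⟩ : ∃ B : ℕ, B = 3 * B' := ⟨_, rfl⟩
  obtain ⟨A', hA'⟩ : ∃ A' : ℕ, A' = A + 2 * B + 1 := ⟨_, rfl⟩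
  obtain ⟨x₀, hx₀⟩ := h A' B
  have hlog : Tendsto Real.log atTop atTop := Real.tendsto_log_atTop
  have ev : ∀ᶠ X : ℝ in atTop, ∀ Q : ℕ, (Q : ℝ) ≤ X ^ (1 / 16 : ℝ) → wS X Q ≤ X / (Real.log X) ^ A := by
    filter_upwards [eventually_ge_atTop x₀, eventually_ge_atTop (4 : ℝ),
      hlog.eventually_ge_atTop 1, hlog.eventually_ge_atTop 4,
      hlog.eventually_ge_atTop 6144, ev_log 24576 (6 + A) (1 / 16) (by norm_num),
      ev_log 128 (2 + A) (1 / 8) (by norm_num)] with X h1 h2 h3 h4 h5 h6 h7 Q hQ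
    have hX0 : 0 < X := by linarith
    have hX1 : 1 ≤ X := by linarith
    set L := Real.log X with hL
    have hL0 : 0 < L := by linarith
    have hXA : 0 < X / L ^ A := by positivity
    set G := ⌊L ^ B⌋₊ with hG
    have hGle : (G : ℝ) ≤ L ^ B := Nat.floor_le (by positivity)
    set S := (Icc 2 Q).filter (fun f => G < f) with hS
    set S' := (Icc 2 Q).filter (fun f => f ≤ G) with hS'
    have hsplit : wS X Q = ∑ f ∈ S', ((f : ℝ) ^ (5 / 8 : ℝ) / (f.totient : ℝ)) * ∑ ψ ∈ Prim f, ‖psiLog X f ψ‖ +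
        ∑ f ∈ S, ((f : ℝ) ^ (5 / 8 : ℝ) / (f.totient : ℝ)) * ∑ ψ ∈ Prim f, ‖psiLog X f ψ‖ := by
      unfold wS
      rw [← sum_filter_add_sum_filter_not (Icc 2 Q) (fun f => f ≤ G)]
      congr 1
      apply sum_congr _ (fun _ _ => rfl)
      rw [hS]
      apply filter_congr
      intro f _
      exact not_le
    rw [hsplit]
    have hsmall : ∑ f ∈ S', ((f : ℝ) ^ (5 / 8 : ℝ) / (f.totient : ℝ)) * ∑ ψ ∈ Prim f, ‖psiLog X f ψ‖ ≤
        (1 / 4) * (X / L ^ A) := by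
      have h8 := wS_const (X := X) (D := X / L ^ A') (G := G) S' (by
        intro f hf
        rw [hS', mem_filter, mem_Icc] at hf
        rw [mem_Icc]
        exact ⟨by omega, hf.2⟩) (by positivity) (by
        intro f hf ψ hψ
        rw [hS', mem_filter, mem_Icc] at hf
        apply hx₀ X h1 f (by omega)
        · calc (f : ℝ) ≤ G := by exact_mod_cast hf.2
            _ ≤ L ^ B := hGle
        · classical
          unfold Prim at hψ
          rw [mem_filter] at hψ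
          exact hψ.2)
      refine h8.trans ?_
      have h9 : (G : ℝ) ^ 2 ≤ L ^ (2 * B) := by
        calc (G : ℝ) ^ 2 ≤ (L ^ B) ^ 2 := pow_le_pow_left₀ (by positivity) hGle 2
          _ = L ^ (2 * B) := by rw [← pow_mul, mul_comm]
      calc (G : ℝ) ^ 2 * (X / L ^ A') ≤ L ^ (2 * B) * (X / L ^ A') := by gcongr
        _ = (1 / L) * (X / L ^ A) := by
            rw [hA', pow_add, pow_add, pow_one]
            field_simp
        _ ≤ (1 / 4) * (X / L ^ A) := by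
            apply mul_le_mul_of_nonneg_right _ hXA.le
            exact one_div_le_one_div_of_le (by norm_num) h4
    set W := ⌈X ^ (1 / 4 : ℝ)⌉₊ with hW
    have hXd : 1 ≤ X ^ (1 / 4 : ℝ) := Real.one_le_rpow hX1 (by norm_num)
    have hW1 : X ^ (1 / 4 : ℝ) ≤ W := Nat.le_ceil _
    have hW2 : (W : ℝ) ≤ 2 * X ^ (1 / 4 : ℝ) := by
      have := Nat.ceil_lt_add_one (show 0 ≤ X ^ (1 / 4 : ℝ) by positivity)
      linarith
    have hW3 : 1 ≤ W := by
      have : (1 : ℝ) ≤ W := hXd.trans hW1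
      exact_mod_cast this
    have hSsub : S ⊆ Icc 2 Q := filter_subset _ _
    have hlarge : ∑ f ∈ S, ((f : ℝ) ^ (5 / 8 : ℝ) / (f.totient : ℝ)) * ∑ ψ ∈ Prim f, ‖psiLog X f ψ‖ ≤
        (∑ f ∈ S, ((f : ℝ) ^ (5 / 8 : ℝ) / (f.totient : ℝ)) * ∑ _ψ ∈ Prim f, 8 * (W : ℝ) * W * f * L ^ 2) +
        ∑ f ∈ S, ((f : ℝ) ^ (5 / 8 : ℝ) / (f.totient : ℝ)) * ∑ ψ ∈ Prim f, ‖TL X f ψ (LamII W W)‖ := by
      rw [← sum_add_distrib]
      apply sum_le_sum
      intro f hf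
      have hf2 := hSsub hf
      rw [mem_Icc] at hf2
      rw [← mul_add, ← sum_add_distrib]
      apply mul_le_mul_of_nonneg_left _ (by positivity)
      apply sum_le_sum
      intro ψ hψ
      exact norm_psiLog_le X hX1 W W f hW3 hW3 hf2.1 ψ (prim_ne_one hf2.1 hψ)
    have hII := typeII_w B' h2 h3 W W hW1 hW1 S (by
      intro f hf
      rw [hS, mem_filter, mem_Icc] at hf
      refine ⟨hf.1.1, ?_, ?_⟩
      · rw [← hL, ← hB]
        have : L ^ B < f := Nat.lt_of_floor_lt hf.2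
        exact this.le
      · calc (f : ℝ) ≤ Q := by exact_mod_cast hf.1.2
          _ ≤ _ := hQ)
    rw [← hL] at hII
    -- type I
    have hI : ∑ f ∈ S, ((f : ℝ) ^ (5 / 8 : ℝ) / (f.totient : ℝ)) * ∑ _ψ ∈ Prim f, 8 * (W : ℝ) * W * f * L ^ 2 ≤
        (Q : ℝ) ^ 3 * (8 * (W : ℝ) * W * L ^ 2) := by
      have h8 : ∀ f ∈ S, ((f : ℝ) ^ (5 / 8 : ℝ) / (f.totient : ℝ)) * ∑ _ψ ∈ Prim f, 8 * (W : ℝ) * W * f * L ^ 2 ≤
          (Q : ℝ) ^ 2 * (8 * (W : ℝ) * W * L ^ 2) := by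
        intro f hf
        have hf2 := hSsub hf
        rw [mem_Icc] at hf2
        have hf1 : 1 ≤ f := by omega
        have hφ : (0 : ℝ) < f.totient := by exact_mod_cast Nat.totient_pos.2 hf1
        have hfQ : (f : ℝ) ≤ Q := by exact_mod_cast hf2.2
        rw [sum_const, nsmul_eq_mul]
        calc ((f : ℝ) ^ (5 / 8 : ℝ) / (f.totient : ℝ)) * (((Prim f).card : ℝ) * (8 * (W : ℝ) * W * f * L ^ 2)) ≤
            ((f : ℝ) ^ (5 / 8 : ℝ) / (f.totient : ℝ)) * ((f.totient : ℝ) * (8 * (W : ℝ) * W * f * L ^ 2)) := by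
              apply mul_le_mul_of_nonneg_left _ (by positivity)
              exact mul_le_mul_of_nonneg_right (card_prim_le hf1) (by positivity)
          _ = (f : ℝ) ^ (5 / 8 : ℝ) * f * (8 * (W : ℝ) * W * L ^ 2) := by field_simp
          _ ≤ (f : ℝ) * f * (8 * (W : ℝ) * W * L ^ 2) := by
              gcongr
              exact wt_le hf1
          _ ≤ (Q : ℝ) * Q * (8 * (W : ℝ) * W * L ^ 2) := by gcongr
          _ = _ := by ring
      calc ∑ f ∈ S, ((f : ℝ) ^ (5 / 8 : ℝ) / (f.totient : ℝ)) * ∑ _ψ ∈ Prim f, 8 * (W : ℝ) * W * f * L ^ 2 ≤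
          ∑ _f ∈ S, (Q : ℝ) ^ 2 * (8 * (W : ℝ) * W * L ^ 2) := sum_le_sum h8
        _ = (S.card : ℝ) * ((Q : ℝ) ^ 2 * (8 * (W : ℝ) * W * L ^ 2)) := by rw [sum_const, nsmul_eq_mul]
        _ ≤ (Q : ℝ) * ((Q : ℝ) ^ 2 * (8 * (W : ℝ) * W * L ^ 2)) := by
            apply mul_le_mul_of_nonneg_right _ (by positivity)
            have := card_le_card hSsub
            rw [Nat.card_Icc] at this
            have h9 : S.card ≤ Q := by omega
            exact_mod_cast h9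
        _ = _ := by ring
    have hI2 : (Q : ℝ) ^ 3 * (8 * (W : ℝ) * W * L ^ 2) ≤ (1 / 4) * (X / L ^ A) := by
      have hQ3 : (Q : ℝ) ^ 3 ≤ X ^ (3 / 16 : ℝ) := by
        calc (Q : ℝ) ^ 3 ≤ (X ^ (1 / 16 : ℝ)) ^ 3 := pow_le_pow_left₀ (by positivity) hQ 3
          _ = _ := by
            rw [← Real.rpow_natCast (X ^ (1 / 16 : ℝ)), ← Real.rpow_mul hX0.le]
            norm_num
      have hWW : (W : ℝ) * W ≤ 4 * X ^ (1 / 2 : ℝ) := by
        calc (W : ℝ) * W ≤ (2 * X ^ (1 / 4 : ℝ)) * (2 * X ^ (1 / 4 : ℝ)) := by gcongr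
          _ = 4 * (X ^ (1 / 4 : ℝ) * X ^ (1 / 4 : ℝ)) := by ring
          _ = 4 * X ^ (1 / 2 : ℝ) := by
              rw [← Real.rpow_add hX0]
              norm_num
      have hexp : X ^ (3 / 16 : ℝ) * X ^ (1 / 2 : ℝ) ≤ X / X ^ (1 / 8 : ℝ) := by
        rw [← Real.rpow_add hX0]
        nth_rw 2 [← Real.rpow_one X]
        rw [← Real.rpow_sub hX0]
        apply Real.rpow_le_rpow_of_exponent_le hX1
        norm_num
      have hXd0 : 0 < X ^ (1 / 8 : ℝ) := by positivity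
      calc (Q : ℝ) ^ 3 * (8 * (W : ℝ) * W * L ^ 2) = 8 * L ^ 2 * ((Q : ℝ) ^ 3 * (W * W)) := by ring
        _ ≤ 8 * L ^ 2 * (X ^ (3 / 16 : ℝ) * (4 * X ^ (1 / 2 : ℝ))) := by gcongr
        _ = 32 * L ^ 2 * (X ^ (3 / 16 : ℝ) * X ^ (1 / 2 : ℝ)) := by ring
        _ ≤ 32 * L ^ 2 * (X / X ^ (1 / 8 : ℝ)) := by gcongr
        _ = (1 / 4) * ((128 * L ^ (2 + A)) / X ^ (1 / 8 : ℝ)) * (X / L ^ A) := by
            rw [pow_add]
            field_simp
            ring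
        _ ≤ (1 / 4) * 1 * (X / L ^ A) := by
            gcongr
            rw [div_le_one hXd0]
            exact h7
        _ = _ := by ring
    have hII2 : 12 * (1 + L) ^ 6 * (2 * X / L ^ B' + 8 * X ^ (15 / 16 : ℝ)) ≤ (1 / 2) * (X / L ^ A) := by
      have hL6 : (1 + L) ^ 6 ≤ 64 * L ^ 6 := by
        calc (1 + L) ^ 6 ≤ (2 * L) ^ 6 := pow_le_pow_left₀ (by linarith) (by linarith) 6
          _ = 64 * L ^ 6 := by ring
      have hXd' : X ^ (15 / 16 : ℝ) = X / X ^ (1 / 16 : ℝ) := by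
        nth_rw 2 [← Real.rpow_one X]
        rw [← Real.rpow_sub hX0]
        norm_num
      have hXd0 : 0 < X ^ (1 / 16 : ℝ) := by positivity
      have e1 : 12 * (64 * L ^ 6) * (2 * X / L ^ B') ≤ (1 / 4) * (X / L ^ A) := by
        calc 12 * (64 * L ^ 6) * (2 * X / L ^ B') = (1536 / L) * (X / L ^ A) := by
              rw [hB', pow_add]
              field_simp
              ring
          _ ≤ (1 / 4) * (X / L ^ A) := by
              apply mul_le_mul_of_nonneg_right _ hXA.le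
              rw [div_le_iff₀ hL0]
              linarith
      have e2 : 12 * (64 * L ^ 6) * (8 * X ^ (15 / 16 : ℝ)) ≤ (1 / 4) * (X / L ^ A) := by
        calc 12 * (64 * L ^ 6) * (8 * X ^ (15 / 16 : ℝ)) =
            (1 / 4) * ((24576 * L ^ (6 + A)) / X ^ (1 / 16 : ℝ)) * (X / L ^ A) := by
              rw [hXd', pow_add]
              field_simp
              ring
          _ ≤ (1 / 4) * 1 * (X / L ^ A) := by
              gcongr
              rw [div_le_one hXd0]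
              exact h6
          _ = _ := by ring
      calc 12 * (1 + L) ^ 6 * (2 * X / L ^ B' + 8 * X ^ (15 / 16 : ℝ)) ≤
          12 * (64 * L ^ 6) * (2 * X / L ^ B' + 8 * X ^ (15 / 16 : ℝ)) := by gcongr
        _ = 12 * (64 * L ^ 6) * (2 * X / L ^ B') + 12 * (64 * L ^ 6) * (8 * X ^ (15 / 16 : ℝ)) := by ring
        _ ≤ _ := by linarith
    linarith
  rw [eventually_atTop] at ev
  exact ev

/-- the trivial bound -/
lemma psiLog_triv {t : ℝ} (ht : 1 ≤ t) (f : ℕ) (ψ : DirichletCharacter ℂ f) :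
    ‖psiLog t f ψ‖ ≤ t * Real.log t ^ 2 := by
  have h0 : 0 ≤ Real.log t := Real.log_nonneg ht
  unfold psiLog
  refine (norm_sum_le _ _).trans ?_
  calc ∑ n ∈ Icc 1 ⌊t⌋₊, ‖((ArithmeticFunction.vonMangoldt n : ℝ) : ℂ) * ψ (n : ZMod f) * ((Real.log (t / n) : ℝ) : ℂ)‖ ≤
      ∑ _n ∈ Icc 1 ⌊t⌋₊, Real.log t * Real.log t := by
        apply sum_le_sum
        intro n hn
        rw [mem_Icc] at hn
        have hn0 : (0 : ℝ) < n := by exact_mod_cast hn.1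
        have hn1 : (1 : ℝ) ≤ n := by exact_mod_cast hn.1
        have hnt : (n : ℝ) ≤ t := (Nat.cast_le.2 hn.2).trans (Nat.floor_le (by linarith))
        rw [norm_mul, norm_mul, Complex.norm_real, Complex.norm_real, Real.norm_eq_abs, Real.norm_eq_abs,
          abs_of_nonneg ArithmeticFunction.vonMangoldt_nonneg]
        have h1 : ArithmeticFunction.vonMangoldt n ≤ Real.log t :=
          ArithmeticFunction.vonMangoldt_le_log.trans (Real.log_le_log hn0 hnt)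
        have h2 : ‖ψ (n : ZMod f)‖ ≤ 1 := DirichletCharacter.norm_le_one ψ _
        have h3 : |Real.log (t / n)| ≤ Real.log t := by
          rw [Real.log_div (by linarith) hn0.ne', abs_of_nonneg (by linarith [Real.log_le_log hn0 hnt])]
          have := Real.log_nonneg hn1
          linarith
        have h4 : 0 ≤ ArithmeticFunction.vonMangoldt n := ArithmeticFunction.vonMangoldt_nonneg
        calc ArithmeticFunction.vonMangoldt n * ‖ψ (n : ZMod f)‖ * |Real.log (t / n)| ≤ Real.log t * 1 * Real.log t := by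
              gcongr
          _ = _ := by ring
    _ = ⌊t⌋₊ * (Real.log t * Real.log t) := by rw [sum_const, Nat.card_Icc, nsmul_eq_mul, Nat.add_sub_cancel]
    _ ≤ t * (Real.log t * Real.log t) := by
        apply mul_le_mul_of_nonneg_right (Nat.floor_le (by linarith)) (by positivity)
    _ = _ := by ring

/-- the mean value, uniformly -/
theorem wS_unif (h : SiegelWalfisz) (κ : ℝ) (A : ℕ) : ∀ᶠ N : ℕ in atTop, ∀ Q : ℕ, (Q : ℝ) ≤ (N : ℝ) ^ (1 / 32 : ℝ) →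
    ∀ t : ℝ, 1 ≤ t → t ≤ κ * N → wS t Q ≤ N / (Real.log N) ^ A := by
  obtain ⟨X₀, hX₀⟩ := wS_main h (A + 1)
  have hcast : Tendsto (fun n : ℕ => (n : ℝ)) atTop atTop := tendsto_natCast_atTop_atTop
  have hlog : Tendsto (fun n : ℕ => Real.log (n : ℝ)) atTop atTop := Real.tendsto_log_atTop.comp hcast
  filter_upwards [hcast.eventually (ev_log 1 (2 + A) (1 / 4) (by norm_num)), hlog.eventually_ge_atTop (|κ| * 2 ^ (A + 1)),
    hlog.eventually_ge_atTop 2, hcast.eventually_ge_atTop (|X₀| ^ 2 + 1), eventually_ge_atTop 2] with N h1 h2 h3 h4 h5 Q hQ t ht1 ht2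
  obtain ⟨L, hL⟩ : ∃ L, L = Real.log (N : ℝ) := ⟨_, rfl⟩
  rw [← hL] at h1 h2 h3 ⊢
  have hL0 : 0 < L := by linarith
  have hN0 : (0 : ℝ) < N := by exact_mod_cast (by omega : 0 < N)
  have hN1 : (1 : ℝ) ≤ N := by exact_mod_cast (by omega : 1 ≤ N)
  rcases le_or_gt (Real.sqrt N) t with hcase | hcase
  · have hXt : X₀ ≤ t := by
      have : |X₀| ≤ Real.sqrt N := by
        apply Real.le_sqrt_of_sq_le
        rw [sq_abs] at *
        linarith
      exact (le_abs_self X₀).trans (this.trans hcase)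
    have ht0 : 0 < t := by linarith
    have hQt : (Q : ℝ) ≤ t ^ (1 / 16 : ℝ) := by
      refine hQ.trans ?_
      have e1 : (N : ℝ) ^ (1 / 32 : ℝ) = (Real.sqrt N) ^ (1 / 16 : ℝ) := by
        rw [Real.sqrt_eq_rpow, ← Real.rpow_mul hN0.le]
        norm_num
      rw [e1]
      exact Real.rpow_le_rpow (Real.sqrt_nonneg _) hcase (by norm_num)
    have h6 := hX₀ t hXt Q hQt
    refine h6.trans ?_
    have hlt : L / 2 ≤ Real.log t := by
      have := Real.log_le_log (Real.sqrt_pos.2 hN0) hcase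
      rw [Real.log_sqrt hN0.le] at this
      rw [hL]
      exact this
    have hL2 : 0 < L / 2 := by linarith
    have hκ : t ≤ |κ| * N := ht2.trans (mul_le_mul_of_nonneg_right (le_abs_self κ) hN0.le)
    calc t / Real.log t ^ (A + 1) ≤ (|κ| * N) / (L / 2) ^ (A + 1) := by
          apply div_le_div₀ (by positivity) hκ (by positivity)
          exact pow_le_pow_left₀ hL2.le hlt _
      _ = (|κ| * 2 ^ (A + 1)) / L * (N / L ^ A) := by
          rw [div_pow]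
          rw [pow_succ L A]
          field_simp
      _ ≤ 1 * (N / L ^ A) := by
          apply mul_le_mul_of_nonneg_right _ (by positivity)
          rw [div_le_one hL0]
          exact h2
      _ = _ := one_mul _
  · have ht0 : 0 < t := by linarith
    have hlt : Real.log t ≤ L := by
      rw [hL]
      apply Real.log_le_log ht0
      refine hcase.le.trans ?_
      rw [Real.sqrt_le_left hN0.le]
      nlinarith
    have hlt0 : 0 ≤ Real.log t := Real.log_nonneg ht1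
    have h6 := wS_const (X := t) (D := Real.sqrt N * L ^ 2) (G := Q) (Icc 2 Q) (Icc_subset_Icc_left (by norm_num)) (by positivity)
      (fun f _ ψ _ => (psiLog_triv ht1 f ψ).trans (by gcongr))
    have h7 : wS t Q ≤ (Q : ℝ) ^ 2 * (Real.sqrt N * L ^ 2) := h6
    refine h7.trans ?_
    have hQ2 : (Q : ℝ) ^ 2 ≤ (N : ℝ) ^ (1 / 16 : ℝ) := by
      calc (Q : ℝ) ^ 2 ≤ ((N : ℝ) ^ (1 / 32 : ℝ)) ^ 2 := pow_le_pow_left₀ (by positivity) hQ 2
        _ = _ := by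
          rw [← Real.rpow_natCast ((N : ℝ) ^ (1 / 32 : ℝ)), ← Real.rpow_mul hN0.le]
          norm_num
    rw [le_div_iff₀ (by positivity)]
    calc (Q : ℝ) ^ 2 * (Real.sqrt N * L ^ 2) * L ^ A = (Q : ℝ) ^ 2 * Real.sqrt N * (1 * L ^ (2 + A)) := by
          rw [pow_add]; ring
      _ ≤ (N : ℝ) ^ (1 / 16 : ℝ) * (N : ℝ) ^ (1 / 2 : ℝ) * (N : ℝ) ^ (1 / 4 : ℝ) := by
          rw [← Real.sqrt_eq_rpow]
          gcongr
      _ = (N : ℝ) ^ (13 / 16 : ℝ) := by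
          rw [← Real.rpow_add hN0, ← Real.rpow_add hN0]
          norm_num
      _ ≤ (N : ℝ) ^ (1 : ℝ) := Real.rpow_le_rpow_of_exponent_le hN1 (by norm_num)
      _ = N := Real.rpow_one _

end Pool.Agent.K7.H51.PS
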