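import Mathlib
import Pool.Agent.K7.H51.PS.MV

set_option autoImplicit false

/-! From the logarithmic kernel to the linear one. -/

namespace Pool.Agent.K7.H51.PS

open Finset Filter Topology
open Pool.Agent.H398R2.BV (Prim)
open Pool.Agent.H410R2 (psiLog SiegelWalfisz)

/-- the linear kernel -/
noncomputable def RZ (x : ℝ) (f : ℕ) (ψ : DirichletCharacter ℂ f) : ℂ :=
  ∑ n ∈ Icc 1 ⌊x⌋₊, ((ArithmeticFunction.vonMangoldt n : ℝ) : ℂ) * ψ (n : ZMod f) * ((x - n : ℝ) : ℂ)

lemma psi_eq {x t : ℝ} (ht1 : 1 ≤ t) (htx : t ≤ x) (f : ℕ) (ψ : DirichletCharacter ℂ f) :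
    psiLog t f ψ = ∑ n ∈ Icc 1 ⌊x⌋₊, ((ArithmeticFunction.vonMangoldt n : ℝ) : ℂ) * ψ (n : ZMod f) *
      ((max (Real.log (t / n)) 0 : ℝ) : ℂ) := by
  unfold psiLog
  have hsub : Icc 1 ⌊t⌋₊ ⊆ Icc 1 ⌊x⌋₊ := Icc_subset_Icc_right (Nat.floor_mono htx)
  rw [← sum_subset hsub]
  · apply sum_congr rfl
    intro n hn
    rw [mem_Icc] at hn
    have hn0 : (0 : ℝ) < n := by exact_mod_cast hn.1
    have hnt : (n : ℝ) ≤ t := (Nat.cast_le.2 hn.2).trans (Nat.floor_le (by linarith))
    rw [max_eq_left]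
    apply Real.log_nonneg
    rw [one_le_div hn0]
    exact hnt
  · intro n hn hn'
    rw [mem_Icc] at hn hn'
    have hn0 : (0 : ℝ) < n := by exact_mod_cast hn.1
    have h1 : ⌊t⌋₊ < n := by
      by_contra h
      push Not at h
      exact hn' ⟨hn.1, h⟩
    have h2 : t < n := Nat.lt_of_floor_lt h1
    rw [max_eq_right]
    · simp
    · apply Real.log_nonpos (by positivity)
      rw [div_le_one hn0]
      exact h2.le

lemma max_cont {x : ℝ} (n : ℕ) : ContinuousOn (fun t : ℝ => max (Real.log (t / n)) 0) (Set.Icc 1 x) := by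
  rcases Nat.eq_zero_or_pos n with hn | hn
  · subst hn
    simp only [Nat.cast_zero, div_zero, Real.log_zero]
    exact continuousOn_const
  · refine ContinuousOn.sup ?_ continuousOn_const
    apply ContinuousOn.log
    · exact continuousOn_id.div_const _
    · intro t ht
      have : (0 : ℝ) < t := by linarith [ht.1]
      have hn0 : (0 : ℝ) < n := by exact_mod_cast hn
      positivity

lemma psi_cont {x : ℝ} (f : ℕ) (ψ : DirichletCharacter ℂ f) :
    ContinuousOn (fun t : ℝ => psiLog t f ψ) (Set.Icc 1 x) := by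
  have h1 : ContinuousOn (fun t : ℝ => ∑ n ∈ Icc 1 ⌊x⌋₊, ((ArithmeticFunction.vonMangoldt n : ℝ) : ℂ) * ψ (n : ZMod f) *
      ((max (Real.log (t / n)) 0 : ℝ) : ℂ)) (Set.Icc 1 x) := by
    apply continuousOn_finsetSum
    intro n _
    apply ContinuousOn.mul continuousOn_const
    exact Complex.continuous_ofReal.comp_continuousOn (max_cont n)
  refine h1.congr ?_
  intro t ht
  exact psi_eq ht.1 ht.2 f ψ

lemma int_max {x : ℝ} {n : ℕ} (hn : 1 ≤ n) (hnx : (n : ℝ) ≤ x) :
    ∫ t in (1 : ℝ)..x, max (Real.log (t / n)) 0 = x * Real.log (x / n) - x + n := by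
  have hn0 : (0 : ℝ) < n := by exact_mod_cast hn
  have hn1 : (1 : ℝ) ≤ n := by exact_mod_cast hn
  have hx0 : 0 < x := by linarith
  have hi1 : IntervalIntegrable (fun t : ℝ => max (Real.log (t / n)) 0) MeasureTheory.volume 1 n := by
    apply ContinuousOn.intervalIntegrable_of_Icc hn1
    exact max_cont n
  have hi2 : IntervalIntegrable (fun t : ℝ => max (Real.log (t / n)) 0) MeasureTheory.volume n x := by
    apply ContinuousOn.intervalIntegrable_of_Icc hnx
    exact (max_cont n).mono (Set.Icc_subset_Icc_left hn1)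
  rw [← intervalIntegral.integral_add_adjacent_intervals hi1 hi2]
  have e1 : ∫ t in (1 : ℝ)..n, max (Real.log (t / n)) 0 = 0 := by
    rw [intervalIntegral.integral_congr (g := fun _ => (0 : ℝ))]
    · simp
    · intro t ht
      rw [Set.uIcc_of_le hn1] at ht
      simp only
      rw [max_eq_right]
      apply Real.log_nonpos
      · have : (0 : ℝ) < t := by linarith [ht.1]
        positivity
      · rw [div_le_one hn0]
        exact ht.2
  have e2 : ∫ t in (n : ℝ)..x, max (Real.log (t / n)) 0 = ∫ t in (n : ℝ)..x, (Real.log t - Real.log n) := by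
    apply intervalIntegral.integral_congr
    intro t ht
    rw [Set.uIcc_of_le hnx] at ht
    have ht0 : 0 < t := by linarith [ht.1]
    simp only
    rw [max_eq_left]
    · exact Real.log_div ht0.ne' hn0.ne'
    · apply Real.log_nonneg
      rw [one_le_div hn0]
      exact ht.1
  rw [e1, e2, intervalIntegral.integral_sub intervalIntegral.intervalIntegrable_log' intervalIntegrable_const,
    integral_log, intervalIntegral.integral_const, Real.log_div hx0.ne' hn0.ne', smul_eq_mul]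
  ring

lemma RZ_eq {x : ℝ} (hx : 1 ≤ x) (f : ℕ) (ψ : DirichletCharacter ℂ f) :
    RZ x f ψ = x * psiLog x f ψ - ∫ t in (1 : ℝ)..x, psiLog t f ψ := by
  have h1 : ∫ t in (1 : ℝ)..x, psiLog t f ψ = ∑ n ∈ Icc 1 ⌊x⌋₊, ((ArithmeticFunction.vonMangoldt n : ℝ) : ℂ) * ψ (n : ZMod f) *
      ((x * Real.log (x / n) - x + n : ℝ) : ℂ) := by
    rw [intervalIntegral.integral_congr (g := fun t : ℝ => ∑ n ∈ Icc 1 ⌊x⌋₊,
      ((ArithmeticFunction.vonMangoldt n : ℝ) : ℂ) * ψ (n : ZMod f) * ((max (Real.log (t / n)) 0 : ℝ) : ℂ))]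
    · rw [intervalIntegral.integral_finsetSum]
      · apply sum_congr rfl
        intro n hn
        rw [mem_Icc] at hn
        have hnx : (n : ℝ) ≤ x := (Nat.cast_le.2 hn.2).trans (Nat.floor_le (by linarith))
        rw [intervalIntegral.integral_const_mul, intervalIntegral.integral_ofReal, int_max hn.1 hnx]
      · intro n _
        apply ContinuousOn.intervalIntegrable_of_Icc hx
        apply ContinuousOn.mul continuousOn_const
        exact Complex.continuous_ofReal.comp_continuousOn (max_cont n)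
    · intro t ht
      rw [Set.uIcc_of_le hx] at ht
      exact psi_eq ht.1 ht.2 f ψ
  rw [h1]
  unfold RZ psiLog
  rw [mul_sum, ← sum_sub_distrib]
  apply sum_congr rfl
  intro n _
  push_cast
  ring

lemma RZ_norm {x : ℝ} (hx : 1 ≤ x) (f : ℕ) (ψ : DirichletCharacter ℂ f) :
    ‖RZ x f ψ‖ ≤ x * ‖psiLog x f ψ‖ + ∫ t in (1 : ℝ)..x, ‖psiLog t f ψ‖ := by
  rw [RZ_eq hx]
  refine (norm_sub_le _ _).trans ?_
  have h1 := intervalIntegral.norm_integral_le_integral_norm (f := fun t : ℝ => psiLog t f ψ) (μ := MeasureTheory.volume) hx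
  rw [norm_mul, Complex.norm_real, Real.norm_of_nonneg (by linarith)]
  linarith

lemma wS_nonneg (t : ℝ) (Q : ℕ) : 0 ≤ wS t Q :=
  sum_nonneg fun _ _ => mul_nonneg (by positivity) (sum_nonneg fun _ _ => norm_nonneg _)

/-- the weighted mean value for the linear kernel -/
lemma RZ_sum {x M : ℝ} (hx : 1 ≤ x) (Q : ℕ) (hM : ∀ t : ℝ, 1 ≤ t → t ≤ x → wS t Q ≤ M) :
    ∑ f ∈ Icc 2 Q, ((f : ℝ) ^ (5 / 8 : ℝ) / (f.totient : ℝ)) * ∑ ψ ∈ Prim f, ‖RZ x f ψ‖ ≤ 2 * x * M := by
  have hint : ∀ (f : ℕ) (ψ : DirichletCharacter ℂ f),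
      IntervalIntegrable (fun t : ℝ => ‖psiLog t f ψ‖) MeasureTheory.volume 1 x := fun f ψ =>
    ContinuousOn.intervalIntegrable_of_Icc hx (psi_cont f ψ).norm
  have h1 : ∑ f ∈ Icc 2 Q, ((f : ℝ) ^ (5 / 8 : ℝ) / (f.totient : ℝ)) * ∑ ψ ∈ Prim f, ‖RZ x f ψ‖ ≤
      x * wS x Q + ∫ t in (1 : ℝ)..x, wS t Q := by
    have e1 : ∫ t in (1 : ℝ)..x, wS t Q = ∑ f ∈ Icc 2 Q, ((f : ℝ) ^ (5 / 8 : ℝ) / (f.totient : ℝ)) *
        ∑ ψ ∈ Prim f, ∫ t in (1 : ℝ)..x, ‖psiLog t f ψ‖ := by
      unfold wS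
      rw [intervalIntegral.integral_finsetSum]
      · apply sum_congr rfl
        intro f _
        rw [intervalIntegral.integral_const_mul, intervalIntegral.integral_finsetSum]
        intro ψ _
        exact hint f ψ
      · intro f _
        apply ContinuousOn.intervalIntegrable_of_Icc hx
        apply ContinuousOn.mul continuousOn_const
        apply continuousOn_finsetSum
        intro ψ _
        exact (psi_cont f ψ).norm
    rw [e1]
    unfold wS
    rw [mul_sum, ← sum_add_distrib]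
    apply sum_le_sum
    intro f _
    have e2 : x * ((f : ℝ) ^ (5 / 8 : ℝ) / (f.totient : ℝ) * ∑ ψ ∈ Prim f, ‖psiLog x f ψ‖) +
        (f : ℝ) ^ (5 / 8 : ℝ) / (f.totient : ℝ) * ∑ ψ ∈ Prim f, ∫ t in (1 : ℝ)..x, ‖psiLog t f ψ‖ =
        (f : ℝ) ^ (5 / 8 : ℝ) / (f.totient : ℝ) * ∑ ψ ∈ Prim f, (x * ‖psiLog x f ψ‖ + ∫ t in (1 : ℝ)..x, ‖psiLog t f ψ‖) := by
      rw [sum_add_distrib, ← mul_sum]
      ring
    rw [e2]
    apply mul_le_mul_of_nonneg_left _ (by positivity)
    apply sum_le_sum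
    intro ψ _
    exact RZ_norm hx f ψ
  refine h1.trans ?_
  have h2 : ∫ t in (1 : ℝ)..x, wS t Q ≤ ∫ _t in (1 : ℝ)..x, M := by
    apply intervalIntegral.integral_mono_on hx
    · unfold wS
      apply ContinuousOn.intervalIntegrable_of_Icc hx
      apply continuousOn_finsetSum
      intro f _
      apply ContinuousOn.mul continuousOn_const
      apply continuousOn_finsetSum
      intro ψ _
      exact (psi_cont f ψ).norm
    · exact intervalIntegrable_const
    · intro t ht
      exact hM t ht.1 ht.2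
  rw [intervalIntegral.integral_const, smul_eq_mul] at h2
  have h3 := hM x hx le_rfl
  have h4 : 0 ≤ M := (wS_nonneg x Q).trans h3
  have h5 : x * wS x Q ≤ x * M := mul_le_mul_of_nonneg_left h3 (by linarith)
  linarith

end Pool.Agent.K7.H51.PS
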