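import Mathlib
import Pool.Agent.K7.H51.PS.Gb
import Pool.Agent.K7.H51.PS.Rz

set_option autoImplicit false

/-! The nonprincipal characters for one constant term. -/

namespace Pool.Agent.K7.H51.PS

open Finset Filter Topology
open Pool.Agent.H398R2.BV (Prim)

/-- the weight of the primes beyond `Q` -/
noncomputable def Fq (Q v : ℕ) : ℝ := if v.Prime ∧ Q < v then Real.log v else 0

lemma Fq_nonneg (Q v : ℕ) : 0 ≤ Fq Q v := by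
  unfold Fq
  split_ifs
  · exact Real.log_natCast_nonneg v
  · exact le_rfl

lemma Fq_le_vM (Q v : ℕ) : Fq Q v ≤ ArithmeticFunction.vonMangoldt v := by
  unfold Fq
  split_ifs with h
  · rw [ArithmeticFunction.vonMangoldt_apply_prime h.1]
  · exact ArithmeticFunction.vonMangoldt_nonneg

lemma Fq_le_log (Q : ℕ) {v : ℕ} : Fq Q v ≤ Real.log v := by
  unfold Fq
  split_ifs
  · exact le_rfl
  · exact Real.log_natCast_nonneg v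

lemma sum_Fq (Q N : ℕ) (hQN : Q ≤ N) : ∑ v ∈ Icc 1 N, Fq Q v = Chebyshev.theta N - Chebyshev.theta Q := by
  unfold Chebyshev.theta
  rw [Nat.floor_natCast, Nat.floor_natCast]
  have e1 : ∑ v ∈ Icc 1 N, Fq Q v = ∑ v ∈ (Ioc 0 N).filter Nat.Prime, (if Q < v then Real.log v else 0) := by
    rw [sum_filter]
    have : Icc 1 N = Ioc 0 N := rfl
    rw [this]
    apply sum_congr rfl
    intro v _
    unfold Fq
    by_cases h1 : v.Prime <;> by_cases h2 : Q < v <;> simp [h1, h2]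
  rw [e1]
  have e2 : (Ioc 0 Q).filter Nat.Prime = ((Ioc 0 N).filter Nat.Prime).filter (fun v => ¬ Q < v) := by
    ext v
    rw [mem_filter, mem_filter, mem_filter, mem_Ioc, mem_Ioc]
    constructor
    · rintro ⟨⟨h1, h2⟩, h3⟩
      exact ⟨⟨⟨h1, by omega⟩, h3⟩, by omega⟩
    · rintro ⟨⟨⟨h1, h2⟩, h3⟩, h4⟩
      exact ⟨⟨h1, by omega⟩, h3⟩
  rw [e2, ← sum_filter_add_sum_filter_not ((Ioc 0 N).filter Nat.Prime) (fun v => Q < v) (fun v : ℕ => Real.log (v : ℝ)),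
    ← sum_filter]
  ring

lemma Fq_diff (Q N : ℕ) (hN : 1 ≤ N) (hQN : Q ≤ N) : ∑ v ∈ Icc 1 N, (ArithmeticFunction.vonMangoldt v - Fq Q v) ≤
    2 * Real.sqrt N * Real.log N + 2 * Q := by
  rw [sum_sub_distrib, sum_Fq Q N hQN]
  have h1 : ∑ v ∈ Icc 1 N, ArithmeticFunction.vonMangoldt v = Chebyshev.psi N := by
    unfold Chebyshev.psi
    rw [Nat.floor_natCast]
    rfl
  rw [h1]
  have h2 := Chebyshev.abs_psi_sub_theta_le_sqrt_mul_log (x := (N : ℝ)) (by exact_mod_cast hN)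
  have h3 := Chebyshev.theta_le_log4_mul_x (x := (Q : ℝ)) (Nat.cast_nonneg _)
  have h4 : Real.log 4 ≤ 2 := by
    have h5 : Real.log 4 = 2 * Real.log 2 := by
      rw [show (4 : ℝ) = 2 ^ 2 by norm_num, Real.log_pow]
      norm_num
    have := Real.log_two_lt_d9
    rw [h5]
    linarith
  have h5 : Real.log 4 * Q ≤ 2 * Q := mul_le_mul_of_nonneg_right h4 (Nat.cast_nonneg _)
  have h6 := le_abs_self (Chebyshev.psi (N : ℝ) - Chebyshev.theta N)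
  linarith

lemma RZ_nat {x N : ℕ} (hxN : x ≤ N) (f : ℕ) (ψ : DirichletCharacter ℂ f) :
    RZ (x : ℝ) f ψ = ∑ n ∈ Icc 1 N, ((ArithmeticFunction.vonMangoldt n : ℝ) : ℂ) * ψ (n : ZMod f) *
      ((max ((x : ℝ) - n) 0 : ℝ) : ℂ) := by
  unfold RZ
  rw [Nat.floor_natCast, ← sum_subset (Icc_subset_Icc_right hxN)]
  · apply sum_congr rfl
    intro n hn
    rw [mem_Icc] at hn
    have : (n : ℝ) ≤ x := by exact_mod_cast hn.2
    rw [max_eq_left (by linarith)]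
  · intro n hn hn'
    rw [mem_Icc] at hn hn'
    have : (x : ℝ) ≤ n := by
      have : x ≤ n := by omega
      exact_mod_cast this
    rw [max_eq_right (by linarith)]
    simp

lemma th_RZ {c s G N : ℕ} (hN : c + s + G ≤ N) (f : ℕ) (ψ : DirichletCharacter ℂ f) :
    ∑ v ∈ Icc 1 N, ((ArithmeticFunction.vonMangoldt v : ℝ) : ℂ) * ψ (v : ZMod f) * ((th G s ((v : ℝ) - c) : ℝ) : ℂ) =
      (RZ ((c + s + G : ℕ) : ℝ) f ψ - RZ ((c + s : ℕ) : ℝ) f ψ - RZ ((c + G : ℕ) : ℝ) f ψ + RZ ((c : ℕ) : ℝ) f ψ) / (G : ℂ) := by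
  rw [RZ_nat hN, RZ_nat (show c + s ≤ N by omega), RZ_nat (show c + G ≤ N by omega), RZ_nat (show c ≤ N by omega),
    ← sum_sub_distrib, ← sum_sub_distrib, ← sum_add_distrib, sum_div]
  apply sum_congr rfl
  intro v _
  unfold th
  have e1 : (s : ℝ) + G - ((v : ℝ) - c) = ((c + s + G : ℕ) : ℝ) - v := by push_cast; ring
  have e2 : (s : ℝ) - ((v : ℝ) - c) = ((c + s : ℕ) : ℝ) - v := by push_cast; ring
  have e3 : (G : ℝ) - ((v : ℝ) - c) = ((c + G : ℕ) : ℝ) - v := by push_cast; ring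
  have e4 : -((v : ℝ) - c) = ((c : ℕ) : ℝ) - v := by ring
  rw [e1, e2, e3, e4]
  push_cast
  ring

/-- one character -/
lemma one_char {c s G N Q : ℕ} (hG : 1 ≤ G) (hN1 : 1 ≤ N) (hQN : Q ≤ N) (hN : c + s + G ≤ N) (f : ℕ)
    (ψ : DirichletCharacter ℂ f) :
    ‖∑ v ∈ Icc 1 N, ((Fq Q v : ℝ) : ℂ) * (starRingEnd ℂ) (ψ (v : ZMod f)) * ((th G s ((v : ℝ) - c) : ℝ) : ℂ)‖ ≤
      (‖RZ ((c + s + G : ℕ) : ℝ) f ψ‖ + ‖RZ ((c + s : ℕ) : ℝ) f ψ‖ + ‖RZ ((c + G : ℕ) : ℝ) f ψ‖ + ‖RZ ((c : ℕ) : ℝ) f ψ‖) / G +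
        (2 * Real.sqrt N * Real.log N + 2 * Q) := by
  have hG0 : (0 : ℝ) < G := by exact_mod_cast hG
  have h1 : ‖∑ v ∈ Icc 1 N, ((Fq Q v : ℝ) : ℂ) * (starRingEnd ℂ) (ψ (v : ZMod f)) * ((th G s ((v : ℝ) - c) : ℝ) : ℂ)‖ =
      ‖∑ v ∈ Icc 1 N, ((Fq Q v : ℝ) : ℂ) * ψ (v : ZMod f) * ((th G s ((v : ℝ) - c) : ℝ) : ℂ)‖ := by
    rw [← RCLike.norm_conj (∑ v ∈ Icc 1 N, ((Fq Q v : ℝ) : ℂ) * ψ (v : ZMod f) * ((th G s ((v : ℝ) - c) : ℝ) : ℂ))]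
    congr 1
    rw [map_sum]
    apply sum_congr rfl
    intro v _
    rw [map_mul, map_mul, Complex.conj_ofReal, Complex.conj_ofReal]
  rw [h1]
  have h2 : ∑ v ∈ Icc 1 N, ((Fq Q v : ℝ) : ℂ) * ψ (v : ZMod f) * ((th G s ((v : ℝ) - c) : ℝ) : ℂ) =
      ∑ v ∈ Icc 1 N, ((ArithmeticFunction.vonMangoldt v : ℝ) : ℂ) * ψ (v : ZMod f) * ((th G s ((v : ℝ) - c) : ℝ) : ℂ) -
      ∑ v ∈ Icc 1 N, (((ArithmeticFunction.vonMangoldt v - Fq Q v : ℝ)) : ℂ) * ψ (v : ZMod f) * ((th G s ((v : ℝ) - c) : ℝ) : ℂ) := by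
    rw [← sum_sub_distrib]
    apply sum_congr rfl
    intro v _
    push_cast
    ring
  rw [h2, th_RZ hN]
  refine (norm_sub_le _ _).trans (add_le_add ?_ ?_)
  · rw [norm_div, Complex.norm_natCast]
    apply div_le_div_of_nonneg_right _ hG0.le
    refine (norm_add_le _ _).trans (add_le_add ?_ le_rfl)
    refine (norm_sub_le _ _).trans (add_le_add ?_ le_rfl)
    exact norm_sub_le _ _
  · refine (norm_sum_le _ _).trans (le_trans ?_ (Fq_diff Q N hN1 hQN))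
    apply sum_le_sum
    intro v _
    have h3 : 0 ≤ ArithmeticFunction.vonMangoldt v - Fq Q v := sub_nonneg.2 (Fq_le_vM Q v)
    rw [norm_mul, norm_mul, Complex.norm_real, Complex.norm_real, Real.norm_of_nonneg h3,
      Real.norm_of_nonneg (th_nonneg hG0 (Nat.cast_nonneg s) _)]
    have h4 := DirichletCharacter.norm_le_one ψ (v : ZMod f)
    have h5 := th_le_one hG0 (Nat.cast_nonneg s) ((v : ℝ) - c)
    have h6 := th_nonneg hG0 (Nat.cast_nonneg s) ((v : ℝ) - c)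
    calc (ArithmeticFunction.vonMangoldt v - Fq Q v) * ‖ψ (v : ZMod f)‖ * th G s ((v : ℝ) - c) ≤
        (ArithmeticFunction.vonMangoldt v - Fq Q v) * 1 * 1 := by gcongr
      _ = _ := by ring

variable {a b : ℤ}

lemma prim_one : Prim 1 = {1} := by
  classical
  ext ψ
  rw [mem_singleton]
  constructor
  · intro _
    exact DirichletCharacter.level_one ψ
  · rintro rfl
    unfold Prim
    rw [mem_filter]
    refine ⟨mem_univ _, ?_⟩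
    rw [DirichletCharacter.isPrimitive_def, DirichletCharacter.conductor_one]

lemma f_one (c : ℤ) (v Q : ℕ) :
    ∑ ψ ∈ Prim 1, (starRingEnd ℂ) (ψ (v : ZMod 1)) * (Wd a b c ψ 1 / ((1 : ℕ).totient : ℂ) *
      ∑ n ∈ Icc 1 (Q / 1), (GG (gp a b c) 1 n : ℂ)) = ∑ n ∈ Icc 1 Q, (GG (gp a b c) 1 n : ℂ) := by
  rw [prim_one, sum_singleton, Nat.div_one]
  have h1 : ∀ x : ZMod 1, (1 : DirichletCharacter ℂ 1) x = 1 := by
    intro x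
    have : x = 1 := Subsingleton.elim _ _
    rw [this, map_one]
  have h2 : Wd a b c (1 : DirichletCharacter ℂ 1) 1 = 1 := by
    unfold Wd
    rw [sum_range_one, h1]
    simp
  rw [h1, h2]
  simp

/-- the nonprincipal part for one constant term -/
theorem NP_bound : ∃ C : ℝ, 0 < C ∧ ∀ (a b : ℤ), a ≠ 0 → ∀ (c s G N Q : ℕ) (g M : ℝ), 1 ≤ c → 1 ≤ G → 1 ≤ Q → Q ≤ N →
    c + s + G ≤ N → 0 ≤ g → (∀ f ∈ Icc 2 Q, (Int.gcd (b ^ 2 - 4 * a * c) f : ℝ) ≤ g) →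
    (∀ t : ℝ, 1 ≤ t → t ≤ N → wS t Q ≤ M) →
    ‖∑ v ∈ Icc 1 N, ((Fq Q v : ℝ) : ℂ) * (((th G s ((v : ℝ) - c) : ℝ) : ℂ) * ∑ k ∈ Icc 1 Q, mK a b k ((v : ℤ) - (c : ℤ))) -
      (∑ v ∈ Icc 1 N, ((Fq Q v : ℝ) : ℂ) * ((th G s ((v : ℝ) - c) : ℝ) : ℂ)) * ∑ n ∈ Icc 1 Q, (GG (gp a b c) 1 n : ℂ)‖ ≤
      C * (a : ℝ) ^ 2 * Real.sqrt g * (1 + Real.log Q) ^ 2 * (8 * N * M / G + (Q : ℝ) ^ 2 * (2 * Real.sqrt N * Real.log N + 2 * Q)) := by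
  obtain ⟨C, hC, hW⟩ := Wd_le
  refine ⟨C, hC, ?_⟩
  intro a b ha c s G N Q g M hc hG hQ hQN hN hg hgcd hM
  have hG0 : (0 : ℝ) < G := by exact_mod_cast hG
  have hN1 : 1 ≤ N := by omega
  obtain ⟨E, hE⟩ : ∃ E, E = 2 * Real.sqrt N * Real.log N + 2 * Q := ⟨_, rfl⟩
  have hE0 : 0 ≤ E := by
    rw [hE]
    have := Real.log_natCast_nonneg N
    positivity
  -- the expansion
  have h1 : ∑ v ∈ Icc 1 N, ((Fq Q v : ℝ) : ℂ) * (((th G s ((v : ℝ) - c) : ℝ) : ℂ) * ∑ k ∈ Icc 1 Q, mK a b k ((v : ℤ) - (c : ℤ))) =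
      ∑ v ∈ Icc 1 N, ((Fq Q v : ℝ) : ℂ) * (((th G s ((v : ℝ) - c) : ℝ) : ℂ) * ∑ n ∈ Icc 1 Q, (GG (gp a b c) 1 n : ℂ)) +
      ∑ v ∈ Icc 1 N, ((Fq Q v : ℝ) : ℂ) * (((th G s ((v : ℝ) - c) : ℝ) : ℂ) * ∑ f ∈ Icc 2 Q, ∑ ψ ∈ Prim f,
        (starRingEnd ℂ) (ψ (v : ZMod f)) * (Wd a b c ψ f / (f.totient : ℂ) * ∑ n ∈ Icc 1 (Q / f), (GG (gp a b c) f n : ℂ))) := by
    rw [← sum_add_distrib]
    apply sum_congr rfl
    intro v _
    by_cases hv : v.Prime ∧ Q < v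
    · rw [← mul_add, ← mul_add]
      congr 2
      rw [mK_sum Q v (by
        intro k hk
        rw [mem_Icc] at hk
        exact (Nat.Prime.coprime_iff_not_dvd hv.1).2 (fun h => by
          have := Nat.le_of_dvd (by omega) h
          omega))]
      have hI : Icc 1 Q = insert 1 (Icc 2 Q) := by
        ext n
        rw [mem_insert, mem_Icc, mem_Icc]
        omega
      have hn : (1 : ℕ) ∉ Icc 2 Q := by
        rw [mem_Icc]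
        omega
      rw [hI, sum_insert hn, f_one, ← hI]
    · have : Fq Q v = 0 := by
        unfold Fq
        rw [if_neg hv]
      rw [this]
      simp
  have h2 : ∑ v ∈ Icc 1 N, ((Fq Q v : ℝ) : ℂ) * (((th G s ((v : ℝ) - c) : ℝ) : ℂ) * ∑ n ∈ Icc 1 Q, (GG (gp a b c) 1 n : ℂ)) =
      (∑ v ∈ Icc 1 N, ((Fq Q v : ℝ) : ℂ) * ((th G s ((v : ℝ) - c) : ℝ) : ℂ)) * ∑ n ∈ Icc 1 Q, (GG (gp a b c) 1 n : ℂ) := by
    rw [sum_mul]
    apply sum_congr rfl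
    intro v _
    ring
  rw [h1, h2, add_sub_cancel_left]
  have h3 : ∑ v ∈ Icc 1 N, ((Fq Q v : ℝ) : ℂ) * (((th G s ((v : ℝ) - c) : ℝ) : ℂ) * ∑ f ∈ Icc 2 Q, ∑ ψ ∈ Prim f,
        (starRingEnd ℂ) (ψ (v : ZMod f)) * (Wd a b c ψ f / (f.totient : ℂ) * ∑ n ∈ Icc 1 (Q / f), (GG (gp a b c) f n : ℂ))) =
      ∑ f ∈ Icc 2 Q, ∑ ψ ∈ Prim f, (Wd a b c ψ f / (f.totient : ℂ) * ∑ n ∈ Icc 1 (Q / f), (GG (gp a b c) f n : ℂ)) *
        ∑ v ∈ Icc 1 N, ((Fq Q v : ℝ) : ℂ) * (starRingEnd ℂ) (ψ (v : ZMod f)) * ((th G s ((v : ℝ) - c) : ℝ) : ℂ) := by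
    simp_rw [mul_sum (Icc 2 Q), mul_sum (Prim _)]
    rw [sum_comm]
    apply sum_congr rfl
    intro f _
    rw [sum_comm]
    apply sum_congr rfl
    intro ψ _
    rw [mul_sum (Icc 1 N)]
    apply sum_congr rfl
    intro v _
    ring
  rw [h3]
  refine (norm_sum_le _ _).trans ?_
  have h4 : ∀ f ∈ Icc 2 Q, ‖∑ ψ ∈ Prim f, (Wd a b c ψ f / (f.totient : ℂ) * ∑ n ∈ Icc 1 (Q / f), (GG (gp a b c) f n : ℂ)) *
        ∑ v ∈ Icc 1 N, ((Fq Q v : ℝ) : ℂ) * (starRingEnd ℂ) (ψ (v : ZMod f)) * ((th G s ((v : ℝ) - c) : ℝ) : ℂ)‖ ≤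
      C * (a : ℝ) ^ 2 * Real.sqrt g * (1 + Real.log Q) ^ 2 * (((f : ℝ) ^ (5 / 8 : ℝ) / (f.totient : ℝ)) * ∑ ψ ∈ Prim f,
        ((‖RZ ((c + s + G : ℕ) : ℝ) f ψ‖ + ‖RZ ((c + s : ℕ) : ℝ) f ψ‖ + ‖RZ ((c + G : ℕ) : ℝ) f ψ‖ + ‖RZ ((c : ℕ) : ℝ) f ψ‖) / G + E)) := by
    intro f hf
    have hf' := mem_Icc.1 hf
    have hf0 : 0 < f := by omega
    have hφ : (0 : ℝ) < f.totient := by exact_mod_cast Nat.totient_pos.2 hf0
    rw [← mul_assoc, mul_sum]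
    refine (norm_sum_le _ _).trans (sum_le_sum fun ψ hψ => ?_)
    rw [norm_mul]
    refine mul_le_mul ?_ ?_ (norm_nonneg _) (by positivity)
    · rw [norm_mul, norm_div, Complex.norm_natCast]
      have h5 := hW a b c ha f hf0 ψ hψ g hg (hgcd f hf)
      have h6 : ‖∑ n ∈ Icc 1 (Q / f), (GG (gp a b c) f n : ℂ)‖ ≤ |(a : ℝ)| * (1 + Real.log Q) ^ 2 := by
        refine (norm_sum_le _ _).trans ?_
        refine le_trans (le_of_eq ?_) (GG_sum (b := b) (c := c) ha f (Nat.div_le_self Q f))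
        apply sum_congr rfl
        intro n _
        rw [Complex.norm_real, Real.norm_eq_abs]
      have h7 : ‖Wd a b c ψ f‖ / (f.totient : ℝ) ≤ C * |(a : ℝ)| * Real.sqrt g * (f : ℝ) ^ (5 / 8 : ℝ) / (f.totient : ℝ) :=
        div_le_div_of_nonneg_right h5 hφ.le
      calc ‖Wd a b c ψ f‖ / (f.totient : ℝ) * ‖∑ n ∈ Icc 1 (Q / f), (GG (gp a b c) f n : ℂ)‖ ≤
          (C * |(a : ℝ)| * Real.sqrt g * (f : ℝ) ^ (5 / 8 : ℝ) / (f.totient : ℝ)) * (|(a : ℝ)| * (1 + Real.log Q) ^ 2) := by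
            gcongr
        _ = _ := by
          rw [← sq_abs (a : ℝ)]
          ring
    · rw [hE]
      exact one_char hG hN1 hQN hN f ψ
  refine (sum_le_sum h4).trans ?_
  rw [← mul_sum]
  apply mul_le_mul_of_nonneg_left _ (by positivity)
  -- the sum
  have hRZ : ∀ x : ℕ, 1 ≤ x → x ≤ N → ∑ f ∈ Icc 2 Q, ((f : ℝ) ^ (5 / 8 : ℝ) / (f.totient : ℝ)) * ∑ ψ ∈ Prim f, ‖RZ (x : ℝ) f ψ‖ ≤
      2 * N * M := by
    intro x hx1 hxN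
    have hx1' : (1 : ℝ) ≤ x := by exact_mod_cast hx1
    have hxN' : (x : ℝ) ≤ N := by exact_mod_cast hxN
    have h5 := RZ_sum (x := (x : ℝ)) (M := M) hx1' Q (fun t ht1 ht2 => hM t ht1 (ht2.trans hxN'))
    refine h5.trans ?_
    have h6 : 0 ≤ M := (wS_nonneg (x : ℝ) Q).trans (hM x hx1' hxN')
    gcongr
  have hcard : ∑ f ∈ Icc 2 Q, ((f : ℝ) ^ (5 / 8 : ℝ) / (f.totient : ℝ)) * ∑ _ψ ∈ Prim f, E ≤ (Q : ℝ) ^ 2 * E := by
    have h5 : ∀ f ∈ Icc 2 Q, ((f : ℝ) ^ (5 / 8 : ℝ) / (f.totient : ℝ)) * ∑ _ψ ∈ Prim f, E ≤ Q * E := by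
      intro f hf
      have hf' := mem_Icc.1 hf
      have hf1 : 1 ≤ f := by omega
      have hφ : (0 : ℝ) < f.totient := by exact_mod_cast Nat.totient_pos.2 hf1
      have hfQ : (f : ℝ) ≤ Q := by exact_mod_cast hf'.2
      rw [sum_const, nsmul_eq_mul]
      calc ((f : ℝ) ^ (5 / 8 : ℝ) / (f.totient : ℝ)) * (((Prim f).card : ℝ) * E) ≤
          ((f : ℝ) ^ (5 / 8 : ℝ) / (f.totient : ℝ)) * ((f.totient : ℝ) * E) := by
            apply mul_le_mul_of_nonneg_left _ (by positivity)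
            exact mul_le_mul_of_nonneg_right (Pool.Agent.H398R2.BV.card_prim_le hf1) hE0
        _ = (f : ℝ) ^ (5 / 8 : ℝ) * E := by field_simp
        _ ≤ Q * E := mul_le_mul_of_nonneg_right ((wt_le hf1).trans hfQ) hE0
    calc ∑ f ∈ Icc 2 Q, ((f : ℝ) ^ (5 / 8 : ℝ) / (f.totient : ℝ)) * ∑ _ψ ∈ Prim f, E ≤ ∑ _f ∈ Icc 2 Q, Q * E := sum_le_sum h5
      _ = ((Icc 2 Q).card : ℝ) * (Q * E) := by rw [sum_const, nsmul_eq_mul]
      _ ≤ (Q : ℝ) * (Q * E) := by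
          apply mul_le_mul_of_nonneg_right _ (by positivity)
          rw [Nat.card_Icc]
          have : Q + 1 - 2 ≤ Q := by omega
          exact_mod_cast this
      _ = _ := by ring
  have e5 : ∑ f ∈ Icc 2 Q, ((f : ℝ) ^ (5 / 8 : ℝ) / (f.totient : ℝ)) * ∑ ψ ∈ Prim f,
        ((‖RZ ((c + s + G : ℕ) : ℝ) f ψ‖ + ‖RZ ((c + s : ℕ) : ℝ) f ψ‖ + ‖RZ ((c + G : ℕ) : ℝ) f ψ‖ + ‖RZ ((c : ℕ) : ℝ) f ψ‖) / G + E) =
      (∑ f ∈ Icc 2 Q, ((f : ℝ) ^ (5 / 8 : ℝ) / (f.totient : ℝ)) * ∑ ψ ∈ Prim f, ‖RZ ((c + s + G : ℕ) : ℝ) f ψ‖ +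
      ∑ f ∈ Icc 2 Q, ((f : ℝ) ^ (5 / 8 : ℝ) / (f.totient : ℝ)) * ∑ ψ ∈ Prim f, ‖RZ ((c + s : ℕ) : ℝ) f ψ‖ +
      ∑ f ∈ Icc 2 Q, ((f : ℝ) ^ (5 / 8 : ℝ) / (f.totient : ℝ)) * ∑ ψ ∈ Prim f, ‖RZ ((c + G : ℕ) : ℝ) f ψ‖ +
      ∑ f ∈ Icc 2 Q, ((f : ℝ) ^ (5 / 8 : ℝ) / (f.totient : ℝ)) * ∑ ψ ∈ Prim f, ‖RZ ((c : ℕ) : ℝ) f ψ‖) / G +
      ∑ f ∈ Icc 2 Q, ((f : ℝ) ^ (5 / 8 : ℝ) / (f.totient : ℝ)) * ∑ _ψ ∈ Prim f, E := by
    rw [← sum_add_distrib, ← sum_add_distrib, ← sum_add_distrib, sum_div, ← sum_add_distrib]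
    apply sum_congr rfl
    intro f _
    rw [sum_add_distrib, ← sum_div, sum_add_distrib, sum_add_distrib, sum_add_distrib]
    ring
  rw [e5, ← hE]
  have g1 := hRZ (c + s + G) (by omega) hN
  have g2 := hRZ (c + s) (by omega) (by omega)
  have g3 := hRZ (c + G) (by omega) (by omega)
  have g4 := hRZ c hc (by omega)
  refine add_le_add ?_ hcard
  apply div_le_div_of_nonneg_right _ hG0.le
  linarith

end Pool.Agent.K7.H51.PS
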