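import Mathlib
import Pool.Agent.K7.H51.PS.Loc
import Pool.Agent.R460.SB.Min

set_option autoImplicit false

/-! The minor arcs. -/

namespace Pool.Agent.K7.H51.PS

open Finset
open Pool.Agent.H807R2.Dav
open Pool.Agent.R460.SB (SF SF_le)

/-- a rational number with a small denominator, modulo one -/
lemma frac_mem (r : ℚ) {Q : ℕ} (hr : r.den ≤ Q) : ∃ p ∈ Fr Q, ∃ k : ℤ, (p.2 : ℝ) / p.1 = (r : ℝ) + k := by
  have hd0 : (0 : ℤ) < r.den := by exact_mod_cast r.den_pos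
  have hd0r : (0 : ℝ) < r.den := by exact_mod_cast r.den_pos
  have h1 : 0 ≤ r.num % r.den := Int.emod_nonneg _ hd0.ne'
  have h2 : r.num % r.den < r.den := Int.emod_lt_of_pos _ hd0
  refine ⟨⟨r.den, (r.num % r.den).toNat⟩, ?_, -(r.num / r.den), ?_⟩
  · unfold Fr
    rw [mem_sigma, mem_Icc, mem_filter, mem_range]
    refine ⟨⟨r.den_pos, hr⟩, by simp only; omega, ?_⟩
    simp only
    have h3 : Int.gcd (r.num % r.den) r.den = 1 := by
      rw [Int.gcd_emod]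
      exact r.reduced
    have h4 : Int.gcd (r.num % r.den) r.den = Nat.gcd (r.num % r.den).toNat r.den := by
      rw [Int.gcd_def, Int.natAbs_natCast]
      congr 1
      omega
    rw [h4] at h3
    exact h3
  · simp only
    have h3 : (((r.num % r.den).toNat : ℕ) : ℝ) = ((r.num % r.den : ℤ) : ℝ) := by
      have : (((r.num % r.den).toNat : ℕ) : ℤ) = r.num % r.den := Int.toNat_of_nonneg h1
      exact_mod_cast this
    have h4 : r.num % r.den = r.num - r.den * (r.num / r.den) := Int.emod_def _ _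
    have h5 : (r : ℝ) = r.num / r.den := by exact_mod_cast (Rat.num_div_den r).symm
    rw [h3, h4, h5]
    push_cast
    field_simp
    ring

variable {a b : ℤ}

/-- Weyl's inequality -/
lemma weyl (y s : ℕ) (β : ℝ) {h : ℤ} (hs : 1 ≤ s) (hcop : IsCoprime h (s : ℤ))
    (hβ : |2 * (-a : ℝ) * β - h / s| ≤ 1 / (s : ℝ) ^ 2) :
    ‖∑ m ∈ Icc 1 y, ee (-((qf a b m : ℝ) * β))‖ ^ 2 ≤
      y + 2 * ((((y + 1 : ℕ) : ℝ) / s + 1) * (39 * y + 3 * s * (1 + Real.log s))) := by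
  have h1 := SF_le (-a) (-b) y 1 s β (h := h) hs hcop (by
    push_cast
    push_cast at hβ
    rw [mul_one]
    exact hβ)
  rw [Nat.div_one] at h1
  refine le_trans (le_of_eq ?_) h1
  rw [Fintype.sum_subsingleton _ (0 : ZMod 1)]
  congr 2
  unfold SF
  rw [filter_true_of_mem (fun m _ => Subsingleton.elim _ _)]
  apply sum_congr rfl
  intro m _
  congr 1
  unfold qf
  push_cast
  ring

/-- the size of the minor arc sums -/
noncomputable def SM (a : ℤ) (Q P M1 : ℕ) : ℝ :=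
  M1 + 2 * ((((M1 + 1 : ℕ) : ℝ) * (2 * a / Q)) * (39 * M1) + 3 * ((M1 + 1 : ℕ) : ℝ) * (1 + Real.log P) + 39 * M1 +
    3 * P * (1 + Real.log P))

lemma SM_nonneg (ha : 1 ≤ a) (Q P M1 : ℕ) : 0 ≤ SM a Q P M1 := by
  unfold SM
  have h1 : (0 : ℝ) ≤ a := by exact_mod_cast (by omega : 0 ≤ a)
  have h2 := Real.log_natCast_nonneg P
  positivity

lemma weyl_unif (ha : 1 ≤ a) {Q P M1 : ℕ} (hQ : 1 ≤ Q) (β : ℝ) {s : ℕ} {h : ℤ} (hs : 1 ≤ s) (hcop : IsCoprime h (s : ℤ))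
    (hβ : |2 * (-a : ℝ) * β - h / s| ≤ 1 / (s : ℝ) ^ 2) (hsP : s ≤ P) (hsQ : (Q : ℤ) ≤ 2 * a * s) {y : ℕ} (hy : y ≤ M1) :
    ‖∑ m ∈ Icc 1 y, ee (-((qf a b m : ℝ) * β))‖ ≤ Real.sqrt (SM a Q P M1) := by
  apply Real.le_sqrt_of_sq_le
  refine (weyl y s β hs hcop hβ).trans ?_
  unfold SM
  have hs0 : (0 : ℝ) < s := by exact_mod_cast hs
  have hQ0 : (0 : ℝ) < Q := by exact_mod_cast hQ
  have har : (1 : ℝ) ≤ a := by exact_mod_cast ha
  have hsPr : (s : ℝ) ≤ P := by exact_mod_cast hsP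
  have hyr : (y : ℝ) ≤ M1 := by exact_mod_cast hy
  have hy1 : ((y + 1 : ℕ) : ℝ) ≤ ((M1 + 1 : ℕ) : ℝ) := by exact_mod_cast (by omega : y + 1 ≤ M1 + 1)
  have hlog : Real.log s ≤ Real.log P := Real.log_le_log hs0 hsPr
  have hlog0 : 0 ≤ Real.log s := Real.log_natCast_nonneg s
  have h1 : 1 / (s : ℝ) ≤ 2 * a / Q := by
    rw [div_le_div_iff₀ hs0 hQ0, one_mul]
    exact_mod_cast hsQ
  have e1 : ((((y + 1 : ℕ) : ℝ) / s + 1) * (39 * y + 3 * s * (1 + Real.log s))) =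
      (((y + 1 : ℕ) : ℝ) * (1 / s)) * (39 * y) + 3 * ((y + 1 : ℕ) : ℝ) * (1 + Real.log s) + 39 * y + 3 * s * (1 + Real.log s) := by
    field_simp
    ring
  rw [e1]
  have h2 : (((y + 1 : ℕ) : ℝ) * (1 / s)) * (39 * y) ≤ (((M1 + 1 : ℕ) : ℝ) * (2 * a / Q)) * (39 * M1) := by gcongr
  have h3 : 3 * ((y + 1 : ℕ) : ℝ) * (1 + Real.log s) ≤ 3 * ((M1 + 1 : ℕ) : ℝ) * (1 + Real.log P) := by gcongr
  have h4 : 3 * (s : ℝ) * (1 + Real.log s) ≤ 3 * P * (1 + Real.log P) := by gcongr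
  linarith

/-- the weighted sum on the minor arcs -/
lemma wey_wt (ha : 1 ≤ a) {G s0 : ℝ} (hG : 0 < G) (hs0 : 0 ≤ s0) {M1 : ℕ} (hb : b.natAbs + 1 ≤ M1) (β S : ℝ)
    (hS : ∀ y ≤ M1, ‖∑ m ∈ Icc 1 y, ee (-((qf a b m : ℝ) * β))‖ ≤ S) :
    ‖∑ m ∈ Icc 1 M1, (wt a b G s0 m : ℂ) * ee (-((qf a b m : ℝ) * β))‖ ≤ 2 * S * VV a b G M1 := by
  obtain ⟨n, hn⟩ : ∃ n, M1 = b.natAbs + 1 + n := ⟨M1 - (b.natAbs + 1), by omega⟩
  have hS0 : 0 ≤ S := (norm_nonneg _).trans (hS 0 (Nat.zero_le _))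
  obtain ⟨g, hg⟩ : ∃ g : ℕ → ℂ, g = fun m => if m ≤ M1 then ee (-((qf a b m : ℝ) * β)) else 0 := ⟨_, rfl⟩
  have h1 : ∑ m ∈ Icc 1 M1, (wt a b G s0 m : ℂ) * ee (-((qf a b m : ℝ) * β)) =
      ∑ m ∈ Ico (b.natAbs + 1) (b.natAbs + 1 + n + 1), (wt a b G s0 m : ℂ) * g m := by
    have hsub : Ico (b.natAbs + 1) (b.natAbs + 1 + n + 1) ⊆ Icc 1 M1 := by
      intro m hm
      rw [mem_Ico] at hm
      rw [mem_Icc]
      omega
    rw [← sum_subset hsub]
    · apply sum_congr rfl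
      intro m hm
      rw [mem_Ico] at hm
      rw [hg]
      simp only
      rw [if_pos (by omega)]
    · intro m hm hm'
      rw [mem_Icc] at hm
      rw [mem_Ico] at hm'
      have : wt a b G s0 m = 0 := by
        unfold wt
        rw [if_neg (by omega)]
      rw [this]
      simp
  rw [h1]
  have hC : ∀ k, ‖∑ m ∈ Ico (b.natAbs + 1) (b.natAbs + 1 + k), g m‖ ≤ 2 * S := by
    intro k
    have h2 : ∑ m ∈ Ico (b.natAbs + 1) (b.natAbs + 1 + k), g m =
        ∑ m ∈ Icc 1 (min (b.natAbs + k) M1), ee (-((qf a b m : ℝ) * β)) -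
          ∑ m ∈ Icc 1 (b.natAbs), ee (-((qf a b m : ℝ) * β)) := by
      have h3 : ∑ m ∈ Ico (b.natAbs + 1) (b.natAbs + 1 + k), g m =
          ∑ m ∈ Ioc (b.natAbs) (min (b.natAbs + k) M1), ee (-((qf a b m : ℝ) * β)) := by
        have hsub : Ioc (b.natAbs) (min (b.natAbs + k) M1) ⊆ Ico (b.natAbs + 1) (b.natAbs + 1 + k) := by
          intro m hm
          rw [mem_Ioc] at hm
          rw [mem_Ico]
          omega
        rw [← sum_subset hsub]
        · apply sum_congr rfl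
          intro m hm
          rw [mem_Ioc] at hm
          rw [hg]
          simp only
          rw [if_pos (by omega)]
        · intro m hm hm'
          rw [mem_Ico] at hm
          rw [mem_Ioc] at hm'
          rw [hg]
          simp only
          rw [if_neg (by omega)]
      rw [h3]
      have h4 : Icc 1 (min (b.natAbs + k) M1) = Icc 1 (b.natAbs) ∪ Ioc (b.natAbs) (min (b.natAbs + k) M1) := by
        ext m
        rw [mem_union, mem_Icc, mem_Icc, mem_Ioc]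
        omega
      have h5 : Disjoint (Icc 1 (b.natAbs)) (Ioc (b.natAbs) (min (b.natAbs + k) M1)) := by
        rw [disjoint_left]
        intro m hm hm'
        rw [mem_Icc] at hm
        rw [mem_Ioc] at hm'
        omega
      rw [h4, sum_union h5]
      ring
    rw [h2]
    refine (norm_sub_le _ _).trans ?_
    have h6 := hS (min (b.natAbs + k) M1) (min_le_right _ _)
    have h7 := hS b.natAbs (by omega)
    linarith
  refine (abelI (wt a b G s0) g (b.natAbs + 1) (2 * S) hC n).trans ?_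
  apply mul_le_mul_of_nonneg_left _ (by positivity)
  exact wt_TV ha hG hs0 le_rfl (by omega)

/-- the trivial bound for the weighted sum -/
lemma wt_triv (ha : 1 ≤ a) {G s0 : ℝ} (hG : 0 < G) (hs0 : 0 ≤ s0) (M1 : ℕ) (β : ℝ) :
    ‖∑ m ∈ Icc 1 M1, (wt a b G s0 m : ℂ) * ee (-((qf a b m : ℝ) * β))‖ ≤ M1 * ((2 * a * M1 + b.natAbs : ℤ) : ℝ) := by
  refine (norm_sum_le _ _).trans ?_
  calc ∑ m ∈ Icc 1 M1, ‖(wt a b G s0 m : ℂ) * ee (-((qf a b m : ℝ) * β))‖ ≤
      ∑ _m ∈ Icc 1 M1, ((2 * a * M1 + b.natAbs : ℤ) : ℝ) := by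
        apply sum_le_sum
        intro m hm
        rw [norm_mul, norm_ee, mul_one, Complex.norm_real, Real.norm_eq_abs]
        exact wt_abs ha hG hs0 (mem_Icc.1 hm).2
    _ = _ := by rw [sum_const, Nat.card_Icc, Nat.add_sub_cancel, nsmul_eq_mul]

/-- the bound of the multiplier -/
theorem wey (ha : 1 ≤ a) {G s0 : ℝ} (hG : 0 < G) (hs0 : 0 ≤ s0) {M1 Q H P : ℕ} (hb : b.natAbs + 1 ≤ M1) (hQ : 1 ≤ Q)
    (hH : 1 ≤ H) (hP : 1 ≤ P) (hPQ : (2 * Real.pi) * (Q : ℝ) ^ 2 ≤ 2 * P) (β : ℝ) :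
    ‖∑ m ∈ Icc 1 M1, (wt a b G s0 m : ℂ) * ee (-((qf a b m : ℝ) * β))‖ * ‖1 - KT Q H β‖ ≤
      M1 * ((2 * a * M1 + b.natAbs : ℤ) : ℝ) * (H * (2 * Real.pi / P) + 2 * (Q : ℝ) ^ 4 / H) +
        2 * Real.sqrt (SM a Q P M1) * VV a b G M1 * (2 + 2 * (Q : ℝ) ^ 4 / H) := by
  have har : (1 : ℝ) ≤ a := by exact_mod_cast ha
  have hP0 : (0 : ℝ) < P := by exact_mod_cast hP
  have hQ0 : (0 : ℝ) < Q := by exact_mod_cast hQ
  have hH0 : (0 : ℝ) < H := by exact_mod_cast hH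
  have hVV := VV_nonneg (b := b) ha hG M1
  have hD0 : (0 : ℝ) ≤ ((2 * a * M1 + b.natAbs : ℤ) : ℝ) := by
    have : (0 : ℤ) ≤ 2 * a * M1 + b.natAbs := by positivity
    exact_mod_cast this
  obtain ⟨j, h, hj, hcop, hx⟩ := Pool.Agent.Y614.GJ.Core.dirich (2 * (-a : ℝ) * β) (n := P) (by omega)
  obtain ⟨s, hs⟩ : ∃ s, s = j + 1 := ⟨_, rfl⟩
  rw [← hs] at hcop hx hj
  have hs1 : 1 ≤ s := by omega
  have hs0' : (0 : ℝ) < s := by exact_mod_cast hs1
  have hsP : (s : ℝ) ≤ P := by exact_mod_cast hj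
  have h0 : 0 ≤ M1 * ((2 * a * M1 + b.natAbs : ℤ) : ℝ) * (H * (2 * Real.pi / P) + 2 * (Q : ℝ) ^ 4 / H) := by
    have := Real.pi_pos
    positivity
  have h0' : 0 ≤ 2 * Real.sqrt (SM a Q P M1) * VV a b G M1 * (2 + 2 * (Q : ℝ) ^ 4 / H) := by positivity
  rcases le_or_gt (2 * a * s) (Q : ℤ) with hcase | hcase
  · -- close to a fraction with a small denominator
    have hasr : (0 : ℝ) < 2 * a * s := by positivity
    obtain ⟨r, hr⟩ : ∃ r : ℚ, r = ((h : ℤ) : ℚ) / ((2 * a * s : ℤ) : ℚ) := ⟨_, rfl⟩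
    have hden : r.den ≤ Q := by
      have h1 : ((r.den : ℤ)) ∣ (2 * a * s : ℤ) := by
        have h3 := Rat.den_dvd h (2 * a * s)
        rw [Rat.divInt_eq_div] at h3
        rw [hr]
        exact h3
      have h2 : (0 : ℤ) < 2 * a * s := by exact_mod_cast hasr
      have h3 := Int.le_of_dvd h2 h1
      exact_mod_cast h3.trans hcase
    obtain ⟨p, hp, k, hk⟩ := frac_mem r hden
    have hrr : (r : ℝ) = h / (2 * a * s) := by
      rw [hr]
      push_cast
      rfl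
    have hdd : dd ((p.2 : ℝ) / p.1 + β) ≤ 2 * Real.pi / P := by
      rw [hk, show (r : ℝ) + k + β = (r + β) + k by ring, dd_add_int]
      refine (dd_le _).trans ?_
      have h4 : |(r : ℝ) + β| ≤ 1 / P := by
        have h5 : (r : ℝ) + β = -((2 * (-a : ℝ) * β - h / s) / (2 * a)) := by
          rw [hrr]
          field_simp
          ring
        rw [h5, abs_neg, abs_div, abs_of_pos (by positivity : (0 : ℝ) < 2 * a)]
        rw [div_le_div_iff₀ (by positivity) hP0]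
        have h6 : 1 / (((P : ℝ) + 1) * s) ≤ 1 / P := by
          apply one_div_le_one_div_of_le hP0
          have : (1 : ℝ) ≤ s := by exact_mod_cast hs1
          nlinarith
        have h7 : |2 * (-a : ℝ) * β - h / s| ≤ 1 / P := hx.trans h6
        calc |2 * (-a : ℝ) * β - h / s| * P ≤ 1 / P * P := by gcongr
          _ = 1 := by field_simp
          _ ≤ 1 * (2 * a) := by linarith
      calc 2 * Real.pi * |(r : ℝ) + β| ≤ 2 * Real.pi * (1 / P) := by
            apply mul_le_mul_of_nonneg_left h4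
            have := Real.pi_pos
            positivity
        _ = _ := by ring
    have hε : 2 * Real.pi / P ≤ 2 / (Q : ℝ) ^ 2 := by
      rw [div_le_div_iff₀ hP0 (by positivity)]
      linarith
    have h8 := KT_near Q H hH β (2 * Real.pi / P) p hp hε hdd
    have h9 := wt_triv (b := b) (s0 := s0) ha hG hs0 M1 β
    have h10 := mul_le_mul h9 h8 (norm_nonneg _) (by positivity)
    linarith
  · have h1 : |2 * (-a : ℝ) * β - h / s| ≤ 1 / (s : ℝ) ^ 2 := by
      refine hx.trans ?_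
      apply one_div_le_one_div_of_le (by positivity)
      rw [sq]
      apply mul_le_mul_of_nonneg_right _ hs0'.le
      linarith
    have h2 := wey_wt (b := b) ha hG hs0 hb β (Real.sqrt (SM a Q P M1))
      (fun y hy => weyl_unif ha hQ β hs1 hcop h1 (by exact_mod_cast hj) hcase.le hy)
    have h3 := KT_le Q H hQ hH β
    have h10 := mul_le_mul h2 h3 (norm_nonneg _) (by positivity)
    linarith

end Pool.Agent.K7.H51.PS
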