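import Mathlib
import Pool.Agent.K7.H51.PS.Pa
import Pool.Agent.Y614.GJ.Core

set_option autoImplicit false

/-! The parameters. -/

namespace Pool.Agent.K7.H51.PS

open Finset Filter

/-- the unit of size -/
noncomputable def xx (N : ℕ) : ℝ := (N : ℝ) ^ (1 / 64 : ℝ)

/-- the level of the major arcs -/
noncomputable def pQ (N : ℕ) : ℕ := ⌊xx N ^ 2⌋₊

/-- the length of the smoothing -/
noncomputable def pH (N : ℕ) : ℕ := ⌊xx N ^ 56⌋₊

/-- Dirichlet's parameter -/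
noncomputable def pP (N : ℕ) : ℕ := ⌈xx N ^ 60⌉₊

/-- the length of the slopes -/
noncomputable def pG (g N : ℕ) : ℕ := ⌊(N : ℝ) / Real.log N ^ g⌋₊

/-- a constant -/
def kk (a b : ℤ) : ℕ := a.natAbs + b.natAbs + 3

/-- the range of the argument -/
def pM (a b : ℤ) (N : ℕ) : ℕ := kk a b * (Nat.sqrt N + 1)

/-- the range of the values -/
def pN (a b : ℤ) (N : ℕ) : ℕ := kk a b * N

/-- the number of slopes -/
noncomputable def pJ (a b : ℤ) (g N : ℕ) : ℕ := ((a.natAbs + b.natAbs) * N) / pG g N + 1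

/-- another constant -/
noncomputable def k2 (a b : ℤ) : ℝ := 4 * a * kk a b + b.natAbs + |(qf a b (b.natAbs + 1) : ℝ)|

/-- the relations between the parameters -/
structure PP (a b : ℤ) (g N : ℕ) : Prop where
  N1 : 1 ≤ N
  x1 : 1 ≤ xx N
  x64 : xx N ^ 64 = N
  L1 : 1 ≤ Real.log N
  Lx : Real.log N ≤ xx N ^ 2
  Lgx : Real.log N ^ g ≤ xx N
  Q0 : 1 ≤ pQ N
  Qx : (pQ N : ℝ) ≤ xx N ^ 2
  Qx2 : xx N ^ 2 ≤ 2 * pQ N
  H0 : 1 ≤ pH N
  Hx : (pH N : ℝ) ≤ xx N ^ 56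
  Hx2 : xx N ^ 56 ≤ 2 * pH N
  P0 : 1 ≤ pP N
  Px : (pP N : ℝ) ≤ 2 * xx N ^ 60
  Px2 : xx N ^ 60 ≤ pP N
  Plog : 1 + Real.log (pP N) ≤ 2 * Real.log N
  PQ : (2 * Real.pi) * (pQ N : ℝ) ^ 2 ≤ 2 * pP N
  G0 : 1 ≤ pG g N
  Gx : (pG g N : ℝ) ≤ N / Real.log N ^ g
  Gx2 : xx N ^ 64 ≤ 2 * Real.log N ^ g * pG g N
  M : (pM a b N : ℝ) ≤ 2 * kk a b * xx N ^ 32
  D : ((2 * a * pM a b N + b.natAbs : ℤ) : ℝ) ≤ k2 a b * xx N ^ 32
  Mb : b.natAbs + 1 ≤ pM a b N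
  QN : pQ N ≤ N
  QN1 : pQ N ≤ pN a b N

lemma floor_half {y : ℝ} (hy : 1 ≤ y) : y ≤ 2 * ((⌊y⌋₊ : ℕ) : ℝ) := by
  have h1 := Nat.lt_floor_add_one y
  have h2 : 1 ≤ ⌊y⌋₊ := (Nat.one_le_floor_iff y).2 hy
  have h3 : (1 : ℝ) ≤ (⌊y⌋₊ : ℕ) := by exact_mod_cast h2
  linarith

lemma xx_le {i : ℕ} {x : ℝ} (hx : 1 ≤ x) : x ^ i ≤ x ^ (i + 4) := pow_le_pow_right₀ hx (by omega)

lemma PP_ev (a b : ℤ) (ha : 1 ≤ a) (g : ℕ) : ∀ᶠ N : ℕ in atTop, PP a b g N := by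
  filter_upwards [Pool.Agent.Y614.GJ.Core.ev_log 1 (s := 1 / 64) (by norm_num) (100 : ℝ),
    Pool.Agent.Y614.GJ.Core.ev_log g (s := 1 / 64) (by norm_num) (100 : ℝ), eventually_ge_atTop (2 ^ 64 * 100)] with N h1 h2 h3
  obtain ⟨hL, hLx⟩ := h1
  obtain ⟨-, hLg⟩ := h2
  rw [pow_one] at hLx
  have hN1 : 1 ≤ N := by omega
  have hN0 : (0 : ℝ) ≤ N := Nat.cast_nonneg _
  have hNr : (1 : ℝ) ≤ N := by exact_mod_cast hN1
  have har : (1 : ℝ) ≤ a := by exact_mod_cast ha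
  obtain ⟨L, hLd⟩ : ∃ L, L = Real.log (N : ℝ) := ⟨_, rfl⟩
  obtain ⟨x, hxd⟩ : ∃ x, x = xx N := ⟨_, rfl⟩
  have hxdef : (N : ℝ) ^ (1 / 64 : ℝ) = x := by rw [hxd]; rfl
  rw [hxdef] at hLx hLg
  rw [← hLd] at hL hLx hLg
  have hx100 : 100 ≤ x := hL.trans hLx
  have hx1 : 1 ≤ x := by linarith
  have hx0 : 0 < x := by linarith
  have hL1 : 1 ≤ L := by linarith
  have hL0 : 0 < L := by linarith
  have hx64 : x ^ 64 = N := by
    rw [← hxdef, ← Real.rpow_natCast, ← Real.rpow_mul hN0]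
    norm_num
  have hx2 : 1 ≤ x ^ 2 := one_le_pow₀ hx1
  have hx56 : 1 ≤ x ^ 56 := one_le_pow₀ hx1
  have hx60 : 1 ≤ x ^ 60 := one_le_pow₀ hx1
  have hx32 : 1 ≤ x ^ 32 := one_le_pow₀ hx1
  have hLg0 : 0 < L ^ g := by positivity
  have hQx : (pQ N : ℝ) ≤ x ^ 2 := by
    unfold pQ
    rw [← hxd]
    exact Nat.floor_le (by positivity)
  have hQx2 : x ^ 2 ≤ 2 * (pQ N : ℝ) := by
    unfold pQ
    rw [← hxd]
    exact floor_half hx2
  have hQ0 : 1 ≤ pQ N := by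
    unfold pQ
    rw [← hxd]
    exact (Nat.one_le_floor_iff _).2 hx2
  have hPx2 : x ^ 60 ≤ (pP N : ℝ) := by
    unfold pP
    rw [← hxd]
    exact Nat.le_ceil _
  have hPx : (pP N : ℝ) ≤ 2 * x ^ 60 := by
    have := Nat.ceil_lt_add_one (show (0 : ℝ) ≤ x ^ 60 by positivity)
    unfold pP
    rw [← hxd]
    linarith
  have hP0 : 1 ≤ pP N := by
    have : (1 : ℝ) ≤ pP N := hx60.trans hPx2
    exact_mod_cast this
  have hr1 : 1 ≤ Nat.sqrt N := Nat.le_sqrt'.2 (by omega)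
  have hsq : ((Nat.sqrt N : ℕ) : ℝ) ≤ x ^ 32 := by
    have h4 : ((Nat.sqrt N : ℕ) : ℝ) ^ 2 ≤ (x ^ 32) ^ 2 := by
      rw [← pow_mul, show 32 * 2 = 64 by norm_num, hx64]
      exact_mod_cast Nat.sqrt_le' N
    exact (sq_le_sq₀ (Nat.cast_nonneg _) (by positivity)).1 h4
  have hkk3 : 3 ≤ kk a b := by unfold kk; omega
  have hkb : b.natAbs + 1 ≤ kk a b := by unfold kk; omega
  have hM : (pM a b N : ℝ) ≤ 2 * kk a b * x ^ 32 := by
    unfold pM
    push_cast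
    calc (kk a b : ℝ) * ((Nat.sqrt N : ℕ) + 1) ≤ kk a b * (x ^ 32 + x ^ 32) := by gcongr
      _ = _ := by ring
  have hG1 : (1 : ℝ) ≤ N / L ^ g := by
    rw [le_div_iff₀ hLg0, one_mul, ← hx64]
    exact hLg.trans (le_self_pow₀ hx1 (by norm_num))
  have hNQ : pQ N ≤ N := by
    have : (pQ N : ℝ) ≤ N := by
      refine hQx.trans ?_
      rw [← hx64]
      exact pow_le_pow_right₀ hx1 (by norm_num)
    exact_mod_cast this
  refine ⟨hN1, by rw [← hxd]; exact hx1, by rw [← hxd]; exact hx64, by rw [← hLd]; exact hL1, ?_, by rw [← hxd, ← hLd]; exact hLg,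
    hQ0, by rw [← hxd]; exact hQx, by rw [← hxd]; exact hQx2, ?_, ?_, ?_, hP0, by rw [← hxd]; exact hPx, by rw [← hxd]; exact hPx2,
    ?_, ?_, ?_, ?_, ?_, by rw [← hxd]; exact hM, ?_, ?_, hNQ, ?_⟩
  · rw [← hLd, ← hxd]
    exact hLx.trans (le_self_pow₀ hx1 (by norm_num))
  · unfold pH
    rw [← hxd]
    exact (Nat.one_le_floor_iff _).2 hx56
  · unfold pH
    rw [← hxd]
    exact Nat.floor_le (by positivity)
  · unfold pH
    rw [← hxd]
    exact floor_half hx56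
  · rw [← hLd]
    have h5 : Real.log (pP N) ≤ L := by
      rw [hLd]
      apply Real.log_le_log (by exact_mod_cast hP0)
      rw [← hx64]
      refine hPx.trans ?_
      calc 2 * x ^ 60 ≤ x ^ 4 * x ^ 60 := by
            apply mul_le_mul_of_nonneg_right _ (by positivity)
            have : x ≤ x ^ 4 := le_self_pow₀ hx1 (by norm_num)
            linarith
        _ = x ^ 64 := by ring
    linarith
  · have h6 : (2 * Real.pi) * (pQ N : ℝ) ^ 2 ≤ (2 * 4) * (x ^ 2) ^ 2 := by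
      have := Real.pi_le_four
      have := Real.pi_pos
      gcongr
    refine h6.trans ?_
    calc (2 * 4) * (x ^ 2) ^ 2 = 8 * x ^ 4 := by ring
      _ ≤ x ^ 56 * x ^ 4 := by
          apply mul_le_mul_of_nonneg_right _ (by positivity)
          have : x ≤ x ^ 56 := le_self_pow₀ hx1 (by norm_num)
          linarith
      _ = x ^ 60 := by ring
      _ ≤ 2 * pP N := by linarith
  · unfold pG
    rw [← hLd]
    exact (Nat.one_le_floor_iff _).2 hG1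
  · unfold pG
    rw [← hLd]
    exact Nat.floor_le (by positivity)
  · unfold pG
    rw [← hLd, ← hxd, hx64]
    have h7 := floor_half hG1
    rw [div_le_iff₀ hLg0] at h7
    linarith
  · rw [← hxd]
    push_cast
    have h8 : 0 ≤ |(qf a b (b.natAbs + 1) : ℝ)| := abs_nonneg _
    have h9 : (b.natAbs : ℝ) ≤ b.natAbs * x ^ 32 := le_mul_of_one_le_right (Nat.cast_nonneg _) hx32
    calc 2 * (a : ℝ) * pM a b N + |(b : ℝ)| ≤ 2 * a * (2 * kk a b * x ^ 32) + b.natAbs * x ^ 32 := by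
          have h10 : |(b : ℝ)| = b.natAbs := by
            rw [Nat.cast_natAbs]
            push_cast
            rfl
          rw [h10]
          gcongr
      _ ≤ 2 * a * (2 * kk a b * x ^ 32) + b.natAbs * x ^ 32 + |(qf a b (b.natAbs + 1) : ℝ)| * x ^ 32 := by
          have : 0 ≤ |(qf a b (b.natAbs + 1) : ℝ)| * x ^ 32 := by positivity
          linarith
      _ = k2 a b * x ^ 32 := by unfold k2; ring
  · unfold pM
    calc b.natAbs + 1 ≤ kk a b * 1 := by omega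
      _ ≤ _ := Nat.mul_le_mul_left _ (by omega)
  · unfold pN
    calc pQ N ≤ 1 * N := by omega
      _ ≤ _ := Nat.mul_le_mul_right _ (by omega)

end Pool.Agent.K7.H51.PS
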