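import Mathlib
import Pool.Agent.K7.H51.PS.Pb
import Pool.Agent.K7.H51.PS.Nz

set_option autoImplicit false

/-! The exceptional constant terms. -/

namespace Pool.Agent.K7.H51.PS

open Finset Filter

/-- the difference of the correlation and its model -/
noncomputable def TSj (a b : ℤ) (g N j : ℕ) (c : ℤ) : ℂ :=
  TS (wt a b (pG g N) ((j : ℝ) * pG g N)) (qf a b) (Fq (pQ N)) (pQ N) (pH N) (pM a b N) (pN a b N) c

/-- the exceptional constant terms for one slope -/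
noncomputable def TE (a b : ℤ) (g N j : ℕ) : Finset ℤ := by
  classical
  exact (Icc (1 : ℤ) N).filter (fun c => (N : ℝ) / Real.log N ^ (g + 1) < ‖TSj a b g N j c‖)

/-- the constant of the bound -/
noncomputable def b0 (a b : ℤ) : ℝ :=
  24 * kk a b * k2 a b + 12 * (46 * a * kk a b) * (k2 a b + 4 * a * kk a b + 16 * kk a b * k2 a b ^ 2)

lemma qf_abs {a b : ℤ} {m M : ℕ} (h : m ≤ M) : |qf a b m| ≤ a.natAbs * (M : ℤ) ^ 2 + b.natAbs * M := by
  unfold qf
  refine (abs_add_le _ _).trans ?_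
  rw [abs_mul, abs_mul, Int.natCast_natAbs, Int.natCast_natAbs, abs_of_nonneg (sq_nonneg (m : ℤ)),
    abs_of_nonneg (Int.natCast_nonneg m)]
  have h1 : (m : ℤ) ≤ M := by exact_mod_cast h
  have h0 : (0 : ℤ) ≤ m := Int.natCast_nonneg m
  gcongr

lemma TE_card {a b : ℤ} (ha : 1 ≤ a) {g N : ℕ} (h : PP a b g N) (hk : kk a b ≤ N) (j : ℕ) :
    (#(TE a b g N j) : ℝ) ≤ 4 * kk a b * b0 a b ^ 2 * (xx N ^ 62 * Real.log N ^ (4 * g + 4)) := by
  classical
  have har : (1 : ℝ) ≤ a := by exact_mod_cast ha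
  have hN0 : (0 : ℝ) < N := by exact_mod_cast h.N1
  have hL0 : 0 < Real.log N := by linarith [h.L1]
  have hx0 : 0 < xx N := by linarith [h.x1]
  have hkk3 : 3 ≤ kk a b := by unfold kk; omega
  have hkk : (1 : ℝ) ≤ kk a b := by exact_mod_cast (by omega : 1 ≤ kk a b)
  have hk2 : 1 ≤ k2 a b := by
    unfold k2
    have h1 : (0 : ℝ) ≤ b.natAbs := Nat.cast_nonneg _
    have h2 := abs_nonneg (qf a b (b.natAbs + 1) : ℝ)
    have h3 : (1 : ℝ) * 1 ≤ a * kk a b := mul_le_mul har hkk (by norm_num) (by linarith)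
    linarith
  have hLg1 : 1 ≤ Real.log N ^ g := one_le_pow₀ h.L1
  have hG0 : (0 : ℝ) < pG g N := by exact_mod_cast h.G0
  have hs0 : (0 : ℝ) ≤ (j : ℝ) * pG g N := by positivity
  obtain ⟨R, hR⟩ : ∃ R : ℕ, R = pN a b N + pH N + (a.natAbs * pM a b N ^ 2 + b.natAbs * pM a b N) := ⟨_, rfl⟩
  have hB := B_le (b := b) (G := pG g N) (x := xx N) (L := Real.log N) (Lg := Real.log N ^ g) (K1 := kk a b) (K2 := k2 a b)
    (M1 := pM a b N) (Q := pQ N) (H := pH N) (P := pP N) ha h.x1 hLg1 h.L1 h.Lx hkk hk2 h.M h.D h.Gx2 hG0 h.Qx2 h.Qx h.Q0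
    h.Px h.Px2 h.Plog h.Hx h.Hx2 h.H0
  have h1 := TS_mean (wt a b (pG g N) ((j : ℝ) * pG g N)) (qf a b) (Fq (pQ N)) (pQ N) (pH N) (pM a b N) (pN a b N) R h.H0
    (by
      intro m hm v hv t ht
      rw [mem_Icc] at hm hv
      rw [mem_range] at ht
      have h2 := qf_abs (a := a) (b := b) hm.2
      rw [abs_le] at h2
      rw [mem_Icc, hR]
      push_cast
      push_cast at h2
      have hv' : (v : ℤ) ≤ pN a b N := by exact_mod_cast hv.2
      have ht' : (t : ℤ) < pH N := by exact_mod_cast ht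
      have hv0 : (0 : ℤ) ≤ v := Int.natCast_nonneg _
      have ht0 : (0 : ℤ) ≤ t := Int.natCast_nonneg _
      constructor
      · linarith [h2.1, h2.2]
      · linarith [h2.1, h2.2])
    (by rw [hR]; omega) (b0 a b * (xx N ^ 63 * Real.log N ^ g)) (fun β =>
      (wey ha hG0 hs0 h.Mb h.Q0 h.H0 h.P0 h.PQ β).trans hB)
  -- the sum of the squares
  have h3 : ∑ v ∈ Icc 1 (pN a b N), Fq (pQ N) v ^ 2 ≤ (kk a b * N) * (2 * Real.log N) ^ 2 := by
    have h4 : ∀ v ∈ Icc 1 (pN a b N), Fq (pQ N) v ^ 2 ≤ (2 * Real.log N) ^ 2 := by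
      intro v hv
      rw [mem_Icc] at hv
      apply pow_le_pow_left₀ (Fq_nonneg _ _)
      refine (Fq_le_log _).trans ?_
      have h5 : (v : ℝ) ≤ (N : ℝ) * N := by
        have : v ≤ N * N := hv.2.trans (by unfold pN; exact Nat.mul_le_mul_right _ hk)
        exact_mod_cast this
      have hv0 : (0 : ℝ) < v := by exact_mod_cast hv.1
      refine (Real.log_le_log hv0 h5).trans ?_
      rw [Real.log_mul hN0.ne' hN0.ne']
      linarith
    refine (sum_le_sum h4).trans ?_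
    rw [sum_const, Nat.card_Icc, Nat.add_sub_cancel, nsmul_eq_mul]
    unfold pN
    push_cast
    exact le_rfl
  -- counting
  have hsub : TE a b g N j ⊆ Icc (-(R : ℤ)) R := by
    intro c hc
    unfold TE at hc
    rw [mem_filter, mem_Icc] at hc
    rw [mem_Icc, hR]
    have h5 : N ≤ pN a b N := by
      unfold pN
      calc N = 1 * N := by ring
        _ ≤ _ := Nat.mul_le_mul_right _ (by omega)
    push_cast
    have h6 : (N : ℤ) ≤ pN a b N := by exact_mod_cast h5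
    have h7 : (0 : ℤ) ≤ (pH N : ℤ) := Int.natCast_nonneg _
    have h8 : (0 : ℤ) ≤ |a| * (pM a b N : ℤ) ^ 2 + |b| * (pM a b N : ℤ) := by positivity
    constructor
    · linarith [hc.1.1]
    · linarith [hc.1.2]
  have h6 : (#(TE a b g N j) : ℝ) * ((N : ℝ) / Real.log N ^ (g + 1)) ^ 2 ≤
      ∑ c ∈ Icc (-(R : ℤ)) R, ‖TSj a b g N j c‖ ^ 2 := by
    refine le_trans ?_ (sum_le_sum_of_subset_of_nonneg hsub fun c _ _ => sq_nonneg _)
    rw [← nsmul_eq_mul]
    apply card_nsmul_le_sum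
    intro c hc
    unfold TE at hc
    rw [mem_filter] at hc
    exact pow_le_pow_left₀ (by positivity) hc.2.le 2
  have h7 : (#(TE a b g N j) : ℝ) * ((N : ℝ) / Real.log N ^ (g + 1)) ^ 2 ≤
      (b0 a b * (xx N ^ 63 * Real.log N ^ g)) ^ 2 * ((kk a b * N) * (2 * Real.log N) ^ 2) :=
    h6.trans (h1.trans (mul_le_mul_of_nonneg_left h3 (sq_nonneg _)))
  have h8 : (0 : ℝ) < ((N : ℝ) / Real.log N ^ (g + 1)) ^ 2 := by positivity
  rw [← le_div_iff₀ h8] at h7
  refine h7.trans (le_of_eq ?_)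
  have e1 : ((N : ℝ) / Real.log N ^ (g + 1)) ^ 2 = N * xx N ^ 64 / Real.log N ^ (2 * g + 2) := by
    rw [div_pow, ← pow_mul, h.x64]
    ring
  rw [e1]
  have e2 : Real.log N ^ (4 * g + 4) = Real.log N ^ (2 * g + 2) * (Real.log N ^ g) ^ 2 * Real.log N ^ 2 := by ring
  rw [e2]
  field_simp
  norm_num

/-- all the exceptional constant terms -/
noncomputable def TA (a b : ℤ) (g N : ℕ) : Finset ℤ := by
  classical
  exact (range (pJ a b g N + 1)).biUnion (TE a b g N)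

lemma TA_card {a b : ℤ} (ha : 1 ≤ a) (g : ℕ) : ∀ᶠ N : ℕ in atTop, (#(TA a b g N) : ℝ) ≤ (N : ℝ) ^ (39 / 40 : ℝ) / 4 := by
  classical
  obtain ⟨K, hK⟩ : ∃ K : ℝ, K = 4 * kk a b * b0 a b ^ 2 := ⟨_, rfl⟩
  have hK0 : 0 ≤ K := by rw [hK]; positivity
  filter_upwards [PP_ev a b ha g, eventually_ge_atTop (kk a b),
    Pool.Agent.Y614.GJ.Core.ev_log (5 * g + 5) (s := 1 / 160) (by norm_num) (4 * (K * (2 * kk a b + 2)) : ℝ)] with N h hk h1
  obtain ⟨hL, hLp⟩ := h1
  have hN0 : (0 : ℝ) < N := by exact_mod_cast h.N1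
  have hG0 : (0 : ℝ) < pG g N := by exact_mod_cast h.G0
  have hL0 : 0 < Real.log N := by linarith [h.L1]
  have hx0 : 0 < xx N := by linarith [h.x1]
  have hLg1 : 1 ≤ Real.log N ^ g := one_le_pow₀ h.L1
  have h2 : (#(TA a b g N) : ℝ) ≤ (pJ a b g N + 1) * (K * (xx N ^ 62 * Real.log N ^ (4 * g + 4))) := by
    have h3 : #(TA a b g N) ≤ ∑ j ∈ range (pJ a b g N + 1), #(TE a b g N j) := by
      unfold TA
      exact card_biUnion_le
    have h4 : (#(TA a b g N) : ℝ) ≤ ∑ j ∈ range (pJ a b g N + 1), (#(TE a b g N j) : ℝ) := by exact_mod_cast h3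
    refine h4.trans ?_
    refine (sum_le_sum fun j _ => TE_card ha h hk j).trans ?_
    rw [sum_const, card_range, nsmul_eq_mul, ← hK]
    push_cast
    exact le_rfl
  have h5 : ((pJ a b g N : ℕ) : ℝ) + 1 ≤ (2 * kk a b + 2) * Real.log N ^ g := by
    have h6 : ((((a.natAbs + b.natAbs) * N) / pG g N : ℕ) : ℝ) ≤ ((a.natAbs + b.natAbs : ℕ) : ℝ) * N / pG g N := by
      refine Nat.cast_div_le.trans ?_
      push_cast
      exact le_rfl
    have h7 : ((a.natAbs + b.natAbs : ℕ) : ℝ) * N / pG g N ≤ 2 * kk a b * Real.log N ^ g := by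
      rw [div_le_iff₀ hG0]
      have h8 := h.Gx2
      rw [h.x64] at h8
      have h9 : ((a.natAbs + b.natAbs : ℕ) : ℝ) ≤ kk a b := by
        have : a.natAbs + b.natAbs ≤ kk a b := by unfold kk; omega
        exact_mod_cast this
      calc ((a.natAbs + b.natAbs : ℕ) : ℝ) * N ≤ kk a b * (2 * Real.log N ^ g * pG g N) := by gcongr
        _ = _ := by ring
    unfold pJ
    push_cast
    push_cast at h6 h7
    linarith
  have h10 : (#(TA a b g N) : ℝ) ≤ (K * (2 * kk a b + 2)) * Real.log N ^ (5 * g + 4) * xx N ^ 62 := by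
    refine h2.trans ?_
    calc (((pJ a b g N : ℕ) : ℝ) + 1) * (K * (xx N ^ 62 * Real.log N ^ (4 * g + 4))) ≤
        ((2 * kk a b + 2) * Real.log N ^ g) * (K * (xx N ^ 62 * Real.log N ^ (4 * g + 4))) := by gcongr
      _ = _ := by ring
  have h11 : (K * (2 * kk a b + 2)) * Real.log N ^ (5 * g + 4) ≤ (N : ℝ) ^ (1 / 160 : ℝ) / 4 := by
    have h12 : 4 * (K * (2 * kk a b + 2)) * Real.log N ^ (5 * g + 4) ≤ Real.log N * Real.log N ^ (5 * g + 4) := by gcongr
    have h13 : Real.log N * Real.log N ^ (5 * g + 4) = Real.log N ^ (5 * g + 5) := by ring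
    linarith
  have h14 : xx N ^ 62 = (N : ℝ) ^ (62 / 64 : ℝ) := by
    unfold xx
    rw [← Real.rpow_natCast, ← Real.rpow_mul hN0.le]
    norm_num
  refine h10.trans ?_
  rw [h14]
  calc (K * (2 * kk a b + 2)) * Real.log N ^ (5 * g + 4) * (N : ℝ) ^ (62 / 64 : ℝ) ≤
      ((N : ℝ) ^ (1 / 160 : ℝ) / 4) * (N : ℝ) ^ (62 / 64 : ℝ) := by gcongr
    _ = ((N : ℝ) ^ (1 / 160 : ℝ) * (N : ℝ) ^ (62 / 64 : ℝ)) / 4 := by ring
    _ = (N : ℝ) ^ (39 / 40 : ℝ) / 4 := by
        rw [← Real.rpow_add hN0]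
        norm_num

end Pool.Agent.K7.H51.PS
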