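import Mathlib
import Pool.Agent.K7.H51.PS.Wts

set_option autoImplicit false

/-! Removing the weights. -/

namespace Pool.Agent.K7.H51.PS

open Finset

variable {a b : ℤ}

lemma dq_nonneg (ha : 1 ≤ a) {m : ℕ} (hm : b.natAbs + 1 ≤ m) : (0 : ℝ) ≤ (dq a b m : ℝ) := by
  have := dq_pos ha hm
  exact_mod_cast (le_trans (by positivity) this)

lemma qf_nat_nonneg (ha : 1 ≤ a) {m : ℕ} (hm : b.natAbs ≤ m) : (0 : ℤ) ≤ qf a b m := by
  have h1 : (0 : ℤ) ≤ qf a b b.natAbs := by
    unfold qf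
    have h2 : -(b.natAbs : ℤ) ≤ b := by omega
    have h3 : (1 : ℤ) * (b.natAbs : ℤ) ^ 2 ≤ a * (b.natAbs : ℤ) ^ 2 := mul_le_mul_of_nonneg_right ha (sq_nonneg _)
    have h4 : -(b.natAbs : ℤ) * b.natAbs ≤ b * b.natAbs := mul_le_mul_of_nonneg_right h2 (by positivity)
    nlinarith
  exact h1.trans (qf_mono ha le_rfl hm)

/-- the sum of the weights below `G` -/
lemma dq_small (ha : 1 ≤ a) {G : ℝ} (hG : 0 < G) {m : ℕ} (hm : b.natAbs ≤ m) :
    ∑ i ∈ Ioc b.natAbs m, (if (qf a b i : ℝ) < G then (dq a b i : ℝ) else 0) ≤ min (qf a b m : ℝ) G := by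
  induction m, hm using Nat.le_induction with
  | base =>
    rw [Ioc_self, sum_empty]
    apply le_min _ hG.le
    exact_mod_cast qf_nat_nonneg ha le_rfl
  | succ m hm ih =>
    rw [sum_Ioc_succ_top (by omega)]
    have e : (qf a b (m + 1) : ℝ) = qf a b m + dq a b (m + 1) := by
      rw [qf_succ]
      push_cast
      ring
    have h0 := dq_nonneg (b := b) ha (m := m + 1) (by omega)
    split_ifs with h
    · have h1 : (qf a b m : ℝ) < G := by linarith
      rw [min_eq_left h1.le] at ih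
      rw [min_eq_left h.le, e]
      linarith
    · rw [add_zero]
      refine ih.trans (min_le_min_right G ?_)
      linarith

/-- the weighted partial sums -/
lemma U_bound (ha : 1 ≤ a) (Fm : ℕ → ℝ) {M1 J : ℕ} {L1 G S Err : ℝ} (hF0 : ∀ m, 0 ≤ Fm m) (hFL : ∀ m ≤ M1, Fm m ≤ L1)
    (hG : 0 < G) (hS : 0 ≤ S) (hE : 0 ≤ Err)
    (hA : ∀ j ≤ J, |∑ m ∈ Icc 1 M1, wt a b G (j * G) m * Fm m - j * G * S| ≤ Err) {m : ℕ} (hm : b.natAbs ≤ m) (hmM : m ≤ M1)
    (hmJ : (qf a b m : ℝ) ≤ J * G) :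
    |∑ i ∈ Ioc b.natAbs m, (dq a b i : ℝ) * Fm i - S * qf a b m| ≤ Err + 2 * S * G + L1 * G := by
  have hL1 : 0 ≤ L1 := (hF0 0).trans (hFL 0 (Nat.zero_le _))
  obtain ⟨u, hu⟩ : ∃ u : ℝ, u = qf a b m := ⟨_, rfl⟩
  have hu0 : 0 ≤ u := by
    rw [hu]
    exact_mod_cast qf_nat_nonneg ha hm
  rw [← hu] at hmJ ⊢
  have hSG : 0 ≤ S * G := by positivity
  have hLG : 0 ≤ L1 * G := by positivity
  have hmono : ∀ i, b.natAbs ≤ i → i ≤ m → (qf a b i : ℝ) ≤ u := by
    intro i hi him
    rw [hu]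
    exact_mod_cast qf_mono ha hi him
  rw [abs_le]
  constructor
  · -- the lower bound
    rcases lt_or_ge u G with hcase | hcase
    · have h1 : 0 ≤ ∑ i ∈ Ioc b.natAbs m, (dq a b i : ℝ) * Fm i := by
        apply sum_nonneg
        intro i hi
        rw [mem_Ioc] at hi
        exact mul_nonneg (dq_nonneg ha (by omega)) (hF0 i)
      have h2 : S * u ≤ S * G := by gcongr
      linarith
    · obtain ⟨j, hj⟩ : ∃ j, j = ⌊u / G⌋₊ - 1 := ⟨_, rfl⟩
      have hf1 : 1 ≤ ⌊u / G⌋₊ := by
        apply Nat.le_floor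
        rw [Nat.cast_one, le_div_iff₀ hG]
        linarith
      have hf2 : (⌊u / G⌋₊ : ℝ) * G ≤ u := by
        have := Nat.floor_le (show 0 ≤ u / G by positivity)
        rwa [le_div_iff₀ hG] at this
      have hf3 : u < ((⌊u / G⌋₊ : ℝ) + 1) * G := by
        have := Nat.lt_floor_add_one (u / G)
        rwa [div_lt_iff₀ hG] at this
      have hjr : (j : ℝ) = ⌊u / G⌋₊ - 1 := by
        rw [hj, Nat.cast_sub hf1, Nat.cast_one]
      have hjJ : j ≤ J := by
        have : (j : ℝ) * G ≤ J * G := by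
          rw [hjr]
          nlinarith
        have h3 : (j : ℝ) ≤ J := le_of_mul_le_mul_right this hG
        exact_mod_cast h3
      have hs0 : 0 ≤ (j : ℝ) * G := by positivity
      have hsG : (j : ℝ) * G + G ≤ u := by
        rw [hjr]
        nlinarith
      have h1 : ∑ i ∈ Icc 1 M1, wt a b G (j * G) i * Fm i ≤ ∑ i ∈ Ioc b.natAbs m, (dq a b i : ℝ) * Fm i := by
        have hsub : Ioc b.natAbs m ⊆ Icc 1 M1 := by
          intro i hi
          rw [mem_Ioc] at hi
          rw [mem_Icc]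
          omega
        rw [← sum_subset hsub]
        · apply sum_le_sum
          intro i hi
          rw [mem_Ioc] at hi
          unfold wt
          rw [if_pos (by omega)]
          have h3 := dq_nonneg (b := b) ha (m := i) (by omega)
          have h4 := th_le_one hG hs0 (qf a b i : ℝ)
          calc (dq a b i : ℝ) * th G (j * G) (qf a b i) * Fm i ≤ (dq a b i : ℝ) * 1 * Fm i := by
                have := hF0 i
                gcongr
            _ = _ := by ring
        · intro i hi hi'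
          rw [mem_Icc] at hi
          rw [mem_Ioc] at hi'
          unfold wt
          split_ifs with h5
          · have h6 : m ≤ i := by omega
            have h7 : u ≤ (qf a b i : ℝ) := by
              rw [hu]
              exact_mod_cast qf_mono ha hm h6
            rw [th_right hG hs0 (by linarith)]
            ring
          · ring
      have h2 := (abs_le.1 (hA j hjJ)).1
      have h3 : S * (u - 2 * G) ≤ S * (j * G) := by
        apply mul_le_mul_of_nonneg_left _ hS
        rw [hjr]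
        nlinarith
      linarith
  · -- the upper bound
    obtain ⟨j, hj⟩ : ∃ j, j = ⌈u / G⌉₊ := ⟨_, rfl⟩
    have hj1 : u ≤ j * G := by
      have := Nat.le_ceil (u / G)
      rw [← hj] at this
      rwa [div_le_iff₀ hG] at this
    have hj2 : (j : ℝ) * G ≤ u + G := by
      have := Nat.ceil_lt_add_one (show 0 ≤ u / G by positivity)
      rw [← hj] at this
      have h3 : (j : ℝ) * G < (u / G + 1) * G := mul_lt_mul_of_pos_right this hG
      have h4 : (u / G + 1) * G = u + G := by field_simp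
      linarith
    have hjJ : j ≤ J := by
      rw [hj]
      apply Nat.ceil_le.2
      rw [div_le_iff₀ hG]
      exact hmJ
    have hs0 : 0 ≤ (j : ℝ) * G := by positivity
    have h1 : ∑ i ∈ Ioc b.natAbs m, (dq a b i : ℝ) * Fm i ≤
        ∑ i ∈ Ioc b.natAbs m, (if (qf a b i : ℝ) < G then (dq a b i : ℝ) else 0) * L1 +
        ∑ i ∈ Ioc b.natAbs m, wt a b G (j * G) i * Fm i := by
      rw [← sum_add_distrib]
      apply sum_le_sum
      intro i hi
      rw [mem_Ioc] at hi
      have h3 := dq_nonneg (b := b) ha (m := i) (by omega)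
      have h4 := hF0 i
      have h5 := hFL i (by omega)
      have h6 := th_nonneg hG hs0 (qf a b i : ℝ)
      have hwt : wt a b G (j * G) i = (dq a b i : ℝ) * th G (j * G) (qf a b i) := by
        unfold wt
        rw [if_pos (by omega)]
      rw [hwt]
      split_ifs with h7
      · have h8 : (dq a b i : ℝ) * Fm i ≤ dq a b i * L1 := by gcongr
        have h9 : 0 ≤ (dq a b i : ℝ) * th G (j * G) (qf a b i) * Fm i := by positivity
        linarith
      · rw [not_lt] at h7
        rw [th_one hG h7 ((hmono i (by omega) hi.2).trans hj1)]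
        linarith
    have h2 : ∑ i ∈ Ioc b.natAbs m, wt a b G (j * G) i * Fm i ≤ ∑ i ∈ Icc 1 M1, wt a b G (j * G) i * Fm i := by
      apply sum_le_sum_of_subset_of_nonneg
      · intro i hi
        rw [mem_Ioc] at hi
        rw [mem_Icc]
        omega
      · intro i _ _
        apply mul_nonneg _ (hF0 i)
        unfold wt
        split_ifs with h3
        · exact mul_nonneg (dq_nonneg ha h3) (th_nonneg hG hs0 _)
        · exact le_rfl
    have h3 := (abs_le.1 (hA j hjJ)).2
    have h4 : ∑ i ∈ Ioc b.natAbs m, (if (qf a b i : ℝ) < G then (dq a b i : ℝ) else 0) * L1 ≤ L1 * G := by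
      rw [← sum_mul, mul_comm]
      apply mul_le_mul_of_nonneg_left _ hL1
      exact (dq_small ha hG hm).trans (min_le_right _ _)
    have h5 : S * (j * G) ≤ S * (u + G) := by gcongr
    linarith

/-- partial summation for the differences -/
lemma diff_abel (D w : ℕ → ℝ) {m0 y : ℕ} (h : m0 ≤ y) :
    ∑ i ∈ Ioc m0 y, (D i - D (i - 1)) * w i = D y * w (y + 1) - D m0 * w (m0 + 1) +
      ∑ i ∈ Ioc m0 y, D i * (w i - w (i + 1)) := by
  induction y, h using Nat.le_induction with
  | base => simp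
  | succ y hy ih =>
    rw [sum_Ioc_succ_top (by omega), sum_Ioc_succ_top (by omega), ih, Nat.add_sub_cancel]
    ring

lemma diff_abel_le (D w : ℕ → ℝ) {m0 y : ℕ} {E : ℝ} (h : m0 ≤ y) (hD : ∀ i, m0 ≤ i → i ≤ y → |D i| ≤ E)
    (hw0 : ∀ i, m0 < i → 0 ≤ w i) (hw : ∀ i, m0 < i → w (i + 1) ≤ w i) :
    |∑ i ∈ Ioc m0 y, (D i - D (i - 1)) * w i| ≤ 2 * E * w (m0 + 1) := by
  have hE : 0 ≤ E := (abs_nonneg _).trans (hD m0 le_rfl h)
  rw [diff_abel D w h]
  have h1 : |∑ i ∈ Ioc m0 y, D i * (w i - w (i + 1))| ≤ E * (w (m0 + 1) - w (y + 1)) := by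
    have h2 : ∀ y, m0 ≤ y → ∑ i ∈ Ioc m0 y, (w i - w (i + 1)) = w (m0 + 1) - w (y + 1) := by
      intro y hy
      induction y, hy using Nat.le_induction with
      | base => simp
      | succ y hy ih =>
        rw [sum_Ioc_succ_top (by omega), ih]
        ring
    rw [← h2 y h, mul_sum]
    refine (abs_sum_le_sum_abs _ _).trans (sum_le_sum fun i hi => ?_)
    rw [mem_Ioc] at hi
    rw [abs_mul, abs_of_nonneg (sub_nonneg.2 (hw i hi.1))]
    exact mul_le_mul_of_nonneg_right (hD i (by omega) hi.2) (sub_nonneg.2 (hw i hi.1))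
  have h2 : |D y * w (y + 1)| ≤ E * w (y + 1) := by
    rw [abs_mul, abs_of_nonneg (hw0 _ (by omega))]
    exact mul_le_mul_of_nonneg_right (hD y h le_rfl) (hw0 _ (by omega))
  have h3 : |D m0 * w (m0 + 1)| ≤ E * w (m0 + 1) := by
    rw [abs_mul, abs_of_nonneg (hw0 _ (by omega))]
    exact mul_le_mul_of_nonneg_right (hD m0 le_rfl h) (hw0 _ (by omega))
  have h4 := abs_add_le (D y * w (y + 1) - D m0 * w (m0 + 1)) (∑ i ∈ Ioc m0 y, D i * (w i - w (i + 1)))
  have h5 := abs_sub (D y * w (y + 1)) (D m0 * w (m0 + 1))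
  linarith

/-- the sums without weights -/
theorem dw (ha : 1 ≤ a) (Fm : ℕ → ℝ) {M1 J Y m0 : ℕ} {L1 G S Err : ℝ} (hF0 : ∀ m, 0 ≤ Fm m) (hFL : ∀ m ≤ M1, Fm m ≤ L1)
    (hG : 0 < G) (hS : 0 ≤ S) (hE : 0 ≤ Err)
    (hA : ∀ j ≤ J, |∑ m ∈ Icc 1 M1, wt a b G (j * G) m * Fm m - j * G * S| ≤ Err) (hm0 : b.natAbs ≤ m0) (hYM : Y ≤ M1)
    (hYJ : ∀ m, b.natAbs ≤ m → m ≤ Y → (qf a b m : ℝ) ≤ J * G) : ∀ y ≤ Y,
    |∑ i ∈ Icc 1 y, Fm i - S * y| ≤ m0 * (L1 + S) + 2 * (Err + 2 * S * G + L1 * G) / ((m0 : ℝ) + 1) := by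
  intro y hy
  have hL1 : 0 ≤ L1 := (hF0 0).trans (hFL 0 (Nat.zero_le _))
  have htriv : ∀ x ≤ y, |∑ i ∈ Icc 1 x, (Fm i - S)| ≤ x * (L1 + S) := by
    intro x hx
    refine (abs_sum_le_sum_abs _ _).trans ?_
    calc ∑ i ∈ Icc 1 x, |Fm i - S| ≤ ∑ _i ∈ Icc 1 x, (L1 + S) := by
          apply sum_le_sum
          intro i hi
          rw [mem_Icc] at hi
          have h4 := hF0 i
          have h5 := hFL i (by omega)
          rw [abs_le]
          constructor <;> linarith
      _ = x * (L1 + S) := by rw [sum_const, Nat.card_Icc, Nat.add_sub_cancel, nsmul_eq_mul]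
  have e0 : ∑ i ∈ Icc 1 y, Fm i - S * y = ∑ i ∈ Icc 1 y, (Fm i - S) := by
    rw [sum_sub_distrib, sum_const, Nat.card_Icc, Nat.add_sub_cancel, nsmul_eq_mul]
    ring
  rw [e0]
  have hpos : 0 ≤ 2 * (Err + 2 * S * G + L1 * G) / ((m0 : ℝ) + 1) := by positivity
  rcases le_or_gt y m0 with hcase | hcase
  · refine (htriv y le_rfl).trans ?_
    have h1 : (y : ℝ) ≤ m0 := by exact_mod_cast hcase
    have h2 : (y : ℝ) * (L1 + S) ≤ m0 * (L1 + S) := by gcongr
    linarith
  · have hsplit : Icc 1 y = Icc 1 m0 ∪ Ioc m0 y := by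
      ext i
      rw [mem_union, mem_Icc, mem_Icc, mem_Ioc]
      omega
    have hdis : Disjoint (Icc 1 m0) (Ioc m0 y) := by
      rw [disjoint_left]
      intro i hi hi'
      rw [mem_Icc] at hi
      rw [mem_Ioc] at hi'
      omega
    rw [hsplit, sum_union hdis]
    refine (abs_add_le _ _).trans (add_le_add (htriv m0 (by omega)) ?_)
    obtain ⟨D, hD⟩ : ∃ D : ℕ → ℝ, D = fun m => ∑ i ∈ Ioc b.natAbs m, (dq a b i : ℝ) * Fm i - S * qf a b m := ⟨_, rfl⟩
    obtain ⟨w, hw⟩ : ∃ w : ℕ → ℝ, w = fun m => 1 / (dq a b m : ℝ) := ⟨_, rfl⟩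
    have hdq : ∀ i, m0 < i → (i : ℝ) ≤ dq a b i := by
      intro i hi
      exact_mod_cast dq_pos (b := b) ha (m := i) (by omega)
    have hdq0 : ∀ i, m0 < i → (0 : ℝ) < dq a b i := by
      intro i hi
      have : (0 : ℝ) < i := by exact_mod_cast (by omega : 0 < i)
      exact this.trans_le (hdq i hi)
    have h1 : ∑ i ∈ Ioc m0 y, (Fm i - S) = ∑ i ∈ Ioc m0 y, (D i - D (i - 1)) * w i := by
      apply sum_congr rfl
      intro i hi
      rw [mem_Ioc] at hi
      obtain ⟨n, rfl⟩ : ∃ n, i = n + 1 := ⟨i - 1, by omega⟩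
      have h2 := hdq0 (n + 1) hi.1
      rw [Nat.add_sub_cancel, hD, hw]
      simp only
      rw [sum_Ioc_succ_top (by omega), qf_succ]
      push_cast
      field_simp
      ring
    rw [h1]
    refine (diff_abel_le D w (E := Err + 2 * S * G + L1 * G) hcase.le ?_ ?_ ?_).trans ?_
    · intro i hi1 hi2
      rw [hD]
      exact U_bound ha Fm hF0 hFL hG hS hE hA (by omega) (by omega) (hYJ i (by omega) (by omega))
    · intro i hi
      rw [hw]
      have := hdq0 i hi
      simp only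
      positivity
    · intro i hi
      rw [hw]
      simp only
      apply one_div_le_one_div_of_le (hdq0 i hi)
      have e : (dq a b (i + 1) : ℝ) = dq a b i + 2 * a := by
        unfold dq
        push_cast
        ring
      rw [e]
      have : (1 : ℝ) ≤ a := by exact_mod_cast ha
      linarith
    · rw [hw, div_eq_mul_one_div]
      simp only
      apply mul_le_mul_of_nonneg_left _ (by positivity)
      apply one_div_le_one_div_of_le (by positivity)
      have := hdq (m0 + 1) (by omega)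
      push_cast at this
      exact this

end Pool.Agent.K7.H51.PS
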