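import Mathlib
import Pool.Agent.K7.H51.PS.Dw
import Pool.Agent.R460.SC.Fa

set_option autoImplicit false

/-! From the weighted sums to the conclusion for one polynomial. -/

namespace Pool.Agent.K7.H51.PS

open Finset Filter Topology
open Pool.Agent.W468.ConjF (SJ)
open Pool.Agent.H373R2.T7 (Vz pz Vz_pos Vz_inv_small nuB mem_pz)
open Pool.Agent.R460.SB (Sz Sz_bd Sz_low loc_lt fv fv_two GoodF GoodU unweight)
open Pool.Agent.R460.SC (GoodT goodT_of)
open Pool.Agent.R460.SQ (thp)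

lemma thp_nonneg (l : ℕ) : 0 ≤ thp l := by
  unfold thp
  split_ifs
  · exact Real.log_natCast_nonneg l
  · exact le_rfl

lemma thp_le_log (l : ℕ) : thp l ≤ Real.log l := by
  unfold thp
  split_ifs
  · exact le_rfl
  · exact Real.log_natCast_nonneg l

lemma fv_qf (a b c : ℤ) (m : ℕ) : fv (-a) (-b) c m = c + qf a b m := by
  unfold fv qf
  ring

/-- the existence of a prime value -/
lemma goodF_of {α γ : ℤ} (hα : α ≠ 0) (C E : ℕ) : ∀ᶠ N : ℕ in atTop, ∀ z : ℕ, 1 ≤ z → (z : ℝ) ≤ Real.log N ^ E →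
    ∀ n : ℤ, (∀ y : ℕ, y ^ 2 ≤ N → |∑ m ∈ Icc 1 y, thp (fv α γ n m).natAbs - Sz α γ n z * y| ≤ Real.sqrt N / Real.log N ^ (C + 4)) →
    GoodF α γ C N z n := by
  obtain ⟨N₂, h2⟩ := Vz_inv_small E
  obtain ⟨κ, hκ⟩ : ∃ κ : ℝ, κ = (1 / (α.natAbs : ℝ)) ^ α.natAbs := ⟨_, rfl⟩
  have ha1 : (1 : ℝ) ≤ α.natAbs := by exact_mod_cast Int.natAbs_pos.2 hα
  have hκ0 : 0 < κ := by rw [hκ]; positivity
  filter_upwards [Pool.Agent.Y614.GJ.Core.ev_log 1 (s := 1 / 2) (by norm_num) (100 + 2 / κ), eventually_ge_atTop (N₂ + 3)]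
    with N h3 hN z hz0 hz2 n hg
  have hN1 : 1 ≤ N := by omega
  have hN0 : (0 : ℝ) < N := by exact_mod_cast hN1
  obtain ⟨hLb, hLp⟩ := h3
  obtain ⟨L, hLd⟩ : ∃ L, L = Real.log (N : ℝ) := ⟨_, rfl⟩
  rw [← hLd] at hLb hLp hz2
  have h2κ : 0 < 2 / κ := by positivity
  have hL100 : 100 ≤ L := by linarith
  have hL0 : 0 < L := by linarith
  have hL1 : 1 ≤ L := by linarith
  have hκL : 2 ≤ κ * L := by
    have : 2 / κ ≤ L := by linarith
    rw [div_le_iff₀ hκ0] at this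
    linarith
  obtain ⟨M, hM⟩ : ∃ M, M = Real.sqrt N := ⟨_, rfl⟩
  have hM0 : 0 < M := by rw [hM]; exact Real.sqrt_pos.2 hN0
  have hMr : M = (N : ℝ) ^ (1 / 2 : ℝ) := by rw [hM, Real.sqrt_eq_rpow]
  have hML : 100 ≤ M := by
    rw [hMr]
    rw [pow_one] at hLp
    linarith
  refine ⟨fun hloc => ?_, fun y hy => (hg y hy).trans ?_⟩
  · obtain ⟨y, hy⟩ : ∃ y, y = Nat.sqrt N := ⟨_, rfl⟩
    have hy1 : y ^ 2 ≤ N := by rw [hy]; exact Nat.sqrt_le' N
    have hy2 : N < (y + 1) ^ 2 := by rw [hy]; exact Nat.lt_succ_sqrt' N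
    have h6 := hg y hy1
    rw [← hM, ← hLd] at h6
    by_contra hno
    have h7 : ∑ m ∈ Icc 1 y, thp (fv α γ n m).natAbs = 0 := by
      apply sum_eq_zero
      intro m hm
      unfold thp
      rw [if_neg]
      intro hp
      apply hno
      rw [mem_Icc] at hm
      exact ⟨m, hm.1, (Nat.pow_le_pow_left hm.2 2).trans hy1, hp⟩
    rw [h7, zero_sub, abs_neg] at h6
    have hV := h2 N (by omega) z hz0 (by rw [← hLd]; exact hz2)
    rw [← hLd] at hV
    have hS := Sz_low hα n z (fun p hp => loc_lt (mem_pz.1 hp).2 (hloc p (mem_pz.1 hp).2))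
    rw [← hκ] at hS
    have hVp := Vz_pos z
    have hV2 : κ * (1 / L ^ 2) ≤ Sz α γ n z := by
      refine le_trans ?_ hS
      have : 1 / L ≤ Vz z := by
        rw [one_div]
        exact inv_le_of_inv_le₀ hVp hV
      apply mul_le_mul_of_nonneg_left _ hκ0.le
      calc 1 / L ^ 2 = (1 / L) ^ 2 := by rw [div_pow, one_pow]
        _ ≤ Vz z ^ 2 := by gcongr
    have hyr : M / 2 ≤ y := by
      have e1 : M < y + 1 := by
        rw [hM]
        have e2 : (N : ℝ) < ((y : ℝ) + 1) ^ 2 := by exact_mod_cast hy2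
        rw [Real.sqrt_lt' (by positivity)]
        exact e2
      linarith
    have h8 : Sz α γ n z * y ≤ M / L ^ (C + 4) := le_trans (le_abs_self _) h6
    have h9 : κ * (1 / L ^ 2) * (M / 2) ≤ M / L ^ (C + 4) := by
      refine le_trans ?_ h8
      exact mul_le_mul hV2 hyr (by positivity) (le_trans (by positivity) hV2)
    have h10 : M / L ^ (C + 4) = κ * (1 / L ^ 2) * (M / 2) * (2 / (κ * L ^ (C + 2))) := by
      have : L ^ (C + 4) = L ^ 2 * L ^ (C + 2) := by ring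
      rw [this]
      field_simp
    rw [h10] at h9
    have h11 : 2 / (κ * L ^ (C + 2)) < 1 := by
      rw [div_lt_one (by positivity)]
      have a1 : L ^ 2 ≤ L ^ (C + 2) := pow_le_pow_right₀ hL1 (by omega)
      have a2 : κ * L ^ 2 ≤ κ * L ^ (C + 2) := by gcongr
      nlinarith
    have h12 : 0 < κ * (1 / L ^ 2) * (M / 2) := by positivity
    nlinarith
  · rw [← hM, ← hLd]
    apply div_le_div_of_nonneg_left hM0.le (by positivity)
    exact pow_le_pow_right₀ hL1 (by omega)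

/-- the sums without weights are good enough -/
lemma sq_of (a b : ℤ) (ha : 1 ≤ a) (C E : ℕ) : ∀ᶠ N : ℕ in atTop, ∀ z : ℕ, 1 ≤ z → (z : ℝ) ≤ Real.log N ^ E →
    ∀ (c : ℤ) (G : ℝ) (M1 J : ℕ), 0 < G → G ≤ N / Real.log N ^ (2 * C + 18) → Nat.sqrt N ≤ M1 →
    ((∀ m : ℕ, b.natAbs ≤ m → m ^ 2 ≤ N → (qf a b m : ℝ) ≤ J * G)) →
    (∀ m ≤ M1, Real.log ((fv (-a) (-b) c m).natAbs : ℝ) ≤ 3 * Real.log N) →
    (∀ j ≤ J, |∑ m ∈ Icc 1 M1, wt a b G (j * G) m * thp (fv (-a) (-b) c m).natAbs - j * G * Sz (-a) (-b) c z| ≤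
      N / Real.log N ^ (2 * C + 18)) →
    ∀ y : ℕ, y ^ 2 ≤ N → |∑ m ∈ Icc 1 y, thp (fv (-a) (-b) c m).natAbs - Sz (-a) (-b) c z * y| ≤ Real.sqrt N / Real.log N ^ (C + 5) := by
  obtain ⟨N₂, h2⟩ := Vz_inv_small E
  filter_upwards [Pool.Agent.Y614.GJ.Core.ev_log (C + 8) (s := 1 / 2) (by norm_num) (100 : ℝ),
    Pool.Agent.Y614.GJ.Core.ev_log (C + 9) (s := 1 / 2) (by norm_num) (b.natAbs + 1 : ℝ), eventually_ge_atTop (N₂ + 3)]
    with N h3 h4 hN z hz0 hz2 c G M1 J hG0 hG hM1 hJ hlog hA y hy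
  have hN1 : 1 ≤ N := by omega
  have hN0 : (0 : ℝ) < N := by exact_mod_cast hN1
  obtain ⟨hL100, -⟩ := h3
  obtain ⟨hLb, hLp⟩ := h4
  have hV := h2 N (by omega) z hz0 hz2
  obtain ⟨L, hLd⟩ : ∃ L, L = Real.log (N : ℝ) := ⟨_, rfl⟩
  rw [← hLd] at hL100 hLb hLp hV hG hlog hA ⊢
  have hL0 : 0 < L := by linarith
  have hL1 : 1 ≤ L := by linarith
  obtain ⟨M, hM⟩ : ∃ M, M = Real.sqrt N := ⟨_, rfl⟩
  have hM0 : 0 < M := by rw [hM]; exact Real.sqrt_pos.2 hN0
  have hMM : M * M = N := by rw [hM]; exact Real.mul_self_sqrt hN0.le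
  have hMr : M = (N : ℝ) ^ (1 / 2 : ℝ) := by rw [hM, Real.sqrt_eq_rpow]
  rw [← hMr] at hLp
  rw [← hM]
  obtain ⟨P, hP⟩ : ∃ P, P = L ^ (C + 8) := ⟨_, rfl⟩
  have hP0 : 0 < P := by rw [hP]; positivity
  obtain ⟨s0, s1⟩ := Sz_bd (-a) (-b) c z
  obtain ⟨S, hS⟩ : ∃ S, S = Sz (-a) (-b) c z := ⟨_, rfl⟩
  rw [← hS] at s0 s1 hA ⊢
  have hSL : S ≤ L := s1.trans hV
  obtain ⟨m0, hm0⟩ : ∃ m0, m0 = ⌊M / P⌋₊ := ⟨_, rfl⟩
  have hm01 : (m0 : ℝ) ≤ M / P := by rw [hm0]; exact Nat.floor_le (by positivity)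
  have hm02 : M / P ≤ (m0 : ℝ) + 1 := by
    have := (Nat.lt_floor_add_one (M / P)).le
    rwa [← hm0] at this
  have hbm0 : b.natAbs ≤ m0 := by
    rw [hm0]
    apply Nat.le_floor
    rw [le_div_iff₀ hP0]
    calc (b.natAbs : ℝ) * P ≤ L * P := by
          apply mul_le_mul_of_nonneg_right _ hP0.le
          linarith
      _ = L ^ (C + 9) := by rw [hP]; ring
      _ ≤ M := hLp
  obtain ⟨Err, hErr⟩ : ∃ Err, Err = (N : ℝ) / L ^ (2 * C + 18) := ⟨_, rfl⟩
  rw [← hErr] at hG hA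
  have hErr0 : 0 ≤ Err := by rw [hErr]; positivity
  have hyY : y ≤ Nat.sqrt N := Nat.le_sqrt'.2 hy
  have hmain := dw (b := b) ha (fun m => thp (fv (-a) (-b) c m).natAbs) (M1 := M1) (J := J) (Y := Nat.sqrt N) (m0 := m0)
    (L1 := 3 * L) (G := G) (S := S) (Err := Err) (fun m => thp_nonneg _) (fun m hm => (thp_le_log _).trans (hlog m hm)) hG0 s0 hErr0
    (fun j hj => hA j hj) hbm0 hM1 (fun m hm1 hm2 => hJ m hm1 (Nat.le_sqrt'.1 hm2)) y hyY
  refine hmain.trans ?_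
  have e1 : (m0 : ℝ) * (3 * L + S) ≤ M / L ^ (C + 5) / 2 := by
    calc (m0 : ℝ) * (3 * L + S) ≤ (M / P) * (4 * L) := by
          apply mul_le_mul hm01 (by linarith) (by positivity) (by positivity)
      _ = M / L ^ (C + 5) * (4 / L ^ 2) := by
          rw [hP, show C + 8 = (C + 5) + 2 + 1 by ring, pow_succ L (C + 5 + 2), pow_add L (C + 5) 2]
          field_simp
      _ ≤ M / L ^ (C + 5) * (1 / 2) := by
          apply mul_le_mul_of_nonneg_left _ (by positivity)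
          rw [div_le_div_iff₀ (by positivity) (by norm_num)]
          nlinarith
      _ = _ := by ring
  have e2 : 2 * (Err + 2 * S * G + 3 * L * G) / ((m0 : ℝ) + 1) ≤ M / L ^ (C + 5) / 2 := by
    have hMP : 0 < M / P := by positivity
    have h5 : 2 * (Err + 2 * S * G + 3 * L * G) ≤ 12 * L * Err := by
      have h6 : S * G ≤ L * Err := by gcongr
      have h7 : L * G ≤ L * Err := by gcongr
      have h8 : Err ≤ L * Err := le_mul_of_one_le_left hErr0 hL1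
      linarith
    calc 2 * (Err + 2 * S * G + 3 * L * G) / ((m0 : ℝ) + 1) ≤ (12 * L * Err) / (M / P) := by
          apply div_le_div₀ (by positivity) h5 hMP hm02
      _ = M / L ^ (C + 5) * (12 / L ^ 4) := by
          rw [hErr, ← hMM, hP, show 2 * C + 18 = (C + 5) + (C + 8) + 4 + 1 by ring, pow_succ L (C + 5 + (C + 8) + 4),
            pow_add L (C + 5 + (C + 8)) 4, pow_add L (C + 5) (C + 8)]
          field_simp
      _ ≤ M / L ^ (C + 5) * (1 / 2) := by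
          apply mul_le_mul_of_nonneg_left _ (by positivity)
          rw [div_le_div_iff₀ (by positivity) (by norm_num)]
          have : L ≤ L ^ 4 := le_self_pow₀ hL1 (by norm_num)
          linarith
      _ = _ := by ring
  linarith

/-- the conclusion for one polynomial -/
theorem goodT_final (a b : ℤ) (ha : 1 ≤ a) (C E : ℕ) : ∀ᶠ N : ℕ in atTop, ∀ z : ℕ, Real.log N ^ (C + 4) ≤ z →
    (z : ℝ) ≤ Real.log N ^ E →
    ∀ (c : ℤ) (G : ℝ) (M1 J : ℕ), b ^ 2 + 2 ≤ c → 0 < G → G ≤ N / Real.log N ^ (2 * C + 18) → Nat.sqrt N ≤ M1 →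
    ((∀ m : ℕ, b.natAbs ≤ m → m ^ 2 ≤ N → (qf a b m : ℝ) ≤ J * G)) →
    (∀ m ≤ M1, Real.log ((fv (-a) (-b) c m).natAbs : ℝ) ≤ 3 * Real.log N) →
    (∀ j ≤ J, |∑ m ∈ Icc 1 M1, wt a b G (j * G) m * thp (fv (-a) (-b) c m).natAbs - j * G * Sz (-a) (-b) c z| ≤
      N / Real.log N ^ (2 * C + 18)) →
    (∀ᶠ M in atTop, |SJ (b ^ 2 - 4 * a * c) z M| ≤ 1 / Real.log N ^ (C + 4)) →
    GoodT a b C N c := by
  obtain ⟨N₂, h2⟩ := Vz_inv_small E
  filter_upwards [sq_of a b ha C E, goodF_of (α := -a) (γ := -b) (by omega) (C + 1) E,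
    Pool.Agent.Y614.GJ.Core.ev_log 1 (s := 1 / 2) (by norm_num) (100 + 4 * b.natAbs + a : ℝ), eventually_ge_atTop (N₂ + 3)]
    with N h3 h4 h5 hN z hz1 hz2 c G M1 J hc hG0 hG hM1 hJ hlog hA htail
  obtain ⟨hLb, -⟩ := h5
  have hN1 : 1 ≤ N := by omega
  have hb0 : (0 : ℝ) ≤ b.natAbs := Nat.cast_nonneg _
  have har : (1 : ℝ) ≤ a := by exact_mod_cast ha
  have hL1 : 1 ≤ Real.log (N : ℝ) := by linarith
  have hzL : Real.log (N : ℝ) ≤ z := (le_self_pow₀ hL1 (by omega)).trans hz1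
  have hz2' : 2 ≤ z := by
    have : (2 : ℝ) ≤ z := by linarith
    exact_mod_cast this
  have haz : a ≤ z := by
    have : (a : ℝ) ≤ z := by linarith
    exact_mod_cast this
  have hV := h2 N (by omega) z (by omega) hz2
  have h6 := h3 z (by omega) hz2 c G M1 J hG0 hG hM1 hJ hlog hA
  have hGF : GoodF (-a) (-b) (C + 1) N z c := h4 z (by omega) hz2 c (by
    intro y hy
    exact h6 y hy)
  have hGU : GoodU a b (C + 1) N z c := by
    have hnat : ∀ t : ℕ, (fv (-a) (-b) c t).toNat = (fv (-a) (-b) c t).natAbs := by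
      intro t
      have := fv_two (a := a) (b := b) (by omega) hc t
      omega
    unfold GoodU
    simp only [hnat]
    refine ⟨hGF.1, fun y hy => ?_⟩
    have h7 := unweight (a := a) (b := b) (by omega) hc (y := y) (S := Sz (-a) (-b) c z)
      (ε := Real.sqrt N / Real.log N ^ (C + 5)) (fun m hm => h6 m ((Nat.pow_le_pow_left hm 2).trans hy))
    refine h7.trans ?_
    have hL0 : 0 < Real.log (N : ℝ) := by linarith
    have hs0 : 0 ≤ Real.sqrt N := Real.sqrt_nonneg _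
    have e1 : Real.sqrt N / Real.log N ^ (C + 5) ≤ Real.sqrt N / Real.log N ^ (C + 2) := by
      apply div_le_div_of_nonneg_left hs0 (by positivity)
      exact pow_le_pow_right₀ hL1 (by omega)
    calc Real.sqrt N / Real.log N ^ (C + 5) * (4 * b.natAbs + 4) ≤
        Real.sqrt N / Real.log N ^ (C + 2) * Real.log N := by
          apply mul_le_mul e1 (by linarith) (by positivity) (by positivity)
      _ = Real.sqrt N / Real.log N ^ (C + 1) := by
          rw [pow_succ (Real.log (N : ℝ)) (C + 1)]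
          field_simp
  have hsq : ¬ IsSquare (b ^ 2 - 4 * a * c) := by
    rintro ⟨r, hr⟩
    have h7 : 0 ≤ r * r := mul_self_nonneg r
    rw [← hr] at h7
    have h8 : 1 * c ≤ a * c := mul_le_mul_of_nonneg_right ha (by nlinarith [sq_nonneg b])
    nlinarith [sq_nonneg b]
  exact goodT_of (a := a) (b := b) (by omega) hc hz2' haz (by linarith) hV hz1 hsq htail hGU

end Pool.Agent.K7.H51.PS
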