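import Mathlib
import Pool.Agent.K7.H51.PS.Nz
import Pool.Agent.H442R2.EHI.PntErr

set_option autoImplicit false

/-! The main term. -/

namespace Pool.Agent.K7.H51.PS

open Finset Filter Topology

lemma abelR (w f : ℕ → ℝ) (n : ℕ) (C : ℝ) (hC : ∀ k ≤ n + 1, |∑ m ∈ range k, f m| ≤ C) :
    |∑ m ∈ range (n + 1), w m * f m| ≤ C * (|w n| + ∑ m ∈ range n, |w (m + 1) - w m|) := by
  have key : ∀ n, ∑ m ∈ range (n + 1), w m * f m =
      w n * ∑ m ∈ range (n + 1), f m - ∑ m ∈ range n, (w (m + 1) - w m) * ∑ j ∈ range (m + 1), f j := by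
    intro n
    induction n with
    | zero => simp
    | succ n ih =>
      rw [sum_range_succ (fun m => w m * f m) (n + 1), ih,
        sum_range_succ (fun m => (w (m + 1) - w m) * ∑ j ∈ range (m + 1), f j),
        sum_range_succ (fun m => f m) (n + 1)]
      ring
  rw [key]
  refine (abs_sub _ _).trans ?_
  rw [mul_add, abs_mul, mul_comm C]
  refine add_le_add (mul_le_mul_of_nonneg_left (hC _ le_rfl) (abs_nonneg _)) ?_
  rw [mul_sum]
  refine (abs_sum_le_sum_abs _ _).trans (sum_le_sum fun m hm => ?_)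
  rw [mem_range] at hm
  rw [abs_mul, mul_comm C]
  exact mul_le_mul_of_nonneg_left (hC _ (by omega)) (abs_nonneg _)

lemma sum_lin (x : ℕ) : ∑ v ∈ Icc 1 x, ((x : ℝ) - v) = x * (x - 1) / 2 := by
  induction x with
  | zero => simp
  | succ x ih =>
    rw [sum_Icc_succ_top (by omega)]
    have e : ∑ v ∈ Icc 1 x, (((x + 1 : ℕ) : ℝ) - v) = ∑ v ∈ Icc 1 x, ((x : ℝ) - v) + x := by
      have h1 : ∀ v ∈ Icc 1 x, (((x + 1 : ℕ) : ℝ) - v) = ((x : ℝ) - v) + 1 := by
        intro v _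
        push_cast
        ring
      rw [sum_congr rfl h1, sum_add_distrib]
      simp
    rw [e, ih]
    push_cast
    ring

lemma sum_max {x N : ℕ} (hxN : x ≤ N) : ∑ v ∈ Icc 1 N, max ((x : ℝ) - v) 0 = x * (x - 1) / 2 := by
  rw [← sum_lin, ← sum_subset (Icc_subset_Icc_right hxN)]
  · apply sum_congr rfl
    intro n hn
    rw [mem_Icc] at hn
    have : (n : ℝ) ≤ x := by exact_mod_cast hn.2
    rw [max_eq_left (by linarith)]
  · intro n hn hn'
    rw [mem_Icc] at hn hn'
    have : (x : ℝ) ≤ n := by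
      have : x ≤ n := by omega
      exact_mod_cast this
    rw [max_eq_right (by linarith)]

lemma sum_th {c s G N : ℕ} (hG : 1 ≤ G) (hN : c + s + G ≤ N) : ∑ v ∈ Icc 1 N, th G s ((v : ℝ) - c) = s := by
  have hG0 : (0 : ℝ) < G := by exact_mod_cast hG
  have h1 : ∀ v ∈ Icc 1 N, th G s ((v : ℝ) - c) = (max (((c + s + G : ℕ) : ℝ) - v) 0 - max (((c + s : ℕ) : ℝ) - v) 0 -
      max (((c + G : ℕ) : ℝ) - v) 0 + max (((c : ℕ) : ℝ) - v) 0) / G := by
    intro v _
    unfold th
    have e1 : (s : ℝ) + G - ((v : ℝ) - c) = ((c + s + G : ℕ) : ℝ) - v := by push_cast; ring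
    have e2 : (s : ℝ) - ((v : ℝ) - c) = ((c + s : ℕ) : ℝ) - v := by push_cast; ring
    have e3 : (G : ℝ) - ((v : ℝ) - c) = ((c + G : ℕ) : ℝ) - v := by push_cast; ring
    have e4 : -((v : ℝ) - c) = ((c : ℕ) : ℝ) - v := by ring
    rw [e1, e2, e3, e4]
  rw [sum_congr rfl h1, ← sum_div, sum_add_distrib, sum_sub_distrib, sum_sub_distrib, sum_max hN,
    sum_max (show c + s ≤ N by omega), sum_max (show c + G ≤ N by omega), sum_max (show c ≤ N by omega)]
  push_cast
  field_simp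
  ring

/-- the main term for one constant term -/
lemma main_part {c s G N Q : ℕ} {E : ℝ} (hG : 1 ≤ G) (hN : c + s + G ≤ N)
    (hE : ∀ y ≤ N, |∑ v ∈ Icc 1 y, (Fq Q v - 1)| ≤ E) :
    |∑ v ∈ Icc 1 N, Fq Q v * th G s ((v : ℝ) - c) - s| ≤ E * (1 + 4 * N / G) := by
  have hG0 : (0 : ℝ) < G := by exact_mod_cast hG
  have hE0 : 0 ≤ E := (abs_nonneg _).trans (hE 0 (Nat.zero_le _))
  have h1 : ∑ v ∈ Icc 1 N, Fq Q v * th G s ((v : ℝ) - c) - s = ∑ v ∈ Icc 1 N, th G s ((v : ℝ) - c) * (Fq Q v - 1) := by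
    nth_rw 2 [← sum_th hG hN]
    rw [← sum_sub_distrib]
    apply sum_congr rfl
    intro v _
    ring
  have hN0 : 1 ≤ N := by omega
  obtain ⟨n, rfl⟩ : ∃ n, N = n + 1 := ⟨N - 1, by omega⟩
  have hre : ∀ (k : ℕ) (h : ℕ → ℝ), ∑ v ∈ Icc 1 k, h v = ∑ m ∈ range k, h (m + 1) := by
    intro k h
    have e : Icc 1 k = Ico 1 (k + 1) := rfl
    rw [e, sum_Ico_eq_sum_range, Nat.add_sub_cancel]
    apply sum_congr rfl
    intro m _
    rw [add_comm]
  rw [h1, hre]
  refine (abelR (fun m => th G s (((m + 1 : ℕ) : ℝ) - c)) (fun m => Fq Q (m + 1) - 1) n E ?_).trans ?_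
  · intro k hk
    rw [← hre k (fun v => Fq Q v - 1)]
    exact hE k hk
  · apply mul_le_mul_of_nonneg_left _ hE0
    apply add_le_add
    · rw [abs_of_nonneg (th_nonneg hG0 (Nat.cast_nonneg s) _)]
      exact th_le_one hG0 (Nat.cast_nonneg s) _
    · have h2 : ∀ m ∈ range n, |th G s (((m + 1 + 1 : ℕ) : ℝ) - c) - th G s (((m + 1 : ℕ) : ℝ) - c)| ≤ 4 / G := by
        intro m _
        refine (th_lip hG0 _ _).trans ?_
        have e : |(((m + 1 + 1 : ℕ) : ℝ) - c) - (((m + 1 : ℕ) : ℝ) - c)| = 1 := by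
          push_cast
          rw [show ((m : ℝ) + 1 + 1 - c - (m + 1 - c)) = 1 by ring, abs_one]
        rw [e, mul_one]
      refine (sum_le_sum h2).trans ?_
      rw [sum_const, card_range, nsmul_eq_mul]
      push_cast
      rw [← mul_div_assoc]
      apply div_le_div_of_nonneg_right _ hG0.le
      linarith

/-- the distribution of the primes beyond `Q` -/
theorem theta_unif (κ : ℝ) (U : ℕ) : ∀ᶠ N : ℕ in atTop, ∀ Q : ℕ, (Q : ℝ) ≤ (N : ℝ) ^ (1 / 32 : ℝ) →
    ∀ y : ℕ, (y : ℝ) ≤ κ * N → |∑ v ∈ Icc 1 y, (Fq Q v - 1)| ≤ N / Real.log N ^ U := by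
  obtain ⟨C, hC, hθ⟩ := Pool.Agent.H442R2.EHI.PntErrAux.thetaU (U + 1)
  have hcast : Tendsto (fun n : ℕ => (n : ℝ)) atTop atTop := tendsto_natCast_atTop_atTop
  have hlog : Tendsto (fun n : ℕ => Real.log (n : ℝ)) atTop atTop := Real.tendsto_log_atTop.comp hcast
  filter_upwards [hcast.eventually (Pool.Agent.H398R2.BV.ev_log 4 U (1 / 2) (by norm_num)),
    hcast.eventually (Pool.Agent.H398R2.BV.ev_log 4 (1 + U) (1 / 4) (by norm_num)),
    hlog.eventually_ge_atTop (2 * C * |κ| * 2 ^ (U + 1)),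
    hlog.eventually_ge_atTop 2, eventually_ge_atTop 16] with N h1 h1' h2 h3 h5 Q hQ y hy
  obtain ⟨L, hL⟩ : ∃ L, L = Real.log (N : ℝ) := ⟨_, rfl⟩
  rw [← hL] at h1 h1' h2 h3 ⊢
  have hL0 : 0 < L := by linarith
  have hN0 : (0 : ℝ) < N := by exact_mod_cast (by omega : 0 < N)
  have hN1 : (1 : ℝ) ≤ N := by exact_mod_cast (by omega : 1 ≤ N)
  have hN16 : (16 : ℝ) ≤ N := by exact_mod_cast h5
  have hQs : (Q : ℝ) ≤ (N : ℝ) ^ (1 / 2 : ℝ) := hQ.trans (Real.rpow_le_rpow_of_exponent_le hN1 (by norm_num))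
  have hsq : Real.sqrt N = (N : ℝ) ^ (1 / 2 : ℝ) := Real.sqrt_eq_rpow _
  have hss : Real.sqrt N * Real.sqrt N = N := Real.mul_self_sqrt hN0.le
  rw [← hsq] at h1 hQs
  have hs4 : 4 ≤ Real.sqrt N := by
    apply Real.le_sqrt_of_sq_le
    linarith
  rcases le_or_gt (Real.sqrt N) y with hcase | hcase
  · have hQy : Q ≤ y := by exact_mod_cast hQs.trans hcase
    have hy2 : 2 ≤ y := by
      have : (4 : ℝ) ≤ y := hs4.trans hcase
      have : 4 ≤ y := by exact_mod_cast this
      omega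
    have hy0 : (0 : ℝ) < y := by exact_mod_cast (by omega : 0 < y)
    rw [sum_sub_distrib, sum_Fq Q y hQy]
    have e1 : ∑ _v ∈ Icc 1 y, (1 : ℝ) = y := by simp
    rw [e1]
    have h6 := hθ y hy2
    have h7 := Chebyshev.theta_le_log4_mul_x (x := (Q : ℝ)) (Nat.cast_nonneg _)
    have h70 := Chebyshev.theta_nonneg (Q : ℝ)
    have h8 : Real.log 4 ≤ 2 := by
      have h9 : Real.log 4 = 2 * Real.log 2 := by
        rw [show (4 : ℝ) = 2 ^ 2 by norm_num, Real.log_pow]
        norm_num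
      have := Real.log_two_lt_d9
      rw [h9]
      linarith
    have h9 : Real.log 4 * Q ≤ 2 * Q := mul_le_mul_of_nonneg_right h8 (Nat.cast_nonneg _)
    have hlt : L / 2 ≤ Real.log y := by
      have := Real.log_le_log (Real.sqrt_pos.2 hN0) hcase
      rw [Real.log_sqrt hN0.le] at this
      rw [hL]
      exact this
    have hL2 : 0 < L / 2 := by linarith
    have hκ : (y : ℝ) ≤ |κ| * N := hy.trans (mul_le_mul_of_nonneg_right (le_abs_self κ) hN0.le)
    have h10 : C * (y / Real.log y ^ (U + 1)) ≤ (1 / 2) * (N / L ^ U) := by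
      calc C * (y / Real.log y ^ (U + 1)) ≤ C * ((|κ| * N) / (L / 2) ^ (U + 1)) := by
            apply mul_le_mul_of_nonneg_left _ hC.le
            apply div_le_div₀ (by positivity) hκ (by positivity)
            exact pow_le_pow_left₀ hL2.le hlt _
        _ = ((2 * C * |κ| * 2 ^ (U + 1)) / L) * ((1 / 2) * (N / L ^ U)) := by
            rw [div_pow, pow_succ L U]
            field_simp
        _ ≤ 1 * ((1 / 2) * (N / L ^ U)) := by
            apply mul_le_mul_of_nonneg_right _ (by positivity)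
            rw [div_le_one hL0]
            exact h2
        _ = _ := one_mul _
    have h11 : 2 * (Q : ℝ) ≤ (1 / 2) * (N / L ^ U) := by
      have h12 : 4 * Real.sqrt N ≤ N / L ^ U := by
        rw [le_div_iff₀ (by positivity)]
        calc 4 * Real.sqrt N * L ^ U = (4 * L ^ U) * Real.sqrt N := by ring
          _ ≤ Real.sqrt N * Real.sqrt N := by gcongr
          _ = N := hss
      linarith
    rw [abs_le] at h6 ⊢
    constructor <;> linarith [h6.1, h6.2]
  · have h6 : |∑ v ∈ Icc 1 y, (Fq Q v - 1)| ≤ ∑ v ∈ Icc 1 y, (L + 1) := by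
      refine (abs_sum_le_sum_abs _ _).trans (sum_le_sum fun v hv => ?_)
      rw [mem_Icc] at hv
      have hv0 : (0 : ℝ) < v := by exact_mod_cast hv.1
      have h7 := Fq_nonneg Q v
      have h8 := Fq_le_log Q (v := v)
      have h9 : Real.log v ≤ L := by
        rw [hL]
        apply Real.log_le_log hv0
        have : (v : ℝ) ≤ y := by exact_mod_cast hv.2
        nlinarith
      rw [abs_le]
      constructor <;> linarith
    refine h6.trans ?_
    rw [sum_const, Nat.card_Icc, Nat.add_sub_cancel, nsmul_eq_mul]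
    rw [le_div_iff₀ (by positivity)]
    calc (y : ℝ) * (L + 1) * L ^ U ≤ Real.sqrt N * (2 * L) * L ^ U := by
          gcongr
          linarith
      _ = Real.sqrt N * (2 * L ^ (1 + U)) := by rw [pow_add]; ring
      _ ≤ Real.sqrt N * (N : ℝ) ^ (1 / 4 : ℝ) := by
          apply mul_le_mul_of_nonneg_left _ (Real.sqrt_nonneg _)
          have : 0 ≤ L ^ (1 + U) := by positivity
          linarith
      _ ≤ Real.sqrt N * Real.sqrt N := by
          apply mul_le_mul_of_nonneg_left _ (Real.sqrt_nonneg _)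
          rw [hsq]
          exact Real.rpow_le_rpow_of_exponent_le hN1 (by norm_num)
      _ = N := hss

end Pool.Agent.K7.H51.PS
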