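import Mathlib
import Pool.Agent.K7.H51.PS.As2
import Pool.Agent.H343R2.EH.BVLog

set_option autoImplicit false

/-! The weighted sums of prime values, for one constant term. -/

namespace Pool.Agent.K7.H51.PS

open Finset Filter
open Pool.Agent.R460.SB (Sz fv)
open Pool.Agent.R460.SQ (thp)

/-- the size of the nonprincipal part -/
lemma err_np {C a κ L x N Q G lQ lN : ℝ} {g K : ℕ} (hC : 0 < C) (ha : 1 ≤ a) (hκ : 1 ≤ κ) (hL : 1 ≤ L) (hx : 1 ≤ x)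
    (hxN : x ^ 64 = N) (hQ0 : 0 ≤ Q) (hQ : Q ≤ x ^ 2) (hlQ0 : 0 ≤ lQ) (hlQ : lQ ≤ L) (hlN0 : 0 ≤ lN) (hlN : lN ≤ 2 * L) (hLx : L ≤ x ^ 2)
    (hG0 : 0 < G) (hG : N ≤ 2 * L ^ g * G) (hc : 128 * C * a ^ 2 * κ ≤ L) (hLx2 : L ^ (K + g + 4) ≤ x) :
    C * a ^ 2 * Real.sqrt (L ^ K) * (1 + lQ) ^ 2 * (8 * (κ * N) * (N / L ^ (K + 2 * g + 4)) / G +
      Q ^ 2 * (2 * Real.sqrt (κ * N) * lN + 2 * Q)) ≤ N / L ^ (g + 1) := by
  have hx0 : 0 < x := by linarith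
  have hL0 : 0 < L := by linarith
  have hN0 : 0 < N := by rw [← hxN]; positivity
  have hκ0 : 0 < κ := by linarith
  have ha0 : 0 < a := by linarith
  have h1 : Real.sqrt (L ^ K) ≤ L ^ K := by
    rw [Real.sqrt_le_iff]
    exact ⟨by positivity, le_self_pow₀ (one_le_pow₀ hL) (by norm_num)⟩
  have h2 : (1 + lQ) ^ 2 ≤ (2 * L) ^ 2 := pow_le_pow_left₀ (by positivity) (by linarith) 2
  have h3 : 8 * (κ * N) * (N / L ^ (K + 2 * g + 4)) / G ≤ 16 * κ * N * L ^ g / L ^ (K + 2 * g + 4) := by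
    rw [div_le_iff₀ hG0]
    have e1 : 8 * (κ * N) * (N / L ^ (K + 2 * g + 4)) = (8 * κ * N / L ^ (K + 2 * g + 4)) * N := by ring
    have e2 : 16 * κ * N * L ^ g / L ^ (K + 2 * g + 4) * G = (8 * κ * N / L ^ (K + 2 * g + 4)) * (2 * L ^ g * G) := by ring
    rw [e1, e2]
    gcongr
  have h4 : Real.sqrt (κ * N) ≤ κ * x ^ 32 := by
    rw [Real.sqrt_le_iff]
    refine ⟨by positivity, ?_⟩
    have e3 : (κ * x ^ 32) ^ 2 = κ ^ 2 * x ^ 64 := by ring
    rw [e3, hxN]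
    apply mul_le_mul_of_nonneg_right _ hN0.le
    exact le_self_pow₀ hκ (by norm_num)
  have h5 : Q ^ 2 * (2 * Real.sqrt (κ * N) * lN + 2 * Q) ≤ 6 * κ * x ^ 38 := by
    have e4 : 2 * Real.sqrt (κ * N) * lN + 2 * Q ≤ 2 * (κ * x ^ 32) * (2 * x ^ 2) + 2 * x ^ 2 := by
      have : lN ≤ 2 * x ^ 2 := by linarith
      gcongr
    have e5 : 2 * (κ * x ^ 32) * (2 * x ^ 2) + 2 * x ^ 2 ≤ 6 * κ * x ^ 34 := by
      have e6 : x ^ 2 ≤ x ^ 34 := pow_le_pow_right₀ hx (by norm_num)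
      have e7 : 1 * x ^ 34 ≤ κ * x ^ 34 := mul_le_mul_of_nonneg_right hκ (by positivity)
      have e8 : 2 * (κ * x ^ 32) * (2 * x ^ 2) = 4 * (κ * x ^ 34) := by ring
      linarith
    calc Q ^ 2 * (2 * Real.sqrt (κ * N) * lN + 2 * Q) ≤ (x ^ 2) ^ 2 * (6 * κ * x ^ 34) := by
          apply mul_le_mul (pow_le_pow_left₀ hQ0 hQ 2) (e4.trans e5) (by positivity) (by positivity)
      _ = _ := by ring
  have h6 : C * a ^ 2 * Real.sqrt (L ^ K) * (1 + lQ) ^ 2 * (8 * (κ * N) * (N / L ^ (K + 2 * g + 4)) / G +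
      Q ^ 2 * (2 * Real.sqrt (κ * N) * lN + 2 * Q)) ≤
      C * a ^ 2 * L ^ K * (2 * L) ^ 2 * (16 * κ * N * L ^ g / L ^ (K + 2 * g + 4) + 6 * κ * x ^ 38) := by
    gcongr
  refine h6.trans ?_
  have h7 : C * a ^ 2 * L ^ K * (2 * L) ^ 2 * (16 * κ * N * L ^ g / L ^ (K + 2 * g + 4)) = (128 * C * a ^ 2 * κ) * (N / (2 * L ^ (g + 2))) := by
    have e9 : L ^ (K + 2 * g + 4) = L ^ K * L ^ 2 * L ^ g * L ^ (g + 2) := by ring
    rw [e9]
    field_simp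
    norm_num
  have h8 : (128 * C * a ^ 2 * κ) * (N / (2 * L ^ (g + 2))) ≤ N / (2 * L ^ (g + 1)) := by
    calc (128 * C * a ^ 2 * κ) * (N / (2 * L ^ (g + 2))) ≤ L * (N / (2 * L ^ (g + 2))) := by gcongr
      _ = N / (2 * L ^ (g + 1)) := by
          rw [pow_succ L (g + 1)]
          field_simp
  have h9 : C * a ^ 2 * L ^ K * (2 * L) ^ 2 * (6 * κ * x ^ 38) ≤ N / (2 * L ^ (g + 1)) := by
    rw [le_div_iff₀ (by positivity)]
    calc C * a ^ 2 * L ^ K * (2 * L) ^ 2 * (6 * κ * x ^ 38) * (2 * L ^ (g + 1)) =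
        (48 * C * a ^ 2 * κ) * L ^ (K + g + 3) * x ^ 38 := by ring
      _ ≤ L * L ^ (K + g + 3) * x ^ 38 := by
          have : 0 < C * a ^ 2 * κ := by positivity
          have e10 : 48 * C * a ^ 2 * κ ≤ L := by linarith
          gcongr
      _ = L ^ (K + g + 4) * x ^ 38 := by ring
      _ ≤ x * x ^ 38 := by gcongr
      _ = x ^ 39 := by ring
      _ ≤ x ^ 64 := pow_le_pow_right₀ hx (by norm_num)
      _ = N := hxN
  have h10 : N / (2 * L ^ (g + 1)) + N / (2 * L ^ (g + 1)) = N / L ^ (g + 1) := by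
    field_simp
    norm_num
  rw [← h10, mul_add, h7]
  exact add_le_add h8 h9

/-- the weighted sum of the prime values, for one constant term -/
theorem fixed {a b : ℤ} (ha : 1 ≤ a) (g K : ℕ) : ∀ᶠ N : ℕ in atTop, ∀ c : ℕ, c ≤ N → pQ N < c →
    (∀ f ∈ Icc 2 (pQ N), (Int.gcd (b ^ 2 - 4 * a * c) f : ℝ) ≤ Real.log N ^ K) → ∀ S : ℝ,
    |∑ n ∈ Icc 1 (pQ N), GG (gp a b c) 1 n - S| ≤ 1 / Real.log N ^ (g + 2) → ∀ j ≤ pJ a b g N,
    ‖TSj a b g N j c‖ ≤ N / Real.log N ^ (g + 1) →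
    |∑ m ∈ Icc 1 (pM a b N), wt a b (pG g N) ((j : ℝ) * pG g N) m * thp (fv (-a) (-b) c m).natAbs -
      (j : ℝ) * pG g N * S| ≤ N / Real.log N ^ g := by
  obtain ⟨C, hC, hNP⟩ := NP_bound
  obtain ⟨κ, hκd⟩ : ∃ κ : ℝ, κ = kk a b := ⟨_, rfl⟩
  have hkk3 : 3 ≤ kk a b := by unfold kk; omega
  have hκ : 1 ≤ κ := by rw [hκd]; exact_mod_cast (by omega : 1 ≤ kk a b)
  have har : (1 : ℝ) ≤ a := by exact_mod_cast ha
  obtain ⟨W, hW⟩ : ∃ W, W = 2 * kk a b * (4 * (k2 a b + 4 * a * kk a b + 16 * kk a b * k2 a b ^ 2) + 82 * k2 a b ^ 2) := ⟨_, rfl⟩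
  filter_upwards [PP_ev a b ha g, eventually_ge_atTop (kk a b), wS_unif H343E.sw κ (K + 2 * g + 4), theta_unif κ (K + 2 * g + 4),
    Pool.Agent.Y614.GJ.Core.ev_log (K + g + 4) (s := 1 / 64) (by norm_num) (128 * C * a ^ 2 * κ),
    Pool.Agent.Y614.GJ.Core.ev_log (K + g + 4) (s := 1 / 64) (by norm_num) (36 * a * κ + W + 6)]
    with N h hk hwS hth h1 h2 c hcN hcQ hgcd S hS j hj hT
  obtain ⟨hc1, hLx2⟩ := h1
  obtain ⟨hc2, -⟩ := h2
  have hN0 : (0 : ℝ) < N := by exact_mod_cast h.N1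
  have hL0 : 0 < Real.log N := by linarith [h.L1]
  have hx0 : 0 < xx N := by linarith [h.x1]
  have hG0 : (0 : ℝ) < pG g N := by exact_mod_cast h.G0
  have hs0 : (0 : ℝ) ≤ (j : ℝ) * pG g N := by positivity
  have hxdef : (N : ℝ) ^ (1 / 64 : ℝ) = xx N := rfl
  rw [hxdef] at hLx2
  have hk2 : 1 ≤ k2 a b := by
    unfold k2
    have h1 : (0 : ℝ) ≤ b.natAbs := Nat.cast_nonneg _
    have h2 := abs_nonneg (qf a b (b.natAbs + 1) : ℝ)
    have h3 : (1 : ℝ) * 1 ≤ a * kk a b := mul_le_mul har (by rw [← hκd]; exact hκ) (by norm_num) (by linarith)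
    linarith
  have hW0 : 0 ≤ W := by rw [hW]; positivity
  have haκ : 0 < (a : ℝ) * κ := by positivity
  have hQ32 : (pQ N : ℝ) ≤ (N : ℝ) ^ (1 / 32 : ℝ) := by
    refine h.Qx.trans (le_of_eq ?_)
    unfold xx
    rw [← Real.rpow_natCast, ← Real.rpow_mul hN0.le]
    norm_num
  have hpN : (pN a b N : ℝ) = κ * N := by
    unfold pN
    push_cast
    rw [hκd]
  have hlQ0 : 0 ≤ Real.log (pQ N) := Real.log_natCast_nonneg _
  have hlQ : Real.log (pQ N) ≤ Real.log N :=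
    Real.log_le_log (by exact_mod_cast h.Q0) (by exact_mod_cast h.QN)
  have hlN : Real.log (pN a b N) ≤ 2 * Real.log N := by
    rw [hpN, Real.log_mul (by linarith) hN0.ne']
    have : Real.log κ ≤ Real.log N := Real.log_le_log (by linarith) (by rw [hκd]; exact_mod_cast hk)
    linarith
  -- the sum of the local factors
  obtain ⟨Sg, hSg⟩ : ∃ Sg : ℝ, Sg = ∑ n ∈ Icc 1 (pQ N), GG (gp a b c) 1 n := ⟨_, rfl⟩
  have hSgb : |Sg| ≤ 4 * a * Real.log N ^ 2 := by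
    rw [hSg]
    refine (abs_sum_le_sum_abs _ _).trans ?_
    refine (GG_sum (c := (c : ℤ)) (b := b) (by omega : a ≠ 0) 1 (le_refl (pQ N))).trans ?_
    rw [abs_of_pos (by linarith : (0 : ℝ) < a)]
    calc (a : ℝ) * (1 + Real.log (pQ N)) ^ 2 ≤ a * (2 * Real.log N) ^ 2 := by
          have := h.L1
          gcongr
          linarith
      _ = _ := by ring
  rw [← hSg] at hS
  -- the pieces
  obtain ⟨E1, hE1⟩ : ∃ E1 : ℝ, E1 = N / Real.log N ^ (g + 1) := ⟨_, rfl⟩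
  rw [← hE1] at hT
  have hcast : (((j * pG g N : ℕ)) : ℝ) = (j : ℝ) * pG g N := by push_cast; ring
  have hEv := TS_eval (b := b) (G := pG g N) (s := (j : ℝ) * pG g N) (M1 := pM a b N) (H := pH N) (Q := pQ N) (N1 := pN a b N)
    ha hG0 hs0 h.Mb h.H0 (qf_M ha h hj) (Fq (pQ N)) (Fq_nonneg _) c
  have hEv2 := err_ev (b := b) ha h hk (by
    rw [← hW]
    calc W * Real.log N ^ (g + 2) ≤ Real.log N * Real.log N ^ (g + 2) := by
          have : W ≤ Real.log N := by linarith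
          gcongr
      _ = Real.log N ^ (g + 3) := by ring
      _ ≤ Real.log N ^ (K + g + 4) := pow_le_pow_right₀ h.L1 (by omega)
      _ ≤ xx N := hLx2)
  rw [← hE1] at hEv2
  have hcG := sum_le_N h hcN hj
  have hB := hNP a b (by omega) c (j * pG g N) (pG g N) (pN a b N) (pQ N) (Real.log N ^ K) (N / Real.log N ^ (K + 2 * g + 4))
    (by omega) h.G0 h.Q0 h.QN1 hcG (by positivity) hgcd (by
      intro t ht1 ht2
      rw [hpN] at ht2
      exact hwS (pQ N) hQ32 t ht1 ht2)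
  have hB2 := err_np (C := C) (a := a) (κ := κ) (L := Real.log N) (x := xx N) (N := N) (Q := pQ N) (G := pG g N)
    (lQ := Real.log (pQ N)) (lN := Real.log (pN a b N)) (g := g) (K := K) hC har hκ h.L1 h.x1 h.x64 (Nat.cast_nonneg _) h.Qx
    hlQ0 hlQ (Real.log_natCast_nonneg _) hlN h.Lx hG0 (le_trans (le_of_eq h.x64.symm) h.Gx2) hc1 hLx2
  rw [← hpN, ← hE1] at hB2
  have hB3 := hB.trans hB2
  rw [hcast] at hB3
  have hM := main_part (c := c) (s := j * pG g N) (G := pG g N) (N := pN a b N) (Q := pQ N) (E := N / Real.log N ^ (K + 2 * g + 4))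
    h.G0 hcG (by
      intro y hy
      apply hth (pQ N) hQ32 y
      rw [← hpN]
      exact_mod_cast hy)
  rw [hcast] at hM
  -- the main term
  obtain ⟨Fh, hFh⟩ : ∃ Fh : ℝ, Fh = ∑ v ∈ Icc 1 (pN a b N), Fq (pQ N) v * th (pG g N) ((j : ℝ) * pG g N) ((v : ℝ) - c) := ⟨_, rfl⟩
  rw [← hFh] at hM
  have hM2 : |Fh * Sg - (j : ℝ) * pG g N * Sg| ≤ E1 := by
    rw [← sub_mul, abs_mul]
    have e1 : (N : ℝ) / Real.log N ^ (K + 2 * g + 4) * (1 + 4 * (pN a b N) / pG g N) ≤ N / Real.log N ^ (K + 2 * g + 4) * (9 * κ * Real.log N ^ g) := by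
      apply mul_le_mul_of_nonneg_left _ (by positivity)
      have e2 : 4 * (pN a b N : ℝ) / pG g N ≤ 8 * κ * Real.log N ^ g := by
        rw [div_le_iff₀ hG0, hpN]
        have e3 := h.Gx2
        rw [h.x64] at e3
        calc 4 * (κ * N) ≤ 4 * (κ * (2 * Real.log N ^ g * pG g N)) := by gcongr
          _ = _ := by ring
      have e4 : 1 * 1 ≤ κ * Real.log N ^ g := mul_le_mul hκ (one_le_pow₀ h.L1) (by norm_num) (by linarith)
      linarith
    have e5 := mul_le_mul (hM.trans e1) hSgb (abs_nonneg _) (by positivity)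
    refine e5.trans ?_
    rw [hE1]
    have e6 : (N : ℝ) / Real.log N ^ (K + 2 * g + 4) ≤ N / Real.log N ^ (2 * g + 4) := by
      apply div_le_div_of_nonneg_left hN0.le (by positivity)
      exact pow_le_pow_right₀ h.L1 (by omega)
    calc (N : ℝ) / Real.log N ^ (K + 2 * g + 4) * (9 * κ * Real.log N ^ g) * (4 * a * Real.log N ^ 2) ≤
        N / Real.log N ^ (2 * g + 4) * (9 * κ * Real.log N ^ g) * (4 * a * Real.log N ^ 2) := by gcongr
      _ = (36 * a * κ) * (N / Real.log N ^ (g + 2)) := by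
          have e7 : Real.log (N : ℝ) ^ (2 * g + 4) = Real.log N ^ g * Real.log N ^ 2 * Real.log N ^ (g + 2) := by ring
          rw [e7]
          field_simp
          norm_num
      _ ≤ Real.log N * (N / Real.log N ^ (g + 2)) := by
          have : 36 * a * κ ≤ Real.log N := by linarith
          gcongr
      _ = N / Real.log N ^ (g + 1) := by
          rw [pow_succ (Real.log (N : ℝ)) (g + 1)]
          field_simp
  have hM3 : |(j : ℝ) * pG g N * Sg - (j : ℝ) * pG g N * S| ≤ E1 := by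
    rw [← mul_sub, abs_mul, abs_of_nonneg hs0]
    have e1 : (j : ℝ) * pG g N ≤ κ * N := by
      have e2 := hcG
      have e3 : j * pG g N ≤ pN a b N := by omega
      rw [← hpN, ← hcast]
      exact_mod_cast e3
    calc (j : ℝ) * pG g N * |Sg - S| ≤ (κ * N) * (1 / Real.log N ^ (g + 2)) := by gcongr
      _ = κ * (N / Real.log N ^ (g + 2)) := by ring
      _ ≤ Real.log N * (N / Real.log N ^ (g + 2)) := by
          have : κ ≤ Real.log N := by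
            have : κ ≤ a * κ := le_mul_of_one_le_left (by linarith) har
            linarith
          gcongr
      _ = E1 := by
          rw [hE1, pow_succ (Real.log (N : ℝ)) (g + 1)]
          field_simp
  -- the sum
  obtain ⟨T, hTd⟩ : ∃ T : ℂ, T = TSj a b g N j c := ⟨_, rfl⟩
  obtain ⟨X, hX⟩ : ∃ X : ℝ, X = ∑ m ∈ Icc 1 (pM a b N), wt a b (pG g N) ((j : ℝ) * pG g N) m * thp (fv (-a) (-b) c m).natAbs := ⟨_, rfl⟩
  have hX2 : ∑ m ∈ Icc 1 (pM a b N), ((wt a b (pG g N) ((j : ℝ) * pG g N) m * Fe (Fq (pQ N)) (pN a b N) ((c : ℤ) + qf a b m) : ℝ) : ℂ) = (X : ℂ) := by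
    rw [hX, ← val_part ha h hcN hcQ hj]
    push_cast
    rfl
  obtain ⟨Bc, hBc⟩ : ∃ Bc : ℂ, Bc = ∑ v ∈ Icc 1 (pN a b N), ((Fq (pQ N) v : ℝ) : ℂ) *
    (((th (pG g N) ((j : ℝ) * pG g N) ((v : ℝ) - c) : ℝ) : ℂ) * ∑ k ∈ Icc 1 (pQ N), mK a b k ((v : ℤ) - (c : ℤ))) := ⟨_, rfl⟩
  have hEv3 : ‖T - ((X : ℂ) - Bc)‖ ≤ E1 := by
    refine le_trans (le_of_eq ?_) (hEv.trans hEv2)
    rw [hX2, hBc, hTd]
    simp only [Int.cast_sub, Int.cast_natCast]
    rfl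
  have hB4 : ‖Bc - (Fh : ℂ) * (Sg : ℂ)‖ ≤ E1 := by
    refine le_trans (le_of_eq ?_) hB3
    rw [hBc, hFh, hSg]
    push_cast
    rfl
  rw [← hTd] at hT
  rw [← hX]
  have hfin : ‖(((X - (j : ℝ) * pG g N * S : ℝ)) : ℂ)‖ ≤ 5 * E1 := by
    have e1 : (((X - (j : ℝ) * pG g N * S : ℝ)) : ℂ) = T - (T - ((X : ℂ) - Bc)) + (Bc - (Fh : ℂ) * (Sg : ℂ)) +
        (((Fh * Sg - (j : ℝ) * pG g N * Sg : ℝ)) : ℂ) + ((((j : ℝ) * pG g N * Sg - (j : ℝ) * pG g N * S : ℝ)) : ℂ) := by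
      push_cast
      ring
    rw [e1]
    have e2 : ‖(((Fh * Sg - (j : ℝ) * pG g N * Sg : ℝ)) : ℂ)‖ ≤ E1 := by
      rw [Complex.norm_real]
      exact hM2
    have e3 : ‖((((j : ℝ) * pG g N * Sg - (j : ℝ) * pG g N * S : ℝ)) : ℂ)‖ ≤ E1 := by
      rw [Complex.norm_real]
      exact hM3
    have e4 := norm_add_le (T - (T - ((X : ℂ) - Bc)) + (Bc - (Fh : ℂ) * (Sg : ℂ)) + (((Fh * Sg - (j : ℝ) * pG g N * Sg : ℝ)) : ℂ))
      ((((j : ℝ) * pG g N * Sg - (j : ℝ) * pG g N * S : ℝ)) : ℂ)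
    have e5 := norm_add_le (T - (T - ((X : ℂ) - Bc)) + (Bc - (Fh : ℂ) * (Sg : ℂ))) (((Fh * Sg - (j : ℝ) * pG g N * Sg : ℝ)) : ℂ)
    have e6 := norm_add_le (T - (T - ((X : ℂ) - Bc))) (Bc - (Fh : ℂ) * (Sg : ℂ))
    have e7 := norm_sub_le T (T - ((X : ℂ) - Bc))
    linarith
  rw [Complex.norm_real, Real.norm_eq_abs] at hfin
  refine hfin.trans ?_
  rw [hE1]
  have e8 : (5 : ℝ) ≤ Real.log N := by linarith
  calc 5 * ((N : ℝ) / Real.log N ^ (g + 1)) ≤ Real.log N * (N / Real.log N ^ (g + 1)) := by gcongr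
    _ = N / Real.log N ^ g := by
        rw [pow_succ (Real.log (N : ℝ)) g]
        field_simp

end Pool.Agent.K7.H51.PS
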