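import Mathlib
import Pool.Agent.Y868.TB.T2

set_option autoImplicit false

/-! Partial sums of `(D / p) / p` over parts of the blocks. -/

namespace Pool.Agent.K7.H51.PS

open Finset Filter Topology
open Pool.Agent.W468.ConjF
open Pool.Agent.H307R2.OP (J PB badCount)

/-- the primes in an interval and in a class modulo 8 -/
def PW (r v w : ℕ) : Finset ℕ := (Ioc v w).filter (fun p => p.Prime ∧ p % 8 = r)

lemma pw_split (v w : ℕ) (hv : 2 ≤ v) (f : ℕ → ℝ) :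
    ∑ p ∈ (Ioc v w).filter Nat.Prime, f p = ∑ r ∈ ({1, 3, 5, 7} : Finset ℕ), ∑ p ∈ PW r v w, f p := by
  rw [← sum_biUnion]
  · apply sum_congr _ (fun _ _ => rfl)
    ext p
    simp only [PW, mem_filter, mem_biUnion, mem_Ioc]
    constructor
    · rintro ⟨h1, h2⟩
      refine ⟨p % 8, ?_, h1, h2, rfl⟩
      have h4 := h2.eq_two_or_odd
      simp only [mem_insert, mem_singleton]
      omega
    · rintro ⟨r, -, h1, h2, -⟩
      exact ⟨h1, h2⟩
  · intro r _ r' _ hne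
    rw [Function.onFun, Finset.disjoint_left]
    intro p h1 h2
    simp only [PW, mem_filter] at h1 h2
    exact hne (h1.2.2.symm.trans h2.2.2)

lemma blkW (D : ℤ) (Δ : ℕ) (hΔ : D.natAbs ≤ Δ) (δ s : ℕ) (u : ℤ)
    (hu : u ∈ ({1, -1, 2, -2} : Finset ℤ)) (hD0 : D ≠ 0) (hD : D = u * (s : ℤ) ^ 2 * δ) (hδ : δ % 2 = 1) (v w : ℕ)
    (hv : 2 ≤ v) (τ : ℝ) (hτ : ∀ r ∈ ({1, 3, 5, 7} : Finset ℕ), |∑ p ∈ PW r v w, J p δ / p| ≤ τ) :
    |SJ D v w| ≤ 4 * τ + 4 * (Nat.log 2 Δ / v) := by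
  have hs0 : s ≠ 0 := by
    rintro rfl
    apply hD0; rw [hD]; simp
  have hv0 : (0 : ℝ) < v := by exact_mod_cast (by omega : 0 < v)
  have hsΔ : s ≤ Δ := by
    refine le_trans ?_ hΔ
    have h1 : s ∣ D.natAbs := by
      rw [← Int.natCast_dvd_natCast, Int.dvd_natAbs, hD]
      exact ⟨u * s * δ, by ring⟩
    exact Nat.le_of_dvd (Int.natAbs_pos.2 hD0) h1
  have key : ∀ r ∈ ({1, 3, 5, 7} : Finset ℕ), |∑ p ∈ PW r v w, (jacobiSym D p : ℝ) / p| ≤ τ + Nat.log 2 Δ / v := by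
    intro r hr
    obtain ⟨e, he, hsym⟩ := symbol u hu s δ hδ r hr
    have h1 : ∑ p ∈ PW r v w, (jacobiSym D p : ℝ) / p =
        e * (∑ p ∈ PW r v w, J p δ / p - ∑ p ∈ (PW r v w).filter (fun p => p ∣ s), J p δ / p) := by
      rw [← sum_filter_add_sum_filter_not (PW r v w) (fun p => p ∣ s) (fun p => J p δ / p), add_sub_cancel_left]
      rw [← sum_filter_add_sum_filter_not (PW r v w) (fun p => p ∣ s) (fun p => (jacobiSym D p : ℝ) / p)]
      have h2 : ∑ p ∈ (PW r v w).filter (fun p => p ∣ s), (jacobiSym D p : ℝ) / p = 0 := by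
        apply sum_eq_zero
        intro p hp
        rw [mem_filter, PW, mem_filter] at hp
        rw [js_zero D p hp.1.2.1, Int.cast_zero, zero_div]
        rw [hD]
        have : (p : ℤ) ∣ (s : ℤ) := by exact_mod_cast hp.2
        obtain ⟨k, hk⟩ := this
        exact ⟨u * k * s * δ, by rw [hk]; ring⟩
      rw [h2, zero_add, mul_sum]
      apply sum_congr rfl
      intro p hp
      rw [mem_filter, PW, mem_filter] at hp
      rw [hD, hsym p hp.1.2.1 hp.1.2.2 hp.2]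
      unfold J
      push_cast
      ring
    rw [h1, abs_mul]
    have he' : |(e : ℝ)| ≤ 1 := by exact_mod_cast he
    have h3 : |∑ p ∈ (PW r v w).filter (fun p => p ∣ s), J p δ / p| ≤ Nat.log 2 Δ / v := by
      calc |∑ p ∈ (PW r v w).filter (fun p => p ∣ s), J p δ / p|
          ≤ ∑ p ∈ (PW r v w).filter (fun p => p ∣ s), |J p δ / p| := abs_sum_le_sum_abs _ _
        _ ≤ ∑ p ∈ (PW r v w).filter (fun p => p ∣ s), 1 / (v : ℝ) := by
            apply sum_le_sum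
            intro p hp
            rw [mem_filter, PW, mem_filter, mem_Ioc] at hp
            have hp0 : (v : ℝ) ≤ p := by exact_mod_cast hp.1.1.1.le
            rw [abs_div, Nat.abs_cast]
            apply div_le_div₀ (by norm_num) _ hv0 hp0
            unfold J
            rcases jacobiSym.trichotomy (p : ℤ) δ with h | h | h <;> rw [h] <;> simp
        _ = (#((PW r v w).filter (fun p => p ∣ s)) : ℝ) / v := by
            rw [sum_const, nsmul_eq_mul]; ring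
        _ ≤ Nat.log 2 Δ / v := by
            apply div_le_div_of_nonneg_right _ hv0.le
            have h4 := card_prime_dvd s hs0 ((PW r v w).filter (fun p => p ∣ s)) (by
              intro p hp
              rw [mem_filter, PW, mem_filter] at hp
              exact ⟨hp.1.2.1, hp.2⟩)
            exact_mod_cast h4.trans (Nat.log_mono_right hsΔ)
    calc |(e : ℝ)| * |∑ p ∈ PW r v w, J p δ / p - ∑ p ∈ (PW r v w).filter (fun p => p ∣ s), J p δ / p|
        ≤ 1 * (|∑ p ∈ PW r v w, J p δ / p| + |∑ p ∈ (PW r v w).filter (fun p => p ∣ s), J p δ / p|) := by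
          apply mul_le_mul he' (abs_sub _ _) (abs_nonneg _) (by norm_num)
      _ ≤ _ := by
          rw [one_mul]
          exact add_le_add (hτ r hr) h3
  unfold SJ
  rw [pw_split v w hv]
  calc |∑ r ∈ ({1, 3, 5, 7} : Finset ℕ), ∑ p ∈ PW r v w, (jacobiSym D p : ℝ) / p|
      ≤ ∑ r ∈ ({1, 3, 5, 7} : Finset ℕ), |∑ p ∈ PW r v w, (jacobiSym D p : ℝ) / p| := abs_sum_le_sum_abs _ _
    _ ≤ ∑ r ∈ ({1, 3, 5, 7} : Finset ℕ), (τ + Nat.log 2 Δ / v) := sum_le_sum key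
    _ = 4 * τ + 4 * (Nat.log 2 Δ / v) := by
        rw [sum_const, show #({1, 3, 5, 7} : Finset ℕ) = 4 from rfl, nsmul_eq_mul]
        push_cast; ring

/-- a kernel is bad for a part of a block -/
def BadP (z i0 i1 : ℕ) (τ : ℝ) (δ : ℕ) : Prop := ∃ i, i ∈ Ico i0 i1 ∧ ∃ r, r ∈ ({1, 3, 5, 7} : Finset ℕ) ∧
  ∃ w : ℕ, w ≤ 2 ^ (i + 1) ∧ τ < |∑ p ∈ PW r (max z (2 ^ i)) w, J p δ / p|

open Classical in
/-- bad kernels for parts of the blocks -/
noncomputable def BadW (Δ z i0 i1 : ℕ) (τ : ℝ) : Finset ℕ :=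
  (range (Δ + 1)).filter (fun δ => Squarefree δ ∧ δ % 2 = 1 ∧ BadP z i0 i1 τ δ)

lemma badW_card (Δ z i0 i1 : ℕ) (τ K : ℝ) (hτ : 0 < τ) (hK0 : 0 ≤ K) (hi0 : 1 ≤ i0) (m : ℕ → ℕ) (hm : ∀ i, 1 ≤ m i)
    (hΔ : ∀ i ∈ Ico i0 i1, Δ ^ 3 ≤ (2 * 2 ^ i) ^ (m i)) (hK : ∀ i ∈ Ico i0 i1, (2 * (m i : ℝ) / τ ^ 2) ^ (m i) ≤ K) :
    (#(BadW Δ z i0 i1 τ) : ℝ) ≤ 16 * i1 * 2 ^ i1 * K := by
  classical
  obtain ⟨S, hS⟩ : ∃ S : ℕ → ℕ → ℕ → Finset ℕ, S = fun i r w => (range (Δ + 1)).filter (fun δ => Squarefree δ ∧ δ % 2 = 1 ∧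
      τ < |∑ p ∈ PW r (max z (2 ^ i)) w, J p δ / p|) := ⟨_, rfl⟩
  obtain ⟨W, hW⟩ : ∃ W : ℕ → Finset ℕ, W = fun i => range (2 ^ (i + 1) + 1) := ⟨_, rfl⟩
  have hsub : BadW Δ z i0 i1 τ ⊆ (Ico i0 i1).biUnion (fun i => ({1, 3, 5, 7} : Finset ℕ).biUnion (fun r =>
      (W i).biUnion (fun w => S i r w))) := by
    intro δ hδ
    unfold BadW at hδ
    rw [mem_filter] at hδ
    obtain ⟨h1, h2, h3, hP⟩ := hδ
    obtain ⟨i, hi, hP⟩ := hP
    obtain ⟨r, hr, hP⟩ := hP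
    obtain ⟨w, hw, h4⟩ := hP
    rw [mem_biUnion]
    refine ⟨i, hi, ?_⟩
    rw [mem_biUnion]
    refine ⟨r, hr, ?_⟩
    rw [mem_biUnion]
    refine ⟨w, ?_, ?_⟩
    · rw [hW]
      exact mem_range.2 (Nat.lt_succ_of_le hw)
    · rw [hS]
      exact mem_filter.2 ⟨h1, h2, h3, h4⟩
  have hone : ∀ i ∈ Ico i0 i1, ∀ r ∈ ({1, 3, 5, 7} : Finset ℕ), ∀ w ∈ W i, (#(S i r w) : ℝ) ≤ 2 * K := by
    intro i hi r hr w hw
    have hi' := mem_Ico.1 hi
    rw [hW] at hw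
    simp only [mem_range] at hw
    have h1 := badCount (2 ^ i) Δ (m i) τ (PW r (max z (2 ^ i)) w) (S i r w)
      (by
        calc 2 = 2 ^ 1 := rfl
          _ ≤ 2 ^ i := Nat.pow_le_pow_right (by norm_num) (by omega))
      (hm i) (hΔ i hi) hτ
      (by
        intro p hp
        rw [PW, mem_filter, mem_Ioc] at hp
        have h2 : 2 ^ i ≤ max z (2 ^ i) := le_max_right _ _
        refine ⟨hp.2.1, by omega, ?_⟩
        have := hp.1.2
        rw [pow_succ] at hw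
        omega)
      (by
        intro δ hδ
        rw [hS] at hδ
        simp only [mem_filter, mem_range] at hδ
        exact ⟨hδ.2.1, hδ.2.2.1, by omega, hδ.2.2.2⟩)
    refine h1.trans ?_
    have := hK i hi
    linarith
  have hcard : #(BadW Δ z i0 i1 τ) ≤ ∑ i ∈ Ico i0 i1, ∑ r ∈ ({1, 3, 5, 7} : Finset ℕ), ∑ w ∈ W i, #(S i r w) :=
    (card_le_card hsub).trans (card_biUnion_le.trans (sum_le_sum fun i (_ : i ∈ Ico i0 i1) =>
      card_biUnion_le.trans (sum_le_sum fun r _ => card_biUnion_le)))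
  have hR := (Nat.cast_le (α := ℝ)).2 hcard
  simp only [Nat.cast_sum] at hR
  refine hR.trans ?_
  have hWc : ∀ i, (W i).card = 2 ^ (i + 1) + 1 := by
    intro i
    rw [hW]
    exact card_range _
  calc ∑ i ∈ Ico i0 i1, ∑ r ∈ ({1, 3, 5, 7} : Finset ℕ), ∑ w ∈ W i, (#(S i r w) : ℝ)
      ≤ ∑ i ∈ Ico i0 i1, ∑ r ∈ ({1, 3, 5, 7} : Finset ℕ), ∑ w ∈ W i, 2 * K :=
        sum_le_sum fun i hi => sum_le_sum fun r hr => sum_le_sum fun w hw => hone i hi r hr w hw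
    _ = ∑ i ∈ Ico i0 i1, 4 * (((2 ^ (i + 1) + 1 : ℕ) : ℝ) * (2 * K)) := by
        refine sum_congr rfl fun i _ => ?_
        simp only [sum_const, nsmul_eq_mul, show #({1, 3, 5, 7} : Finset ℕ) = 4 from rfl, hWc]
        push_cast
        ring
    _ ≤ ∑ _i ∈ Ico i0 i1, 16 * 2 ^ i1 * K := by
        refine sum_le_sum fun i hi => ?_
        rw [mem_Ico] at hi
        have h1 : (2 : ℝ) ^ (i + 1) ≤ 2 ^ i1 := pow_le_pow_right₀ (by norm_num) (by omega)
        have h2 : (1 : ℝ) ≤ 2 ^ i1 := one_le_pow₀ (by norm_num)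
        have h3 : (((2 ^ (i + 1) + 1 : ℕ) : ℝ)) ≤ 2 * 2 ^ i1 := by
          push_cast
          linarith
        have h4 := mul_le_mul_of_nonneg_right h3 (by positivity : 0 ≤ 2 * K)
        linarith
    _ = ((i1 - i0 : ℕ) : ℝ) * (16 * 2 ^ i1 * K) := by
        rw [sum_const, Nat.card_Ico, nsmul_eq_mul]
    _ ≤ (i1 : ℝ) * (16 * 2 ^ i1 * K) := by
        apply mul_le_mul_of_nonneg_right _ (by positivity)
        exact_mod_cast Nat.sub_le _ _
    _ = _ := by ring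

/-- from the blocks to all the partial sums -/
lemma SJ_low (D : ℤ) (z i0 i1 : ℕ) (τ : ℝ) (hτ : 0 ≤ τ) (hz1 : 2 ^ i0 ≤ z) (hz2 : z < 2 ^ (i0 + 1))
    (h : ∀ i ∈ Ico i0 i1, ∀ w : ℕ, w ≤ 2 ^ (i + 1) → |SJ D (max z (2 ^ i)) w| ≤ τ) :
    ∀ j : ℕ, i0 ≤ j → j < i1 → ∀ w : ℕ, z ≤ w → w ≤ 2 ^ (j + 1) → |SJ D z w| ≤ (j + 1) * τ := by
  intro j hj
  induction j, hj using Nat.le_induction with
  | base =>
    intro hi w hzw hw
    have h1 := h i0 (mem_Ico.2 ⟨le_rfl, hi⟩) w hw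
    rw [max_eq_left hz1] at h1
    refine h1.trans ?_
    have : (1 : ℝ) ≤ (i0 : ℝ) + 1 := by
      have := Nat.cast_nonneg (α := ℝ) i0
      linarith
    nlinarith
  | succ j hj ih =>
    intro hi w hzw hw
    have hzj : z ≤ 2 ^ (j + 1) := hz2.le.trans (Nat.pow_le_pow_right (by norm_num) (by omega))
    rcases le_or_gt w (2 ^ (j + 1)) with hw' | hw'
    · refine (ih (by omega) w hzw hw').trans ?_
      push_cast
      nlinarith
    · rw [SJ_add D z (2 ^ (j + 1)) w hzj hw'.le]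
      have h1 := ih (by omega) (2 ^ (j + 1)) hzj le_rfl
      have h2 := h (j + 1) (mem_Ico.2 ⟨by omega, hi⟩) w hw
      rw [max_eq_right hzj] at h2
      refine (abs_add_le _ _).trans ?_
      push_cast
      linarith

end Pool.Agent.K7.H51.PS
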