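import Mathlib
import Pool.Agent.K7.H51.PS.Crt

set_option autoImplicit false

/-! Sums of a multiplicative function on the squarefree numbers, and its Euler product. -/

namespace Pool.Agent.K7.H51.PS

open Finset

/-- the largest prime factor -/
def Pp (n : ℕ) : ℕ := n.primeFactors.sup id

lemma le_Pp {n p : ℕ} (hp : p ∈ n.primeFactors) : p ≤ Pp n := le_sup (f := id) hp

lemma Pp_mem {n : ℕ} (h : n.primeFactors.Nonempty) : Pp n ∈ n.primeFactors := by
  obtain ⟨p, hp, h1⟩ := exists_mem_eq_sup n.primeFactors h id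
  unfold Pp
  rw [h1]
  exact hp

lemma Pp_pos {n : ℕ} (h : 0 < Pp n) : Pp n ∈ n.primeFactors := by
  apply Pp_mem
  rw [nonempty_iff_ne_empty]
  intro h0
  unfold Pp at h
  rw [h0] at h
  simp at h

variable (g : ℕ → ℝ)

lemma GG1_def (n : ℕ) : GG g 1 n = if Squarefree n then ∏ p ∈ n.primeFactors, g p else 0 := by
  unfold GG
  simp

lemma GG1_mul {m p : ℕ} (hp : p.Prime) (hm : 0 < m) (h : Pp m < p) : GG g 1 (m * p) = GG g 1 m * g p := by
  have hnd : ¬ p ∣ m := by
    intro hd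
    have := le_Pp (Nat.mem_primeFactors.2 ⟨hp, hd, hm.ne'⟩)
    omega
  have hco : m.Coprime p := ((Nat.Prime.coprime_iff_not_dvd hp).2 hnd).symm
  rw [GG1_def, GG1_def]
  by_cases hs : Squarefree m
  · rw [if_pos hs, if_pos ((Nat.squarefree_mul hco).2 ⟨hs, hp.squarefree⟩), Nat.primeFactors_mul hm.ne' hp.ne_zero,
      hp.primeFactors, prod_union]
    · rw [prod_singleton]
    · rw [disjoint_singleton_right]
      intro hd
      exact hnd (Nat.dvd_of_mem_primeFactors hd)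
  · rw [if_neg hs, if_neg (fun h' => hs ((Nat.squarefree_mul hco).1 h').1), zero_mul]

lemma Pp_mul {m p : ℕ} (hp : p.Prime) (hm : 0 < m) (h : Pp m < p) : Pp (m * p) = p := by
  unfold Pp at *
  rw [Nat.primeFactors_mul hm.ne' hp.ne_zero, hp.primeFactors, sup_union, sup_singleton]
  simp only [id]
  exact sup_eq_right.2 h.le

/-- the numbers with a large prime factor -/
lemma rough (z Q : ℕ) : ∑ n ∈ (Icc 1 Q).filter (fun n => z < Pp n), GG g 1 n =
    ∑ m ∈ Icc 1 Q, GG g 1 m * ∑ p ∈ (Ioc (max z (Pp m)) (Q / m)).filter Nat.Prime, g p := by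
  have e1 : ∑ n ∈ (Icc 1 Q).filter (fun n => z < Pp n), GG g 1 n =
      ∑ n ∈ (Icc 1 Q).filter (fun n => z < Pp n ∧ Squarefree n), GG g 1 n := by
    rw [← filter_filter, sum_filter (fun n => Squarefree n)]
    apply sum_congr rfl
    intro n _
    split_ifs with h
    · rfl
    · rw [GG1_def, if_neg h]
  have e2 : ∑ m ∈ Icc 1 Q, GG g 1 m * ∑ p ∈ (Ioc (max z (Pp m)) (Q / m)).filter Nat.Prime, g p =
      ∑ m ∈ (Icc 1 Q).filter (fun m => Squarefree m), ∑ p ∈ (Ioc (max z (Pp m)) (Q / m)).filter Nat.Prime, GG g 1 m * g p := by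
    rw [sum_filter]
    apply sum_congr rfl
    intro n _
    split_ifs with h
    · rw [mul_sum]
    · rw [GG1_def, if_neg h, zero_mul]
  rw [e1, e2, sum_sigma']
  refine sum_nbij' (fun n => (⟨n / Pp n, Pp n⟩ : Σ _ : ℕ, ℕ)) (fun x : (Σ _ : ℕ, ℕ) => x.1 * x.2) ?_ ?_ ?_ ?_ ?_
  · intro n hn
    rw [mem_filter, mem_Icc] at hn
    obtain ⟨⟨h1, h2⟩, h3, h4⟩ := hn
    have hP := Pp_pos (n := n) (by omega)
    have hPp := Nat.prime_of_mem_primeFactors hP
    obtain ⟨m, hm⟩ := Nat.dvd_of_mem_primeFactors hP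
    have hm0 : 0 < m := by
      rcases Nat.eq_zero_or_pos m with h | h
      · rw [h, mul_zero] at hm; omega
      · exact h
    have hdiv : n / Pp n = m := by
      nth_rw 1 [hm]
      exact Nat.mul_div_cancel_left m hPp.pos
    have hsm : Squarefree m := by
      rw [hm] at h4
      exact h4.of_mul_right
    have hmn : m ∣ n := Dvd.intro_left _ hm.symm
    have hlt : Pp m < Pp n := by
      rcases Nat.eq_zero_or_pos (Pp m) with h | h
      · rw [h]; exact hPp.pos
      · have h5 := Pp_pos h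
        have h6 : Pp m ∈ n.primeFactors := Nat.primeFactors_mono hmn (by omega) h5
        have h7 := le_Pp h6
        rcases h7.lt_or_eq with h8 | h8
        · exact h8
        · exfalso
          have h9 : Pp n ∣ m := by rw [← h8]; exact Nat.dvd_of_mem_primeFactors h5
          have h10 : Pp n * Pp n ∣ n := by
            nth_rw 3 [hm]
            exact Nat.mul_dvd_mul_left _ h9
          have h11 := h4 (Pp n) h10
          rw [Nat.isUnit_iff] at h11
          exact hPp.one_lt.ne' h11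
    rw [mem_sigma, mem_filter, mem_filter, mem_Icc, mem_Ioc]
    simp only
    rw [hdiv]
    refine ⟨⟨⟨hm0, (Nat.le_of_dvd (by omega) hmn).trans h2⟩, hsm⟩, ⟨by omega, ?_⟩, hPp⟩
    rw [Nat.le_div_iff_mul_le hm0, ← hm]
    exact h2
  · intro x hx
    rw [mem_sigma, mem_filter, mem_filter, mem_Icc, mem_Ioc] at hx
    obtain ⟨⟨⟨h1, h2⟩, h3⟩, ⟨h4, h5⟩, h6⟩ := hx
    have h7 : Pp x.1 < x.2 := by omega
    rw [mem_filter, mem_Icc, Pp_mul h6 h1 h7]
    have hnd : ¬ x.2 ∣ x.1 := by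
      intro hd
      have := le_Pp (Nat.mem_primeFactors.2 ⟨h6, hd, by omega⟩)
      omega
    have hco : x.1.Coprime x.2 := ((Nat.Prime.coprime_iff_not_dvd h6).2 hnd).symm
    refine ⟨⟨Nat.mul_pos h1 h6.pos, ?_⟩, by omega, (Nat.squarefree_mul hco).2 ⟨h3, h6.squarefree⟩⟩
    rw [Nat.le_div_iff_mul_le h1] at h5
    rw [mul_comm]
    exact h5
  · intro n hn
    rw [mem_filter, mem_Icc] at hn
    have hP := Pp_pos (n := n) (by omega)
    exact Nat.div_mul_cancel (Nat.dvd_of_mem_primeFactors hP)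
  · intro x hx
    rw [mem_sigma, mem_filter, mem_filter, mem_Icc, mem_Ioc] at hx
    obtain ⟨⟨⟨h1, h2⟩, h3⟩, ⟨h4, h5⟩, h6⟩ := hx
    obtain ⟨m, p⟩ := x
    simp only at *
    have h7 : Pp m < p := by omega
    rw [Pp_mul h6 h1 h7, Nat.mul_div_cancel m h6.pos]
  · intro n hn
    rw [mem_filter, mem_Icc] at hn
    obtain ⟨⟨h1, h2⟩, h3, h4⟩ := hn
    have hP := Pp_pos (n := n) (by omega)
    have hPp := Nat.prime_of_mem_primeFactors hP
    have hd := Nat.dvd_of_mem_primeFactors hP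
    have hm0 : 0 < n / Pp n := Nat.div_pos (Nat.le_of_dvd (by omega) hd) hPp.pos
    have hlt : Pp (n / Pp n) < Pp n := by
      rcases Nat.eq_zero_or_pos (Pp (n / Pp n)) with h | h
      · rw [h]; exact hPp.pos
      · have h5 := Pp_pos h
        have h6 : Pp (n / Pp n) ∈ n.primeFactors := Nat.primeFactors_mono (Nat.div_dvd_of_dvd hd) (by omega) h5
        have h7 := le_Pp h6
        rcases h7.lt_or_eq with h8 | h8
        · exact h8
        · exfalso
          have h9 : Pp n ∣ n / Pp n := by nth_rw 1 [← h8]; exact Nat.dvd_of_mem_primeFactors h5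
          have h10 : Pp n * Pp n ∣ n := by
            have := Nat.mul_dvd_mul_left (Pp n) h9
            rwa [Nat.mul_div_cancel' hd] at this
          have h11 := h4 (Pp n) h10
          rw [Nat.isUnit_iff] at h11
          exact hPp.one_lt.ne' h11
    simp only
    rw [← GG1_mul g hPp hm0 hlt, Nat.div_mul_cancel hd]

/-- the smooth numbers -/
lemma smooth (P : Finset ℕ) (z Q : ℕ) (hP : ∀ p, p ∈ P ↔ p ≤ z ∧ p.Prime) :
    ∏ p ∈ P, (1 + g p) = ∑ n ∈ (Icc 1 Q).filter (fun n => ¬ z < Pp n), GG g 1 n +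
      ∑ s ∈ P.powerset.filter (fun s => ¬ ∏ p ∈ s, p ≤ Q), ∏ p ∈ s, g p := by
  rw [prod_one_add, ← sum_filter_add_sum_filter_not P.powerset (fun s => ∏ p ∈ s, p ≤ Q)]
  congr 1
  have e1 : ∑ n ∈ (Icc 1 Q).filter (fun n => ¬ z < Pp n), GG g 1 n =
      ∑ n ∈ (Icc 1 Q).filter (fun n => ¬ z < Pp n ∧ Squarefree n), GG g 1 n := by
    rw [← filter_filter, sum_filter (fun n => Squarefree n)]
    apply sum_congr rfl
    intro n _
    split_ifs with h
    · rfl
    · rw [GG1_def, if_neg h]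
  rw [e1]
  have hpf : ∀ s ∈ P.powerset, (∏ p ∈ s, p).primeFactors = s := by
    intro s hs
    rw [mem_powerset] at hs
    exact Nat.primeFactors_prod fun p hp => ((hP p).1 (hs hp)).2
  have hsq : ∀ s ∈ P.powerset, Squarefree (∏ p ∈ s, p) := by
    intro s hs
    rw [mem_powerset] at hs
    apply Finset.squarefree_prod_of_pairwise_isCoprime
    · intro p hp q hq hpq
      rw [Function.onFun, ← Nat.coprime_iff_isRelPrime]
      exact (Nat.coprime_primes ((hP p).1 (hs hp)).2 ((hP q).1 (hs hq)).2).2 hpq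
    · intro p hp
      exact ((hP p).1 (hs hp)).2.squarefree
  refine sum_nbij' (fun s => ∏ p ∈ s, p) (fun n => n.primeFactors) ?_ ?_ ?_ ?_ ?_
  · intro s hs
    rw [mem_filter] at hs
    have h1 := hpf s hs.1
    have h2 := hsq s hs.1
    have hs' := mem_powerset.1 hs.1
    rw [mem_filter, mem_Icc]
    refine ⟨⟨?_, hs.2⟩, ?_, h2⟩
    · exact Nat.pos_of_ne_zero h2.ne_zero
    · intro h3
      have h4 := Pp_pos (n := ∏ p ∈ s, p) (by omega)
      rw [h1] at h4
      have := ((hP _).1 (hs' h4)).1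
      omega
  · intro n hn
    rw [mem_filter, mem_Icc] at hn
    rw [mem_filter, mem_powerset]
    refine ⟨fun p hp => (hP p).2 ⟨(le_Pp hp).trans (by omega), Nat.prime_of_mem_primeFactors hp⟩, ?_⟩
    rw [Nat.prod_primeFactors_of_squarefree hn.2.2]
    exact hn.1.2
  · intro s hs
    rw [mem_filter] at hs
    exact hpf s hs.1
  · intro n hn
    rw [mem_filter] at hn
    exact Nat.prod_primeFactors_of_squarefree hn.2.2
  · intro s hs
    rw [mem_filter] at hs
    rw [GG1_def, if_pos (hsq s hs.1), hpf s hs.1]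

/-- the sum up to `Q` and the product up to `z` -/
theorem GG_prod (P : Finset ℕ) (z Q k : ℕ) (hP : ∀ p, p ∈ P ↔ p ≤ z ∧ p.Prime) (hz : 2 ≤ z) (hk : z ^ k ≤ Q) (η : ℝ)
    (hη : ∀ v w : ℕ, z ≤ v → w ≤ Q → |∑ p ∈ (Ioc v w).filter Nat.Prime, g p| ≤ η) :
    |∑ n ∈ Icc 1 Q, GG g 1 n - ∏ p ∈ P, (1 + g p)| ≤
      η * ∑ m ∈ Icc 1 Q, |GG g 1 m| + (1 / 2 ^ k) * ∏ p ∈ P, (1 + 2 * |g p|) := by
  rw [smooth g P z Q hP, ← sum_filter_add_sum_filter_not (Icc 1 Q) (fun n => z < Pp n) (fun n => GG g 1 n), rough]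
  have e : (∑ m ∈ Icc 1 Q, GG g 1 m * ∑ p ∈ (Ioc (max z (Pp m)) (Q / m)).filter Nat.Prime, g p +
      ∑ n ∈ (Icc 1 Q).filter (fun n => ¬ z < Pp n), GG g 1 n) - (∑ n ∈ (Icc 1 Q).filter (fun n => ¬ z < Pp n), GG g 1 n +
      ∑ s ∈ P.powerset.filter (fun s => ¬ ∏ p ∈ s, p ≤ Q), ∏ p ∈ s, g p) =
      ∑ m ∈ Icc 1 Q, GG g 1 m * ∑ p ∈ (Ioc (max z (Pp m)) (Q / m)).filter Nat.Prime, g p -
      ∑ s ∈ P.powerset.filter (fun s => ¬ ∏ p ∈ s, p ≤ Q), ∏ p ∈ s, g p := by ring
  rw [e]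
  refine (abs_sub _ _).trans (add_le_add ?_ ?_)
  · rw [mul_sum]
    refine (abs_sum_le_sum_abs _ _).trans (sum_le_sum fun m _ => ?_)
    rw [abs_mul, mul_comm]
    exact mul_le_mul_of_nonneg_right (hη _ _ (le_max_left _ _) (Nat.div_le_self _ _)) (abs_nonneg _)
  · refine (abs_sum_le_sum_abs _ _).trans ?_
    have h1 : ∀ s ∈ P.powerset.filter (fun s => ¬ ∏ p ∈ s, p ≤ Q), |∏ p ∈ s, g p| ≤ (1 / 2 ^ k) * ∏ p ∈ s, (2 * |g p|) := by
      intro s hs
      rw [mem_filter, mem_powerset, not_le] at hs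
      have h2 : z ^ k < z ^ s.card := by
        calc z ^ k ≤ Q := hk
          _ < ∏ p ∈ s, p := hs.2
          _ ≤ ∏ _p ∈ s, z := prod_le_prod' fun p hp => ((hP p).1 (hs.1 hp)).1
          _ = z ^ s.card := by rw [prod_const]
      have h3 : k < s.card := (Nat.pow_lt_pow_iff_right (by omega)).1 h2
      rw [prod_mul_distrib, prod_const, abs_prod, ← mul_assoc]
      have h4 : (1 : ℝ) ≤ 1 / 2 ^ k * 2 ^ s.card := by
        rw [one_div, inv_mul_eq_div, one_le_div (by positivity)]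
        exact pow_le_pow_right₀ (by norm_num) h3.le
      exact le_mul_of_one_le_left (prod_nonneg fun _ _ => abs_nonneg _) h4
    refine (sum_le_sum h1).trans ?_
    rw [← mul_sum, prod_one_add]
    apply mul_le_mul_of_nonneg_left _ (by positivity)
    apply sum_le_sum_of_subset_of_nonneg (filter_subset _ _)
    intro s _ _
    exact prod_nonneg fun _ _ => by positivity

end Pool.Agent.K7.H51.PS
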