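import Mathlib
import Pool.Agent.K7.H51.PS.Sc
import Pool.Agent.K7.H51.PS.Gb
import Pool.Agent.R460.SC.Fa

set_option autoImplicit false

/-! The singular series. -/

namespace Pool.Agent.K7.H51.PS

open Finset Filter Topology
open Pool.Agent.W468.ConjF (SJ SJ_add)
open Pool.Agent.H373R2.T7 (Vz pz Vz_pos Vz_inv_small nuB mem_pz)
open Pool.Agent.R460.SB (Sz Sz_prod QS nu_leg)

variable {a b c : ℤ}

lemma r0_nuB (p : ℕ) : r0 a b c p = nuB (QS (-a) (-b) c) p := by
  classical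
  unfold r0 nuB
  have h : ∀ j : ℕ, ((p : ℤ) ∣ uf a b c j) ↔ QS (-a) (-b) c p j := by
    intro j
    unfold QS uf qf
    have e : c - (-a * (j : ℤ) ^ 2 + -b * (j : ℤ)) = c + (a * (j : ℤ) ^ 2 + b * (j : ℤ)) := by ring
    rw [e]
  congr 1
  ext j
  rw [mem_filter, mem_filter, h]

lemma prod_Sz (z : ℕ) : ∏ p ∈ pz z, (1 + gp a b c p) = Sz (-a) (-b) c z := by
  rw [Sz_prod]
  apply prod_congr rfl
  intro p hp
  have hp2 : (2 : ℝ) ≤ p := by exact_mod_cast (mem_pz.1 hp).2.two_le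
  unfold gp
  rw [r0_nuB]
  have h4 : (p : ℝ) - 1 ≠ 0 := by
    have : (0 : ℝ) < p - 1 := by linarith
    exact this.ne'
  have h5 : (p : ℝ) ≠ 0 := by linarith
  field_simp
  ring

lemma gp_jac {p : ℕ} (hp : p.Prime) (h2 : p ≠ 2) (hpa : ¬ (p : ℤ) ∣ a) :
    gp a b c p = -((jacobiSym (b ^ 2 - 4 * a * c) p : ℝ) / p) - (jacobiSym (b ^ 2 - 4 * a * c) p : ℝ) / (p * (p - 1)) := by
  have h1 := nu_leg (-a) (-b) c hp h2 (by rwa [dvd_neg])
  have e : 4 * (-a) * c + (-b) ^ 2 = b ^ 2 - 4 * a * c := by ring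
  rw [e] at h1
  have h3 : (nuB (QS (-a) (-b) c) p : ℝ) = 1 + (jacobiSym (b ^ 2 - 4 * a * c) p : ℝ) := by exact_mod_cast h1
  have hp2 : (2 : ℝ) ≤ p := by exact_mod_cast hp.two_le
  have h4 : (p : ℝ) - 1 ≠ 0 := by
    have : (0 : ℝ) < p - 1 := by linarith
    exact this.ne'
  have h5 : (p : ℝ) ≠ 0 := by linarith
  unfold gp
  rw [r0_nuB, h3]
  field_simp
  ring

lemma tele (v w : ℕ) (hv : 1 ≤ v) : ∑ n ∈ Ioc v w, 1 / ((n : ℝ) * (n - 1)) ≤ 1 / v := by
  have hv0 : (0 : ℝ) < v := by exact_mod_cast hv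
  rcases le_or_gt v w with h | h
  · have key := Pool.Agent.W468.ConjF.sum_inv_mul v w hv h
    have : (0 : ℝ) ≤ 1 / (w : ℝ) := by positivity
    linarith
  · rw [Ioc_eq_empty (by omega), sum_empty]
    positivity

/-- the sums of the local weights over primes -/
lemma gp_sum (ha : 0 < a) {z Q : ℕ} {η : ℝ} (hz : 2 ≤ z) (haz : a ≤ z)
    (hη : ∀ w : ℕ, z ≤ w → w ≤ Q → |SJ (b ^ 2 - 4 * a * c) z w| ≤ η) (v w : ℕ) (hv : z ≤ v) (hw : w ≤ Q) :
    |∑ p ∈ (Ioc v w).filter Nat.Prime, gp a b c p| ≤ 2 * η + 1 / z ∨ w < v := by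
  rcases le_or_gt v w with h | h
  swap
  · exact Or.inr h
  left
  have hz0 : (0 : ℝ) < z := by exact_mod_cast (by omega : 0 < z)
  have hv0 : (0 : ℝ) < v := by exact_mod_cast (by omega : 0 < v)
  have e1 : ∑ p ∈ (Ioc v w).filter Nat.Prime, gp a b c p = -SJ (b ^ 2 - 4 * a * c) v w -
      ∑ p ∈ (Ioc v w).filter Nat.Prime, (jacobiSym (b ^ 2 - 4 * a * c) p : ℝ) / (p * (p - 1)) := by
    unfold SJ
    rw [← sum_neg_distrib, ← sum_sub_distrib]
    apply sum_congr rfl
    intro p hp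
    rw [mem_filter, mem_Ioc] at hp
    apply gp_jac hp.2 (by omega)
    intro hd
    have := Int.le_of_dvd ha hd
    omega
  have e2 := SJ_add (b ^ 2 - 4 * a * c) z v w hv h
  have h1 := hη v hv (h.trans hw)
  have h2 := hη w (hv.trans h) hw
  have h3 : |∑ p ∈ (Ioc v w).filter Nat.Prime, (jacobiSym (b ^ 2 - 4 * a * c) p : ℝ) / (p * (p - 1))| ≤ 1 / z := by
    refine (abs_sum_le_sum_abs _ _).trans ?_
    calc ∑ p ∈ (Ioc v w).filter Nat.Prime, |(jacobiSym (b ^ 2 - 4 * a * c) p : ℝ) / (p * (p - 1))| ≤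
        ∑ p ∈ (Ioc v w).filter Nat.Prime, 1 / ((p : ℝ) * (p - 1)) := by
          apply sum_le_sum
          intro p hp
          rw [mem_filter] at hp
          have hp2 : (2 : ℝ) ≤ p := by exact_mod_cast hp.2.two_le
          have hp1 : (0 : ℝ) < (p : ℝ) * (p - 1) := mul_pos (by linarith) (by linarith)
          rw [abs_div, abs_of_pos hp1]
          exact div_le_div_of_nonneg_right (Pool.Agent.W468.ConjF.js_abs _ _) hp1.le
      _ ≤ ∑ n ∈ Ioc v w, 1 / ((n : ℝ) * (n - 1)) := by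
          apply sum_le_sum_of_subset_of_nonneg (filter_subset _ _)
          intro n hn _
          rw [mem_Ioc] at hn
          have : (1 : ℝ) ≤ n := by exact_mod_cast (by omega : 1 ≤ n)
          have : (0 : ℝ) ≤ (n : ℝ) * (n - 1) := mul_nonneg (by linarith) (by linarith)
          positivity
      _ ≤ 1 / v := tele v w (by omega)
      _ ≤ 1 / z := one_div_le_one_div_of_le hz0 (by exact_mod_cast hv)
  rw [e1]
  refine (abs_sub _ _).trans ?_
  rw [abs_neg]
  have h4 : |SJ (b ^ 2 - 4 * a * c) v w| ≤ 2 * η := by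
    have e3 : SJ (b ^ 2 - 4 * a * c) v w = SJ (b ^ 2 - 4 * a * c) z w - SJ (b ^ 2 - 4 * a * c) z v := by linarith
    rw [e3]
    refine (abs_sub _ _).trans ?_
    linarith
  linarith

/-- the crude bound for the product -/
lemma prod_crude (ha : 0 < a) (z : ℕ) : ∏ p ∈ pz z, (1 + 2 * |gp a b c p|) ≤ 3 ^ a.natAbs * (Vz z)⁻¹ ^ 2 := by
  have h1 : ∀ p ∈ pz z, 1 + 2 * |gp a b c p| ≤ (if (p : ℤ) ∣ a then 3 else 1) * ((1 - 1 / (p : ℝ))⁻¹) ^ 2 := by
    intro p hp
    have hpp := (mem_pz.1 hp).2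
    have hp2 : (2 : ℝ) ≤ p := by exact_mod_cast hpp.two_le
    have h4 : (0 : ℝ) < p - 1 := by linarith
    have h5 : (0 : ℝ) < p := by linarith
    have e : (1 - 1 / (p : ℝ))⁻¹ = 1 + 1 / (p - 1) := by
      field_simp
      ring
    rw [e]
    have h6 : 0 < 1 / ((p : ℝ) - 1) := by positivity
    split_ifs with h
    · have := gp_one (a := a) (b := b) (c := c) hpp
      nlinarith
    · have := gp_small (a := a) (b := b) (c := c) hpp h
      nlinarith
  refine (prod_le_prod (fun _ _ => by positivity) h1).trans ?_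
  rw [prod_mul_distrib, prod_pow]
  have h2 : (Vz z)⁻¹ = ∏ p ∈ pz z, (1 - 1 / (p : ℝ))⁻¹ := by
    unfold Vz
    rw [prod_inv_distrib]
  rw [h2]
  apply mul_le_mul_of_nonneg_right _ (by positivity)
  rw [← prod_filter, prod_const]
  apply pow_le_pow_right₀ (by norm_num)
  have h3 : (pz z).filter (fun p : ℕ => (p : ℤ) ∣ a) ⊆ Icc 1 a.natAbs := by
    intro p hp
    rw [mem_filter, mem_pz] at hp
    rw [mem_Icc]
    exact ⟨hp.1.2.one_le, Nat.le_of_dvd (Int.natAbs_pos.2 ha.ne') (Int.natCast_dvd.1 hp.2)⟩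
  have h4 := card_le_card h3
  rwa [Nat.card_Icc, Nat.add_sub_cancel] at h4

/-- the singular series: the sum up to `Q` and the product up to `z` -/
theorem Sg_main (a b : ℤ) (ha : 0 < a) (A E : ℕ) (ρ : ℝ) (hρ : 0 < ρ) : ∀ᶠ N : ℕ in atTop, ∀ z Q : ℕ,
    Real.log N ^ (A + 5) ≤ z → (z : ℝ) ≤ Real.log N ^ E → (N : ℝ) ^ ρ ≤ Q → Q ≤ N → ∀ c : ℤ,
      (∀ w : ℕ, z ≤ w → w ≤ Q → |SJ (b ^ 2 - 4 * a * c) z w| ≤ 1 / Real.log N ^ (A + 5)) →
      |∑ n ∈ Icc 1 Q, GG (gp a b c) 1 n - Sz (-a) (-b) c z| ≤ 1 / Real.log N ^ A := by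
  obtain ⟨nV, hV⟩ := Vz_inv_small E
  have hcast : Tendsto (fun n : ℕ => (n : ℝ)) atTop atTop := tendsto_natCast_atTop_atTop
  have hlog : Tendsto (fun n : ℕ => Real.log (n : ℝ)) atTop atTop := Real.tendsto_log_atTop.comp hcast
  obtain ⟨ε, hε⟩ : ∃ ε : ℝ, ε = ρ / (2 * ((E : ℝ) + 1) * (A + 4)) := ⟨_, rfl⟩
  have hε0 : 0 < ε := by rw [hε]; positivity
  have hlogO : ∀ᶠ x : ℝ in atTop, Real.log x ^ 2 ≤ ε * x := by
    have h1 := (Real.isLittleO_pow_log_id_atTop (n := 2)).bound hε0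
    filter_upwards [h1, eventually_ge_atTop 1] with x hx hx1
    rw [Real.norm_of_nonneg (by positivity), id, Real.norm_of_nonneg (by linarith)] at hx
    exact hx
  filter_upwards [hlog.eventually_ge_atTop (24 * a + 4 * 3 ^ a.natAbs + 100), hlog.eventually hlogO,
    eventually_ge_atTop (nV + 3)] with N h1 h2 h3 z Q hz1 hz2 hQ1 hQ2 c hSJ
  obtain ⟨L, hL⟩ : ∃ L, L = Real.log (N : ℝ) := ⟨_, rfl⟩
  have hVz := hV N (by omega) z
  rw [← hL] at h1 h2 hz1 hz2 hSJ hVz ⊢
  have har : (1 : ℝ) ≤ a := by exact_mod_cast ha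
  have h3a : (1 : ℝ) ≤ 3 ^ a.natAbs := one_le_pow₀ (by norm_num)
  have hL100 : 100 ≤ L := by linarith
  have hL0 : 0 < L := by linarith
  have hL1 : 1 ≤ L := by linarith
  have hNr : (3 : ℝ) ≤ N := by exact_mod_cast (by omega : 3 ≤ N)
  have hN0 : (0 : ℝ) < N := by linarith
  have hzL : L ≤ z := (le_self_pow₀ hL1 (by omega)).trans hz1
  have hz0 : (0 : ℝ) < z := by linarith
  have hzn : 2 ≤ z := by
    have : (2 : ℝ) ≤ z := by linarith
    exact_mod_cast this
  have haz : a ≤ z := by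
    have : (a : ℝ) ≤ z := by linarith
    exact_mod_cast this
  have hQ0 : (0 : ℝ) < Q := lt_of_lt_of_le (by positivity) hQ1
  have hQn : 1 ≤ Q := by exact_mod_cast hQ0
  have hQL : Real.log Q ≤ L := by
    rw [hL]
    exact Real.log_le_log hQ0 (by exact_mod_cast hQ2)
  have hQL0 : 0 ≤ Real.log Q := Real.log_natCast_nonneg Q
  obtain ⟨k, hk⟩ : ∃ k, k = Nat.log z Q := ⟨_, rfl⟩
  have hkQ : z ^ k ≤ Q := by rw [hk]; exact Nat.pow_log_le_self z (by omega)
  have hkQ' : Q < z ^ (k + 1) := by rw [hk]; exact Nat.lt_pow_succ_log_self (by omega) Q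
  have hA5 : 0 < L ^ (A + 5) := by positivity
  have hη0 : (0 : ℝ) ≤ 2 * (1 / L ^ (A + 5)) + 1 / z := by positivity
  have hmain := GG_prod (gp a b c) (pz z) z Q k (fun p => mem_pz) hzn hkQ (2 * (1 / L ^ (A + 5)) + 1 / z) (by
    intro v w hv hw
    rcases gp_sum ha hzn haz hSJ v w hv hw with h | h
    · exact h
    · rw [Ioc_eq_empty (by omega), filter_empty, sum_empty, abs_zero]
      exact hη0)
  rw [prod_Sz] at hmain
  refine hmain.trans ?_
  have hLA : 0 < L ^ A := by positivity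
  have e0 : 1 / L ^ A = 1 / (2 * L ^ A) + 1 / (2 * L ^ A) := by
    field_simp
    norm_num
  rw [e0]
  apply add_le_add
  · have g1 : 1 / (z : ℝ) ≤ 1 / L ^ (A + 5) := one_div_le_one_div_of_le hA5 hz1
    have g2 := GG_sum (b := b) (c := c) ha.ne' 1 (le_refl Q)
    have g3 : (1 + Real.log Q) ^ 2 ≤ (2 * L) ^ 2 := pow_le_pow_left₀ (by positivity) (by linarith) 2
    have g4 : ∑ m ∈ Icc 1 Q, |GG (gp a b c) 1 m| ≤ a * (2 * L) ^ 2 := by
      refine g2.trans ?_
      rw [abs_of_pos (by linarith : (0 : ℝ) < a)]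
      gcongr
    calc (2 * (1 / L ^ (A + 5)) + 1 / z) * ∑ m ∈ Icc 1 Q, |GG (gp a b c) 1 m| ≤
        (3 * (1 / L ^ (A + 5))) * (a * (2 * L) ^ 2) := by
          apply mul_le_mul _ g4 (sum_nonneg fun _ _ => abs_nonneg _) (by positivity)
          linarith
      _ = (24 * a / L ^ 3) * (1 / (2 * L ^ A)) := by
          rw [pow_add]
          field_simp
          ring
      _ ≤ 1 * (1 / (2 * L ^ A)) := by
          apply mul_le_mul_of_nonneg_right _ (by positivity)
          rw [div_le_one (by positivity)]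
          have : L ≤ L ^ 3 := le_self_pow₀ hL1 (by norm_num)
          linarith
      _ = _ := one_mul _
  · have g1 := prod_crude (b := b) (c := c) ha z
    have g2 := hVz (by omega) hz2
    have g20 : 0 < (Vz z)⁻¹ := inv_pos.2 (Vz_pos z)
    have g3 : ∏ p ∈ pz z, (1 + 2 * |gp a b c p|) ≤ 3 ^ a.natAbs * L ^ 2 := by
      refine g1.trans ?_
      gcongr
    -- the power of two
    have hlogL0 : 0 < Real.log L := Real.log_pos (by linarith)
    have hk1 : ((A : ℝ) + 4) * Real.log L ≤ ((k : ℝ) + 1) * Real.log 2 := by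
      have g4 : (N : ℝ) ^ ρ ≤ (z : ℝ) ^ (k + 1) := by
        refine hQ1.trans ?_
        exact_mod_cast hkQ'.le
      have g5 : ρ * L ≤ ((k : ℝ) + 1) * Real.log z := by
        have := Real.log_le_log (by positivity) g4
        rw [Real.log_rpow hN0, Real.log_pow, ← hL] at this
        push_cast at this
        exact this
      have g6 : Real.log z ≤ ((E : ℝ) + 1) * Real.log L := by
        have := Real.log_le_log hz0 hz2
        rw [Real.log_pow] at this
        linarith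
      have hk0 : (0 : ℝ) ≤ (k : ℝ) + 1 := by positivity
      have g7 : ρ * L ≤ ((k : ℝ) + 1) * (((E : ℝ) + 1) * Real.log L) := g5.trans (mul_le_mul_of_nonneg_left g6 hk0)
      have g8 : (A + 4) * Real.log L ^ 2 * (2 * ((E : ℝ) + 1)) ≤ ρ * L := by
        have g9 : (A + 4) * Real.log L ^ 2 * (2 * ((E : ℝ) + 1)) ≤ (A + 4) * (ε * L) * (2 * ((E : ℝ) + 1)) := by
          gcongr
        refine g9.trans (le_of_eq ?_)
        rw [hε]
        field_simp
      have g10 : (A + 4) * Real.log L * 2 ≤ (k : ℝ) + 1 := by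
        have g11 : ((A + 4) * Real.log L * 2) * (((E : ℝ) + 1) * Real.log L) ≤ ((k : ℝ) + 1) * (((E : ℝ) + 1) * Real.log L) := by
          refine le_trans (le_of_eq ?_) (g8.trans g7)
          ring
        exact le_of_mul_le_mul_right g11 (by positivity)
      have hlog2 : (1 / 2 : ℝ) < Real.log 2 := by
        have := Real.log_two_gt_d9
        linarith
      nlinarith
    have hk2 : L ^ (A + 4) ≤ 2 ^ (k + 1) := by
      have g4 : Real.log (L ^ (A + 4)) ≤ Real.log (2 ^ (k + 1)) := by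
        rw [Real.log_pow, Real.log_pow]
        push_cast
        exact hk1
      exact (Real.log_le_log_iff (by positivity) (by positivity)).1 g4
    calc 1 / 2 ^ k * ∏ p ∈ pz z, (1 + 2 * |gp a b c p|) ≤ (2 / L ^ (A + 4)) * (3 ^ a.natAbs * L ^ 2) := by
          apply mul_le_mul _ g3 (prod_nonneg fun _ _ => by positivity) (by positivity)
          rw [div_le_div_iff₀ (by positivity) (by positivity), one_mul]
          calc L ^ (A + 4) ≤ 2 ^ (k + 1) := hk2
            _ = 2 * 2 ^ k := by ring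
      _ = (4 * 3 ^ a.natAbs / L ^ 2) * (1 / (2 * L ^ A)) := by
          rw [pow_add]
          field_simp
          ring
      _ ≤ 1 * (1 / (2 * L ^ A)) := by
          apply mul_le_mul_of_nonneg_right _ (by positivity)
          rw [div_le_one (by positivity)]
          have : L ≤ L ^ 2 := le_self_pow₀ hL1 (by norm_num)
          linarith
      _ = _ := one_mul _

end Pool.Agent.K7.H51.PS
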