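import Mathlib
import Pool.Agent.K7.H51.PS.As3
import Pool.Agent.K7.H51.PS.Sb
import Pool.Agent.K7.H51.PS.Sd

set_option autoImplicit false

/-! The conclusion. -/

namespace Pool.Agent.K7.H51.PS

open Finset Filter Topology
open Pool.Agent.R460.SB (Sz fv)
open Pool.Agent.R460.SQ (thp)
open Pool.Agent.R460.SC (GoodT)
open Pool.Agent.W468.ConjF (SJ)

lemma fv_log {a b : ℤ} (ha : 1 ≤ a) {g N : ℕ} (h : PP a b g N) (hN : 1 + 4 * kk a b ^ 3 ≤ N) {c : ℕ} (hc : c ≤ N) {m : ℕ}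
    (hm : m ≤ pM a b N) : Real.log ((fv (-a) (-b) c m).natAbs : ℝ) ≤ 3 * Real.log N := by
  have hN0 : (0 : ℝ) < N := by exact_mod_cast h.N1
  have hL0 : 0 < Real.log N := by linarith [h.L1]
  rcases Nat.eq_zero_or_pos (fv (-a) (-b) c m).natAbs with h0 | h0
  · rw [h0, Nat.cast_zero, Real.log_zero]
    positivity
  · have h1 : ((fv (-a) (-b) c m).natAbs : ℝ) ≤ (N : ℝ) ^ 2 := by
      have h2 : |fv (-a) (-b) c m| ≤ c + ((a.natAbs : ℤ) * (pM a b N : ℤ) ^ 2 + b.natAbs * pM a b N) := by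
        rw [fv_qf]
        refine (abs_add_le _ _).trans ?_
        rw [Nat.abs_cast]
        have := qf_abs (a := a) (b := b) hm
        linarith
      have h3 : ((fv (-a) (-b) c m).natAbs : ℝ) ≤ c + ((a.natAbs : ℝ) * (pM a b N : ℝ) ^ 2 + b.natAbs * pM a b N) := by
        have h4 : (((fv (-a) (-b) c m).natAbs : ℤ)) ≤ c + ((a.natAbs : ℤ) * (pM a b N : ℤ) ^ 2 + b.natAbs * pM a b N) := by
          rw [Int.natCast_natAbs]
          exact h2
        exact_mod_cast h4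
      refine h3.trans ?_
      have hkk3 : 3 ≤ kk a b := by unfold kk; omega
      have hkk : (1 : ℝ) ≤ kk a b := by exact_mod_cast (by omega : 1 ≤ kk a b)
      have hx1 := h.x1
      have hM1 : (pM a b N : ℝ) ≤ 2 * kk a b * xx N ^ 32 := h.M
      have hM0 : (1 : ℝ) ≤ pM a b N := by
        have := h.Mb
        exact_mod_cast (by omega : 1 ≤ pM a b N)
      have hM2 : (pM a b N : ℝ) ^ 2 ≤ 4 * kk a b ^ 2 * N := by
        calc (pM a b N : ℝ) ^ 2 ≤ (2 * kk a b * xx N ^ 32) ^ 2 := pow_le_pow_left₀ (by linarith) hM1 2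
          _ = 4 * kk a b ^ 2 * xx N ^ 64 := by ring
          _ = _ := by rw [h.x64]
      have hM3 : (pM a b N : ℝ) ≤ (pM a b N : ℝ) ^ 2 := le_self_pow₀ hM0 (by norm_num)
      have hab : (a.natAbs : ℝ) + b.natAbs ≤ kk a b := by
        unfold kk
        push_cast
        linarith
      have hcN : (c : ℝ) ≤ N := by exact_mod_cast hc
      have hNN : 1 + 4 * (kk a b : ℝ) ^ 3 ≤ N := by exact_mod_cast hN
      calc (c : ℝ) + ((a.natAbs : ℝ) * (pM a b N : ℝ) ^ 2 + b.natAbs * pM a b N) ≤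
          N + ((a.natAbs : ℝ) * (pM a b N : ℝ) ^ 2 + b.natAbs * (pM a b N : ℝ) ^ 2) := by gcongr
        _ = N + ((a.natAbs : ℝ) + b.natAbs) * (pM a b N : ℝ) ^ 2 := by ring
        _ ≤ N + kk a b * (4 * kk a b ^ 2 * N) := by gcongr
        _ = (1 + 4 * kk a b ^ 3) * N := by ring
        _ ≤ N * N := by gcongr
        _ = _ := by ring
    have h5 : (0 : ℝ) < ((fv (-a) (-b) c m).natAbs : ℝ) := by exact_mod_cast h0
    refine (Real.log_le_log h5 h1).trans ?_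
    rw [Real.log_pow]
    push_cast
    linarith

lemma J_G {a b : ℤ} {g N : ℕ} (h : PP a b g N) {m : ℕ} (hm2 : m ^ 2 ≤ N) :
    (qf a b m : ℝ) ≤ (pJ a b g N : ℝ) * pG g N := by
  have h1 : (a.natAbs + b.natAbs) * N ≤ pJ a b g N * pG g N := by
    unfold pJ
    have h2 := Nat.lt_mul_div_succ ((a.natAbs + b.natAbs) * N) (show 0 < pG g N from h.G0)
    rw [mul_comm (pG g N)] at h2
    exact h2.le
  have h3 : qf a b m ≤ (((a.natAbs + b.natAbs) * N : ℕ) : ℤ) := by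
    have h4 : (m : ℤ) ≤ (m : ℤ) ^ 2 := by
      rcases Nat.eq_zero_or_pos m with h0 | h0
      · rw [h0]; norm_num
      · exact le_self_pow₀ (by exact_mod_cast h0) (by norm_num)
    have h5 : (m : ℤ) ^ 2 ≤ N := by exact_mod_cast hm2
    have h0 : (0 : ℤ) ≤ m := Int.natCast_nonneg _
    have h6 := (le_abs_self _).trans (qf_abs (a := a) (b := b) (le_refl m))
    refine h6.trans ?_
    push_cast
    have h7 := abs_nonneg a
    have h8 := abs_nonneg b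
    calc |a| * (m : ℤ) ^ 2 + |b| * (m : ℤ) ≤ |a| * N + |b| * N := by
          have : (m : ℤ) ≤ N := h4.trans h5
          gcongr
      _ = _ := by ring
  have h4 : (qf a b m : ℝ) ≤ (((pJ a b g N * pG g N : ℕ) : ℤ) : ℝ) := by
    exact_mod_cast h3.trans (by exact_mod_cast h1)
  push_cast at h4
  exact h4

/-- the local condition -/
def NoDiv (D : ℤ) (N : ℕ) (K : ℕ) : Prop := ∀ d : ℕ, (d : ℤ) ∣ D → Real.log N ^ K < d → (N : ℝ) ^ (1 / 32 : ℝ) < d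

theorem main (a b : ℤ) (ha : 1 ≤ a) (C K : ℕ) : ∀ᶠ N : ℕ in atTop, ∃ Ex : Finset ℤ, Ex ⊆ Icc (1 : ℤ) N ∧
    (#Ex : ℝ) ≤ (N : ℝ) ^ (39 / 40 : ℝ) ∧ ∀ c ∈ Icc (1 : ℤ) N, c ∉ Ex → NoDiv (b ^ 2 - 4 * a * c) N K → GoodT a b C N c := by
  classical
  obtain ⟨g, hg⟩ : ∃ g, g = 2 * C + 18 := ⟨_, rfl⟩
  obtain ⟨B, hst⟩ := stat a b (by omega) (g + 7)
  obtain ⟨B1, hB1⟩ : ∃ B1, B1 = max B (g + 7) := ⟨_, rfl⟩
  obtain ⟨E, hE⟩ : ∃ E, E = B1 + 1 := ⟨_, rfl⟩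
  have hgi := goodT_final a b ha C E
  have hfx := fixed (b := b) ha g K
  have hSg := Sg_main a b (by omega) (g + 2) E (1 / 64) (by norm_num)
  filter_upwards [PP_ev a b ha g, TA_card (b := b) ha g, hst E, hgi, hfx, hSg, eventually_ge_atTop (1 + 4 * kk a b ^ 3),
    Pool.Agent.Y614.GJ.Core.ev_log 1 (s := 1 / 64) (by norm_num) (10 : ℝ),
    (tendsto_rpow_atTop (show (0 : ℝ) < 1 / 5 by norm_num)).comp (tendsto_natCast_atTop_atTop (R := ℝ)) |>.eventually_ge_atTop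
      (4 * (b ^ 2 + 3) : ℝ)]
    with N h hTA hst' hgi' hfx' hSg' hNk hL hN5
  obtain ⟨hL10, hLx⟩ := hL
  rw [pow_one] at hLx
  simp only [Function.comp] at hN5
  have hN1 : 1 ≤ N := h.N1
  have hN0 : (0 : ℝ) < N := by exact_mod_cast hN1
  have hN1r : (1 : ℝ) ≤ N := by exact_mod_cast hN1
  have hL1 := h.L1
  have hL0 : 0 < Real.log N := by linarith
  have hG0 : (0 : ℝ) < pG g N := by exact_mod_cast h.G0
  obtain ⟨z, hz⟩ : ∃ z, z = ⌈Real.log N ^ B1⌉₊ := ⟨_, rfl⟩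
  have hz1 : Real.log N ^ B1 ≤ z := by
    rw [hz]
    exact Nat.le_ceil _
  have hz2 : (z : ℝ) ≤ Real.log N ^ E := by
    have h1 : (z : ℝ) ≤ Real.log N ^ B1 + 1 := by
      rw [hz]
      exact (Nat.ceil_lt_add_one (by positivity)).le
    have h2 : 1 ≤ Real.log N ^ B1 := one_le_pow₀ hL1
    calc (z : ℝ) ≤ 2 * Real.log N ^ B1 := by linarith
      _ ≤ Real.log N * Real.log N ^ B1 := by
          have : 2 ≤ Real.log N := by linarith
          gcongr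
      _ = Real.log N ^ E := by rw [hE]; ring
  have hzB : Real.log N ^ B ≤ z := (pow_le_pow_right₀ hL1 (by rw [hB1]; exact le_max_left _ _)).trans hz1
  have hzg : Real.log N ^ (g + 7) ≤ z := (pow_le_pow_right₀ hL1 (by rw [hB1]; exact le_max_right _ _)).trans hz1
  have hzC : Real.log N ^ (C + 4) ≤ z := (pow_le_pow_right₀ hL1 (by omega)).trans hzg
  obtain ⟨Es, hEs, hgood⟩ := hst' z hzB hz2
  have hQ32 : (pQ N : ℝ) ≤ (N : ℝ) ^ (1 / 32 : ℝ) := by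
    refine h.Qx.trans (le_of_eq ?_)
    unfold xx
    rw [← Real.rpow_natCast, ← Real.rpow_mul hN0.le]
    norm_num
  refine ⟨(TA a b g N ∪ Es ∪ Icc 1 (b ^ 2 + 2 + (pQ N : ℤ))).filter (fun c => c ∈ Icc (1 : ℤ) N), ?_, ?_, ?_⟩
  · intro c hc
    exact (mem_filter.1 hc).2
  · -- the number of exceptions
    have h1 : #((TA a b g N ∪ Es ∪ Icc 1 (b ^ 2 + 2 + (pQ N : ℤ))).filter (fun c => c ∈ Icc (1 : ℤ) N)) ≤
        #(TA a b g N) + #Es + #(Icc (1 : ℤ) (b ^ 2 + 2 + (pQ N : ℤ))) :=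
      (card_filter_le _ _).trans ((card_union_le _ _).trans (Nat.add_le_add_right (card_union_le _ _) _))
    have h2 : (#(Icc (1 : ℤ) (b ^ 2 + 2 + (pQ N : ℤ))) : ℝ) = b ^ 2 + 2 + pQ N := by
      rw [Int.card_Icc]
      have h3 : (0 : ℤ) ≤ b ^ 2 + 2 + (pQ N : ℤ) + 1 - 1 := by
        have := sq_nonneg b
        have h4 : (0 : ℤ) ≤ (pQ N : ℤ) := Int.natCast_nonneg _
        linarith
      have h5 : (((b ^ 2 + 2 + (pQ N : ℤ) + 1 - 1).toNat : ℤ) : ℝ) = ((b ^ 2 + 2 + (pQ N : ℤ) + 1 - 1 : ℤ) : ℝ) := by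
        rw [Int.toNat_of_nonneg h3]
      rw [Int.cast_natCast] at h5
      rw [h5]
      push_cast
      ring
    have h3 : (#((TA a b g N ∪ Es ∪ Icc 1 (b ^ 2 + 2 + (pQ N : ℤ))).filter (fun c => c ∈ Icc (1 : ℤ) N)) : ℝ) ≤
        #(TA a b g N) + #Es + #(Icc (1 : ℤ) (b ^ 2 + 2 + (pQ N : ℤ))) := by exact_mod_cast h1
    rw [h2] at h3
    refine h3.trans ?_
    obtain ⟨y, hy⟩ : ∃ y : ℝ, y = (N : ℝ) ^ (1 / 5 : ℝ) := ⟨_, rfl⟩
    rw [← hy] at hN5
    have hb2 : (0 : ℝ) ≤ (b : ℝ) ^ 2 := sq_nonneg _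
    have hy1 : 12 ≤ y := by linarith
    have h39 : (N : ℝ) ^ (3 / 4 : ℝ) * y ≤ (N : ℝ) ^ (39 / 40 : ℝ) := by
      rw [hy, ← Real.rpow_add hN0]
      apply Real.rpow_le_rpow_of_exponent_le hN1r
      norm_num
    have h34 : 1 ≤ (N : ℝ) ^ (3 / 4 : ℝ) := Real.one_le_rpow hN1r (by norm_num)
    have h34y : (N : ℝ) ^ (1 / 32 : ℝ) ≤ (N : ℝ) ^ (3 / 4 : ℝ) := Real.rpow_le_rpow_of_exponent_le hN1r (by norm_num)
    have hy39 : 4 * (N : ℝ) ^ (3 / 4 : ℝ) ≤ (N : ℝ) ^ (39 / 40 : ℝ) := by nlinarith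
    have hb39 : 4 * ((b : ℝ) ^ 2 + 3) ≤ (N : ℝ) ^ (39 / 40 : ℝ) := by nlinarith
    linarith
  · intro c hc hcE hdiv
    rw [mem_Icc] at hc
    obtain ⟨n, rfl⟩ : ∃ n : ℕ, c = n := ⟨c.toNat, by omega⟩
    have hnN : n ≤ N := by exact_mod_cast hc.2
    have h1 : (n : ℤ) ∉ TA a b g N ∧ (n : ℤ) ∉ Es ∧ ¬ ((n : ℤ) ≤ b ^ 2 + 2 + (pQ N : ℤ)) := by
      rw [mem_filter, mem_union, mem_union, mem_Icc, mem_Icc] at hcE
      refine ⟨fun h2 => hcE ⟨Or.inl (Or.inl h2), hc⟩, fun h2 => hcE ⟨Or.inl (Or.inr h2), hc⟩,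
        fun h2 => hcE ⟨Or.inr ⟨hc.1, h2⟩, hc⟩⟩
    obtain ⟨hT, hE', hbig⟩ := h1
    push Not at hbig
    have hb0 := sq_nonneg b
    have hQ0 : (0 : ℤ) ≤ (pQ N : ℤ) := Int.natCast_nonneg _
    have hnb : b ^ 2 + 2 ≤ (n : ℤ) := by linarith
    have hnQ : pQ N < n := by
      have : (pQ N : ℤ) < n := by linarith
      exact_mod_cast this
    have hDneg : b ^ 2 - 4 * a * n < 0 := by
      have h8 : 1 * (n : ℤ) ≤ a * n := mul_le_mul_of_nonneg_right ha (by linarith)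
      nlinarith
    have hsq : ¬ IsSquare (b ^ 2 - 4 * a * (n : ℤ)) := by
      rintro ⟨r, hr⟩
      have h7 : 0 ≤ r * r := mul_self_nonneg r
      rw [← hr] at h7
      linarith
    have hg2 := hgood n (by rw [mem_Icc]; constructor <;> linarith) hE' hDneg.ne
    have hSJ : ∀ w : ℕ, z ≤ w → w ≤ pQ N → |SJ (b ^ 2 - 4 * a * (n : ℤ)) z w| ≤ 1 / Real.log N ^ (g + 2 + 5) := by
      intro w hw1 hw2
      exact hg2.1 w hw1 (le_trans (by exact_mod_cast hw2) hQ32)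
    have hxQ : (N : ℝ) ^ (1 / 64 : ℝ) ≤ pQ N := by
      have h2 := h.Qx2
      have h3 : (2 : ℝ) ≤ xx N := by
        have h9 : Real.log N ≤ xx N := hLx
        linarith
      have h4 : 2 * xx N ≤ xx N ^ 2 := by nlinarith
      have h5 : (N : ℝ) ^ (1 / 64 : ℝ) = xx N := rfl
      rw [h5]
      linarith
    have hS := hSg' z (pQ N) hzg hz2 hxQ h.QN n hSJ
    have hgcd : ∀ f ∈ Icc 2 (pQ N), (Int.gcd (b ^ 2 - 4 * a * n) f : ℝ) ≤ Real.log N ^ K := by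
      intro f hf
      rw [mem_Icc] at hf
      by_contra hcon
      push Not at hcon
      have h2 := hdiv (Int.gcd (b ^ 2 - 4 * a * n) f) (Int.gcd_dvd_left _ _) hcon
      have h3 : Int.gcd (b ^ 2 - 4 * a * n) f ≤ f := by
        have h4 := Int.gcd_dvd_right (b ^ 2 - 4 * a * (n : ℤ)) (f : ℤ)
        exact Nat.le_of_dvd (by omega) (by exact_mod_cast h4)
      have h5 : ((Int.gcd (b ^ 2 - 4 * a * n) f : ℕ) : ℝ) ≤ pQ N := by exact_mod_cast h3.trans hf.2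
      linarith
    have hfx2 := hfx' n hnN hnQ hgcd (Sz (-a) (-b) n z) hS
    have hjT : ∀ j ≤ pJ a b g N, ‖TSj a b g N j n‖ ≤ N / Real.log N ^ (g + 1) := by
      intro j hj
      by_contra hcon
      push Not at hcon
      apply hT
      unfold TA
      rw [mem_biUnion]
      refine ⟨j, by rw [mem_range]; omega, ?_⟩
      unfold TE
      rw [mem_filter, mem_Icc]
      exact ⟨hc, hcon⟩
    have hLC : ∀ᶠ M in atTop, |SJ (b ^ 2 - 4 * a * (n : ℤ)) z M| ≤ 1 / Real.log N ^ (C + 4) := by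
      filter_upwards [hg2.2 hsq] with M hM
      refine hM.trans ?_
      apply one_div_le_one_div_of_le (by positivity)
      exact pow_le_pow_right₀ hL1 (by omega)
    have hGx := h.Gx
    rw [hg] at hGx hfx2 hjT hG0
    exact hgi' z hzC hz2 n (pG (2 * C + 18) N) (pM a b N) (pJ a b (2 * C + 18) N) hnb hG0 hGx
      (by
        have h2 : Nat.sqrt N + 1 ≤ pM a b N := by
          unfold pM
          calc Nat.sqrt N + 1 = 1 * (Nat.sqrt N + 1) := by ring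
            _ ≤ _ := Nat.mul_le_mul_right _ (by unfold kk; omega)
        omega)
      (fun m _ hm2 => J_G (by rw [← hg]; exact h) hm2) (fun m hm => fv_log ha h hNk hnN hm) (fun j hj => hfx2 j hj (hjT j hj)) hLC

end Pool.Agent.K7.H51.PS
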