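import Mathlib
import Pool.Agent.K7.H51.PS.MV

set_option autoImplicit false

/-! The maximal large sieve. -/

namespace Pool.Agent.K7.H51.PS

open Finset
open Pool.Agent.Helper112 (mult_large_sieve)
open Pool.Agent.Helper112.BLB (A)

/-- dyadic blocks -/
def blk (j a : ℕ) : Finset ℕ := Ioc (a * 2 ^ j) ((a + 1) * 2 ^ j)

/-- the sum over all the dyadic blocks -/
noncomputable def RM (k : ℕ) (b : ℕ → ℂ) : ℝ :=
  ∑ j ∈ range k, ∑ a ∈ range (2 ^ (k - j)), ‖∑ n ∈ blk j a, b n‖ ^ 2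

lemma RM_nonneg (k : ℕ) (b : ℕ → ℂ) : 0 ≤ RM k b :=
  sum_nonneg fun _ _ => sum_nonneg fun _ _ => sq_nonneg _

lemma Icc_Ioc (w : ℕ) : Icc 1 w = Ioc 0 w := by
  ext n
  rw [mem_Icc, mem_Ioc]
  omega

lemma rm_le (k : ℕ) (b : ℕ → ℂ) {y : ℕ} (hy : y < 2 ^ k) : ‖∑ n ∈ Icc 1 y, b n‖ ^ 2 ≤ k * RM k b := by
  obtain ⟨Y, hY⟩ : ∃ Y : ℕ → ℕ, Y = fun j => (y / 2 ^ j) * 2 ^ j := ⟨_, rfl⟩
  have h0 : Y 0 = y := by rw [hY]; simp
  have hk : Y k = 0 := by rw [hY]; simp [Nat.div_eq_of_lt hy]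
  rw [Icc_Ioc]
  have htel : ∑ n ∈ Ioc 0 y, b n = ∑ j ∈ range k, (∑ n ∈ Ioc 0 (Y j), b n - ∑ n ∈ Ioc 0 (Y (j + 1)), b n) := by
    rw [Finset.sum_range_sub' (fun j => ∑ n ∈ Ioc 0 (Y j), b n), h0, hk]
    simp
  have hd : ∀ j ∈ range k, ‖∑ n ∈ Ioc 0 (Y j), b n - ∑ n ∈ Ioc 0 (Y (j + 1)), b n‖ ^ 2 ≤
      ∑ a ∈ range (2 ^ (k - j)), ‖∑ n ∈ blk j a, b n‖ ^ 2 := by
    intro j hj
    rw [mem_range] at hj
    obtain ⟨q, hq⟩ : ∃ q, q = y / 2 ^ (j + 1) := ⟨_, rfl⟩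
    have h1 : y / 2 ^ j / 2 = q := by rw [Nat.div_div_eq_div_mul, ← pow_succ, hq]
    have h2 : y / 2 ^ j = 2 * q ∨ y / 2 ^ j = 2 * q + 1 := by omega
    have hYj1 : Y (j + 1) = (2 * q) * 2 ^ j := by
      rw [hY]
      simp only
      rw [← hq, pow_succ]
      ring
    have hlt : y / 2 ^ j < 2 ^ (k - j) := by
      rw [Nat.div_lt_iff_lt_mul (by positivity), ← pow_add, Nat.sub_add_cancel hj.le]
      exact hy
    rcases h2 with h2 | h2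
    · have h3 : Y j = Y (j + 1) := by
        rw [hYj1, hY]
        simp only
        rw [h2]
      rw [h3, sub_self, norm_zero, zero_pow two_ne_zero]
      exact sum_nonneg fun _ _ => sq_nonneg _
    · have h3 : Y j = (2 * q + 1) * 2 ^ j := by
        rw [hY]
        simp only
        rw [h2]
      have h4 : ∑ n ∈ Ioc 0 (Y j), b n - ∑ n ∈ Ioc 0 (Y (j + 1)), b n = ∑ n ∈ blk j (2 * q), b n := by
        unfold blk
        rw [h3, hYj1, sub_eq_iff_eq_add']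
        exact (sum_Ioc_consecutive b (Nat.zero_le _) (Nat.mul_le_mul_right _ (by omega))).symm
      rw [h4]
      exact single_le_sum (f := fun a => ‖∑ n ∈ blk j a, b n‖ ^ 2) (fun a _ => sq_nonneg _) (by rw [mem_range]; omega)
  rw [htel]
  have h5 : ‖∑ j ∈ range k, (∑ n ∈ Ioc 0 (Y j), b n - ∑ n ∈ Ioc 0 (Y (j + 1)), b n)‖ ≤
      ∑ j ∈ range k, ‖∑ n ∈ Ioc 0 (Y j), b n - ∑ n ∈ Ioc 0 (Y (j + 1)), b n‖ := norm_sum_le _ _
  refine (pow_le_pow_left₀ (norm_nonneg _) h5 2).trans ?_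
  refine (sq_sum_le_card_mul_sum_sq (s := range k)).trans ?_
  rw [card_range]
  exact mul_le_mul_of_nonneg_left (sum_le_sum hd) (Nat.cast_nonneg _)

lemma blk_sum (k j : ℕ) (hj : j ≤ k) (g : ℕ → ℝ) :
    ∑ a ∈ range (2 ^ (k - j)), ∑ n ∈ blk j a, g n = ∑ n ∈ Icc 1 (2 ^ k), g n := by
  have h : ∀ m : ℕ, ∑ a ∈ range m, ∑ n ∈ blk j a, g n = ∑ n ∈ Ioc 0 (m * 2 ^ j), g n := by
    intro m
    induction m with
    | zero => simp
    | succ m ih =>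
      rw [sum_range_succ, ih]
      unfold blk
      exact sum_Ioc_consecutive g (Nat.zero_le _) (Nat.mul_le_mul_right _ (by omega))
  rw [h, ← pow_add, Nat.sub_add_cancel hj, Icc_Ioc]

lemma blk_sub {k j a : ℕ} (hj : j ≤ k) (ha : a < 2 ^ (k - j)) : blk j a ⊆ Icc 1 (2 ^ k) := by
  intro n hn
  unfold blk at hn
  rw [mem_Ioc] at hn
  rw [mem_Icc]
  refine ⟨by omega, hn.2.trans ?_⟩
  calc (a + 1) * 2 ^ j ≤ 2 ^ (k - j) * 2 ^ j := Nat.mul_le_mul_right _ ha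
    _ = 2 ^ k := by rw [← pow_add, Nat.sub_add_cancel hj]

/-- the maximal function of one factor -/
noncomputable def MB (k : ℕ) (β : ℕ → ℝ) (f : ℕ) (χ : DirichletCharacter ℂ f) : ℝ :=
  Real.sqrt (k * RM k (fun n => (β n : ℂ) * χ (n : ZMod f)))

lemma MB_nonneg (k : ℕ) (β : ℕ → ℝ) (f : ℕ) (χ : DirichletCharacter ℂ f) : 0 ≤ MB k β f χ := Real.sqrt_nonneg _

lemma A_le_MB {k y : ℕ} (hy : y < 2 ^ k) (β : ℕ → ℝ) (f : ℕ) (χ : DirichletCharacter ℂ f) : ‖A y β f χ‖ ≤ MB k β f χ := by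
  unfold MB
  apply Real.le_sqrt_of_sq_le
  exact rm_le k _ hy

/-- the maximal large sieve -/
lemma MB_sieve (k F : ℕ) (β : ℕ → ℝ) :
    ∑ f ∈ Icc 1 F, ((f : ℝ) / (Nat.totient f : ℝ)) *
      ∑ χ ∈ (Pool.Agent.H398R2.BV.Prim f), MB k β f χ ^ 2 ≤
      6 * k ^ 2 * ((2 : ℝ) ^ k + (F : ℝ) ^ 2) * ∑ n ∈ Icc 1 (2 ^ k), β n ^ 2 := by
  classical
  have h1 : ∀ (f : ℕ) (χ : DirichletCharacter ℂ f), MB k β f χ ^ 2 = k * RM k (fun n => (β n : ℂ) * χ (n : ZMod f)) := by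
    intro f χ
    unfold MB
    rw [Real.sq_sqrt (mul_nonneg (Nat.cast_nonneg _) (RM_nonneg _ _))]
  have h2 : ∑ f ∈ Icc 1 F, ((f : ℝ) / (Nat.totient f : ℝ)) *
      ∑ χ ∈ (Pool.Agent.H398R2.BV.Prim f), MB k β f χ ^ 2 =
      k * ∑ j ∈ range k, ∑ a ∈ range (2 ^ (k - j)), ∑ f ∈ Icc 1 F, ((f : ℝ) / (Nat.totient f : ℝ)) *
        ∑ χ ∈ (Pool.Agent.H398R2.BV.Prim f), ‖∑ n ∈ blk j a, (β n : ℂ) * χ (n : ZMod f)‖ ^ 2 := by
    simp only [h1, RM]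
    have e : ∀ f : ℕ, ((f : ℝ) / (Nat.totient f : ℝ)) * ∑ χ ∈ (Pool.Agent.H398R2.BV.Prim f), (k : ℝ) * ∑ j ∈ range k,
        ∑ a ∈ range (2 ^ (k - j)), ‖∑ n ∈ blk j a, (β n : ℂ) * χ (n : ZMod f)‖ ^ 2 =
        ∑ j ∈ range k, ∑ a ∈ range (2 ^ (k - j)), (k : ℝ) * (((f : ℝ) / (Nat.totient f : ℝ)) *
        ∑ χ ∈ (Pool.Agent.H398R2.BV.Prim f), ‖∑ n ∈ blk j a, (β n : ℂ) * χ (n : ZMod f)‖ ^ 2) := by
      intro f
      simp only [mul_sum]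
      rw [sum_comm]
      apply sum_congr rfl
      intro j _
      rw [sum_comm]
      apply sum_congr rfl
      intro a _
      apply sum_congr rfl
      intro χ _
      ring
    rw [sum_congr rfl fun f _ => e f, sum_comm, mul_sum]
    apply sum_congr rfl
    intro j _
    rw [sum_comm, mul_sum]
    apply sum_congr rfl
    intro a _
    rw [mul_sum]
  rw [h2]
  have h3 : ∀ j ∈ range k, ∀ a ∈ range (2 ^ (k - j)), ∑ f ∈ Icc 1 F, ((f : ℝ) / (Nat.totient f : ℝ)) *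
        ∑ χ ∈ (Pool.Agent.H398R2.BV.Prim f), ‖∑ n ∈ blk j a, (β n : ℂ) * χ (n : ZMod f)‖ ^ 2 ≤
        6 * ((2 : ℝ) ^ k + (F : ℝ) ^ 2) * ∑ n ∈ blk j a, β n ^ 2 := by
    intro j hj a ha
    rw [mem_range] at hj ha
    have hs := blk_sub hj.le ha
    have h4 := mult_large_sieve (2 ^ k) F (fun n => if n ∈ blk j a then (β n : ℂ) else 0)
    have e1 : ∀ (f : ℕ) (χ : DirichletCharacter ℂ f), ∑ n ∈ Icc 1 (2 ^ k), (if n ∈ blk j a then (β n : ℂ) else 0) * χ (n : ZMod f) =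
        ∑ n ∈ blk j a, (β n : ℂ) * χ (n : ZMod f) := by
      intro f χ
      simp only [ite_mul, zero_mul]
      rw [← sum_filter]
      congr 1
      rw [filter_mem_eq_inter, inter_eq_right.2 hs]
    have e2 : ∑ n ∈ Icc 1 (2 ^ k), ‖(if n ∈ blk j a then (β n : ℂ) else 0)‖ ^ 2 = ∑ n ∈ blk j a, β n ^ 2 := by
      have e3 : ∀ n, ‖(if n ∈ blk j a then (β n : ℂ) else 0)‖ ^ 2 = if n ∈ blk j a then β n ^ 2 else 0 := by
        intro n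
        split_ifs
        · rw [Complex.norm_real, Real.norm_eq_abs, sq_abs]
        · simp
      simp only [e3]
      rw [← sum_filter]
      congr 1
      rw [filter_mem_eq_inter, inter_eq_right.2 hs]
    rw [e2] at h4
    simp only [e1] at h4
    push_cast at h4
    unfold Pool.Agent.H398R2.BV.Prim
    exact h4
  calc (k : ℝ) * ∑ j ∈ range k, ∑ a ∈ range (2 ^ (k - j)), ∑ f ∈ Icc 1 F, ((f : ℝ) / (Nat.totient f : ℝ)) *
        ∑ χ ∈ (Pool.Agent.H398R2.BV.Prim f), ‖∑ n ∈ blk j a, (β n : ℂ) * χ (n : ZMod f)‖ ^ 2 ≤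
      (k : ℝ) * ∑ j ∈ range k, ∑ a ∈ range (2 ^ (k - j)), 6 * ((2 : ℝ) ^ k + (F : ℝ) ^ 2) * ∑ n ∈ blk j a, β n ^ 2 := by
        apply mul_le_mul_of_nonneg_left _ (Nat.cast_nonneg _)
        exact sum_le_sum fun j hj => sum_le_sum fun a ha => h3 j hj a ha
    _ = (k : ℝ) * ∑ j ∈ range k, 6 * ((2 : ℝ) ^ k + (F : ℝ) ^ 2) * ∑ n ∈ Icc 1 (2 ^ k), β n ^ 2 := by
        congr 1
        apply sum_congr rfl
        intro j hj
        rw [mem_range] at hj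
        rw [← mul_sum, blk_sum k j hj.le]
    _ = _ := by
        rw [sum_const, card_range, nsmul_eq_mul]
        ring

end Pool.Agent.K7.H51.PS
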