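import Mathlib
import Pool.Agent.K7.H51.PS.Mx

set_option autoImplicit false

/-! The maximal bilinear bound. -/

namespace Pool.Agent.K7.H51.PS

open Finset MeasureTheory
open Pool.Agent.H398R2.BV
open Pool.Agent.Helper112 Pool.Agent.Helper112.TI Pool.Agent.Helper112.TII
open Pool.Agent.Helper112.BLB (A)

lemma TL_max {X x : ℝ} (hx1 : 1 ≤ x) (hxX : x ≤ X) {n0 : ℕ} (hn0 : X < 2 ^ n0) (f : ℕ) (ψ : DirichletCharacter ℂ f) (α β : ℕ → ℝ) :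
    ‖TL x f ψ (fun n => ∑ i ∈ n.divisorsAntidiagonal, α i.1 * β i.2)‖ ≤
      ∑ i ∈ range n0, MB (i + 1) α f ψ * MB (n0 - i) β f ψ := by
  obtain ⟨c, hc⟩ : ∃ c : ℕ → ℝ, c = fun i => MB (i + 1) α f ψ * MB (n0 - i) β f ψ := ⟨_, rfl⟩
  have hc0 : ∀ i, 0 ≤ c i := by
    intro i
    rw [hc]
    exact mul_nonneg (MB_nonneg _ _ _ _) (MB_nonneg _ _ _ _)
  have hint0 : IntegrableOn (fun t : ℝ => t⁻¹) (Set.Icc 1 x) := by
    apply ContinuousOn.integrableOn_Icc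
    apply ContinuousOn.inv₀ continuousOn_id
    intro y hy
    have := hy.1
    simp only [id]
    linarith
  have hint : ∀ i, IntegrableOn (fun t : ℝ => Set.indicator (Set.Ico ((2 : ℝ) ^ i) (2 ^ (i + 1))) (fun t => c i * t⁻¹) t)
      (Set.Icc 1 x) := fun i => (hint0.const_mul (c i)).indicator measurableSet_Ico
  have hle : ∀ t ∈ Set.Icc 1 x, ‖A ⌊t⌋₊ α f ψ‖ * ‖A ⌊x / t⌋₊ β f ψ‖ * t⁻¹ ≤
      ∑ i ∈ range n0, Set.indicator (Set.Ico ((2 : ℝ) ^ i) (2 ^ (i + 1))) (fun t => c i * t⁻¹) t := by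
    intro t ht
    have ht0 : 0 < t := by linarith [ht.1]
    have hft : 1 ≤ ⌊t⌋₊ := Nat.le_floor (by exact_mod_cast ht.1)
    obtain ⟨i, hi⟩ : ∃ i, i = Nat.log 2 ⌊t⌋₊ := ⟨_, rfl⟩
    have h1 : 2 ^ i ≤ ⌊t⌋₊ := by rw [hi]; exact Nat.pow_log_le_self 2 (by omega)
    have h2 : ⌊t⌋₊ < 2 ^ (i + 1) := by rw [hi]; exact Nat.lt_pow_succ_log_self (by norm_num) _
    have h3 : (2 : ℝ) ^ i ≤ t := by
      have : ((2 ^ i : ℕ) : ℝ) ≤ t := (Nat.cast_le.2 h1).trans (Nat.floor_le ht0.le)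
      push_cast at this
      exact this
    have h4 : t < (2 : ℝ) ^ (i + 1) := by
      have h5 := (Nat.floor_lt ht0.le).1 h2
      push_cast at h5
      exact h5
    have hi0 : i < n0 := by
      by_contra hcon
      push Not at hcon
      have h5 : (2 : ℝ) ^ n0 ≤ 2 ^ i := pow_le_pow_right₀ (by norm_num) hcon
      linarith [ht.2]
    have h5 : ⌊x / t⌋₊ < 2 ^ (n0 - i) := by
      rw [Nat.floor_lt (by positivity)]
      push_cast
      rw [div_lt_iff₀ ht0]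
      calc x ≤ X := hxX
        _ < 2 ^ n0 := hn0
        _ = 2 ^ (n0 - i) * 2 ^ i := by rw [← pow_add, Nat.sub_add_cancel hi0.le]
        _ ≤ 2 ^ (n0 - i) * t := by gcongr
    have h6 := A_le_MB h2 α f ψ
    have h7 := A_le_MB h5 β f ψ
    have h8 : ‖A ⌊t⌋₊ α f ψ‖ * ‖A ⌊x / t⌋₊ β f ψ‖ * t⁻¹ ≤ c i * t⁻¹ := by
      rw [hc]
      apply mul_le_mul_of_nonneg_right _ (by positivity)
      exact mul_le_mul h6 h7 (norm_nonneg _) (MB_nonneg _ _ _ _)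
    refine h8.trans ?_
    have h9 : c i * t⁻¹ = Set.indicator (Set.Ico ((2 : ℝ) ^ i) (2 ^ (i + 1))) (fun t => c i * t⁻¹) t := by
      rw [Set.indicator_of_mem (Set.mem_Ico.2 ⟨h3, h4⟩)]
    rw [h9]
    apply single_le_sum (f := fun i => Set.indicator (Set.Ico ((2 : ℝ) ^ i) (2 ^ (i + 1))) (fun t => c i * t⁻¹) t)
    · intro j _
      apply Set.indicator_nonneg
      intro y hy
      have : 0 < y := lt_of_lt_of_le (by positivity) hy.1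
      exact mul_nonneg (hc0 j) (by positivity)
    · rw [mem_range]
      exact hi0
  refine (TL_le x hx1 f ψ α β).trans ?_
  refine (setIntegral_mono_on (prod_integrable x f ψ α β) (integrable_finset_sum _ fun i _ => hint i) measurableSet_Icc hle).trans ?_
  rw [integral_finset_sum _ fun i _ => hint i]
  have hcc : ∀ i ∈ range n0, ∫ t in Set.Icc 1 x, Set.indicator (Set.Ico ((2 : ℝ) ^ i) (2 ^ (i + 1))) (fun t => c i * t⁻¹) t ≤ c i := by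
    intro i _
    rw [setIntegral_indicator measurableSet_Ico, integral_const_mul]
    have h1 : ∫ t in Set.Icc 1 x ∩ Set.Ico ((2 : ℝ) ^ i) (2 ^ (i + 1)), t⁻¹ ≤ 1 := by
      have h2 : IntegrableOn (fun t : ℝ => t⁻¹) (Set.Icc ((2 : ℝ) ^ i) (2 ^ (i + 1))) := by
        apply ContinuousOn.integrableOn_Icc
        apply ContinuousOn.inv₀ continuousOn_id
        intro y hy
        have h3 : 0 < y := lt_of_lt_of_le (by positivity) hy.1
        exact h3.ne'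
      have h4 : ∫ t in Set.Icc 1 x ∩ Set.Ico ((2 : ℝ) ^ i) (2 ^ (i + 1)), t⁻¹ ≤ ∫ t in Set.Icc ((2 : ℝ) ^ i) (2 ^ (i + 1)), t⁻¹ := by
        apply setIntegral_mono_set h2
        · filter_upwards [ae_restrict_mem measurableSet_Icc] with y hy
          have h3 : 0 < y := lt_of_lt_of_le (by positivity) hy.1
          simp only [Pi.zero_apply]
          positivity
        · apply Filter.Eventually.of_forall
          intro y hy
          exact ⟨hy.2.1, hy.2.2.le⟩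
      refine h4.trans ?_
      have h5 : (2 : ℝ) ^ i ≤ 2 ^ (i + 1) := pow_le_pow_right₀ (by norm_num) (by omega)
      rw [integral_Icc_eq_integral_Ioc, ← intervalIntegral.integral_of_le h5, integral_inv_of_pos (by positivity) (by positivity)]
      have h6 : (2 : ℝ) ^ (i + 1) / 2 ^ i = 2 := by
        rw [pow_succ]
        field_simp
      rw [h6]
      linarith [Real.log_two_lt_d9]
    calc c i * ∫ t in Set.Icc 1 x ∩ Set.Ico ((2 : ℝ) ^ i) (2 ^ (i + 1)), t⁻¹ ≤ c i * 1 := mul_le_mul_of_nonneg_left h1 (hc0 i)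
      _ = c i := mul_one _
  refine (sum_le_sum hcc).trans (le_of_eq ?_)
  rw [hc]

lemma MB_zero {k : ℕ} {β : ℕ → ℝ} (h : ∀ n ∈ Icc 1 (2 ^ k), β n = 0) (f : ℕ) (χ : DirichletCharacter ℂ f) : MB k β f χ = 0 := by
  unfold MB
  have h1 : RM k (fun n => (β n : ℂ) * χ (n : ZMod f)) = 0 := by
    unfold RM
    apply sum_eq_zero
    intro j hj
    apply sum_eq_zero
    intro a ha
    rw [mem_range] at hj ha
    have h2 : ∑ n ∈ blk j a, (β n : ℂ) * χ (n : ZMod f) = 0 := by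
      apply sum_eq_zero
      intro n hn
      rw [h n (blk_sub hj.le ha hn)]
      simp
    rw [h2]
    simp
  rw [h1, mul_zero, Real.sqrt_zero]

lemma cs_sum (F : ℕ) (u v : (f : ℕ) → DirichletCharacter ℂ f → ℝ) :
    ∑ f ∈ Icc 1 F, ((f : ℝ) / (Nat.totient f : ℝ)) * ∑ χ ∈ Prim f, u f χ * v f χ ≤
      Real.sqrt (∑ f ∈ Icc 1 F, ((f : ℝ) / (Nat.totient f : ℝ)) * ∑ χ ∈ Prim f, u f χ ^ 2) *
      Real.sqrt (∑ f ∈ Icc 1 F, ((f : ℝ) / (Nat.totient f : ℝ)) * ∑ χ ∈ Prim f, v f χ ^ 2) := by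
  have e : ∀ (u v : (f : ℕ) → DirichletCharacter ℂ f → ℝ), ∑ f ∈ Icc 1 F, ((f : ℝ) / (Nat.totient f : ℝ)) * ∑ χ ∈ Prim f, u f χ * v f χ =
      ∑ p ∈ (Icc 1 F).sigma (fun f => Prim f), (Real.sqrt ((p.1 : ℝ) / (Nat.totient p.1 : ℝ)) * u p.1 p.2) *
        (Real.sqrt ((p.1 : ℝ) / (Nat.totient p.1 : ℝ)) * v p.1 p.2) := by
    intro u v
    rw [sum_sigma]
    apply sum_congr rfl
    intro f _
    rw [mul_sum]
    apply sum_congr rfl
    intro χ _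
    have : ((f : ℝ) / (Nat.totient f : ℝ)) = Real.sqrt ((f : ℝ) / (Nat.totient f : ℝ)) *
      Real.sqrt ((f : ℝ) / (Nat.totient f : ℝ)) := (Real.mul_self_sqrt (by positivity)).symm
    conv_lhs => rw [this]
    ring
  have e2 : ∀ (u : (f : ℕ) → DirichletCharacter ℂ f → ℝ), ∑ f ∈ Icc 1 F, ((f : ℝ) / (Nat.totient f : ℝ)) * ∑ χ ∈ Prim f, u f χ ^ 2 =
      ∑ p ∈ (Icc 1 F).sigma (fun f => Prim f), (Real.sqrt ((p.1 : ℝ) / (Nat.totient p.1 : ℝ)) * u p.1 p.2) ^ 2 := by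
    intro u
    have h1 : ∀ (f : ℕ) (χ : DirichletCharacter ℂ f), u f χ ^ 2 = u f χ * u f χ := fun f χ => sq _
    simp only [h1]
    rw [e u u]
    apply sum_congr rfl
    intro p _
    rw [sq]
  rw [e u v, e2 u, e2 v]
  exact Real.sum_mul_le_sqrt_mul_sqrt _ _ _

/-- one pair of dyadic ranges -/
lemma pair_bound {p q n0 U V F : ℕ} (hpq : p + q = n0 + 1) (hp : 1 ≤ p) (hq : 1 ≤ q) (hU : 1 ≤ U) (hV : 1 ≤ V) :
    ∑ f ∈ Icc 1 F, ((f : ℝ) / (Nat.totient f : ℝ)) * ∑ χ ∈ Prim f, MB p (betaV V) f χ * MB q (L2 U) f χ ≤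
      6 * (1 + (n0 : ℝ)) ^ 5 * (Real.sqrt (2 ^ (n0 + 1)) * (Real.sqrt (2 ^ (n0 + 1)) +
        F * (Real.sqrt (2 ^ (n0 + 1) / U) + Real.sqrt (2 ^ (n0 + 1) / V)) + (F : ℝ) ^ 2)) := by
  have hR0 : 0 ≤ 6 * (1 + (n0 : ℝ)) ^ 5 * (Real.sqrt (2 ^ (n0 + 1)) * (Real.sqrt (2 ^ (n0 + 1)) +
        F * (Real.sqrt (2 ^ (n0 + 1) / U) + Real.sqrt (2 ^ (n0 + 1) / V)) + (F : ℝ) ^ 2)) := by positivity
  have hU0 : (0 : ℝ) < U := by exact_mod_cast hU
  have hV0 : (0 : ℝ) < V := by exact_mod_cast hV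
  -- trivial cases
  rcases Nat.lt_or_ge V (2 ^ p) with hVp | hVp
  swap
  · have h1 : ∀ (f : ℕ) (χ : DirichletCharacter ℂ f), MB p (betaV V) f χ = 0 := fun f χ => MB_zero (by
      intro n hn
      rw [mem_Icc] at hn
      exact betaV_zero V n (hn.2.trans hVp)) f χ
    simp only [h1, zero_mul, sum_const_zero, mul_zero]
    exact hR0
  rcases Nat.lt_or_ge U (2 ^ q) with hUq | hUq
  swap
  · have h1 : ∀ (f : ℕ) (χ : DirichletCharacter ℂ f), MB q (L2 U) f χ = 0 := fun f χ => MB_zero (by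
      intro n hn
      rw [mem_Icc] at hn
      unfold L2
      rw [if_neg (by omega)]) f χ
    simp only [h1, mul_zero, sum_const_zero]
    exact hR0
  refine (cs_sum F (MB p (betaV V)) (MB q (L2 U))).trans ?_
  have hA := MB_sieve p F (betaV V)
  have hB := MB_sieve q F (L2 U)
  have hpn : (p : ℝ) ≤ n0 := by exact_mod_cast (by omega : p ≤ n0)
  have hqn : (q : ℝ) ≤ n0 := by exact_mod_cast (by omega : q ≤ n0)
  have hlog : ∀ k : ℕ, Real.log ((2 ^ k : ℕ) : ℝ) ≤ k := by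
    intro k
    push_cast
    rw [Real.log_pow]
    have h1 : Real.log 2 ≤ 1 := by linarith [Real.log_two_lt_d9]
    calc (k : ℝ) * Real.log 2 ≤ k * 1 := by gcongr
      _ = k := mul_one _
  have hlog0 : ∀ k : ℕ, 0 ≤ Real.log ((2 ^ k : ℕ) : ℝ) := fun k => Real.log_natCast_nonneg _
  have sA : ∑ n ∈ Icc 1 (2 ^ p), betaV V n ^ 2 ≤ 2 ^ p * (1 + (n0 : ℝ)) ^ 3 := by
    refine (sum_betaV_sq V (2 ^ p)).trans ?_
    have h1 := (hlog p).trans hpn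
    have h0 := hlog0 p
    push_cast at h1 h0 ⊢
    gcongr
  have sB : ∑ n ∈ Icc 1 (2 ^ q), L2 U n ^ 2 ≤ 2 ^ q * (1 + (n0 : ℝ)) ^ 3 := by
    refine (sum_L2_sq U (2 ^ q)).trans ?_
    have h1 := (hlog q).trans hqn
    have h0 := hlog0 q
    push_cast at h1 h0 ⊢
    apply mul_le_mul_of_nonneg_left _ (by positivity)
    have h2 : (1 : ℝ) ≤ 1 + n0 := by linarith
    calc Real.log (2 ^ q) ^ 2 ≤ (1 + (n0 : ℝ)) ^ 2 := pow_le_pow_left₀ h0 (by linarith) 2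
      _ ≤ (1 + (n0 : ℝ)) ^ 3 := pow_le_pow_right₀ h2 (by norm_num)
  have hsq : ∀ k : ℕ, Real.sqrt ((2 : ℝ) ^ k + (F : ℝ) ^ 2) ≤ Real.sqrt (2 ^ k) + F := by
    intro k
    rw [Real.sqrt_le_left (by positivity)]
    have := Real.sq_sqrt (show (0 : ℝ) ≤ 2 ^ k by positivity)
    have h3 := Real.sqrt_nonneg ((2 : ℝ) ^ k)
    have h4 := Nat.cast_nonneg (α := ℝ) F
    nlinarith
  have bd : ∀ (k : ℕ) (S T : ℝ), (k : ℝ) ≤ n0 → 0 ≤ T → S ≤ 6 * k ^ 2 * ((2 : ℝ) ^ k + (F : ℝ) ^ 2) * T → T ≤ 2 ^ k * (1 + (n0 : ℝ)) ^ 3 →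
      Real.sqrt S ≤ Real.sqrt 6 * (1 + n0) * (Real.sqrt (2 ^ k) + F) * (Real.sqrt (2 ^ k) * Real.sqrt ((1 + (n0 : ℝ)) ^ 3)) := by
    intro k S T hk hT hS hTT
    have h1 : S ≤ 6 * (1 + (n0 : ℝ)) ^ 2 * ((2 : ℝ) ^ k + (F : ℝ) ^ 2) * (2 ^ k * (1 + (n0 : ℝ)) ^ 3) := by
      refine hS.trans ?_
      have h2 : (k : ℝ) ≤ 1 + n0 := by linarith
      gcongr
    refine (Real.sqrt_le_sqrt h1).trans ?_
    rw [Real.sqrt_mul (by positivity), Real.sqrt_mul (by positivity), Real.sqrt_mul (by norm_num), Real.sqrt_sq (by positivity),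
      Real.sqrt_mul (by positivity) ((1 + (n0 : ℝ)) ^ 3)]
    have h3 := hsq k
    gcongr
  have b1 := bd p _ _ hpn (sum_nonneg fun _ _ => sq_nonneg _) hA sA
  have b2 := bd q _ _ hqn (sum_nonneg fun _ _ => sq_nonneg _) hB sB
  refine (mul_le_mul b1 b2 (Real.sqrt_nonneg _) (by positivity)).trans ?_
  have h6 : Real.sqrt 6 * Real.sqrt 6 = 6 := Real.mul_self_sqrt (by norm_num)
  have h7 : Real.sqrt ((1 + (n0 : ℝ)) ^ 3) * Real.sqrt ((1 + (n0 : ℝ)) ^ 3) = (1 + (n0 : ℝ)) ^ 3 := Real.mul_self_sqrt (by positivity)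
  have h8 : Real.sqrt ((2 : ℝ) ^ p) * Real.sqrt (2 ^ q) = Real.sqrt (2 ^ (n0 + 1)) := by
    rw [← Real.sqrt_mul (by positivity), ← pow_add, hpq]
  have h9 : (Real.sqrt ((2 : ℝ) ^ p) + F) * (Real.sqrt (2 ^ q) + F) ≤ Real.sqrt (2 ^ (n0 + 1)) +
        F * (Real.sqrt (2 ^ (n0 + 1) / U) + Real.sqrt (2 ^ (n0 + 1) / V)) + (F : ℝ) ^ 2 := by
    have e1 : Real.sqrt ((2 : ℝ) ^ p) ≤ Real.sqrt (2 ^ (n0 + 1) / U) := by
      apply Real.sqrt_le_sqrt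
      rw [le_div_iff₀ hU0, ← hpq, pow_add]
      have : (U : ℝ) ≤ 2 ^ q := by exact_mod_cast hUq.le
      gcongr
    have e2 : Real.sqrt ((2 : ℝ) ^ q) ≤ Real.sqrt (2 ^ (n0 + 1) / V) := by
      apply Real.sqrt_le_sqrt
      rw [le_div_iff₀ hV0, ← hpq, pow_add, mul_comm]
      have : (V : ℝ) ≤ 2 ^ p := by exact_mod_cast hVp.le
      gcongr
    have e3 : (Real.sqrt ((2 : ℝ) ^ p) + F) * (Real.sqrt (2 ^ q) + F) = Real.sqrt ((2 : ℝ) ^ p) * Real.sqrt (2 ^ q) +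
        F * (Real.sqrt (2 ^ p) + Real.sqrt (2 ^ q)) + (F : ℝ) ^ 2 := by ring
    rw [e3, h8]
    gcongr
  calc Real.sqrt 6 * (1 + n0) * (Real.sqrt (2 ^ p) + F) * (Real.sqrt (2 ^ p) * Real.sqrt ((1 + (n0 : ℝ)) ^ 3)) *
        (Real.sqrt 6 * (1 + n0) * (Real.sqrt (2 ^ q) + F) * (Real.sqrt (2 ^ q) * Real.sqrt ((1 + (n0 : ℝ)) ^ 3))) =
      (Real.sqrt 6 * Real.sqrt 6) * (1 + (n0 : ℝ)) ^ 2 * (Real.sqrt ((1 + (n0 : ℝ)) ^ 3) * Real.sqrt ((1 + (n0 : ℝ)) ^ 3)) *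
        ((Real.sqrt (2 ^ p) * Real.sqrt (2 ^ q)) * ((Real.sqrt (2 ^ p) + F) * (Real.sqrt (2 ^ q) + F))) := by ring
    _ = 6 * (1 + (n0 : ℝ)) ^ 5 * (Real.sqrt (2 ^ (n0 + 1)) * ((Real.sqrt (2 ^ p) + F) * (Real.sqrt (2 ^ q) + F))) := by
        rw [h6, h7, h8]
        ring
    _ ≤ _ := by gcongr

end Pool.Agent.K7.H51.PS
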