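import Mathlib
import Pool.Agent.K7.H51.PS.My

set_option autoImplicit false

/-! The maximal mean value over the primitive characters. -/

namespace Pool.Agent.K7.H51.PS

open Finset Filter Topology
open Pool.Agent.H398R2.BV
open Pool.Agent.H410R2 (psiLog SiegelWalfisz)
open Pool.Agent.Helper112 Pool.Agent.Helper112.TI Pool.Agent.Helper112.TII

/-- the maximal function -/
noncomputable def mx (X : ℝ) (f : ℕ) (ψ : DirichletCharacter ℂ f) : ℝ :=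
  sSup ((fun t : ℝ => ‖psiLog t f ψ‖) '' Set.Icc 1 X)

lemma mx_bdd (X : ℝ) (f : ℕ) (ψ : DirichletCharacter ℂ f) : BddAbove ((fun t : ℝ => ‖psiLog t f ψ‖) '' Set.Icc 1 X) := by
  refine ⟨X * Real.log X ^ 2, ?_⟩
  rintro _ ⟨t, ht, rfl⟩
  have h1 : 0 ≤ Real.log t := Real.log_nonneg ht.1
  have h2 : Real.log t ≤ Real.log X := Real.log_le_log (by linarith [ht.1]) ht.2
  have h3 : 0 ≤ t := by linarith [ht.1]
  refine (psiLog_triv ht.1 f ψ).trans ?_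
  have h4 := ht.2
  have h5 : 0 ≤ X := h3.trans h4
  gcongr

lemma le_mx {X t : ℝ} (h1 : 1 ≤ t) (h2 : t ≤ X) (f : ℕ) (ψ : DirichletCharacter ℂ f) : ‖psiLog t f ψ‖ ≤ mx X f ψ :=
  le_csSup (mx_bdd X f ψ) ⟨t, ⟨h1, h2⟩, rfl⟩

lemma mx_le {X M : ℝ} (hX : 1 ≤ X) {f : ℕ} {ψ : DirichletCharacter ℂ f} (h : ∀ t : ℝ, 1 ≤ t → t ≤ X → ‖psiLog t f ψ‖ ≤ M) :
    mx X f ψ ≤ M := by
  apply csSup_le
  · exact ⟨_, ⟨1, ⟨le_rfl, hX⟩, rfl⟩⟩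
  · rintro _ ⟨t, ht, rfl⟩
    exact h t ht.1 ht.2

lemma mx_nonneg (X : ℝ) (f : ℕ) (ψ : DirichletCharacter ℂ f) : 0 ≤ mx X f ψ := by
  apply Real.sSup_nonneg
  rintro _ ⟨t, _, rfl⟩
  exact norm_nonneg _

/-- the weighted mean value of the maximal function -/
noncomputable def wM (X : ℝ) (Q : ℕ) : ℝ :=
  ∑ f ∈ Icc 2 Q, ((f : ℝ) ^ (3 / 4 : ℝ) / (f.totient : ℝ)) * ∑ ψ ∈ Prim f, mx X f ψ

lemma wt_le' {f : ℕ} (hf : 1 ≤ f) : (f : ℝ) ^ (3 / 4 : ℝ) ≤ f := by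
  have h1 : (1 : ℝ) ≤ f := by exact_mod_cast hf
  calc (f : ℝ) ^ (3 / 4 : ℝ) ≤ (f : ℝ) ^ (1 : ℝ) := Real.rpow_le_rpow_of_exponent_le h1 (by norm_num)
    _ = f := Real.rpow_one _

/-- the type II bound for the maximal function -/
noncomputable def T2 (n0 W : ℕ) (f : ℕ) (ψ : DirichletCharacter ℂ f) : ℝ :=
  ∑ i ∈ range n0, MB (i + 1) (betaV W) f ψ * MB (n0 - i) (L2 W) f ψ

lemma T2_nonneg (n0 W : ℕ) (f : ℕ) (ψ : DirichletCharacter ℂ f) : 0 ≤ T2 n0 W f ψ :=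
  sum_nonneg fun _ _ => mul_nonneg (MB_nonneg _ _ _ _) (MB_nonneg _ _ _ _)

lemma mx_split {X : ℝ} (hX : 1 ≤ X) {n0 : ℕ} (hn0 : X < 2 ^ n0) {W f : ℕ} (hW : 1 ≤ W) (hf : 2 ≤ f)
    {ψ : DirichletCharacter ℂ f} (hψ : ψ ∈ Prim f) :
    mx X f ψ ≤ 8 * (W : ℝ) * W * f * Real.log X ^ 2 + T2 n0 W f ψ := by
  apply mx_le hX
  intro t ht1 htX
  refine (norm_psiLog_le t ht1 W W f hW hW hf ψ (prim_ne_one hf hψ)).trans ?_
  apply add_le_add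
  · have h1 : 0 ≤ Real.log t := Real.log_nonneg ht1
    have h2 : Real.log t ≤ Real.log X := Real.log_le_log (by linarith) htX
    gcongr
  · exact TL_max ht1 htX hn0 f ψ (betaV W) (L2 W)

/-- the type II contribution of a block -/
lemma T2_block {n0 W : ℕ} (hW : 1 ≤ W) (j : ℕ) (S : Finset ℕ) (hS : S ⊆ Icc (2 ^ j) (2 ^ (j + 1))) :
    ∑ f ∈ S, ((f : ℝ) ^ (3 / 4 : ℝ) / (f.totient : ℝ)) * ∑ ψ ∈ Prim f, T2 n0 W f ψ ≤
      ((2 : ℝ) ^ j) ^ (-(1 / 4) : ℝ) * (n0 * (6 * (1 + (n0 : ℝ)) ^ 5 * (Real.sqrt (2 ^ (n0 + 1)) * (Real.sqrt (2 ^ (n0 + 1)) +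
        (2 ^ (j + 1) : ℝ) * (Real.sqrt (2 ^ (n0 + 1) / W) + Real.sqrt (2 ^ (n0 + 1) / W)) + ((2 ^ (j + 1) : ℝ)) ^ 2)))) := by
  have h1 : ∀ f ∈ S, ((f : ℝ) ^ (3 / 4 : ℝ) / (f.totient : ℝ)) * ∑ ψ ∈ Prim f, T2 n0 W f ψ ≤
      ((2 : ℝ) ^ j) ^ (-(1 / 4) : ℝ) * (((f : ℝ) / (f.totient : ℝ)) * ∑ ψ ∈ Prim f, T2 n0 W f ψ) := by
    intro f hf
    have hf' := mem_Icc.1 (hS hf)
    have hf0 : 0 < f := lt_of_lt_of_le (by positivity) hf'.1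
    have hf0r : (0 : ℝ) < f := by exact_mod_cast hf0
    have hfj : (2 : ℝ) ^ j ≤ f := by exact_mod_cast hf'.1
    have h2 : (f : ℝ) ^ (3 / 4 : ℝ) ≤ ((2 : ℝ) ^ j) ^ (-(1 / 4) : ℝ) * f := by
      have h3 : (f : ℝ) ^ (3 / 4 : ℝ) = (f : ℝ) ^ (-(1 / 4) : ℝ) * f := by
        nth_rw 3 [← Real.rpow_one (f : ℝ)]
        rw [← Real.rpow_add hf0r]
        norm_num
      rw [h3]
      apply mul_le_mul_of_nonneg_right _ hf0r.le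
      exact Real.rpow_le_rpow_of_nonpos (by positivity) hfj (by norm_num)
    have h4 : 0 ≤ ∑ ψ ∈ Prim f, T2 n0 W f ψ := sum_nonneg fun ψ _ => T2_nonneg _ _ _ _
    rw [← mul_assoc, ← mul_div_assoc]
    apply mul_le_mul_of_nonneg_right _ h4
    exact div_le_div_of_nonneg_right h2 (Nat.cast_nonneg _)
  refine (sum_le_sum h1).trans ?_
  rw [← mul_sum]
  apply mul_le_mul_of_nonneg_left _ (by positivity)
  have hsub : S ⊆ Icc 1 (2 ^ (j + 1)) := by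
    intro f hf
    have hf' := mem_Icc.1 (hS hf)
    rw [mem_Icc]
    exact ⟨le_trans (Nat.one_le_two_pow) hf'.1, hf'.2⟩
  refine (sum_le_sum_of_subset_of_nonneg hsub fun f _ _ => ?_).trans ?_
  · exact mul_nonneg (by positivity) (sum_nonneg fun ψ _ => T2_nonneg _ _ _ _)
  have h2 : ∑ f ∈ Icc 1 ((2 : ℕ) ^ (j + 1)), ((f : ℝ) / (f.totient : ℝ)) * ∑ ψ ∈ Prim f, T2 n0 W f ψ =
      ∑ i ∈ range n0, ∑ f ∈ Icc 1 ((2 : ℕ) ^ (j + 1)), ((f : ℝ) / (f.totient : ℝ)) * ∑ ψ ∈ Prim f,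
        MB (i + 1) (betaV W) f ψ * MB (n0 - i) (L2 W) f ψ := by
    rw [sum_comm]
    apply sum_congr rfl
    intro f _
    unfold T2
    rw [sum_comm, mul_sum]
  rw [h2]
  have h3 : ∀ i ∈ range n0, ∑ f ∈ Icc 1 ((2 : ℕ) ^ (j + 1)), ((f : ℝ) / (f.totient : ℝ)) * ∑ ψ ∈ Prim f,
        MB (i + 1) (betaV W) f ψ * MB (n0 - i) (L2 W) f ψ ≤
        6 * (1 + (n0 : ℝ)) ^ 5 * (Real.sqrt (2 ^ (n0 + 1)) * (Real.sqrt (2 ^ (n0 + 1)) +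
        (2 ^ (j + 1) : ℝ) * (Real.sqrt (2 ^ (n0 + 1) / W) + Real.sqrt (2 ^ (n0 + 1) / W)) + ((2 ^ (j + 1) : ℝ)) ^ 2)) := by
    intro i hi
    rw [mem_range] at hi
    have h4 := pair_bound (p := i + 1) (q := n0 - i) (n0 := n0) (U := W) (V := W) (F := 2 ^ (j + 1)) (by omega) (by omega) (by omega) hW hW
    push_cast at h4
    exact h4
  refine (sum_le_sum h3).trans (le_of_eq ?_)
  rw [sum_const, card_range, nsmul_eq_mul]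

/-- the size of the block bound -/
lemma T2_size {X y : ℝ} {n0 W B' : ℕ} (hX : 4 ≤ X) (hL : 1 ≤ Real.log X) (hn0 : (2 : ℝ) ^ n0 ≤ 2 * X)
    (hW : X ^ (1 / 4 : ℝ) ≤ W) (hy1 : Real.log X ^ (4 * B') ≤ 2 * y) (hy0 : 1 ≤ y) (hy2 : y ≤ X ^ (1 / 8 : ℝ)) :
    y ^ (-(1 / 4) : ℝ) * (Real.sqrt (2 ^ (n0 + 1)) * (Real.sqrt (2 ^ (n0 + 1)) +
        (2 * y) * (Real.sqrt (2 ^ (n0 + 1) / W) + Real.sqrt (2 ^ (n0 + 1) / W)) + (2 * y) ^ 2)) ≤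
      8 * X / Real.log X ^ B' + 24 * X ^ (31 / 32 : ℝ) := by
  obtain ⟨L, hLd⟩ : ∃ L, L = Real.log X := ⟨_, rfl⟩
  rw [← hLd] at hL hy1 ⊢
  have hX0 : 0 < X := by linarith
  have hX1 : 1 ≤ X := by linarith
  have hy00 : 0 < y := by linarith
  obtain ⟨s, hs⟩ : ∃ s : ℝ, s = Real.sqrt (2 ^ (n0 + 1)) := ⟨_, rfl⟩
  have hs0 : 0 ≤ s := by rw [hs]; exact Real.sqrt_nonneg _
  have hZ : (2 : ℝ) ^ (n0 + 1) ≤ 4 * X := by
    rw [pow_succ]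
    linarith
  have hs2 : s * s ≤ 4 * X := by
    rw [hs, Real.mul_self_sqrt (by positivity)]
    exact hZ
  have hs1 : s ≤ 2 * X ^ (1 / 2 : ℝ) := by
    rw [hs, Real.sqrt_le_left (by positivity), mul_pow, ← Real.rpow_natCast (X ^ (1 / 2 : ℝ)), ← Real.rpow_mul hX0.le]
    norm_num
    linarith
  have hW0 : 0 < X ^ (1 / 4 : ℝ) := by positivity
  have hsW : Real.sqrt (2 ^ (n0 + 1) / W) ≤ 2 * X ^ (3 / 8 : ℝ) := by
    rw [Real.sqrt_le_left (by positivity), mul_pow, ← Real.rpow_natCast (X ^ (3 / 8 : ℝ)), ← Real.rpow_mul hX0.le]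
    calc (2 : ℝ) ^ (n0 + 1) / W ≤ (4 * X) / X ^ (1 / 4 : ℝ) := div_le_div₀ (by positivity) hZ hW0 hW
      _ = 2 ^ 2 * X ^ (3 / 8 * ((2 : ℕ) : ℝ) : ℝ) := by
        rw [mul_div_assoc]
        congr 1
        · norm_num
        · nth_rw 1 [← Real.rpow_one X]
          rw [← Real.rpow_sub hX0]
          norm_num
  rw [← hs]
  have hym : 0 < y ^ (-(1 / 4) : ℝ) := by positivity
  have t1 : y ^ (-(1 / 4) : ℝ) * (s * s) ≤ 8 * X / L ^ B' := by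
    have hLB : 0 < L ^ B' := by positivity
    have h1 : y ^ (-(1 / 4) : ℝ) ≤ 2 / L ^ B' := by
      rw [Real.rpow_neg hy00.le, ← one_div, div_le_div_iff₀ (by positivity) hLB, one_mul]
      have h2 : L ^ B' = (L ^ (4 * B')) ^ (1 / 4 : ℝ) := by
        rw [← Real.rpow_natCast, ← Real.rpow_natCast, ← Real.rpow_mul (by linarith)]
        congr 1
        push_cast
        ring
      rw [h2]
      have h3 : (0 : ℝ) ≤ L ^ (4 * B') := by positivity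
      calc (L ^ (4 * B')) ^ (1 / 4 : ℝ) ≤ (2 * y) ^ (1 / 4 : ℝ) := Real.rpow_le_rpow h3 hy1 (by norm_num)
        _ = 2 ^ (1 / 4 : ℝ) * y ^ (1 / 4 : ℝ) := Real.mul_rpow (by norm_num) hy00.le
        _ ≤ 2 * y ^ (1 / 4 : ℝ) := by
            apply mul_le_mul_of_nonneg_right _ (by positivity)
            calc (2 : ℝ) ^ (1 / 4 : ℝ) ≤ 2 ^ (1 : ℝ) := Real.rpow_le_rpow_of_exponent_le (by norm_num) (by norm_num)
              _ = 2 := Real.rpow_one 2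
    calc y ^ (-(1 / 4) : ℝ) * (s * s) ≤ 2 / L ^ B' * (4 * X) := by gcongr
      _ = _ := by ring
  have t2 : y ^ (-(1 / 4) : ℝ) * (s * ((2 * y) * (Real.sqrt (2 ^ (n0 + 1) / W) + Real.sqrt (2 ^ (n0 + 1) / W)))) ≤ 16 * X ^ (31 / 32 : ℝ) := by
    have h1 : y ^ (-(1 / 4) : ℝ) * y = y ^ (3 / 4 : ℝ) := by
      nth_rw 2 [← Real.rpow_one y]
      rw [← Real.rpow_add hy00]
      norm_num
    have h2 : y ^ (3 / 4 : ℝ) ≤ X ^ (3 / 32 : ℝ) := by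
      calc y ^ (3 / 4 : ℝ) ≤ (X ^ (1 / 8 : ℝ)) ^ (3 / 4 : ℝ) := Real.rpow_le_rpow hy00.le hy2 (by norm_num)
        _ = _ := by
          rw [← Real.rpow_mul hX0.le]
          norm_num
    calc y ^ (-(1 / 4) : ℝ) * (s * ((2 * y) * (Real.sqrt (2 ^ (n0 + 1) / W) + Real.sqrt (2 ^ (n0 + 1) / W)))) ≤
        y ^ (-(1 / 4) : ℝ) * ((2 * X ^ (1 / 2 : ℝ)) * ((2 * y) * (2 * X ^ (3 / 8 : ℝ) + 2 * X ^ (3 / 8 : ℝ)))) := by gcongr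
      _ = 16 * ((y ^ (-(1 / 4) : ℝ) * y) * (X ^ (1 / 2 : ℝ) * X ^ (3 / 8 : ℝ))) := by ring
      _ ≤ 16 * (X ^ (3 / 32 : ℝ) * (X ^ (1 / 2 : ℝ) * X ^ (3 / 8 : ℝ))) := by
          rw [h1]
          gcongr
      _ = 16 * X ^ (31 / 32 : ℝ) := by
          rw [← Real.rpow_add hX0, ← Real.rpow_add hX0]
          norm_num
  have t3 : y ^ (-(1 / 4) : ℝ) * (s * (2 * y) ^ 2) ≤ 8 * X ^ (31 / 32 : ℝ) := by
    have h1 : y ^ (-(1 / 4) : ℝ) ≤ 1 := Real.rpow_le_one_of_one_le_of_nonpos hy0 (by norm_num)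
    have h2 : y ^ 2 ≤ X ^ (1 / 4 : ℝ) := by
      calc y ^ 2 ≤ (X ^ (1 / 8 : ℝ)) ^ 2 := pow_le_pow_left₀ hy00.le hy2 2
        _ = _ := by
          rw [← Real.rpow_natCast (X ^ (1 / 8 : ℝ)), ← Real.rpow_mul hX0.le]
          norm_num
    calc y ^ (-(1 / 4) : ℝ) * (s * (2 * y) ^ 2) ≤ 1 * ((2 * X ^ (1 / 2 : ℝ)) * (2 * y) ^ 2) := by gcongr
      _ = 8 * (X ^ (1 / 2 : ℝ) * y ^ 2) := by ring
      _ ≤ 8 * (X ^ (1 / 2 : ℝ) * X ^ (1 / 4 : ℝ)) := by gcongr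
      _ = 8 * X ^ (3 / 4 : ℝ) := by
          rw [← Real.rpow_add hX0]
          norm_num
      _ ≤ 8 * X ^ (31 / 32 : ℝ) := by
          apply mul_le_mul_of_nonneg_left _ (by norm_num)
          exact Real.rpow_le_rpow_of_exponent_le hX1 (by norm_num)
  calc y ^ (-(1 / 4) : ℝ) * (s * (s + (2 * y) * (Real.sqrt (2 ^ (n0 + 1) / W) + Real.sqrt (2 ^ (n0 + 1) / W)) + (2 * y) ^ 2)) =
      y ^ (-(1 / 4) : ℝ) * (s * s) + y ^ (-(1 / 4) : ℝ) * (s * ((2 * y) * (Real.sqrt (2 ^ (n0 + 1) / W) + Real.sqrt (2 ^ (n0 + 1) / W)))) +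
        y ^ (-(1 / 4) : ℝ) * (s * (2 * y) ^ 2) := by ring
    _ ≤ _ := by linarith

end Pool.Agent.K7.H51.PS
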