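import Mathlib
import Pool.Agent.K7.H51.PS.Mz

set_option autoImplicit false

/-! The maximal mean value theorem. -/

namespace Pool.Agent.K7.H51.PS

open Finset Filter Topology
open Pool.Agent.H398R2.BV
open Pool.Agent.H410R2 (psiLog SiegelWalfisz)
open Pool.Agent.Helper112 Pool.Agent.Helper112.TI Pool.Agent.Helper112.TII

/-- the small conductors -/
lemma mx_small (h : SiegelWalfisz) (A B : ℕ) : ∀ᶠ X : ℝ in atTop, ∀ f : ℕ, 2 ≤ f → (f : ℝ) ≤ Real.log X ^ B →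
    ∀ ψ ∈ Prim f, mx X f ψ ≤ X / Real.log X ^ A := by
  obtain ⟨x₀, hx₀⟩ := h (A + 1) (2 * B)
  have hlog : Tendsto Real.log atTop atTop := Real.tendsto_log_atTop
  filter_upwards [eventually_ge_atTop (|x₀| ^ 2 + 1), eventually_ge_atTop (4 : ℝ), hlog.eventually_ge_atTop 4,
    hlog.eventually_ge_atTop (2 ^ (A + 1)), ev_log 1 (2 + A) (1 / 2) (by norm_num)] with X h1 h2 h3 h4 h5 f hf hfB ψ hψ
  have hX0 : 0 < X := by linarith
  have hX1 : 1 ≤ X := by linarith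
  obtain ⟨L, hL⟩ : ∃ L, L = Real.log X := ⟨_, rfl⟩
  rw [← hL] at h3 h4 h5 hfB ⊢
  have hL0 : 0 < L := by linarith
  apply mx_le hX1
  intro t ht1 htX
  have ht0 : 0 < t := by linarith
  rcases le_or_gt (Real.sqrt X) t with hcase | hcase
  · have hx0t : x₀ ≤ t := by
      have : |x₀| ≤ Real.sqrt X := by
        apply Real.le_sqrt_of_sq_le
        linarith
      exact (le_abs_self x₀).trans (this.trans hcase)
    have hlt : L / 2 ≤ Real.log t := by
      have := Real.log_le_log (Real.sqrt_pos.2 hX0) hcase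
      rw [Real.log_sqrt hX0.le] at this
      rw [hL]
      exact this
    have hlt2 : 2 ≤ Real.log t := by linarith
    have hfB2 : (f : ℝ) ≤ Real.log t ^ (2 * B) := by
      refine hfB.trans ?_
      calc L ^ B ≤ (2 * Real.log t) ^ B := pow_le_pow_left₀ hL0.le (by linarith) B
        _ ≤ (Real.log t * Real.log t) ^ B := by
            apply pow_le_pow_left₀ (by positivity)
            nlinarith
        _ = Real.log t ^ (2 * B) := by
            rw [← sq, ← pow_mul]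
    have hprim : ψ.IsPrimitive := by
      classical
      unfold Prim at hψ
      rw [mem_filter] at hψ
      exact hψ.2
    refine (hx₀ t hx0t f (by omega) hfB2 ψ hprim).trans ?_
    calc t / Real.log t ^ (A + 1) ≤ X / (L / 2) ^ (A + 1) := by
          apply div_le_div₀ hX0.le htX (by positivity)
          exact pow_le_pow_left₀ (by linarith) hlt _
      _ = (2 ^ (A + 1) / L) * (X / L ^ A) := by
          rw [div_pow, pow_succ L A]
          field_simp
      _ ≤ 1 * (X / L ^ A) := by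
          apply mul_le_mul_of_nonneg_right _ (by positivity)
          rw [div_le_one hL0]
          exact h4
      _ = _ := one_mul _
  · refine (psiLog_triv ht1 f ψ).trans ?_
    have hlt0 : 0 ≤ Real.log t := Real.log_nonneg ht1
    have hlt : Real.log t ≤ L := by
      rw [hL]
      exact Real.log_le_log ht0 htX
    rw [le_div_iff₀ (by positivity)]
    calc t * Real.log t ^ 2 * L ^ A ≤ Real.sqrt X * L ^ 2 * L ^ A := by gcongr
      _ = Real.sqrt X * (1 * L ^ (2 + A)) := by rw [pow_add]; ring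
      _ ≤ X ^ (1 / 2 : ℝ) * X ^ (1 / 2 : ℝ) := by
          rw [← Real.sqrt_eq_rpow] at h5 ⊢
          gcongr
      _ = X := by
          rw [← Real.rpow_add hX0]
          norm_num

lemma n0_spec {X : ℝ} (hX : 1 ≤ X) : ∃ n0 : ℕ, X < 2 ^ n0 ∧ (2 : ℝ) ^ n0 ≤ 2 * X ∧ (1 + (n0 : ℝ)) ≤ 3 * (1 + Real.log X) := by
  refine ⟨Nat.log 2 ⌊X⌋₊ + 1, ?_, ?_, ?_⟩
  · have h1 : ⌊X⌋₊ < 2 ^ (Nat.log 2 ⌊X⌋₊ + 1) := Nat.lt_pow_succ_log_self (by norm_num) _
    have h2 := (Nat.floor_lt (by linarith : (0 : ℝ) ≤ X)).1 h1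
    push_cast at h2
    exact h2
  · have h1 : 1 ≤ ⌊X⌋₊ := (Nat.one_le_floor_iff X).2 hX
    have h2 : 2 ^ (Nat.log 2 ⌊X⌋₊) ≤ ⌊X⌋₊ := Nat.pow_log_le_self 2 (by omega)
    have h3 : ((2 ^ (Nat.log 2 ⌊X⌋₊) : ℕ) : ℝ) ≤ X := (Nat.cast_le.2 h2).trans (Nat.floor_le (by linarith))
    push_cast at h3
    rw [pow_succ]
    linarith
  · have h1 : 1 ≤ ⌊X⌋₊ := (Nat.one_le_floor_iff X).2 hX
    have h2 : 2 ^ (Nat.log 2 ⌊X⌋₊) ≤ ⌊X⌋₊ := Nat.pow_log_le_self 2 (by omega)
    have h3 : ((2 ^ (Nat.log 2 ⌊X⌋₊) : ℕ) : ℝ) ≤ X := (Nat.cast_le.2 h2).trans (Nat.floor_le (by linarith))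
    have h4 := Real.log_le_log (by positivity) h3
    push_cast at h4
    rw [Real.log_pow] at h4
    have h5 : (0.5 : ℝ) < Real.log 2 := by
      have := Real.log_two_gt_d9
      linarith
    have h6 : (0 : ℝ) ≤ (Nat.log 2 ⌊X⌋₊ : ℝ) := Nat.cast_nonneg _
    push_cast
    nlinarith

/-- the maximal mean value -/
theorem wM_main (h : SiegelWalfisz) (A : ℕ) : ∃ X₀ : ℝ, ∀ X : ℝ, X₀ ≤ X → ∀ Q : ℕ, (Q : ℝ) ≤ X ^ (1 / 8 : ℝ) →
    wM X Q ≤ X / (Real.log X) ^ A := by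
  obtain ⟨B', hB'⟩ : ∃ B' : ℕ, B' = A + 8 := ⟨_, rfl⟩
  obtain ⟨B, hB⟩ : ∃ B : ℕ, B = 4 * B' := ⟨_, rfl⟩
  have hlog : Tendsto Real.log atTop atTop := Real.tendsto_log_atTop
  have ev : ∀ᶠ X : ℝ in atTop, ∀ Q : ℕ, (Q : ℝ) ≤ X ^ (1 / 8 : ℝ) → wM X Q ≤ X / (Real.log X) ^ A := by
    filter_upwards [mx_small h (A + 2 * B + 1) B, eventually_ge_atTop (4 : ℝ),
      hlog.eventually_ge_atTop 1, hlog.eventually_ge_atTop 4,
      hlog.eventually_ge_atTop (4 * (6 * 6 ^ 7 * 8)), ev_log (4 * (6 * 6 ^ 7 * 24)) (7 + A) (1 / 32) (by norm_num),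
      ev_log 128 (2 + A) (1 / 8) (by norm_num)] with X h1 h2 h3 h4 h5 h6 h7 Q hQ
    have hX0 : 0 < X := by linarith
    have hX1 : 1 ≤ X := by linarith
    obtain ⟨n0, hn0, hn1, hn2⟩ := n0_spec hX1
    set L := Real.log X with hL
    have hL0 : 0 < L := by linarith
    have hXA : 0 < X / L ^ A := by positivity
    set G := ⌊L ^ B⌋₊ with hG
    have hGle : (G : ℝ) ≤ L ^ B := Nat.floor_le (by positivity)
    set S := (Icc 2 Q).filter (fun f => G < f) with hS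
    set S' := (Icc 2 Q).filter (fun f => f ≤ G) with hS'
    have hsplit : wM X Q = ∑ f ∈ S', ((f : ℝ) ^ (3 / 4 : ℝ) / (f.totient : ℝ)) * ∑ ψ ∈ Prim f, mx X f ψ +
        ∑ f ∈ S, ((f : ℝ) ^ (3 / 4 : ℝ) / (f.totient : ℝ)) * ∑ ψ ∈ Prim f, mx X f ψ := by
      unfold wM
      rw [← sum_filter_add_sum_filter_not (Icc 2 Q) (fun f => f ≤ G)]
      congr 1
      apply sum_congr _ (fun _ _ => rfl)
      rw [hS]
      apply filter_congr
      intro f _
      exact not_le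
    rw [hsplit]
    have hone : ∀ (f : ℕ) (D : ℝ), 1 ≤ f → 0 ≤ D → ((f : ℝ) ^ (3 / 4 : ℝ) / (f.totient : ℝ)) * ∑ _ψ ∈ Prim f, D ≤ f * D := by
      intro f D hf hD
      have hφ : (0 : ℝ) < f.totient := by exact_mod_cast Nat.totient_pos.2 hf
      rw [sum_const, nsmul_eq_mul]
      calc ((f : ℝ) ^ (3 / 4 : ℝ) / (f.totient : ℝ)) * (((Prim f).card : ℝ) * D) ≤
          ((f : ℝ) ^ (3 / 4 : ℝ) / (f.totient : ℝ)) * ((f.totient : ℝ) * D) := by
            apply mul_le_mul_of_nonneg_left _ (by positivity)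
            exact mul_le_mul_of_nonneg_right (card_prim_le hf) hD
        _ = (f : ℝ) ^ (3 / 4 : ℝ) * D := by field_simp
        _ ≤ f * D := mul_le_mul_of_nonneg_right (wt_le' hf) hD
    have hsmall : ∑ f ∈ S', ((f : ℝ) ^ (3 / 4 : ℝ) / (f.totient : ℝ)) * ∑ ψ ∈ Prim f, mx X f ψ ≤
        (1 / 4) * (X / L ^ A) := by
      obtain ⟨D, hD⟩ : ∃ D, D = X / L ^ (A + 2 * B + 1) := ⟨_, rfl⟩
      have hD0 : 0 ≤ D := by rw [hD]; positivity
      have h8 : ∀ f ∈ S', ((f : ℝ) ^ (3 / 4 : ℝ) / (f.totient : ℝ)) * ∑ ψ ∈ Prim f, mx X f ψ ≤ G * D := by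
        intro f hf
        rw [hS', mem_filter, mem_Icc] at hf
        have hfG : (f : ℝ) ≤ G := by exact_mod_cast hf.2
        calc ((f : ℝ) ^ (3 / 4 : ℝ) / (f.totient : ℝ)) * ∑ ψ ∈ Prim f, mx X f ψ ≤
            ((f : ℝ) ^ (3 / 4 : ℝ) / (f.totient : ℝ)) * ∑ _ψ ∈ Prim f, D := by
              apply mul_le_mul_of_nonneg_left _ (by positivity)
              apply sum_le_sum
              intro ψ hψ
              rw [hD]
              exact h1 f hf.1.1 (hfG.trans hGle) ψ hψ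
          _ ≤ f * D := hone f D (by omega) hD0
          _ ≤ G * D := mul_le_mul_of_nonneg_right hfG hD0
      refine (sum_le_sum h8).trans ?_
      rw [sum_const, nsmul_eq_mul]
      have hc : (S'.card : ℝ) ≤ G := by
        have h9 : S' ⊆ Icc 1 G := by
          intro f hf
          rw [hS', mem_filter, mem_Icc] at hf
          rw [mem_Icc]
          omega
        have := card_le_card h9
        rw [Nat.card_Icc, Nat.add_sub_cancel] at this
        exact_mod_cast this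
      calc (S'.card : ℝ) * (G * D) ≤ L ^ B * (L ^ B * D) := by
            have := hc.trans hGle
            gcongr
        _ = (1 / L) * (X / L ^ A) := by
            rw [hD, show A + 2 * B + 1 = B + B + A + 1 by ring, pow_add, pow_add, pow_add, pow_one]
            field_simp
        _ ≤ (1 / 4) * (X / L ^ A) := by
            apply mul_le_mul_of_nonneg_right _ hXA.le
            exact one_div_le_one_div_of_le (by norm_num) h4
    set W := ⌈X ^ (1 / 4 : ℝ)⌉₊ with hW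
    have hXd : 1 ≤ X ^ (1 / 4 : ℝ) := Real.one_le_rpow hX1 (by norm_num)
    have hW1 : X ^ (1 / 4 : ℝ) ≤ W := Nat.le_ceil _
    have hW2 : (W : ℝ) ≤ 2 * X ^ (1 / 4 : ℝ) := by
      have := Nat.ceil_lt_add_one (show 0 ≤ X ^ (1 / 4 : ℝ) by positivity)
      linarith
    have hW3 : 1 ≤ W := by
      have : (1 : ℝ) ≤ W := hXd.trans hW1
      exact_mod_cast this
    have hSsub : S ⊆ Icc 2 Q := filter_subset _ _
    have hlarge : ∑ f ∈ S, ((f : ℝ) ^ (3 / 4 : ℝ) / (f.totient : ℝ)) * ∑ ψ ∈ Prim f, mx X f ψ ≤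
        (∑ f ∈ S, ((f : ℝ) ^ (3 / 4 : ℝ) / (f.totient : ℝ)) * ∑ _ψ ∈ Prim f, 8 * (W : ℝ) * W * f * L ^ 2) +
        ∑ f ∈ S, ((f : ℝ) ^ (3 / 4 : ℝ) / (f.totient : ℝ)) * ∑ ψ ∈ Prim f, T2 n0 W f ψ := by
      rw [← sum_add_distrib]
      apply sum_le_sum
      intro f hf
      have hf2 := hSsub hf
      rw [mem_Icc] at hf2
      rw [← mul_add, ← sum_add_distrib]
      apply mul_le_mul_of_nonneg_left _ (by positivity)
      apply sum_le_sum
      intro ψ hψ
      exact mx_split hX1 hn0 hW3 hf2.1 hψ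
    -- type I
    have hI : ∑ f ∈ S, ((f : ℝ) ^ (3 / 4 : ℝ) / (f.totient : ℝ)) * ∑ _ψ ∈ Prim f, 8 * (W : ℝ) * W * f * L ^ 2 ≤
        (Q : ℝ) ^ 3 * (8 * (W : ℝ) * W * L ^ 2) := by
      have h8 : ∀ f ∈ S, ((f : ℝ) ^ (3 / 4 : ℝ) / (f.totient : ℝ)) * ∑ _ψ ∈ Prim f, 8 * (W : ℝ) * W * f * L ^ 2 ≤
          (Q : ℝ) ^ 2 * (8 * (W : ℝ) * W * L ^ 2) := by
        intro f hf
        have hf2 := hSsub hf
        rw [mem_Icc] at hf2
        have hfQ : (f : ℝ) ≤ Q := by exact_mod_cast hf2.2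
        refine (hone f _ (by omega) (by positivity)).trans ?_
        calc (f : ℝ) * (8 * (W : ℝ) * W * f * L ^ 2) ≤ Q * (8 * (W : ℝ) * W * Q * L ^ 2) := by gcongr
          _ = _ := by ring
      calc ∑ f ∈ S, ((f : ℝ) ^ (3 / 4 : ℝ) / (f.totient : ℝ)) * ∑ _ψ ∈ Prim f, 8 * (W : ℝ) * W * f * L ^ 2 ≤
          ∑ _f ∈ S, (Q : ℝ) ^ 2 * (8 * (W : ℝ) * W * L ^ 2) := sum_le_sum h8
        _ = (S.card : ℝ) * ((Q : ℝ) ^ 2 * (8 * (W : ℝ) * W * L ^ 2)) := by rw [sum_const, nsmul_eq_mul]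
        _ ≤ (Q : ℝ) * ((Q : ℝ) ^ 2 * (8 * (W : ℝ) * W * L ^ 2)) := by
            apply mul_le_mul_of_nonneg_right _ (by positivity)
            have := card_le_card hSsub
            rw [Nat.card_Icc] at this
            have h9 : S.card ≤ Q := by omega
            exact_mod_cast h9
        _ = _ := by ring
    have hI2 : (Q : ℝ) ^ 3 * (8 * (W : ℝ) * W * L ^ 2) ≤ (1 / 4) * (X / L ^ A) := by
      have hQ3 : (Q : ℝ) ^ 3 ≤ X ^ (3 / 8 : ℝ) := by
        calc (Q : ℝ) ^ 3 ≤ (X ^ (1 / 8 : ℝ)) ^ 3 := pow_le_pow_left₀ (by positivity) hQ 3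
          _ = _ := by
            rw [← Real.rpow_natCast (X ^ (1 / 8 : ℝ)), ← Real.rpow_mul hX0.le]
            norm_num
      have hWW : (W : ℝ) * W ≤ 4 * X ^ (1 / 2 : ℝ) := by
        calc (W : ℝ) * W ≤ (2 * X ^ (1 / 4 : ℝ)) * (2 * X ^ (1 / 4 : ℝ)) := by gcongr
          _ = 4 * (X ^ (1 / 4 : ℝ) * X ^ (1 / 4 : ℝ)) := by ring
          _ = 4 * X ^ (1 / 2 : ℝ) := by
              rw [← Real.rpow_add hX0]
              norm_num
      have hexp : X ^ (3 / 8 : ℝ) * X ^ (1 / 2 : ℝ) ≤ X / X ^ (1 / 8 : ℝ) := by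
        rw [← Real.rpow_add hX0]
        nth_rw 2 [← Real.rpow_one X]
        rw [← Real.rpow_sub hX0]
        apply Real.rpow_le_rpow_of_exponent_le hX1
        norm_num
      have hXd0 : 0 < X ^ (1 / 8 : ℝ) := by positivity
      calc (Q : ℝ) ^ 3 * (8 * (W : ℝ) * W * L ^ 2) = 8 * L ^ 2 * ((Q : ℝ) ^ 3 * (W * W)) := by ring
        _ ≤ 8 * L ^ 2 * (X ^ (3 / 8 : ℝ) * (4 * X ^ (1 / 2 : ℝ))) := by gcongr
        _ = 32 * L ^ 2 * (X ^ (3 / 8 : ℝ) * X ^ (1 / 2 : ℝ)) := by ring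
        _ ≤ 32 * L ^ 2 * (X / X ^ (1 / 8 : ℝ)) := by gcongr
        _ = (1 / 4) * ((128 * L ^ (2 + A)) / X ^ (1 / 8 : ℝ)) * (X / L ^ A) := by
            rw [pow_add]
            field_simp
            ring
        _ ≤ (1 / 4) * 1 * (X / L ^ A) := by
            gcongr
            rw [div_le_one hXd0]
            exact h7
        _ = _ := by ring
    -- type II
    have hn0' : (1 + (n0 : ℝ)) ≤ 6 * L := by linarith
    have hII : ∑ f ∈ S, ((f : ℝ) ^ (3 / 4 : ℝ) / (f.totient : ℝ)) * ∑ ψ ∈ Prim f, T2 n0 W f ψ ≤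
        6 * (1 + (n0 : ℝ)) ^ 7 * (8 * X / L ^ B' + 24 * X ^ (31 / 32 : ℝ)) := by
      have hE0 : 0 ≤ 8 * X / L ^ B' + 24 * X ^ (31 / 32 : ℝ) := by positivity
      have hmaps : ∀ f ∈ S, Nat.log 2 f ∈ range (n0 + 1) := by
        intro f hf
        have hf2 := hSsub hf
        rw [mem_Icc] at hf2
        rw [mem_range, Nat.lt_succ_iff]
        have h8 : f ≤ 2 ^ n0 := by
          have : (f : ℝ) ≤ 2 ^ n0 := by
            calc (f : ℝ) ≤ Q := by exact_mod_cast hf2.2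
              _ ≤ X ^ (1 / 8 : ℝ) := hQ
              _ ≤ X ^ (1 : ℝ) := Real.rpow_le_rpow_of_exponent_le hX1 (by norm_num)
              _ = X := Real.rpow_one X
              _ ≤ _ := hn0.le
          exact_mod_cast this
        calc Nat.log 2 f ≤ Nat.log 2 (2 ^ n0) := Nat.log_mono_right h8
          _ = n0 := Nat.log_pow (by norm_num) n0
      rw [← sum_fiberwise_of_maps_to hmaps]
      have hblock : ∀ j ∈ range (n0 + 1), ∑ f ∈ S.filter (fun f => Nat.log 2 f = j),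
          ((f : ℝ) ^ (3 / 4 : ℝ) / (f.totient : ℝ)) * ∑ ψ ∈ Prim f, T2 n0 W f ψ ≤
          6 * (1 + (n0 : ℝ)) ^ 6 * (8 * X / L ^ B' + 24 * X ^ (31 / 32 : ℝ)) := by
        intro j _
        rcases (S.filter (fun f => Nat.log 2 f = j)).eq_empty_or_nonempty with hemp | ⟨f0, hf0⟩
        · rw [hemp, sum_empty]
          positivity
        have hsub : S.filter (fun f => Nat.log 2 f = j) ⊆ Icc (2 ^ j) (2 ^ (j + 1)) := by
          intro f hf
          rw [mem_filter] at hf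
          obtain ⟨g1, g2⟩ := hf
          have g3 := hSsub g1
          rw [mem_Icc] at g3
          rw [mem_Icc, ← g2]
          exact ⟨Nat.pow_log_le_self 2 (by omega), (Nat.lt_pow_succ_log_self (by norm_num) f).le⟩
        refine (T2_block hW3 j _ hsub).trans ?_
        rw [mem_filter] at hf0
        obtain ⟨g1, g2⟩ := hf0
        have g3 := hSsub g1
        rw [mem_Icc] at g3
        rw [hS, mem_filter] at g1
        set y : ℝ := 2 ^ j with hy
        have hj1 : y ≤ f0 := by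
          rw [hy, ← g2]; exact_mod_cast Nat.pow_log_le_self 2 (by omega)
        have hj2 : (f0 : ℝ) ≤ 2 * y := by
          have : f0 ≤ 2 * 2 ^ j := by
            rw [← pow_succ', ← g2]
            exact (Nat.lt_pow_succ_log_self (by norm_num) f0).le
          rw [hy]
          exact_mod_cast this
        have hyl : L ^ (4 * B') ≤ 2 * y := by
          rw [← hB]
          have : L ^ B < f0 := Nat.lt_of_floor_lt g1.2
          linarith
        have hyu : y ≤ X ^ (1 / 8 : ℝ) := by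
          refine hj1.trans (le_trans ?_ hQ)
          exact_mod_cast g3.2
        have hy0 : 1 ≤ y := by rw [hy]; exact one_le_pow₀ (by norm_num)
        have hkey := T2_size (B' := B') (W := W) (n0 := n0) h2 h3 hn1 hW1 hyl hy0 hyu
        rw [← hL] at hkey
        have hy2 : ((2 : ℝ) ^ (j + 1)) = 2 * y := by rw [hy, pow_succ]; ring
        rw [hy2]
        calc y ^ (-(1 / 4) : ℝ) * (n0 * (6 * (1 + (n0 : ℝ)) ^ 5 * (Real.sqrt (2 ^ (n0 + 1)) * (Real.sqrt (2 ^ (n0 + 1)) +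
              (2 * y) * (Real.sqrt (2 ^ (n0 + 1) / W) + Real.sqrt (2 ^ (n0 + 1) / W)) + (2 * y) ^ 2)))) =
            n0 * (6 * (1 + (n0 : ℝ)) ^ 5) * (y ^ (-(1 / 4) : ℝ) * (Real.sqrt (2 ^ (n0 + 1)) * (Real.sqrt (2 ^ (n0 + 1)) +
              (2 * y) * (Real.sqrt (2 ^ (n0 + 1) / W) + Real.sqrt (2 ^ (n0 + 1) / W)) + (2 * y) ^ 2))) := by ring
          _ ≤ (1 + n0) * (6 * (1 + (n0 : ℝ)) ^ 5) * (8 * X / L ^ B' + 24 * X ^ (31 / 32 : ℝ)) := by
              have hnn : (n0 : ℝ) ≤ 1 + n0 := by linarith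
              gcongr
          _ = _ := by ring
      refine (sum_le_sum hblock).trans (le_of_eq ?_)
      rw [sum_const, nsmul_eq_mul, card_range]
      push_cast
      ring
    have hII2 : 6 * (1 + (n0 : ℝ)) ^ 7 * (8 * X / L ^ B' + 24 * X ^ (31 / 32 : ℝ)) ≤ (1 / 2) * (X / L ^ A) := by
      have hXd' : X ^ (31 / 32 : ℝ) = X / X ^ (1 / 32 : ℝ) := by
        nth_rw 2 [← Real.rpow_one X]
        rw [← Real.rpow_sub hX0]
        norm_num
      have hXd0 : 0 < X ^ (1 / 32 : ℝ) := by positivity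
      have e0 : 6 * (1 + (n0 : ℝ)) ^ 7 ≤ (6 * 6 ^ 7) * L ^ 7 := by
        calc 6 * (1 + (n0 : ℝ)) ^ 7 ≤ 6 * (6 * L) ^ 7 := by gcongr
          _ = _ := by ring
      have e1 : (6 * 6 ^ 7) * L ^ 7 * (8 * X / L ^ B') ≤ (1 / 4) * (X / L ^ A) := by
        calc (6 * 6 ^ 7) * L ^ 7 * (8 * X / L ^ B') = ((6 * 6 ^ 7 * 8) / L) * (X / L ^ A) := by
              rw [hB', pow_add]
              field_simp
          _ ≤ (1 / 4) * (X / L ^ A) := by
              apply mul_le_mul_of_nonneg_right _ hXA.le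
              rw [div_le_iff₀ hL0]
              linarith
      have e2 : (6 * 6 ^ 7) * L ^ 7 * (24 * X ^ (31 / 32 : ℝ)) ≤ (1 / 4) * (X / L ^ A) := by
        calc (6 * 6 ^ 7) * L ^ 7 * (24 * X ^ (31 / 32 : ℝ)) =
            (1 / 4) * (((4 * (6 * 6 ^ 7 * 24)) * L ^ (7 + A)) / X ^ (1 / 32 : ℝ)) * (X / L ^ A) := by
              rw [hXd', pow_add]
              field_simp
          _ ≤ (1 / 4) * 1 * (X / L ^ A) := by
              gcongr
              rw [div_le_one hXd0]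
              exact h6
          _ = _ := by ring
      calc 6 * (1 + (n0 : ℝ)) ^ 7 * (8 * X / L ^ B' + 24 * X ^ (31 / 32 : ℝ)) ≤
          ((6 * 6 ^ 7) * L ^ 7) * (8 * X / L ^ B' + 24 * X ^ (31 / 32 : ℝ)) := by gcongr
        _ = (6 * 6 ^ 7) * L ^ 7 * (8 * X / L ^ B') + (6 * 6 ^ 7) * L ^ 7 * (24 * X ^ (31 / 32 : ℝ)) := by ring
        _ ≤ _ := by linarith
    linarith
  rw [eventually_atTop] at ev
  exact ev

end Pool.Agent.K7.H51.PS
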