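import Mathlib
import Pool.Agent.K7.H51.PS.Mw
import Pool.Agent.K7.H51.PS.Nz

set_option autoImplicit false

/-! The bad moduli. -/

namespace Pool.Agent.K7.H51.PS

open Finset Filter Topology
open Pool.Agent.H398R2.BV (Prim card_prim_le)
open Pool.Agent.H410R2 (psiLog SiegelWalfisz)

/-- the contribution of one conductor -/
noncomputable def wF (X : ℝ) (f : ℕ) : ℝ := ((f : ℝ) ^ (5 / 8 : ℝ) / (f.totient : ℝ)) * ∑ ψ ∈ Prim f, mx X f ψ

lemma wF_nonneg (X : ℝ) (f : ℕ) : 0 ≤ wF X f :=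
  mul_nonneg (by positivity) (sum_nonneg fun ψ _ => mx_nonneg X f ψ)

/-- the contribution of the conductors which are multiples of `g` -/
noncomputable def wG (X : ℝ) (Q g : ℕ) : ℝ := Real.sqrt g * ∑ f ∈ (Icc 2 Q).filter (fun f => g ∣ f), wF X f

/-- the contribution for one discriminant -/
noncomputable def wD (X : ℝ) (Q : ℕ) (D : ℤ) : ℝ := ∑ f ∈ Icc 2 Q, Real.sqrt (Int.gcd D f) * wF X f

lemma wG_sum : ∃ C : ℝ, 0 < C ∧ ∀ (X : ℝ) (Q : ℕ), ∑ g ∈ Icc 1 Q, wG X Q g / g ≤ C * wM X Q := by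
  obtain ⟨C, hC, hd⟩ := Pool.Agent.Helper112.divisor_bound (1 / 8) (by norm_num)
  refine ⟨C, hC, fun X Q => ?_⟩
  have h1 : ∑ g ∈ Icc 1 Q, wG X Q g / g = ∑ f ∈ Icc 2 Q, wF X f * ∑ g ∈ (Icc 1 Q).filter (fun g => g ∣ f), Real.sqrt g / g := by
    unfold wG
    have e : ∀ g ∈ Icc 1 Q, Real.sqrt g * (∑ f ∈ (Icc 2 Q).filter (fun f => g ∣ f), wF X f) / g =
        ∑ f ∈ Icc 2 Q, if g ∣ f then wF X f * (Real.sqrt g / g) else 0 := by
      intro g _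
      rw [← sum_filter, mul_div_assoc, mul_comm, sum_div, sum_mul]
      apply sum_congr rfl
      intro f _
      ring
    rw [sum_congr rfl e, sum_comm]
    apply sum_congr rfl
    intro f _
    rw [mul_sum, ← sum_filter]
  rw [h1]
  unfold wM
  rw [mul_sum]
  apply sum_le_sum
  intro f hf
  rw [mem_Icc] at hf
  have hf0 : 0 < f := by omega
  have hf0r : (0 : ℝ) < f := by exact_mod_cast hf0
  have h2 : ∑ g ∈ (Icc 1 Q).filter (fun g => g ∣ f), Real.sqrt g / g ≤ C * (f : ℝ) ^ (1 / 8 : ℝ) := by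
    refine le_trans ?_ (hd f hf0)
    have h3 : ∀ g ∈ (Icc 1 Q).filter (fun g => g ∣ f), Real.sqrt g / g ≤ 1 := by
      intro g hg
      rw [mem_filter, mem_Icc] at hg
      have hg0 : (0 : ℝ) < g := by exact_mod_cast hg.1.1
      have hg1 : (1 : ℝ) ≤ g := by exact_mod_cast hg.1.1
      rw [div_le_one hg0, Real.sqrt_le_left hg0.le]
      exact le_self_pow₀ hg1 (by norm_num)
    refine (sum_le_sum h3).trans ?_
    rw [sum_const, nsmul_eq_mul, mul_one]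
    have h4 : (Icc 1 Q).filter (fun g => g ∣ f) ⊆ f.divisors := by
      intro g hg
      rw [mem_filter] at hg
      rw [Nat.mem_divisors]
      exact ⟨hg.2, hf0.ne'⟩
    exact_mod_cast card_le_card h4
  refine (mul_le_mul_of_nonneg_left h2 (wF_nonneg X f)).trans (le_of_eq ?_)
  unfold wF
  have h3 : (f : ℝ) ^ (3 / 4 : ℝ) = (f : ℝ) ^ (5 / 8 : ℝ) * (f : ℝ) ^ (1 / 8 : ℝ) := by
    rw [← Real.rpow_add hf0r]
    norm_num
  rw [h3]
  ring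

lemma wD_le (X : ℝ) (Q : ℕ) (D : ℤ) : wD X Q D ≤ ∑ g ∈ (Icc 1 Q).filter (fun g : ℕ => (g : ℤ) ∣ D), wG X Q g := by
  unfold wD wG
  have e : ∀ g ∈ (Icc 1 Q).filter (fun g : ℕ => (g : ℤ) ∣ D), Real.sqrt g * (∑ f ∈ (Icc 2 Q).filter (fun f => g ∣ f), wF X f) =
      ∑ f ∈ Icc 2 Q, if g ∣ f then Real.sqrt g * wF X f else 0 := by
    intro g _
    rw [← sum_filter, mul_sum]
  rw [sum_congr rfl e, sum_comm]
  apply sum_le_sum
  intro f hf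
  rw [mem_Icc] at hf
  have hg : Int.gcd D f ∈ (Icc 1 Q).filter (fun g : ℕ => (g : ℤ) ∣ D) := by
    rw [mem_filter, mem_Icc]
    have h1 : 0 < Int.gcd D f := Int.gcd_pos_of_ne_zero_right _ (by exact_mod_cast (by omega : f ≠ 0))
    have h2 : Int.gcd D f ∣ f := by exact_mod_cast Int.gcd_dvd_right D (f : ℤ)
    exact ⟨⟨h1, (Nat.le_of_dvd (by omega) h2).trans hf.2⟩, Int.gcd_dvd_left _ _⟩
  have h1 := single_le_sum (f := fun g : ℕ => if g ∣ f then Real.sqrt g * wF X f else 0)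
    (s := (Icc 1 Q).filter (fun g : ℕ => (g : ℤ) ∣ D)) (fun g _ => by
      split_ifs
      · exact mul_nonneg (Real.sqrt_nonneg _) (wF_nonneg X f)
      · exact le_rfl) hg
  rw [if_pos (by exact_mod_cast Int.gcd_dvd_right D (f : ℤ))] at h1
  exact h1

lemma RZ_mx {x X : ℝ} (hx : 1 ≤ x) (hxX : x ≤ X) (f : ℕ) (ψ : DirichletCharacter ℂ f) : ‖RZ x f ψ‖ ≤ 2 * X * mx X f ψ := by
  refine (RZ_norm hx f ψ).trans ?_
  have h0 := mx_nonneg X f ψ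
  have h1 : ∫ t in (1 : ℝ)..x, ‖psiLog t f ψ‖ ≤ ∫ _t in (1 : ℝ)..x, mx X f ψ := by
    apply intervalIntegral.integral_mono_on hx
    · exact ContinuousOn.intervalIntegrable_of_Icc hx (psi_cont f ψ).norm
    · exact intervalIntegrable_const
    · intro t ht
      exact le_mx ht.1 (ht.2.trans hxX) f ψ
  rw [intervalIntegral.integral_const, smul_eq_mul] at h1
  have h2 := le_mx hx hxX f ψ
  have h3 : x * ‖psiLog x f ψ‖ ≤ X * mx X f ψ := mul_le_mul hxX h2 (norm_nonneg _) (by linarith)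
  have h4 : (x - 1) * mx X f ψ ≤ X * mx X f ψ := mul_le_mul_of_nonneg_right (by linarith) h0
  linarith

/-- the nonprincipal part for one constant term -/
theorem NP_bound2 : ∃ C : ℝ, 0 < C ∧ ∀ (a b : ℤ), a ≠ 0 → ∀ (c s G N Q : ℕ) (X : ℝ), 1 ≤ c → 1 ≤ G → 1 ≤ Q → Q ≤ N →
    c + s + G ≤ N → (N : ℝ) ≤ X →
    ‖∑ v ∈ Icc 1 N, ((Fq Q v : ℝ) : ℂ) * (((th G s ((v : ℝ) - c) : ℝ) : ℂ) * ∑ k ∈ Icc 1 Q, mK a b k ((v : ℤ) - (c : ℤ))) -
      (∑ v ∈ Icc 1 N, ((Fq Q v : ℝ) : ℂ) * ((th G s ((v : ℝ) - c) : ℝ) : ℂ)) * ∑ n ∈ Icc 1 Q, (GG (gp a b c) 1 n : ℂ)‖ ≤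
      C * (a : ℝ) ^ 2 * (1 + Real.log Q) ^ 2 * (8 * X / G * wD X Q (b ^ 2 - 4 * a * c) +
        (Q : ℝ) ^ 3 * (2 * Real.sqrt N * Real.log N + 2 * Q)) := by
  obtain ⟨C, hC, hW⟩ := Wd_le
  refine ⟨C, hC, ?_⟩
  intro a b ha c s G N Q X hc hG hQ hQN hN hNX
  have hG0 : (0 : ℝ) < G := by exact_mod_cast hG
  have hN1 : 1 ≤ N := by omega
  obtain ⟨E, hE⟩ : ∃ E, E = 2 * Real.sqrt N * Real.log N + 2 * Q := ⟨_, rfl⟩
  have hE0 : 0 ≤ E := by
    rw [hE]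
    have := Real.log_natCast_nonneg N
    positivity
  have h1 : ∑ v ∈ Icc 1 N, ((Fq Q v : ℝ) : ℂ) * (((th G s ((v : ℝ) - c) : ℝ) : ℂ) * ∑ k ∈ Icc 1 Q, mK a b k ((v : ℤ) - (c : ℤ))) =
      ∑ v ∈ Icc 1 N, ((Fq Q v : ℝ) : ℂ) * (((th G s ((v : ℝ) - c) : ℝ) : ℂ) * ∑ n ∈ Icc 1 Q, (GG (gp a b c) 1 n : ℂ)) +
      ∑ v ∈ Icc 1 N, ((Fq Q v : ℝ) : ℂ) * (((th G s ((v : ℝ) - c) : ℝ) : ℂ) * ∑ f ∈ Icc 2 Q, ∑ ψ ∈ Prim f,
        (starRingEnd ℂ) (ψ (v : ZMod f)) * (Wd a b c ψ f / (f.totient : ℂ) * ∑ n ∈ Icc 1 (Q / f), (GG (gp a b c) f n : ℂ))) := by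
    rw [← sum_add_distrib]
    apply sum_congr rfl
    intro v _
    by_cases hv : v.Prime ∧ Q < v
    · rw [← mul_add, ← mul_add]
      congr 2
      rw [mK_sum Q v (by
        intro k hk
        rw [mem_Icc] at hk
        exact (Nat.Prime.coprime_iff_not_dvd hv.1).2 (fun h => by
          have := Nat.le_of_dvd (by omega) h
          omega))]
      have hI : Icc 1 Q = insert 1 (Icc 2 Q) := by
        ext n
        rw [mem_insert, mem_Icc, mem_Icc]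
        omega
      have hn : (1 : ℕ) ∉ Icc 2 Q := by
        rw [mem_Icc]
        omega
      rw [hI, sum_insert hn, f_one, ← hI]
    · have : Fq Q v = 0 := by
        unfold Fq
        rw [if_neg hv]
      rw [this]
      simp
  have h2 : ∑ v ∈ Icc 1 N, ((Fq Q v : ℝ) : ℂ) * (((th G s ((v : ℝ) - c) : ℝ) : ℂ) * ∑ n ∈ Icc 1 Q, (GG (gp a b c) 1 n : ℂ)) =
      (∑ v ∈ Icc 1 N, ((Fq Q v : ℝ) : ℂ) * ((th G s ((v : ℝ) - c) : ℝ) : ℂ)) * ∑ n ∈ Icc 1 Q, (GG (gp a b c) 1 n : ℂ) := by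
    rw [sum_mul]
    apply sum_congr rfl
    intro v _
    ring
  rw [h1, h2, add_sub_cancel_left]
  have h3 : ∑ v ∈ Icc 1 N, ((Fq Q v : ℝ) : ℂ) * (((th G s ((v : ℝ) - c) : ℝ) : ℂ) * ∑ f ∈ Icc 2 Q, ∑ ψ ∈ Prim f,
        (starRingEnd ℂ) (ψ (v : ZMod f)) * (Wd a b c ψ f / (f.totient : ℂ) * ∑ n ∈ Icc 1 (Q / f), (GG (gp a b c) f n : ℂ))) =
      ∑ f ∈ Icc 2 Q, ∑ ψ ∈ Prim f, (Wd a b c ψ f / (f.totient : ℂ) * ∑ n ∈ Icc 1 (Q / f), (GG (gp a b c) f n : ℂ)) *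
        ∑ v ∈ Icc 1 N, ((Fq Q v : ℝ) : ℂ) * (starRingEnd ℂ) (ψ (v : ZMod f)) * ((th G s ((v : ℝ) - c) : ℝ) : ℂ) := by
    simp_rw [mul_sum (Icc 2 Q), mul_sum (Prim _)]
    rw [sum_comm]
    apply sum_congr rfl
    intro f _
    rw [sum_comm]
    apply sum_congr rfl
    intro ψ _
    rw [mul_sum (Icc 1 N)]
    apply sum_congr rfl
    intro v _
    ring
  rw [h3]
  refine (norm_sum_le _ _).trans ?_
  have h4 : ∀ f ∈ Icc 2 Q, ‖∑ ψ ∈ Prim f, (Wd a b c ψ f / (f.totient : ℂ) * ∑ n ∈ Icc 1 (Q / f), (GG (gp a b c) f n : ℂ)) *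
        ∑ v ∈ Icc 1 N, ((Fq Q v : ℝ) : ℂ) * (starRingEnd ℂ) (ψ (v : ZMod f)) * ((th G s ((v : ℝ) - c) : ℝ) : ℂ)‖ ≤
      C * (a : ℝ) ^ 2 * (1 + Real.log Q) ^ 2 * (8 * X / G * (Real.sqrt (Int.gcd (b ^ 2 - 4 * a * c) f) * wF X f) + (Q : ℝ) ^ 2 * E) := by
    intro f hf
    have hf' := mem_Icc.1 hf
    have hf0 : 0 < f := by omega
    have hf1 : 1 ≤ f := hf0
    have hφ : (0 : ℝ) < f.totient := by exact_mod_cast Nat.totient_pos.2 hf0
    obtain ⟨g, hgd⟩ : ∃ g : ℝ, g = (Int.gcd (b ^ 2 - 4 * a * c) f : ℝ) := ⟨_, rfl⟩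
    have hg0 : 0 ≤ g := by rw [hgd]; exact Nat.cast_nonneg _
    have hgf : g ≤ f := by
      rw [hgd]
      have h2 : Int.gcd (b ^ 2 - 4 * a * (c : ℤ)) f ∣ f := by
        have h3 := Int.gcd_dvd_right (b ^ 2 - 4 * a * (c : ℤ)) (f : ℤ)
        exact_mod_cast h3
      exact_mod_cast Nat.le_of_dvd hf0 h2
    rw [← hgd]
    have h40 : ∀ ψ ∈ Prim f, ‖(Wd a b c ψ f / (f.totient : ℂ) * ∑ n ∈ Icc 1 (Q / f), (GG (gp a b c) f n : ℂ)) *
        ∑ v ∈ Icc 1 N, ((Fq Q v : ℝ) : ℂ) * (starRingEnd ℂ) (ψ (v : ZMod f)) * ((th G s ((v : ℝ) - c) : ℝ) : ℂ)‖ ≤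
        C * (a : ℝ) ^ 2 * Real.sqrt g * (1 + Real.log Q) ^ 2 * ((f : ℝ) ^ (5 / 8 : ℝ) / (f.totient : ℝ)) * (8 * X / G * mx X f ψ + E) := by
      intro ψ hψ
      rw [norm_mul]
      refine mul_le_mul ?_ ?_ (norm_nonneg _) (by positivity)
      · rw [norm_mul, norm_div, Complex.norm_natCast]
        have h5 := hW a b c ha f hf0 ψ hψ g hg0 (le_of_eq hgd.symm)
        have h6 : ‖∑ n ∈ Icc 1 (Q / f), (GG (gp a b c) f n : ℂ)‖ ≤ |(a : ℝ)| * (1 + Real.log Q) ^ 2 := by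
          refine (norm_sum_le _ _).trans ?_
          refine le_trans (le_of_eq ?_) (GG_sum (b := b) (c := c) ha f (Nat.div_le_self Q f))
          apply sum_congr rfl
          intro n _
          rw [Complex.norm_real, Real.norm_eq_abs]
        have h7 : ‖Wd a b c ψ f‖ / (f.totient : ℝ) ≤ C * |(a : ℝ)| * Real.sqrt g * (f : ℝ) ^ (5 / 8 : ℝ) / (f.totient : ℝ) :=
          div_le_div_of_nonneg_right h5 hφ.le
        calc ‖Wd a b c ψ f‖ / (f.totient : ℝ) * ‖∑ n ∈ Icc 1 (Q / f), (GG (gp a b c) f n : ℂ)‖ ≤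
            (C * |(a : ℝ)| * Real.sqrt g * (f : ℝ) ^ (5 / 8 : ℝ) / (f.totient : ℝ)) * (|(a : ℝ)| * (1 + Real.log Q) ^ 2) := by
              gcongr
          _ = _ := by
            rw [← sq_abs (a : ℝ)]
            ring
      · rw [hE]
        refine (one_char hG hN1 hQN hN f ψ).trans (add_le_add ?_ le_rfl)
        have hr : ∀ x : ℕ, 1 ≤ x → x ≤ N → ‖RZ (x : ℝ) f ψ‖ ≤ 2 * X * mx X f ψ := by
          intro x hx1 hxN
          exact RZ_mx (by exact_mod_cast hx1) (le_trans (by exact_mod_cast hxN) hNX) f ψ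
        have g1 := hr (c + s + G) (by omega) hN
        have g2 := hr (c + s) (by omega) (by omega)
        have g3 := hr (c + G) (by omega) (by omega)
        have g4 := hr c hc (by omega)
        rw [div_mul_eq_mul_div]
        apply div_le_div_of_nonneg_right _ hG0.le
        linarith
    refine (norm_sum_le _ _).trans ((sum_le_sum h40).trans ?_)
    rw [← mul_sum, sum_add_distrib, ← mul_sum]
    have h8 : ((f : ℝ) ^ (5 / 8 : ℝ) / (f.totient : ℝ)) * ∑ _ψ ∈ Prim f, E ≤ Q * E := by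
      have hfQ : (f : ℝ) ≤ Q := by exact_mod_cast hf'.2
      rw [sum_const, nsmul_eq_mul]
      calc ((f : ℝ) ^ (5 / 8 : ℝ) / (f.totient : ℝ)) * (((Prim f).card : ℝ) * E) ≤
          ((f : ℝ) ^ (5 / 8 : ℝ) / (f.totient : ℝ)) * ((f.totient : ℝ) * E) := by
            apply mul_le_mul_of_nonneg_left _ (by positivity)
            exact mul_le_mul_of_nonneg_right (card_prim_le hf1) hE0
        _ = (f : ℝ) ^ (5 / 8 : ℝ) * E := by field_simp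
        _ ≤ Q * E := mul_le_mul_of_nonneg_right ((wt_le hf1).trans hfQ) hE0
    have h9 : Real.sqrt g ≤ Q := by
      have hfQ : (f : ℝ) ≤ Q := by exact_mod_cast hf'.2
      have hf1r : (1 : ℝ) ≤ f := by exact_mod_cast hf1
      refine le_trans ?_ hfQ
      rw [Real.sqrt_le_left (by positivity)]
      exact hgf.trans (le_self_pow₀ hf1r (by norm_num))
    have h10 : 0 ≤ ((f : ℝ) ^ (5 / 8 : ℝ) / (f.totient : ℝ)) * ∑ _ψ ∈ Prim f, E :=
      mul_nonneg (by positivity) (sum_nonneg fun _ _ => hE0)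
    calc C * (a : ℝ) ^ 2 * Real.sqrt g * (1 + Real.log Q) ^ 2 * ((f : ℝ) ^ (5 / 8 : ℝ) / (f.totient : ℝ)) *
          (8 * X / G * ∑ ψ ∈ Prim f, mx X f ψ + ∑ _ψ ∈ Prim f, E) =
        C * (a : ℝ) ^ 2 * (1 + Real.log Q) ^ 2 * (8 * X / G * (Real.sqrt g * wF X f) +
          Real.sqrt g * (((f : ℝ) ^ (5 / 8 : ℝ) / (f.totient : ℝ)) * ∑ _ψ ∈ Prim f, E)) := by
          unfold wF
          ring
      _ ≤ C * (a : ℝ) ^ 2 * (1 + Real.log Q) ^ 2 * (8 * X / G * (Real.sqrt g * wF X f) + Q * (Q * E)) := by gcongr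
      _ = _ := by ring
  refine (sum_le_sum h4).trans ?_
  rw [← mul_sum, sum_add_distrib, ← mul_sum]
  apply mul_le_mul_of_nonneg_left _ (by positivity)
  apply add_le_add
  · exact le_rfl
  · rw [sum_const, nsmul_eq_mul, ← hE, Nat.card_Icc]
    have h5 : ((Q + 1 - 2 : ℕ) : ℝ) ≤ Q := by exact_mod_cast (by omega : Q + 1 - 2 ≤ Q)
    calc ((Q + 1 - 2 : ℕ) : ℝ) * ((Q : ℝ) ^ 2 * E) ≤ Q * ((Q : ℝ) ^ 2 * E) := by gcongr
      _ = _ := by ring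

end Pool.Agent.K7.H51.PS
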